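import Mathlib

set_option autoImplicit false

/-!
Jordan basis of a nilpotent endomorphism of a finite-dimensional vector space.
-/

namespace Pool.Agent.P166ae0

open Submodule

namespace JordanAux

variable {K V : Type*} [Field K] [AddCommGroup V] [Module K V]

/-- The family of vectors of Jordan strings. -/
def fam (D : V →ₗ[K] V) {ι : Type} (m : ι → ℕ) (v : ι → V) : (Σ k : ι, Fin (m k)) → V :=
  fun x => (D ^ (x.2 : ℕ)) (v x.1)

/-- Extension of string lengths to one more string. -/
def extm {ι : Type} (m0 : ℕ) (m : ι → ℕ) : Option ι → ℕ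
  | none => m0
  | some k => m k

/-- Extension of generators to one more string. -/
def extv {ι : Type} (v0 : V) (v : ι → V) : Option ι → V
  | none => v0
  | some k => v k

/-- Splitting off the new string. -/
def spl {ι : Type} (m0 : ℕ) (m : ι → ℕ) :
    (Σ k : Option ι, Fin (extm m0 m k)) → Fin m0 ⊕ (Σ k : ι, Fin (m k))
  | ⟨none, i⟩ => Sum.inl i
  | ⟨some k, i⟩ => Sum.inr ⟨k, i⟩

lemma spl_injective {ι : Type} (m0 : ℕ) (m : ι → ℕ) : Function.Injective (spl m0 m) := by
  rintro ⟨_ | k, i⟩ ⟨_ | l, j⟩ h
  · simp only [spl, Sum.inl.injEq] at h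
    rw [h]
  · simp [spl] at h
  · simp [spl] at h
  · simp only [spl, Sum.inr.injEq, Sigma.mk.injEq] at h
    obtain ⟨rfl, h⟩ := h
    rw [eq_of_heq h]

lemma fam_ext (D : V →ₗ[K] V) {ι : Type} (m0 : ℕ) (m : ι → ℕ) (v0 : V) (v : ι → V) :
    fam D (extm m0 m) (extv v0 v) =
      Sum.elim (fun i : Fin m0 => (D ^ (i : ℕ)) v0) (fam D m v) ∘ spl m0 m := by
  funext x
  rcases x with ⟨_ | k, i⟩
  · rfl
  · rfl

lemma pow_zero_of_le (D : V →ₗ[K] V) {m n : ℕ} (h : m ≤ n) {v : V} (hv : (D ^ m) v = 0) :
    (D ^ n) v = 0 := by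
  obtain ⟨k, rfl⟩ := Nat.exists_eq_add_of_le h
  rw [add_comm, pow_add, Module.End.mul_apply, hv, map_zero]

/-- Main induction, on invariant submodules. -/
lemma main [FiniteDimensional K V] (D : V →ₗ[K] V) (p : ℕ) (hD : D ^ p = 0) :
    ∀ (n : ℕ) (W : Submodule K V), (∀ w ∈ W, D w ∈ W) → Module.finrank K W = n →
    ∃ (ι : Type) (_ : Fintype ι) (m : ι → ℕ) (v : ι → V),
      (∀ k, 0 < m k ∧ m k ≤ p ∧ (D ^ (m k)) (v k) = 0) ∧ LinearIndependent K (fam D m v) ∧
      span K (Set.range (fam D m v)) = W := by
  classical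
  intro n
  induction n using Nat.strong_induction_on with
  | _ n ih =>
    intro W hW hn
    have hpowW : ∀ (j : ℕ), ∀ w ∈ W, (D ^ j) w ∈ W := by
      intro j
      induction j with
      | zero => intro w hw; simpa using hw
      | succ j ihj =>
        intro w hw
        rw [pow_succ', Module.End.mul_apply]
        exact hW _ (ihj w hw)
    by_cases hW0 : W = ⊥
    · refine ⟨Empty, inferInstance, fun x => x.elim, fun x => x.elim, fun x => x.elim, ?_, ?_⟩
      · have : IsEmpty (Σ k : Empty, Fin ((fun x : Empty => (x.elim : ℕ)) k)) :=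
          ⟨fun x => x.1.elim⟩
        exact linearIndependent_empty_type
      · rw [hW0]
        rw [Submodule.span_eq_bot]
        rintro x ⟨y, _⟩
        exact y.1.elim
    · -- nilpotency index on `W`
      have hex : ∃ m, ∀ w ∈ W, (D ^ m) w = 0 := ⟨p, fun w _ => by rw [hD]; rfl⟩
      set m := Nat.find hex with hm
      have hm1 : ∀ w ∈ W, (D ^ m) w = 0 := Nat.find_spec hex
      have hmp : m ≤ p := Nat.find_min' hex (fun w _ => by rw [hD]; rfl)
      have hm0 : 0 < m := by
        rw [Nat.pos_iff_ne_zero]
        intro h0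
        apply hW0
        rw [Submodule.eq_bot_iff]
        intro w hw
        have := hm1 w hw
        rw [h0] at this
        simpa using this
      have hm2 : ∃ v ∈ W, (D ^ (m - 1)) v ≠ 0 := by
        have := Nat.find_min hex (m := m - 1) (by omega)
        push Not at this
        exact this
      obtain ⟨v, hvW, hv⟩ := hm2
      obtain ⟨φ, hφ⟩ : ∃ φ : Module.Dual K V, φ ((D ^ (m - 1)) v) ≠ 0 := by
        by_contra hcon
        push Not at hcon
        exact hv ((Module.forall_dual_apply_eq_zero_iff K _).1 hcon)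
      -- the complement
      let W' : Submodule K V := W ⊓ ⨅ j : Fin m, LinearMap.ker (φ.comp (D ^ (j : ℕ)))
      have hW'mem : ∀ w, w ∈ W' ↔ w ∈ W ∧ ∀ j : ℕ, j < m → φ ((D ^ j) w) = 0 := by
        intro w
        simp only [W', Submodule.mem_inf, Submodule.mem_iInf, LinearMap.mem_ker,
          LinearMap.comp_apply]
        constructor
        · rintro ⟨h1, h2⟩
          exact ⟨h1, fun j hj => h2 ⟨j, hj⟩⟩
        · rintro ⟨h1, h2⟩
          exact ⟨h1, fun j => h2 j j.2⟩
      have hW'inv : ∀ w ∈ W', D w ∈ W' := by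
        intro w hw
        rw [hW'mem] at hw ⊢
        refine ⟨hW w hw.1, fun j hj => ?_⟩
        have e : (D ^ j) (D w) = (D ^ (j + 1)) w := by
          rw [pow_succ, Module.End.mul_apply]
        rw [e]
        by_cases hj' : j + 1 < m
        · exact hw.2 _ hj'
        · have : m ≤ j + 1 := by omega
          rw [pow_zero_of_le D this (hm1 w hw.1), map_zero]
      -- the cyclic part
      set C : Submodule K V := span K (Set.range (fun i : Fin m => (D ^ (i : ℕ)) v)) with hC
      have hCW : C ≤ W := by
        rw [hC, Submodule.span_le]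
        rintro x ⟨i, rfl⟩
        exact hpowW _ v hvW
      have hsum : ∀ w ∈ W, ∀ t : ℕ, t ≤ m → ∃ c ∈ C, ∀ j, m - t ≤ j → j < m →
          φ ((D ^ j) (w - c)) = 0 := by
        intro w hw t
        induction t with
        | zero =>
          intro _
          exact ⟨0, C.zero_mem, fun j h1 h2 => by omega⟩
        | succ t iht =>
          intro ht
          obtain ⟨c, hc, hc2⟩ := iht (by omega)
          set a := φ ((D ^ (m - (t + 1))) (w - c)) / φ ((D ^ (m - 1)) v) with ha
          refine ⟨c + a • (D ^ t) v, C.add_mem hc (C.smul_mem _ (subset_span ⟨⟨t, by omega⟩, rfl⟩)),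
            fun j h1 h2 => ?_⟩
          have e : (D ^ j) (w - (c + a • (D ^ t) v)) =
              (D ^ j) (w - c) - a • (D ^ (j + t)) v := by
            rw [pow_add, Module.End.mul_apply, sub_add_eq_sub_sub, map_sub (D ^ j) (w - c),
              map_smul]
          rw [e, map_sub, map_smul, smul_eq_mul]
          by_cases hj : m - t ≤ j
          · rw [hc2 j hj h2, pow_zero_of_le D (by omega : m ≤ j + t) (hm1 v hvW)]
            simp
          · have hj' : j = m - (t + 1) := by omega
            have hj2 : m - (t + 1) + t = m - 1 := by omega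
            rw [hj', hj2, ha, div_mul_cancel₀ _ hφ, sub_self]
      have hsup : C ⊔ W' = W := by
        apply le_antisymm
        · exact sup_le hCW (fun w hw => ((hW'mem w).1 hw).1)
        · intro w hw
          obtain ⟨c, hc, hc2⟩ := hsum w hw m le_rfl
          rw [Submodule.mem_sup]
          refine ⟨c, hc, w - c, ?_, by abel⟩
          rw [hW'mem]
          exact ⟨W.sub_mem hw (hCW hc), fun j hj => hc2 j (by omega) hj⟩
      -- linear independence of the string modulo `W'`
      have hkey : ∀ a : Fin m → K, (∑ i, a i • (D ^ (i : ℕ)) v) ∈ W' → ∀ i, a i = 0 := by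
        intro a ha
        by_contra hcon
        push Not at hcon
        have hne : (Finset.univ.filter (fun i : Fin m => a i ≠ 0)).Nonempty := by
          obtain ⟨i, hi⟩ := hcon
          exact ⟨i, by simp [hi]⟩
        set i0 := (Finset.univ.filter (fun i : Fin m => a i ≠ 0)).min' hne with hi0
        have hi0mem := Finset.min'_mem _ hne
        rw [← hi0] at hi0mem
        have hai0 : a i0 ≠ 0 := by simpa using hi0mem
        have hmin : ∀ i : Fin m, i < i0 → a i = 0 := by
          intro i hi
          by_contra h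
          have := Finset.min'_le _ i (by simp [h] : i ∈ Finset.univ.filter (fun i : Fin m => a i ≠ 0))
          rw [← hi0] at this
          exact absurd hi (not_lt.2 this)
        have h0 := ((hW'mem _).1 ha).2 (m - 1 - i0) (by omega)
        rw [map_sum, map_sum, Finset.sum_eq_single i0] at h0
        · rw [map_smul, map_smul, smul_eq_mul, ← Module.End.mul_apply, ← pow_add] at h0
          have e : m - 1 - (i0 : ℕ) + i0 = m - 1 := by
            have := i0.2
            omega
          rw [e] at h0
          rcases mul_eq_zero.1 h0 with h | h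
          · exact hai0 h
          · exact hφ h
        · intro i _ hi
          rw [map_smul, map_smul, ← Module.End.mul_apply, ← pow_add]
          rcases lt_or_gt_of_ne hi with h | h
          · rw [hmin i h, zero_smul]
          · have hlt : (i0 : ℕ) < i := h
            have := i.2
            rw [pow_zero_of_le D (by omega : m ≤ m - 1 - (i0 : ℕ) + i) (hm1 v hvW), map_zero,
              smul_zero]
        · intro h; exact absurd (Finset.mem_univ _) h
      have hli : LinearIndependent K (fun i : Fin m => (D ^ (i : ℕ)) v) := by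
        rw [Fintype.linearIndependent_iff]
        intro a ha
        exact hkey a (by rw [ha]; exact W'.zero_mem)
      have hdisj : Disjoint C W' := by
        rw [Submodule.disjoint_def]
        intro x hx hx'
        rw [hC, Submodule.mem_span_range_iff_exists_fun] at hx
        obtain ⟨a, rfl⟩ := hx
        have := hkey a hx'
        simp [this]
      -- dimension drops
      have hlt : Module.finrank K W' < n := by
        rw [← hn]
        apply Submodule.finrank_lt_finrank_of_lt
        refine lt_of_le_of_ne (fun w hw => ((hW'mem w).1 hw).1) ?_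
        intro heq
        have hvC : v ∈ C := by
          have := subset_span (R := K) (s := Set.range (fun i : Fin m => (D ^ (i : ℕ)) v))
            ⟨⟨0, hm0⟩, rfl⟩
          simpa using this
        have hvW' : v ∈ W' := by rw [heq]; exact hvW
        have : v = 0 := (Submodule.disjoint_def.1 hdisj) v hvC hvW'
        apply hv
        rw [this, map_zero]
      obtain ⟨ι, hι, mm, vv, h1, h2, h3⟩ := ih _ hlt W' hW'inv rfl
      refine ⟨Option ι, inferInstance, extm m mm, extv v vv, ?_, ?_, ?_⟩
      · rintro (_ | k)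
        · exact ⟨hm0, hmp, hm1 v hvW⟩
        · exact h1 k
      · rw [fam_ext]
        refine LinearIndependent.comp ?_ _ (spl_injective m mm)
        refine LinearIndependent.sum_type hli h2 ?_
        rw [h3]
        exact hdisj
      · rw [fam_ext]
        have hsurj : Function.Surjective (spl m mm) := by
          rintro (i | ⟨k, i⟩)
          · exact ⟨⟨none, i⟩, rfl⟩
          · exact ⟨⟨some k, i⟩, rfl⟩
        rw [hsurj.range_comp, Set.Sum.elim_range, Submodule.span_union, h3]
        exact hsup

end JordanAux

open JordanAux in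
/-- Every nilpotent endomorphism of a finite-dimensional vector space has a Jordan basis. -/
theorem exists_jordan_basis {K V : Type*} [Field K] [AddCommGroup V] [Module K V]
    [FiniteDimensional K V] (D : V →ₗ[K] V) (p : ℕ) (hD : D ^ p = 0) :
    ∃ (r : ℕ) (m : Fin r → ℕ) (b : Module.Basis (Σ k : Fin r, Fin (m k)) K V),
      (∀ k, 0 < m k ∧ m k ≤ p) ∧
      ∀ (k : Fin r) (i : Fin (m k)),
        D (b ⟨k, i⟩) = if h : (i : ℕ) + 1 < m k then b ⟨k, ⟨(i : ℕ) + 1, h⟩⟩ else 0 := by
  classical
  obtain ⟨ι, hι, mm, vv, h1, h2, h3⟩ := JordanAux.main D p hD _ (⊤ : Submodule K V)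
    (fun _ _ => Submodule.mem_top) rfl
  set ε := Fintype.equivFin ι
  set m : Fin (Fintype.card ι) → ℕ := fun k => mm (ε.symm k) with hm
  set v : Fin (Fintype.card ι) → V := fun k => vv (ε.symm k) with hv
  let τ : (Σ k : Fin (Fintype.card ι), Fin (m k)) → (Σ k : ι, Fin (mm k)) :=
    fun x => ⟨ε.symm x.1, x.2⟩
  have hτinj : Function.Injective τ := by
    rintro ⟨k, i⟩ ⟨l, j⟩ h
    simp only [τ, Sigma.mk.injEq, EmbeddingLike.apply_eq_iff_eq] at h
    obtain ⟨rfl, h⟩ := h
    rw [eq_of_heq h]
  have hτsurj : Function.Surjective τ := by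
    rintro ⟨k, i⟩
    obtain ⟨l, rfl⟩ := ε.symm.surjective k
    exact ⟨⟨l, i⟩, rfl⟩
  have hfam : fam D m v = fam D mm vv ∘ τ := rfl
  have hli : LinearIndependent K (fam D m v) := by
    rw [hfam]
    exact h2.comp _ hτinj
  have hsp : ⊤ ≤ span K (Set.range (fam D m v)) := by
    rw [hfam, hτsurj.range_comp, h3]
  refine ⟨Fintype.card ι, m, Module.Basis.mk hli hsp, fun k => ⟨(h1 _).1, (h1 _).2.1⟩, ?_⟩
  intro k i
  rw [Module.Basis.mk_apply]
  have e : D (fam D m v ⟨k, i⟩) = (D ^ ((i : ℕ) + 1)) (v k) := by
    simp only [fam]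
    rw [pow_succ', Module.End.mul_apply]
  rw [e]
  split_ifs with h
  · rw [Module.Basis.mk_apply]
    rfl
  · have hle : mm (ε.symm k) ≤ (i : ℕ) + 1 := not_lt.1 h
    exact pow_zero_of_le D hle (h1 _).2.2

end Pool.Agent.P166ae0
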