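import Mathlib

/-!
# Jacobson's formula

In characteristic `p`, if a subspace `V` of an associative algebra is closed under commutators,
then `(x + y)^p - x^p - y^p` lies in `V` for all `x, y ∈ V`.
-/

set_option autoImplicit false

namespace Pool.Agent.P166ae0

open Polynomial

theorem choose_sign {R : Type*} [Ring R] {p : ℕ} (hp : p.Prime) (h0 : (p : R) = 0) :
    ∀ k : ℕ, k ≤ p - 1 → (((p - 1).choose k : ℕ) : R) * (-1) ^ k = 1 := by
  intro k
  induction k with
  | zero => intro _; simp
  | succ k ih =>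
    intro hk
    have h1 : p.choose (k + 1) = (p - 1).choose k + (p - 1).choose (k + 1) := by
      conv_lhs => rw [← Nat.sub_add_cancel hp.one_le]
      rw [Nat.choose_succ_succ]
    have h2 : ((p.choose (k + 1) : ℕ) : R) = 0 := by
      obtain ⟨c, hc⟩ := hp.dvd_choose_self (Nat.succ_ne_zero k)
        (by have := hp.one_le; omega : k + 1 < p)
      rw [hc, Nat.cast_mul, h0, zero_mul]
    rw [h1, Nat.cast_add] at h2
    have h3 : (((p - 1).choose (k + 1) : ℕ) : R) = -(((p - 1).choose k : ℕ) : R) :=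
      eq_neg_of_add_eq_zero_right h2
    rw [h3, pow_succ, mul_neg, mul_neg, neg_mul, neg_neg, mul_one]
    exact ih (by omega)

theorem commute_sub_pow {R : Type*} [Ring R] {p : ℕ} (hp : p.Prime) (h0 : (p : R) = 0) {a b : R}
    (hab : Commute a b) :
    (a - b) ^ (p - 1) = ∑ j ∈ Finset.range p, a ^ j * b ^ (p - 1 - j) := by
  have h1 : Commute a (-b) := hab.neg_right
  rw [sub_eq_add_neg, h1.add_pow, Nat.sub_add_cancel hp.one_le]
  apply Finset.sum_congr rfl
  intro j hj
  have hj' : j ≤ p - 1 := by have := Finset.mem_range.1 hj; omega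
  rw [neg_pow, ← Nat.choose_symm hj']
  have h2 := choose_sign hp h0 (p - 1 - j) (Nat.sub_le _ _)
  have hc : Commute ((((p - 1).choose (p - 1 - j) : ℕ)) : R) (b ^ (p - 1 - j)) :=
    Nat.cast_commute _ _
  have hc2 : Commute ((((p - 1).choose (p - 1 - j) : ℕ)) : R) ((-1) ^ (p - 1 - j)) :=
    Nat.cast_commute _ _
  rw [mul_assoc, mul_assoc, ← hc.eq, ← mul_assoc ((-1) ^ (p - 1 - j)), ← hc2.eq, h2, one_mul]

theorem derivative_pow_nc {A : Type*} [Ring A] (g : A[X]) (m : ℕ) :
    derivative (g ^ m) = ∑ j ∈ Finset.range m, g ^ j * derivative g * g ^ (m - 1 - j) := by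
  induction m with
  | zero => simp
  | succ m ih =>
    rw [pow_succ, derivative_mul, ih, Finset.sum_range_succ, Finset.sum_mul]
    congr 1
    · apply Finset.sum_congr rfl
      intro j hj
      have hj' := Finset.mem_range.1 hj
      rw [mul_assoc, ← pow_succ]
      congr 2
      omega
    · simp

theorem end_mul_apply {M : Type*} [AddCommGroup M] (f g : AddMonoid.End M) (x : M) :
    (f * g) x = f (g x) := rfl

theorem jacobson {K : Type*} [Field K] (p : ℕ) [Fact p.Prime] [CharP K p]
    {A : Type*} [Ring A] [Algebra K A] (V : Submodule K A)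
    (hV : ∀ x ∈ V, ∀ y ∈ V, x * y - y * x ∈ V) (x y : A) (hx : x ∈ V) (hy : y ∈ V) :
    (x + y) ^ p - x ^ p - y ^ p ∈ V := by
  have hp : p.Prime := Fact.out
  obtain ⟨g, hg⟩ : ∃ g : A[X], g = C y + X * C x := ⟨_, rfl⟩
  have hg0 : g.coeff 0 = y := by rw [hg]; simp
  have hg1 : g.coeff 1 = x := by rw [hg]; simp
  have hgn : ∀ n, 2 ≤ n → g.coeff n = 0 := by
    intro n hn
    obtain ⟨k, rfl⟩ : ∃ k, n = k + 2 := ⟨n - 2, by omega⟩
    rw [hg, coeff_add, coeff_C, coeff_X_mul, coeff_C]
    simp
  have hdeg : g.natDegree ≤ 1 := by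
    rw [natDegree_le_iff_coeff_eq_zero]
    intro n hn
    exact hgn n (by omega)
  have hgV : ∀ n, g.coeff n ∈ V := by
    intro n
    rcases n with _ | _ | n
    · rw [hg0]; exact hy
    · rw [hg1]; exact hx
    · rw [hgn _ (by omega)]; exact V.zero_mem
  -- polynomials with coefficients in `V` are closed under `ad g`
  have had : ∀ h : A[X], (∀ n, h.coeff n ∈ V) → ∀ n, (g * h - h * g).coeff n ∈ V := by
    intro h hh n
    have e1 : (h * g).coeff n = ∑ q ∈ Finset.HasAntidiagonal.antidiagonal n, h.coeff q.2 * g.coeff q.1 := by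
      rw [coeff_mul, ← Finset.Nat.sum_antidiagonal_swap]
      rfl
    rw [coeff_sub, coeff_mul, e1, ← Finset.sum_sub_distrib]
    exact V.sum_mem fun q _ => hV _ (hgV _) _ (hh _)
  obtain ⟨L, hL⟩ : ∃ L : AddMonoid.End A[X], L = AddMonoidHom.mulLeft g := ⟨_, rfl⟩
  obtain ⟨R, hR⟩ : ∃ R : AddMonoid.End A[X], R = AddMonoidHom.mulRight g := ⟨_, rfl⟩
  have hLR : Commute L R := by
    ext1 h
    rw [hL, hR]
    change g * (h * g) = g * h * g
    rw [mul_assoc]
  have hLp : ∀ k (h : A[X]), (L ^ k) h = g ^ k * h := by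
    intro k
    induction k with
    | zero => intro h; simp
    | succ k ih =>
      intro h
      rw [pow_succ, end_mul_apply, ih, hL, pow_succ, mul_assoc]
      rfl
  have hRp : ∀ k (h : A[X]), (R ^ k) h = h * g ^ k := by
    intro k
    induction k with
    | zero => intro h; simp
    | succ k ih =>
      intro h
      rw [pow_succ, end_mul_apply, ih, hR, pow_succ', ← mul_assoc]
      rfl
  have hpA : (p : A) = 0 := by
    have := congrArg (algebraMap K A) (CharP.cast_eq_zero K p)
    rwa [map_natCast, map_zero] at this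
  have hpE : (p : AddMonoid.End A[X]) = 0 := by
    ext1 h
    change p • h = 0
    rw [nsmul_eq_mul, ← map_natCast (C : A →+* A[X]), hpA, map_zero, zero_mul]
  have hadp : ∀ k n, (((L - R) ^ k) (C x)).coeff n ∈ V := by
    intro k
    induction k with
    | zero =>
      intro n
      change (C x).coeff n ∈ V
      rw [coeff_C]
      split_ifs
      · exact hx
      · exact V.zero_mem
    | succ k ih =>
      intro n
      rw [pow_succ', end_mul_apply]
      have := had _ ih n
      rw [hL, hR]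
      rw [hL, hR] at this
      exact this
  have hder : derivative (g ^ p) = ((L - R) ^ (p - 1)) (C x) := by
    have hdg : derivative g = C x := by
      rw [hg]; simp
    rw [derivative_pow_nc, hdg, commute_sub_pow hp hpE hLR]
    have : (∑ j ∈ Finset.range p, L ^ j * R ^ (p - 1 - j) : AddMonoid.End A[X]) (C x) =
        ∑ j ∈ Finset.range p, (L ^ j * R ^ (p - 1 - j) : AddMonoid.End A[X]) (C x) :=
      AddMonoidHom.finsetSum_apply _ _ _
    rw [this]
    apply Finset.sum_congr rfl
    intro j _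
    rw [end_mul_apply, hRp, hLp, mul_assoc]
  have hcoef : ∀ i, 1 ≤ i → i < p → (g ^ p).coeff i ∈ V := by
    intro i hi hip
    obtain ⟨k, rfl⟩ : ∃ k, i = k + 1 := ⟨i - 1, by omega⟩
    have h1 := hadp (p - 1) k
    rw [← hder, coeff_derivative] at h1
    have hne : ((k + 1 : ℕ) : K) ≠ 0 := by
      rw [Ne, CharP.cast_eq_zero_iff K p]
      exact Nat.not_dvd_of_pos_of_lt (by omega) hip
    have h2 : (g ^ p).coeff (k + 1) = ((k + 1 : ℕ) : K)⁻¹ • ((g ^ p).coeff (k + 1) * (k + 1)) := by
      have h3 : (g ^ p).coeff (k + 1) * ((k : A) + 1) = ((k + 1 : ℕ) : K) •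
          (g ^ p).coeff (k + 1) := by
        rw [Nat.cast_smul_eq_nsmul, nsmul_eq_mul]
        push_cast
        rw [← Nat.cast_succ, ← (Nat.cast_commute (k + 1) _).eq]
      rw [h3, smul_smul, inv_mul_cancel₀ hne, one_smul]
    rw [h2]
    exact V.smul_mem _ h1
  -- evaluation at `1`
  have hev : (x + y) ^ p = ∑ i ∈ Finset.range (p + 1), (g ^ p).coeff i := by
    have h1 : ∀ q : A[X], eval₂RingHom' (RingHom.id A) 1 (fun a => Commute.one_right _) q =
        q.eval 1 := fun q => rfl
    have h2 : (g ^ p).eval 1 = (x + y) ^ p := by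
      rw [← h1, map_pow, h1, hg]
      simp [add_comm]
    rw [← h2, eval_eq_sum_range' (n := p + 1)]
    · simp
    · have := natDegree_pow_le_of_le p hdeg
      omega
  have hc0 : (g ^ p).coeff 0 = y ^ p := by
    rw [← hg0]
    exact map_pow (constantCoeff : A[X] →+* A) g p
  have hcp : (g ^ p).coeff p = x ^ p := by
    have := coeff_pow_of_natDegree_le (m := p) hdeg
    rw [mul_one, hg1] at this
    exact this
  rw [hev, Finset.sum_range_succ, hcp, Finset.range_eq_Ico,
    Finset.sum_eq_sum_Ico_succ_bot hp.pos, hc0]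
  have : y ^ p + ∑ k ∈ Finset.Ico (0 + 1) p, (g ^ p).coeff k + x ^ p - x ^ p - y ^ p =
      ∑ k ∈ Finset.Ico (0 + 1) p, (g ^ p).coeff k := by abel
  rw [this]
  refine V.sum_mem fun k hk => ?_
  have := Finset.mem_Ico.1 hk
  exact hcoef k (by omega) (by omega)

end Pool.Agent.P166ae0
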