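import Mathlib

/-!
# The enveloping algebra, its length filtration and its adjoint action
-/

set_option autoImplicit false
set_option linter.unusedSimpArgs false

namespace Pool.Agent.P166ae0

variable (K L : Type) [Field K] [LieRing L] [LieAlgebra K L]

/-- The defining relations of the enveloping algebra. -/
def URel : TensorAlgebra K L → TensorAlgebra K L → Prop := fun a b =>
  ∃ x y : L, a = TensorAlgebra.ι K x * TensorAlgebra.ι K y
      - TensorAlgebra.ι K y * TensorAlgebra.ι K x ∧ b = TensorAlgebra.ι K ⁅x, y⁆

/-- The enveloping algebra. -/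
abbrev UU : Type := RingQuot (URel K L)

/-- The canonical map from the Lie algebra to its enveloping algebra. -/
noncomputable def jU : L →ₗ[K] UU K L :=
  (RingQuot.mkAlgHom K (URel K L)).toLinearMap ∘ₗ TensorAlgebra.ι K

variable {K L}

theorem jU_apply (x : L) : jU K L x = RingQuot.mkAlgHom K (URel K L) (TensorAlgebra.ι K x) := rfl

theorem jU_lie (x y : L) : jU K L ⁅x, y⁆ = jU K L x * jU K L y - jU K L y * jU K L x := by
  have h := RingQuot.mkAlgHom_rel K (s := URel K L)
    (x := TensorAlgebra.ι K x * TensorAlgebra.ι K y - TensorAlgebra.ι K y * TensorAlgebra.ι K x)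
    (y := TensorAlgebra.ι K ⁅x, y⁆) ⟨x, y, rfl, rfl⟩
  rw [map_sub, map_mul, map_mul] at h
  exact h.symm

section lift

variable {A : Type} [Ring A] [Algebra K A]

/-- The universal property of the enveloping algebra. -/
noncomputable def liftU (φ : L →ₗ[K] A) (h : ∀ x y, φ ⁅x, y⁆ = φ x * φ y - φ y * φ x) :
    UU K L →ₐ[K] A :=
  RingQuot.liftAlgHom K ⟨TensorAlgebra.lift K φ, by
    rintro _ _ ⟨x, y, rfl, rfl⟩
    simp [h]⟩

@[simp]
theorem liftU_jU (φ : L →ₗ[K] A) (h : ∀ x y, φ ⁅x, y⁆ = φ x * φ y - φ y * φ x) (x : L) :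
    liftU φ h (jU K L x) = φ x := by
  simp [liftU, jU_apply]

theorem algHom_ext_U {f g : UU K L →ₐ[K] A} (h : ∀ x, f (jU K L x) = g (jU K L x)) : f = g := by
  apply RingQuot.ringQuot_ext'
  apply TensorAlgebra.hom_ext
  ext x
  simpa [jU_apply] using h x

end lift

/-- A subalgebra of `U` containing the image of `L` is everything. -/
theorem subalgebra_eq_top (B : Subalgebra K (UU K L)) (h : ∀ x, jU K L x ∈ B) (u : UU K L) :
    u ∈ B := by
  let φ : L →ₗ[K] B := (jU K L).codRestrict (Subalgebra.toSubmodule B) h
  have hφv : ∀ x, ((φ x : B) : UU K L) = jU K L x := fun x => rfl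
  have hφ : ∀ x y, φ ⁅x, y⁆ = φ x * φ y - φ y * φ x := by
    intro x y
    apply Subtype.ext
    rw [Subalgebra.coe_sub, Subalgebra.coe_mul, Subalgebra.coe_mul, hφv, hφv, hφv]
    exact jU_lie x y
  have : (B.val.comp (liftU (A := B) φ hφ)) = AlgHom.id K _ := by
    apply algHom_ext_U
    intro x
    rw [AlgHom.comp_apply, liftU_jU]
    exact hφv x
  have h2 := congrArg (fun f => f u) this
  simp only [AlgHom.comp_apply, AlgHom.id_apply] at h2
  rw [← h2]
  exact (liftU (A := B) φ hφ u).2

/-- The product of a list of elements of `L`. -/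
noncomputable def lp (l : List L) : UU K L := (l.map (jU K L)).prod

@[simp] theorem lp_nil : lp (K := K) ([] : List L) = 1 := rfl

@[simp] theorem lp_cons (x : L) (l : List L) : lp (K := K) (x :: l) = jU K L x * lp l := by
  simp [lp]

theorem lp_append (l l' : List L) : lp (K := K) (l ++ l') = lp l * lp l' := by
  simp [lp]

variable (K L)

/-- The filtration of the enveloping algebra: `GG d` is spanned by products of fewer than `d`
elements of `L`. -/
noncomputable def GG (d : ℕ) : Submodule K (UU K L) :=
  Submodule.span K {u | ∃ l : List L, l.length < d ∧ u = lp l}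

variable {K L}

theorem lp_mem (l : List L) {d : ℕ} (h : l.length < d) : lp l ∈ GG K L d :=
  Submodule.subset_span ⟨l, h, rfl⟩

theorem GG_mono {d e : ℕ} (h : d ≤ e) : GG K L d ≤ GG K L e :=
  Submodule.span_mono fun _ ⟨l, hl, hu⟩ => ⟨l, lt_of_lt_of_le hl h, hu⟩

theorem GG_zero : GG K L 0 = ⊥ := by
  rw [GG, Submodule.span_eq_bot]
  rintro x ⟨l, hl, -⟩
  exact absurd hl (Nat.not_lt_zero _)

theorem one_mem_GG : (1 : UU K L) ∈ GG K L 1 := by
  simpa using lp_mem (K := K) ([] : List L) (d := 1) (by simp)

theorem jU_mem_GG (x : L) : jU K L x ∈ GG K L 2 := by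
  simpa using lp_mem (K := K) [x] (d := 2) (by simp)

theorem mul_mem_GG {a b : ℕ} {u v : UU K L} (hu : u ∈ GG K L a) (hv : v ∈ GG K L b) :
    u * v ∈ GG K L (a + b - 1) := by
  induction hu using Submodule.span_induction with
  | mem x hx =>
    obtain ⟨l, hl, rfl⟩ := hx
    induction hv using Submodule.span_induction with
    | mem y hy =>
      obtain ⟨l', hl', rfl⟩ := hy
      rw [← lp_append]
      apply lp_mem
      rw [List.length_append]
      omega
    | zero => simp
    | add y z _ _ hy hz => rw [mul_add]; exact add_mem hy hz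
    | smul c y _ hy => rw [mul_smul_comm]; exact Submodule.smul_mem _ _ hy
  | zero => simp
  | add y z _ _ hy hz => rw [add_mul]; exact add_mem hy hz
  | smul c y _ hy => rw [smul_mul_assoc]; exact Submodule.smul_mem _ _ hy

theorem mul_mem_GG' {a b c : ℕ} {u v : UU K L} (hu : u ∈ GG K L a) (hv : v ∈ GG K L b)
    (h : a + b ≤ c + 1) : u * v ∈ GG K L c :=
  GG_mono (by omega) (mul_mem_GG hu hv)

theorem exists_mem_GG (u : UU K L) : ∃ d, u ∈ GG K L d := by
  let B : Subalgebra K (UU K L) :=
    { carrier := {u | ∃ d, u ∈ GG K L d}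
      mul_mem' := by
        rintro a b ⟨d, hd⟩ ⟨e, he⟩
        exact ⟨_, mul_mem_GG hd he⟩
      one_mem' := ⟨1, one_mem_GG⟩
      add_mem' := by
        rintro a b ⟨d, hd⟩ ⟨e, he⟩
        exact ⟨max d e, add_mem (GG_mono (le_max_left _ _) hd) (GG_mono (le_max_right _ _) he)⟩
      zero_mem' := ⟨0, zero_mem _⟩
      algebraMap_mem' := by
        intro r
        refine ⟨1, ?_⟩
        rw [Algebra.algebraMap_eq_smul_one]
        exact Submodule.smul_mem _ _ one_mem_GG }
  exact subalgebra_eq_top B (fun x => ⟨2, jU_mem_GG x⟩) u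

/-- induction principle: a statement about elements of `U` closed under linear combinations and
holding for products of elements of `L`. -/
theorem U_induction {P : UU K L → Prop} (hl : ∀ l : List L, P (lp l))
    (hadd : ∀ u v, P u → P v → P (u + v)) (hsmul : ∀ (c : K) u, P u → P (c • u)) (u : UU K L) :
    P u := by
  obtain ⟨d, hd⟩ := exists_mem_GG u
  induction hd using Submodule.span_induction with
  | mem x hx => obtain ⟨l, -, rfl⟩ := hx; exact hl l
  | zero => simpa using hsmul 0 _ (hl [])
  | add y z _ _ hy hz => exact hadd _ _ hy hz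
  | smul c y _ hy => exact hsmul _ _ hy

/-- commutator with an element of `L` preserves the filtration -/
theorem comm_mem_GG (x : L) {d : ℕ} {u : UU K L} (hu : u ∈ GG K L d) :
    jU K L x * u - u * jU K L x ∈ GG K L d := by
  induction hu using Submodule.span_induction with
  | mem u hu =>
    obtain ⟨l, hl, rfl⟩ := hu
    have key : ∀ (l : List L), jU K L x * lp l - lp l * jU K L x ∈ GG K L (l.length + 1) := by
      intro l
      induction l with
      | nil => simp
      | cons y l ih =>
        have e : jU K L x * lp (y :: l) - lp (y :: l) * jU K L x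
            = lp (⁅x, y⁆ :: l) + jU K L y * (jU K L x * lp l - lp l * jU K L x) := by
          rw [lp_cons, lp_cons, jU_lie]
          (simp only [mul_add, add_mul, mul_sub, sub_mul, mul_assoc]; try abel)
        rw [e]
        refine add_mem (lp_mem _ (by simp)) ?_
        refine mul_mem_GG' (jU_mem_GG y) ih ?_
        simp
        omega
    exact GG_mono (by omega) (key l)
  | zero => simp
  | add y z _ _ hy hz =>
    have : jU K L x * (y + z) - (y + z) * jU K L x
      = (jU K L x * y - y * jU K L x) + (jU K L x * z - z * jU K L x) := by (simp only [mul_add, add_mul, mul_sub, sub_mul, mul_assoc]; try abel)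
    rw [this]; exact add_mem hy hz
  | smul c y _ hy =>
    have : jU K L x * (c • y) - (c • y) * jU K L x = c • (jU K L x * y - y * jU K L x) := by
      rw [mul_smul_comm, smul_mul_assoc, smul_sub]
    rw [this]; exact Submodule.smul_mem _ _ hy

/-- Permuting a product only changes it by shorter products. -/
theorem lp_perm {l l' : List L} (h : l.Perm l') : lp (K := K) l - lp l' ∈ GG K L l.length := by
  induction h with
  | nil => simp
  | cons x h ih =>
    rename_i l1 l2
    have e : lp (K := K) (x :: l1) - lp (x :: l2) = jU K L x * (lp l1 - lp l2) := by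
      rw [lp_cons, lp_cons]; (simp only [mul_add, add_mul, mul_sub, sub_mul, mul_assoc]; try abel)
    rw [e]
    refine mul_mem_GG' (jU_mem_GG x) ih ?_
    simp
    omega
  | swap x y l =>
    have e : lp (K := K) (y :: x :: l) - lp (x :: y :: l) = lp (⁅y, x⁆ :: l) := by
      simp only [lp_cons, jU_lie]; (simp only [mul_add, add_mul, mul_sub, sub_mul, mul_assoc]; try abel)
    rw [e]
    exact lp_mem _ (by simp)
  | trans h1 h2 ih1 ih2 =>
    rename_i l1 l2 l3
    have e : lp (K := K) l1 - lp l3 = (lp l1 - lp l2) + (lp l2 - lp l3) := by abel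
    rw [e]
    refine add_mem ih1 ?_
    rw [h1.length_eq]
    exact ih2

end Pool.Agent.P166ae0
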