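import Mathlib
import Pool.Agent.Lib.P166ae0.UAlg

/-!
# A model of the enveloping algebra of a linear Lie algebra, and symbols

`T = K[T_ij]`; a matrix `x` acts on sequences of elements of `T` by
`(x f)_n = lin x * f_{n-1} + del x (f_n)`.
-/

set_option autoImplicit false
set_option linter.unusedSimpArgs false

namespace Pool.Agent.P166ae0

open MvPolynomial

variable (K : Type) [Field K] (m : ℕ)

/-- The symbol algebra. -/
abbrev TT : Type := MvPolynomial (Fin m × Fin m) K

/-- The linear form attached to a matrix. -/
noncomputable def lin : Matrix (Fin m) (Fin m) K →ₗ[K] TT K m where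
  toFun x := ∑ q : Fin m × Fin m, x q.1 q.2 • X q
  map_add' x y := by simp [add_smul, Finset.sum_add_distrib]
  map_smul' c x := by simp [Finset.smul_sum, mul_smul]

variable {K m}

theorem lin_apply (x : Matrix (Fin m) (Fin m) K) :
    lin K m x = ∑ q : Fin m × Fin m, x q.1 q.2 • (X q : TT K m) := rfl

theorem lin_single (q : Fin m × Fin m) :
    lin K m (Matrix.single q.1 q.2 1) = X q := by
  rw [lin_apply, Finset.sum_eq_single q]
  · simp
  · rintro ⟨a, b⟩ - hb
    rw [Matrix.single_apply, if_neg, zero_smul]
    rintro ⟨h1, h2⟩
    exact hb (Prod.ext h1.symm h2.symm)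
  · simp

theorem matrix_eq_sum (x : Matrix (Fin m) (Fin m) K) :
    x = ∑ q : Fin m × Fin m, x q.1 q.2 • Matrix.single q.1 q.2 (1 : K) := by
  conv_lhs => rw [Matrix.matrix_eq_sum_single x]
  rw [Fintype.sum_prod_type]
  simp [Matrix.smul_single]

/-- The derivation with `lin y ↦ lin (φ y)`. -/
noncomputable def der (φ : Matrix (Fin m) (Fin m) K →ₗ[K] Matrix (Fin m) (Fin m) K) :
    Derivation K (TT K m) (TT K m) :=
  mkDerivation K (fun q => lin K m (φ (Matrix.single q.1 q.2 1)))

theorem der_lin (φ : Matrix (Fin m) (Fin m) K →ₗ[K] Matrix (Fin m) (Fin m) K)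
    (y : Matrix (Fin m) (Fin m) K) : der φ (lin K m y) = lin K m (φ y) := by
  conv_rhs => rw [matrix_eq_sum y]
  rw [lin_apply]
  simp only [map_sum, map_smul]
  refine Finset.sum_congr rfl fun q _ => ?_
  rw [Derivation.map_smul, der, mkDerivation_X]

theorem der_ext {D D' : Derivation K (TT K m) (TT K m)}
    (h : ∀ y : Matrix (Fin m) (Fin m) K, D (lin K m y) = D' (lin K m y)) : D = D' := by
  apply MvPolynomial.derivation_ext
  intro q
  have := h (Matrix.single q.1 q.2 1)
  rwa [lin_single] at this

/-- left multiplication -/
noncomputable def lmul (x : Matrix (Fin m) (Fin m) K) :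
    Matrix (Fin m) (Fin m) K →ₗ[K] Matrix (Fin m) (Fin m) K := LinearMap.mulLeft K x

/-- commutator -/
noncomputable def cmul (x : Matrix (Fin m) (Fin m) K) :
    Matrix (Fin m) (Fin m) K →ₗ[K] Matrix (Fin m) (Fin m) K :=
  LinearMap.mulLeft K x - LinearMap.mulRight K x

theorem lmul_apply (x y : Matrix (Fin m) (Fin m) K) : lmul x y = x * y := rfl

theorem cmul_apply (x y : Matrix (Fin m) (Fin m) K) : cmul x y = x * y - y * x := rfl

/-- The action of a matrix on sequences. -/
noncomputable def act : Matrix (Fin m) (Fin m) K →ₗ[K] Module.End K (ℕ → TT K m) where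
  toFun x :=
    { toFun := fun f n => (if n = 0 then 0 else lin K m x * f (n - 1)) + der (lmul x) (f n)
      map_add' := by
        intro f g
        funext n
        by_cases h : n = 0
        · simp [h]
        · simp [h, mul_add]; ring
      map_smul' := by
        intro c f
        funext n
        by_cases h : n = 0
        · simp [h]
        · simp [h, mul_smul_comm] }
  map_add' x y := by
    have hd : der (lmul (x + y)) = der (lmul x) + der (lmul y) := by
      apply der_ext
      intro z
      simp [der_lin, lmul_apply, add_mul]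
    ext f n : 2
    by_cases h : n = 0
    · simp [h, hd]
    · simp [h, hd, add_mul]; ring
  map_smul' c x := by
    have hd : der (lmul (c • x)) = c • der (lmul x) := by
      apply der_ext
      intro z
      simp [der_lin, lmul_apply]
    ext f n : 2
    by_cases h : n = 0
    · simp [h, hd]
    · simp [h, hd]

theorem act_zero (x : Matrix (Fin m) (Fin m) K) (f : ℕ → TT K m) :
    act x f 0 = der (lmul x) (f 0) := by
  simp [act]

theorem act_succ (x : Matrix (Fin m) (Fin m) K) (f : ℕ → TT K m) (n : ℕ) :
    act x f (n + 1) = lin K m x * f n + der (lmul x) (f (n + 1)) := by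
  simp [act]

theorem der_comm (x y : Matrix (Fin m) (Fin m) K) (f : TT K m) :
    der (lmul x) (der (lmul y) f) - der (lmul y) (der (lmul x) f)
      = der (lmul (x * y - y * x)) f := by
  have h : ⁅der (lmul x), der (lmul y)⁆ = der (lmul (x * y - y * x)) := by
    apply der_ext
    intro z
    rw [Derivation.commutator_apply, der_lin, der_lin, der_lin, der_lin, der_lin, ← map_sub]
    simp only [lmul_apply]
    congr 1
    rw [sub_mul, mul_assoc, mul_assoc]
  rw [← h, Derivation.commutator_apply]

theorem act_lie (x y : Matrix (Fin m) (Fin m) K) :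
    act (x * y - y * x) = act x * act y - act y * act x := by
  ext f n : 2
  rw [LinearMap.sub_apply, Module.End.mul_apply, Module.End.mul_apply, Pi.sub_apply]
  rcases n with _ | _ | n
  · simp only [act_zero]
    rw [der_comm]
  · simp only [zero_add, act_succ, act_zero]
    rw [← der_comm]
    simp only [act_zero, act_succ, Derivation.leibniz, map_add, smul_eq_mul, der_lin, lmul_apply,
      map_sub]
    ring
  · simp only [act_succ]
    rw [← der_comm]
    simp only [act_zero, act_succ, Derivation.leibniz, map_add, smul_eq_mul, der_lin, lmul_apply,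
      map_sub]
    ring

end Pool.Agent.P166ae0
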