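import Mathlib
import Pool.Agent.Lib.P166ae0.UAlg
import Pool.Agent.Lib.P166ae0.Model

/-!
# Symbols
-/

set_option autoImplicit false
set_option linter.unusedSimpArgs false

namespace Pool.Agent.P166ae0

open MvPolynomial

/-- A faithful matrix representation of a Lie algebra. -/
structure Emb (K L : Type) [Field K] [LieRing L] [LieAlgebra K L] (m : ℕ) where
  /-- the representation -/
  ι : L →ₗ[K] Matrix (Fin m) (Fin m) K
  inj : Function.Injective ι
  lie : ∀ x y, ι ⁅x, y⁆ = ι x * ι y - ι y * ι x

variable {K L : Type} [Field K] [LieRing L] [LieAlgebra K L] {m : ℕ} (E : Emb K L m)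

namespace Emb

/-- The linear form in the symbol algebra attached to an element of `L`. -/
noncomputable def ll : L →ₗ[K] TT K m := lin K m ∘ₗ E.ι

theorem ll_apply (x : L) : E.ll x = lin K m (E.ι x) := rfl

/-- The action of the enveloping algebra on sequences. -/
noncomputable def rho : UU K L →ₐ[K] Module.End K (ℕ → TT K m) :=
  liftU (act ∘ₗ E.ι) (by
    intro x y
    rw [LinearMap.comp_apply, E.lie, act_lie]
    rfl)

theorem rho_jU (x : L) : E.rho (jU K L x) = act (E.ι x) := by
  rw [rho, liftU_jU]; rfl

/-- The vacuum vector. -/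
noncomputable def vac (K : Type) [Field K] (m : ℕ) : ℕ → TT K m := fun n => if n = 0 then 1 else 0

/-- The symbol of degree `d`. -/
noncomputable def sym (d : ℕ) : UU K L →ₗ[K] TT K m :=
  (LinearMap.proj d) ∘ₗ (LinearMap.applyₗ (R := K) (vac K m)) ∘ₗ E.rho.toLinearMap

theorem sym_apply (d : ℕ) (u : UU K L) : E.sym d u = E.rho u (vac K m) d := rfl

theorem rho_lp (l : List L) {e : ℕ} {f : ℕ → TT K m} (hf : ∀ n, e < n → f n = 0) :
    (∀ n, l.length + e < n → E.rho (lp l) f n = 0) ∧
      E.rho (lp l) f (l.length + e) = (l.map E.ll).prod * f e := by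
  induction l with
  | nil => simpa using hf
  | cons x l ih =>
    rw [lp_cons, map_mul, rho_jU]
    simp only [Module.End.mul_apply]
    constructor
    · intro n hn
      obtain ⟨k, rfl⟩ : ∃ k, n = k + 1 := ⟨n - 1, by omega⟩
      rw [act_succ]
      simp only [List.length_cons] at hn
      rw [ih.1 k (by omega), ih.1 (k + 1) (by omega)]
      simp
    · have : (x :: l).length + e = (l.length + e) + 1 := by simp only [List.length_cons]; omega
      rw [this, act_succ, ih.2, ih.1 (l.length + e + 1) (by omega), map_zero, add_zero,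
        List.map_cons, List.prod_cons, mul_assoc, ll_apply]

theorem vac_zero : vac K m 0 = 1 := rfl

theorem vac_pos {n : ℕ} (h : 0 < n) : vac K m n = 0 := by simp [vac, h.ne']

theorem sym_lp (l : List L) : E.sym l.length (lp l) = (l.map E.ll).prod := by
  have := (E.rho_lp l (e := 0) (f := vac K m) (fun n hn => vac_pos hn)).2
  rw [add_zero, vac_zero, mul_one] at this
  exact this

theorem sym_lp_lt (l : List L) {d : ℕ} (h : l.length < d) : E.sym d (lp l) = 0 :=
  (E.rho_lp l (e := 0) (f := vac K m) (fun n hn => vac_pos hn)).1 d (by omega)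

theorem sym_eq_zero {u : UU K L} {d e : ℕ} (h : e ≤ d) (hu : u ∈ GG K L e) : E.sym d u = 0 := by
  induction hu using Submodule.span_induction with
  | mem u hu => obtain ⟨l, hl, rfl⟩ := hu; exact E.sym_lp_lt l (by omega)
  | zero => simp
  | add y z _ _ hy hz => rw [map_add, hy, hz, add_zero]
  | smul c y _ hy => rw [map_smul, hy, smul_zero]

theorem rho_mem {d e : ℕ} {u : UU K L} (hu : u ∈ GG K L (d + 1)) {f : ℕ → TT K m}
    (hf : ∀ n, e < n → f n = 0) :
    (∀ n, d + e < n → E.rho u f n = 0) ∧ E.rho u f (d + e) = E.sym d u * f e := by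
  induction hu using Submodule.span_induction with
  | mem u hu =>
    obtain ⟨l, hl, rfl⟩ := hu
    have h := E.rho_lp l hf
    refine ⟨fun n hn => h.1 n (by omega), ?_⟩
    rcases Nat.lt_or_ge l.length d with hd | hd
    · rw [h.1 _ (by omega), E.sym_lp_lt l hd, zero_mul]
    · have : l.length = d := by omega
      subst this
      rw [h.2, sym_lp]
  | zero => simp
  | add y z _ _ hy hz =>
    refine ⟨fun n hn => ?_, ?_⟩
    · rw [map_add, LinearMap.add_apply, Pi.add_apply, hy.1 n hn, hz.1 n hn, add_zero]
    · rw [map_add, LinearMap.add_apply, Pi.add_apply, hy.2, hz.2, map_add, add_mul]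
  | smul c y _ hy =>
    refine ⟨fun n hn => ?_, ?_⟩
    · rw [map_smul, LinearMap.smul_apply, Pi.smul_apply, hy.1 n hn, smul_zero]
    · rw [map_smul, LinearMap.smul_apply, Pi.smul_apply, hy.2, map_smul, smul_mul_assoc]

theorem sym_mul {d e : ℕ} {u v : UU K L} (hu : u ∈ GG K L (d + 1)) (hv : v ∈ GG K L (e + 1)) :
    E.sym (d + e) (u * v) = E.sym d u * E.sym e v := by
  have h1 : ∀ n, e < n → E.rho v (vac K m) n = 0 := by
    intro n hn
    have := (E.rho_mem hv (e := 0) (f := vac K m) (fun n hn => vac_pos hn)).1 n (by omega)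
    exact this
  have h2 := (E.rho_mem hu h1).2
  rw [sym_apply, map_mul, Module.End.mul_apply, h2]
  rfl

theorem sym_one : E.sym 0 (1 : UU K L) = 1 := by
  have := E.sym_lp ([] : List L)
  simpa using this

theorem sym_jU (x : L) : E.sym 1 (jU K L x) = E.ll x := by
  have := E.sym_lp [x]
  simpa using this

theorem der_ll (x y : L) : der (cmul (E.ι x)) (E.ll y) = E.ll ⁅x, y⁆ := by
  rw [ll_apply, der_lin, cmul_apply, ll_apply, E.lie]

theorem sym_comm (x : L) {d : ℕ} {u : UU K L} (hu : u ∈ GG K L (d + 1)) :
    E.sym d (jU K L x * u - u * jU K L x) = der (cmul (E.ι x)) (E.sym d u) := by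
  induction hu using Submodule.span_induction with
  | mem u hu =>
    obtain ⟨l, hl, rfl⟩ := hu
    have key : ∀ l : List L, E.sym l.length (jU K L x * lp l - lp l * jU K L x)
        = der (cmul (E.ι x)) ((l.map E.ll).prod) := by
      intro l
      induction l with
      | nil => simp
      | cons y l ih =>
        have e : jU K L x * lp (y :: l) - lp (y :: l) * jU K L x
            = lp (⁅x, y⁆ :: l) + jU K L y * (jU K L x * lp l - lp l * jU K L x) := by
          rw [lp_cons, lp_cons, jU_lie]
          simp only [mul_add, add_mul, mul_sub, sub_mul, mul_assoc]; abel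
        rw [e, map_add]
        have h1 : E.sym (y :: l).length (lp (⁅x, y⁆ :: l)) = E.ll ⁅x, y⁆ * (l.map E.ll).prod := by
          have := E.sym_lp (⁅x, y⁆ :: l)
          simpa using this
        have h2 : E.sym (y :: l).length (jU K L y * (jU K L x * lp l - lp l * jU K L x))
            = E.ll y * der (cmul (E.ι x)) ((l.map E.ll).prod) := by
          have h3 := E.sym_mul (d := 1) (e := l.length) (jU_mem_GG y)
            (comm_mem_GG x (lp_mem l (Nat.lt_succ_self _)))
          rw [List.length_cons, add_comm, h3, ih, sym_jU]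
        rw [h1, h2, List.map_cons, List.prod_cons, Derivation.leibniz, der_ll]
        simp only [smul_eq_mul]
        ring
    rcases Nat.lt_or_ge l.length d with hd | hd
    · rw [E.sym_lp_lt l hd, map_zero]
      exact E.sym_eq_zero (le_refl d) (comm_mem_GG x (lp_mem l hd))
    · have : l.length = d := by omega
      subst this
      rw [key, sym_lp]
  | zero => simp
  | add y z _ _ hy hz =>
    have : jU K L x * (y + z) - (y + z) * jU K L x
      = (jU K L x * y - y * jU K L x) + (jU K L x * z - z * jU K L x) := by
      simp only [mul_add, add_mul]; abel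
    rw [this, map_add, hy, hz, map_add, map_add]
  | smul c y _ hy =>
    have : jU K L x * (c • y) - (c • y) * jU K L x = c • (jU K L x * y - y * jU K L x) := by
      rw [mul_smul_comm, smul_mul_assoc, smul_sub]
    rw [this, map_smul, hy, map_smul, Derivation.map_smul]

end Emb

end Pool.Agent.P166ae0
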