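import Mathlib
import Pool.Agent.Lib.P166ae0.Symb

/-!
# The Poincaré–Birkhoff–Witt theorem for linear Lie algebras, in symbol form
-/

set_option autoImplicit false
set_option linter.unusedSimpArgs false

namespace Pool.Agent.P166ae0

open MvPolynomial

/-- Induction over homogeneous polynomials. -/
theorem homog_induction {K σ : Type} [Field K] {d : ℕ} {P : MvPolynomial σ K → Prop}
    (hmon : ∀ α : σ →₀ ℕ, α.degree = d → P (monomial α 1)) (h0 : P 0)
    (hadd : ∀ s t, P s → P t → P (s + t)) (hsmul : ∀ (c : K) s, P s → P (c • s))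
    (s : MvPolynomial σ K) (hs : s.IsHomogeneous d) : P s := by
  rw [s.as_sum]
  refine Finset.sum_induction _ P hadd h0 ?_
  intro α hα
  have : (monomial α (coeff α s) : MvPolynomial σ K) = coeff α s • monomial α 1 := by
    rw [smul_monomial, smul_eq_mul, mul_one]
  rw [this]
  refine hsmul _ _ (hmon _ ?_)
  have h := hs (mem_support_iff.mp hα)
  rwa [Finsupp.degree_eq_weight_one]

variable {K L : Type} [Field K] [LieRing L] [LieAlgebra K L] {m : ℕ} (E : Emb K L m)
variable {σ : Type} (b : Module.Basis σ K L)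

/-- The linear form in the polynomial ring on a basis. -/
noncomputable def lb : L →ₗ[K] MvPolynomial σ K := b.constr K (fun i => X i)

theorem lb_basis (i : σ) : lb b (b i) = X i := by
  simp [lb]

/-- The map from the polynomial ring on a basis to the symbol algebra. -/
noncomputable def Emb.toT : MvPolynomial σ K →ₐ[K] TT K m := aeval (fun i => E.ll (b i))

theorem Emb.toT_X (i : σ) : E.toT b (X i) = E.ll (b i) := by simp [Emb.toT]

theorem Emb.toT_lb (x : L) : E.toT b (lb b x) = E.ll x := by
  have : (E.toT b).toLinearMap ∘ₗ lb b = E.ll := by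
    apply b.ext
    intro i
    rw [LinearMap.comp_apply, lb_basis]
    exact E.toT_X b i
  exact congrArg (fun f => f x) this

theorem Emb.toT_injective : Function.Injective (E.toT b) := by
  obtain ⟨r, hr⟩ := E.ι.exists_leftInverse_of_injective (LinearMap.ker_eq_bot.mpr E.inj)
  let θ : TT K m →ₐ[K] MvPolynomial σ K := aeval (fun q => lb b (r (Matrix.single q.1 q.2 1)))
  have hθ : ∀ y, θ (lin K m y) = lb b (r y) := by
    intro y
    conv_rhs => rw [matrix_eq_sum y]
    rw [lin_apply]
    simp only [map_sum, map_smul, θ, aeval_X]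
  have h1 : θ.comp (E.toT b) = AlgHom.id K _ := by
    apply MvPolynomial.algHom_ext
    intro i
    rw [AlgHom.comp_apply, E.toT_X, E.ll_apply, hθ]
    have : r (E.ι (b i)) = b i := congrArg (fun f => f (b i)) hr
    rw [this, lb_basis]
    rfl
  intro s t hst
  have h2 := congrArg θ hst
  rw [← AlgHom.comp_apply, ← AlgHom.comp_apply, h1] at h2
  exact h2

/-- The list of indices of an exponent vector. -/
noncomputable def wl (α : σ →₀ ℕ) : List σ := (Finsupp.toMultiset α).toList

theorem wl_length (α : σ →₀ ℕ) : (wl α).length = α.degree := by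
  classical
  rw [wl, Multiset.length_toList, Finsupp.card_toMultiset]
  rfl

/-- The exponent vector of a list. -/
noncomputable def ex (w : List σ) : σ →₀ ℕ := (w.map (fun i => Finsupp.single i 1)).sum

theorem toMultiset_ex (w : List σ) : Finsupp.toMultiset (ex w) = (w : Multiset σ) := by
  induction w with
  | nil => simp [ex]
  | cons i w ih =>
    have : ex (i :: w) = Finsupp.single i 1 + ex w := by simp [ex]
    rw [this, map_add, ih, Finsupp.toMultiset_single]
    simp

theorem prod_X (w : List σ) : (w.map (X : σ → MvPolynomial σ K)).prod = monomial (ex w) 1 := by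
  induction w with
  | nil => simp [ex]
  | cons i w ih =>
    have : ex (i :: w) = Finsupp.single i 1 + ex w := by simp [ex]
    rw [this, List.map_cons, List.prod_cons, ih, X, monomial_mul, mul_one]

theorem ex_wl (α : σ →₀ ℕ) : ex (wl α) = α := by
  classical
  have h : Finsupp.toMultiset (ex (wl α)) = Finsupp.toMultiset α := by
    rw [toMultiset_ex, wl, Multiset.coe_toList]
  rw [← Finsupp.toMultiset_toFinsupp (ex (wl α)), h, Finsupp.toMultiset_toFinsupp]

theorem wl_ex (w : List σ) : (wl (ex w)).Perm w := by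
  rw [← Multiset.coe_eq_coe, wl, Multiset.coe_toList, toMultiset_ex]

theorem ex_degree (w : List σ) : (ex w).degree = w.length := by
  rw [← wl_length]; exact (wl_ex w).length_eq

/-- The monomial in the enveloping algebra attached to an exponent vector. -/
noncomputable def mon (α : σ →₀ ℕ) : UU K L := lp ((wl α).map b)

/-- The linear extension of `mon`. -/
noncomputable def NN : MvPolynomial σ K →ₗ[K] UU K L := (basisMonomials σ K).constr K (mon b)

theorem NN_monomial (α : σ →₀ ℕ) : NN b (monomial α 1) = mon b α := by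
  have := (basisMonomials σ K).constr_basis K (mon b) α
  simpa [NN] using this

theorem mon_mem (α : σ →₀ ℕ) : mon b α ∈ GG K L (α.degree + 1) := by
  apply lp_mem
  rw [List.length_map, wl_length]
  exact Nat.lt_succ_self _

theorem NN_list (w : List σ) :
    lp (w.map b) - NN b ((w.map (X : σ → MvPolynomial σ K)).prod) ∈ GG K L w.length := by
  rw [prod_X, NN_monomial, mon]
  have h := lp_perm (K := K) (((wl_ex w).symm).map b)
  rwa [List.length_map] at h

theorem jU_mul_NN (x : L) {d : ℕ} {s : MvPolynomial σ K} (hs : s.IsHomogeneous d) :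
    jU K L x * NN b s - NN b (lb b x * s) ∈ GG K L (d + 1) := by
  have hx : x ∈ Submodule.span K (Set.range b) := b.mem_span x
  induction hx using Submodule.span_induction with
  | mem x hx =>
    obtain ⟨i, rfl⟩ := hx
    refine homog_induction (P := fun s => jU K L (b i) * NN b s - NN b (lb b (b i) * s)
      ∈ GG K L (d + 1)) ?_ ?_ ?_ ?_ s hs
    · intro α hα
      have h := NN_list (K := K) b (i :: wl α)
      rw [List.map_cons, List.map_cons, List.prod_cons, prod_X, ex_wl, List.length_cons,
        wl_length, hα, lp_cons] at h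
      rw [lb_basis, NN_monomial]
      exact h
    · simp
    · intro s t hs ht
      have : jU K L (b i) * NN b (s + t) - NN b (lb b (b i) * (s + t))
        = (jU K L (b i) * NN b s - NN b (lb b (b i) * s))
          + (jU K L (b i) * NN b t - NN b (lb b (b i) * t)) := by
        rw [mul_add, map_add, map_add, mul_add]; abel
      rw [this]; exact add_mem hs ht
    · intro c s hs
      have : jU K L (b i) * NN b (c • s) - NN b (lb b (b i) * (c • s))
        = c • (jU K L (b i) * NN b s - NN b (lb b (b i) * s)) := by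
        rw [map_smul, mul_smul_comm, mul_smul_comm, map_smul, smul_sub]
      rw [this]; exact Submodule.smul_mem _ _ hs
  | zero => simp
  | add y z _ _ hy hz =>
    have : jU K L (y + z) * NN b s - NN b (lb b (y + z) * s)
      = (jU K L y * NN b s - NN b (lb b y * s)) + (jU K L z * NN b s - NN b (lb b z * s)) := by
      rw [map_add, map_add, add_mul, add_mul, map_add]; abel
    rw [this]; exact add_mem hy hz
  | smul c y _ hy =>
    have : jU K L (c • y) * NN b s - NN b (lb b (c • y) * s)
      = c • (jU K L y * NN b s - NN b (lb b y * s)) := by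
      rw [map_smul, map_smul, smul_mul_assoc, smul_mul_assoc, map_smul, smul_sub]
    rw [this]; exact Submodule.smul_mem _ _ hy

theorem lb_homog (x : L) : (lb b x).IsHomogeneous 1 := by
  have hx : x ∈ Submodule.span K (Set.range b) := b.mem_span x
  rw [← mem_homogeneousSubmodule]
  induction hx using Submodule.span_induction with
  | mem x hx =>
    obtain ⟨i, rfl⟩ := hx
    rw [lb_basis, mem_homogeneousSubmodule]
    exact isHomogeneous_X K i
  | zero => simp
  | add y z _ _ hy hz => rw [map_add]; exact add_mem hy hz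
  | smul c y _ hy => rw [map_smul]; exact Submodule.smul_mem _ _ hy

theorem lbprod_homog (l : List L) : ((l.map (lb b)).prod).IsHomogeneous l.length := by
  induction l with
  | nil => simpa using isHomogeneous_one σ K
  | cons x l ih =>
    rw [List.map_cons, List.prod_cons, List.length_cons, add_comm]
    exact (lb_homog b x).mul ih

theorem lp_sub_NN (l : List L) : lp l - NN b ((l.map (lb b)).prod) ∈ GG K L l.length := by
  induction l with
  | nil =>
    have h := NN_list (K := K) b []
    simpa using h
  | cons x l ih =>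
    have h1 := jU_mul_NN b x (lbprod_homog b l)
    have h2 := mul_mem_GG' (c := l.length + 1) (jU_mem_GG x) ih (by omega)
    have e : lp (x :: l) - NN b (((x :: l).map (lb b)).prod)
      = jU K L x * (lp l - NN b ((l.map (lb b)).prod))
        + (jU K L x * NN b ((l.map (lb b)).prod) - NN b (lb b x * (l.map (lb b)).prod)) := by
      rw [lp_cons, List.map_cons, List.prod_cons, mul_sub]; abel
    rw [e, List.length_cons]
    exact add_mem h2 h1

theorem exists_homog {d : ℕ} {u : UU K L} (hu : u ∈ GG K L (d + 1)) :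
    ∃ s : MvPolynomial σ K, s.IsHomogeneous d ∧ u - NN b s ∈ GG K L d := by
  induction hu using Submodule.span_induction with
  | mem u hu =>
    obtain ⟨l, hl, rfl⟩ := hu
    rcases Nat.lt_or_ge l.length d with hd | hd
    · exact ⟨0, isHomogeneous_zero _ _ _, by rw [map_zero, sub_zero]; exact lp_mem l hd⟩
    · have : l.length = d := by omega
      subst this
      exact ⟨_, lbprod_homog b l, lp_sub_NN b l⟩
  | zero => exact ⟨0, isHomogeneous_zero _ _ _, by simp⟩
  | add y z _ _ hy hz =>
    obtain ⟨s, hs, h1⟩ := hy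
    obtain ⟨t, ht, h2⟩ := hz
    refine ⟨s + t, hs.add ht, ?_⟩
    have : y + z - NN b (s + t) = (y - NN b s) + (z - NN b t) := by rw [map_add]; abel
    rw [this]; exact add_mem h1 h2
  | smul c y _ hy =>
    obtain ⟨s, hs, h1⟩ := hy
    refine ⟨c • s, ?_, ?_⟩
    · rw [← mem_homogeneousSubmodule] at hs ⊢; exact Submodule.smul_mem _ _ hs
    · rw [map_smul, ← smul_sub]; exact Submodule.smul_mem _ _ h1

theorem toT_monomial (α : σ →₀ ℕ) :
    E.toT b (monomial α 1) = ((wl α).map (fun i => E.ll (b i))).prod := by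
  have h : (monomial α 1 : MvPolynomial σ K) = ((wl α).map X).prod := by rw [prod_X, ex_wl]
  rw [h, map_list_prod, List.map_map]
  congr 1
  apply List.map_congr_left
  intro i _
  exact E.toT_X b i

theorem sym_mon (α : σ →₀ ℕ) : E.sym α.degree (mon b α) = E.toT b (monomial α 1) := by
  rw [toT_monomial, mon]
  have := E.sym_lp ((wl α).map b)
  rw [List.length_map, wl_length, List.map_map] at this
  exact this

theorem NN_mem {d : ℕ} {s : MvPolynomial σ K} (hs : s.IsHomogeneous d) :
    NN b s ∈ GG K L (d + 1) := by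
  refine homog_induction (P := fun s => NN b s ∈ GG K L (d + 1)) ?_ ?_ ?_ ?_ s hs
  · intro α hα
    rw [NN_monomial, ← hα]; exact mon_mem b α
  · simp
  · intro s t hs ht
    rw [map_add]; exact add_mem hs ht
  · intro c s hs
    rw [map_smul]; exact Submodule.smul_mem _ _ hs

/-- The general principle: a linear map from polynomials which has the right symbols on monomials
has the right symbols on homogeneous polynomials. -/
theorem sec_homog (M : MvPolynomial σ K →ₗ[K] UU K L)
    (h1 : ∀ α : σ →₀ ℕ, M (monomial α 1) ∈ GG K L (α.degree + 1))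
    (h2 : ∀ α : σ →₀ ℕ, E.sym α.degree (M (monomial α 1)) = E.toT b (monomial α 1))
    {d : ℕ} {s : MvPolynomial σ K} (hs : s.IsHomogeneous d) :
    M s ∈ GG K L (d + 1) ∧ E.sym d (M s) = E.toT b s := by
  refine homog_induction (P := fun s => M s ∈ GG K L (d + 1) ∧ E.sym d (M s) = E.toT b s)
    ?_ ?_ ?_ ?_ s hs
  · intro α hα
    have := h1 α
    have h := h2 α
    rw [hα] at this h
    exact ⟨this, h⟩
  · simp
  · intro s t hs ht
    rw [map_add, map_add, map_add]
    exact ⟨add_mem hs.1 ht.1, by rw [hs.2, ht.2]⟩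
  · intro c s hs
    rw [map_smul, map_smul, map_smul]
    exact ⟨Submodule.smul_mem _ _ hs.1, by rw [hs.2]⟩

theorem sym_NN {d : ℕ} {s : MvPolynomial σ K} (hs : s.IsHomogeneous d) :
    E.sym d (NN b s) = E.toT b s := by
  refine (sec_homog E b (NN b) ?_ ?_ hs).2
  · intro α; rw [NN_monomial]; exact mon_mem b α
  · intro α; rw [NN_monomial]; exact sym_mon E b α

include b in
/-- An element of degree at most `d` with vanishing symbol has degree less than `d`. -/
theorem mem_GG_of_sym_eq_zero' {d : ℕ} {u : UU K L} (hu : u ∈ GG K L (d + 1))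
    (h : E.sym d u = 0) : u ∈ GG K L d := by
  obtain ⟨s, hs, h1⟩ := exists_homog b hu
  have h2 : E.sym d (u - NN b s) = 0 := E.sym_eq_zero (le_refl d) h1
  rw [map_sub, h, zero_sub, neg_eq_zero, sym_NN E b hs] at h2
  have h3 : s = 0 := by
    apply E.toT_injective b
    rw [h2, map_zero]
  rw [h3, map_zero, sub_zero] at h1
  exact h1

/-- An element of degree at most `d` with vanishing symbol has degree less than `d`. -/
theorem Emb.mem_GG_of_sym_eq_zero {d : ℕ} {u : UU K L} (hu : u ∈ GG K L (d + 1))
    (h : E.sym d u = 0) : u ∈ GG K L d :=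
  mem_GG_of_sym_eq_zero' E (Module.Basis.ofVectorSpace K L) hu h

/-- Every symbol comes from a homogeneous polynomial. -/
theorem exists_homog_sym {d : ℕ} {u : UU K L} (hu : u ∈ GG K L (d + 1)) :
    ∃ s : MvPolynomial σ K, s.IsHomogeneous d ∧ E.sym d u = E.toT b s := by
  obtain ⟨s, hs, h1⟩ := exists_homog b hu
  refine ⟨s, hs, ?_⟩
  have h2 : E.sym d (u - NN b s) = 0 := E.sym_eq_zero (le_refl d) h1
  rw [map_sub, sub_eq_zero, sym_NN E b hs] at h2
  exact h2

/-- Polynomials of degree less than `d`. -/
noncomputable def SS (K σ : Type) [Field K] (d : ℕ) : Submodule K (MvPolynomial σ K) :=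
  Submodule.span K {s | ∃ α : σ →₀ ℕ, α.degree < d ∧ s = monomial α 1}

theorem SS_mono {d e : ℕ} (h : d ≤ e) : SS K σ d ≤ SS K σ e :=
  Submodule.span_mono fun _ ⟨l, hl, hu⟩ => ⟨l, lt_of_lt_of_le hl h, hu⟩

theorem SS_zero : SS K σ 0 = ⊥ := by
  rw [SS, Submodule.span_eq_bot]
  rintro x ⟨l, hl, -⟩
  exact absurd hl (Nat.not_lt_zero _)

theorem exists_mem_SS (s : MvPolynomial σ K) : ∃ d, s ∈ SS K σ d := by
  induction s using MvPolynomial.induction_on' with
  | monomial α a =>
    refine ⟨α.degree + 1, ?_⟩
    have : (monomial α a : MvPolynomial σ K) = a • monomial α 1 := by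
      rw [smul_monomial, smul_eq_mul, mul_one]
    rw [this]
    exact Submodule.smul_mem _ _ (Submodule.subset_span ⟨α, Nat.lt_succ_self _, rfl⟩)
  | add p q hp hq =>
    obtain ⟨d, hd⟩ := hp
    obtain ⟨e, he⟩ := hq
    exact ⟨max d e, add_mem (SS_mono (le_max_left _ _) hd) (SS_mono (le_max_right _ _) he)⟩

theorem homog_mem_SS {d : ℕ} {s : MvPolynomial σ K} (hs : s.IsHomogeneous d) :
    s ∈ SS K σ (d + 1) := by
  refine homog_induction (P := fun s => s ∈ SS K σ (d + 1)) ?_ ?_ ?_ ?_ s hs
  · intro α hα
    exact Submodule.subset_span ⟨α, by omega, rfl⟩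
  · exact zero_mem _
  · intro s t hs ht; exact add_mem hs ht
  · intro c s hs; exact Submodule.smul_mem _ _ hs

theorem SS_succ {d : ℕ} {s : MvPolynomial σ K} (hs : s ∈ SS K σ (d + 1)) :
    ∃ s₁ s₂ : MvPolynomial σ K, s₁.IsHomogeneous d ∧ s₂ ∈ SS K σ d ∧ s = s₁ + s₂ := by
  induction hs using Submodule.span_induction with
  | mem s hs =>
    obtain ⟨α, hα, rfl⟩ := hs
    rcases Nat.lt_or_ge α.degree d with hd | hd
    · exact ⟨0, monomial α 1, isHomogeneous_zero _ _ _, Submodule.subset_span ⟨α, hd, rfl⟩,
        by simp⟩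
    · refine ⟨monomial α 1, 0, isHomogeneous_monomial _ ?_, zero_mem _, by simp⟩
      omega
  | zero => exact ⟨0, 0, isHomogeneous_zero _ _ _, zero_mem _, by simp⟩
  | add y z _ _ hy hz =>
    obtain ⟨a, b, ha, hb, rfl⟩ := hy
    obtain ⟨a', b', ha', hb', rfl⟩ := hz
    exact ⟨a + a', b + b', ha.add ha', add_mem hb hb', by abel⟩
  | smul c y _ hy =>
    obtain ⟨a, b, ha, hb, rfl⟩ := hy
    refine ⟨c • a, c • b, ?_, Submodule.smul_mem _ _ hb, by rw [smul_add]⟩
    rw [← mem_homogeneousSubmodule] at ha ⊢; exact Submodule.smul_mem _ _ ha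

section sec

variable (M : MvPolynomial σ K →ₗ[K] UU K L)
    (h1 : ∀ α : σ →₀ ℕ, M (monomial α 1) ∈ GG K L (α.degree + 1))
    (h2 : ∀ α : σ →₀ ℕ, E.sym α.degree (M (monomial α 1)) = E.toT b (monomial α 1))

include h1 in
theorem sec_mem {d : ℕ} {s : MvPolynomial σ K} (hs : s ∈ SS K σ d) : M s ∈ GG K L d := by
  induction hs using Submodule.span_induction with
  | mem s hs =>
    obtain ⟨α, hα, rfl⟩ := hs
    exact GG_mono (by omega) (h1 α)
  | zero => simp
  | add y z _ _ hy hz => rw [map_add]; exact add_mem hy hz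
  | smul c y _ hy => rw [map_smul]; exact Submodule.smul_mem _ _ hy

include h1 h2 in
theorem sec_mem_SS (d : ℕ) (s : MvPolynomial σ K) (hs : M s ∈ GG K L d) : s ∈ SS K σ d := by
  obtain ⟨e, he⟩ := exists_mem_SS s
  have key : ∀ k, s ∈ SS K σ (d + k) → s ∈ SS K σ d := by
    intro k
    induction k with
    | zero => exact id
    | succ k ih =>
      intro hk
      apply ih
      obtain ⟨s₁, s₂, hs₁, hs₂, rfl⟩ := SS_succ (d := d + k) hk
      have h3 := sec_homog E b M h1 h2 hs₁
      have h4 : E.sym (d + k) (M (s₁ + s₂)) = 0 := E.sym_eq_zero (by omega) hs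
      rw [map_add, map_add, h3.2, E.sym_eq_zero (le_refl _) (sec_mem M h1 hs₂), add_zero] at h4
      have h5 : s₁ = 0 := by
        apply E.toT_injective b
        rw [h4, map_zero]
      rw [h5, zero_add]
      exact hs₂
  rcases Nat.lt_or_ge e d with h | h
  · exact SS_mono h.le he
  · exact key (e - d) (by rwa [Nat.add_sub_cancel' h])

include h1 h2 in
theorem sec_injective : Function.Injective M := by
  rw [← LinearMap.ker_eq_bot, Submodule.eq_bot_iff]
  intro s hs
  have := sec_mem_SS E b M h1 h2 0 s (by rw [LinearMap.mem_ker.mp hs]; exact zero_mem _)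
  rwa [SS_zero, Submodule.mem_bot] at this

include h1 h2 in
theorem sec_exists (d : ℕ) : ∀ u : UU K L, u ∈ GG K L d → ∃ s ∈ SS K σ d, M s = u := by
  induction d with
  | zero =>
    intro u hu
    rw [GG_zero, Submodule.mem_bot] at hu
    exact ⟨0, zero_mem _, by rw [map_zero, hu]⟩
  | succ d ih =>
    intro u hu
    obtain ⟨s, hs, h3⟩ := exists_homog_sym E b hu
    obtain ⟨h4, h5⟩ := sec_homog E b M h1 h2 hs
    have h6 : u - M s ∈ GG K L d := by
      apply E.mem_GG_of_sym_eq_zero (sub_mem hu h4)
      rw [map_sub, h5, h3, sub_self]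
    obtain ⟨t, ht, h7⟩ := ih _ h6
    refine ⟨s + t, add_mem (homog_mem_SS hs) (SS_mono (Nat.le_succ d) ht), ?_⟩
    rw [map_add, h7]
    abel

include h1 h2 in
theorem sec_surjective : Function.Surjective M := by
  intro u
  obtain ⟨d, hd⟩ := exists_mem_GG u
  obtain ⟨s, -, hs⟩ := sec_exists E b M h1 h2 d u hd
  exact ⟨s, hs⟩

include h1 h2 in
theorem sec_bijective : Function.Bijective M :=
  ⟨sec_injective E b M h1 h2, sec_surjective E b M h1 h2⟩

end sec

include E in
/-- The enveloping algebra has no zero divisors. -/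
theorem Emb.noZeroDivisors : NoZeroDivisors (UU K L) := by
  have key : ∀ u : UU K L, u ≠ 0 → ∃ d, u ∈ GG K L (d + 1) ∧ E.sym d u ≠ 0 := by
    intro u hu
    classical
    have hex := exists_mem_GG u
    have h1 := Nat.find_spec hex
    have h0 : Nat.find hex ≠ 0 := by
      intro h
      rw [h, GG_zero, Submodule.mem_bot] at h1
      exact hu h1
    obtain ⟨d, hd⟩ := Nat.exists_eq_succ_of_ne_zero h0
    refine ⟨d, by rwa [hd] at h1, ?_⟩
    intro h
    have h2 := E.mem_GG_of_sym_eq_zero (by rwa [hd] at h1) h
    exact Nat.find_min hex (by omega) h2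
  refine ⟨fun {u v} huv => ?_⟩
  by_contra hcon
  push Not at hcon
  obtain ⟨d, hd, hd'⟩ := key u hcon.1
  obtain ⟨e, he, he'⟩ := key v hcon.2
  have := E.sym_mul hd he
  rw [huv, map_zero] at this
  exact mul_ne_zero hd' he' this.symm

end Pool.Agent.P166ae0
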