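import Mathlib
import Pool.Agent.Lib.P166ae0.Pbw
import Pool.Agent.Lib.P166ae0.Jacobson

/-!
# The central elements `x ^ p - x ^ [p]`
-/

set_option autoImplicit false
set_option linter.unusedSimpArgs false
set_option linter.unusedSectionVars false

namespace Pool.Agent.P166ae0

open MvPolynomial

section general

variable (K : Type) [Field K] (p : ℕ) [Fact p.Prime] [CharP K p]
variable {A : Type} [Ring A] [Algebra K A]

include K in
/-- The `p`-th power of a commutator operator is the commutator with the `p`-th power. -/
theorem ad_iterate_p (a b : A) : (fun c => a * c - c * a)^[p] b = a ^ p * b - b * a ^ p := by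
  rcases subsingleton_or_nontrivial A with h | h
  · exact Subsingleton.elim _ _
  · have : CharP A p := charP_of_injective_algebraMap (algebraMap K A).injective p
    have : Nontrivial (Module.End K A) := inferInstance
    have : CharP (Module.End K A) p :=
      charP_of_injective_algebraMap (algebraMap K (Module.End K A)).injective p
    have h1 : (fun c => a * c - c * a)
        = ((LinearMap.mulLeft K a - LinearMap.mulRight K a : Module.End K A) : A → A) := by
      funext c; rfl
    rw [h1, ← Module.End.coe_pow, sub_pow_char_of_commute,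
      LinearMap.pow_mulLeft, LinearMap.pow_mulRight]
    · rfl
    · exact LinearMap.commute_mulLeft_right a a

end general

/-- A restricted Lie algebra, given by a faithful restricted matrix representation. -/
structure REmb (K L : Type) [Field K] [LieRing L] [LieAlgebra K L] (p m : ℕ)
    extends Emb K L m where
  /-- the `p`-map -/
  pmap : L → L
  hp : ∀ x, ι (pmap x) = ι x ^ p

variable {K L : Type} [Field K] [LieRing L] [LieAlgebra K L] {m p : ℕ}
  [Fact p.Prime] [CharP K p] (E : REmb K L p m)

namespace REmb

theorem pmap_smul (c : K) (x : L) : E.pmap (c • x) = c ^ p • E.pmap x := by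
  apply E.inj
  rw [E.hp, map_smul, map_smul, E.hp, smul_pow]

theorem ad_pmap (x y : L) : (fun z => ⁅x, z⁆)^[p] y = ⁅E.pmap x, y⁆ := by
  apply E.inj
  rw [E.lie, E.hp, ← ad_iterate_p K p (E.ι x) (E.ι y)]
  have : ∀ n : ℕ, E.ι ((fun z => ⁅x, z⁆)^[n] y)
      = (fun c => E.ι x * c - c * E.ι x)^[n] (E.ι y) := by
    intro n
    induction n with
    | zero => rfl
    | succ n ih => rw [Function.iterate_succ_apply', Function.iterate_succ_apply', E.lie, ih]
  exact this p

/-- The central element attached to `x`. -/
noncomputable def zz (x : L) : UU K L := jU K L x ^ p - jU K L (E.pmap x)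

theorem zz_comm_jU (x y : L) : E.zz x * jU K L y = jU K L y * E.zz x := by
  have h := ad_iterate_p K p (jU K L x) (jU K L y)
  have h1 : ∀ n : ℕ, jU K L ((fun z => ⁅x, z⁆)^[n] y)
      = (fun c => jU K L x * c - c * jU K L x)^[n] (jU K L y) := by
    intro n
    induction n with
    | zero => rfl
    | succ n ih => rw [Function.iterate_succ_apply', Function.iterate_succ_apply', jU_lie, ih]
  rw [← h1, E.ad_pmap, jU_lie] at h
  rw [zz, sub_mul, mul_sub, sub_eq_sub_iff_sub_eq_sub]
  exact h.symm

theorem zz_central (x : L) (u : UU K L) : E.zz x * u = u * E.zz x := by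
  have := subalgebra_eq_top (Subalgebra.centralizer K {E.zz x})
    (fun y => by
      rw [Subalgebra.mem_centralizer_iff]
      rintro g rfl
      exact E.zz_comm_jU x y) u
  rw [Subalgebra.mem_centralizer_iff] at this
  exact this _ rfl

/-- The homomorphism from the enveloping algebra to matrices. -/
noncomputable def toMat : UU K L →ₐ[K] Matrix (Fin m) (Fin m) K := liftU E.ι E.lie

theorem toMat_jU (x : L) : E.toMat (jU K L x) = E.ι x := liftU_jU _ _ _

include E in
theorem jU_injective : Function.Injective (jU K L) := by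
  intro x y h
  apply E.inj
  rw [← E.toMat_jU, ← E.toMat_jU, h]

theorem toMat_zz (x : L) : E.toMat (E.zz x) = 0 := by
  rw [zz, map_sub, map_pow, toMat_jU, toMat_jU, E.hp, sub_self]

theorem zz_add (x y : L) : E.zz (x + y) = E.zz x + E.zz y := by
  have h := jacobson p (LinearMap.range (jU K L)) (by
    rintro _ ⟨x, rfl⟩ _ ⟨y, rfl⟩
    exact ⟨⁅x, y⁆, jU_lie x y⟩) (jU K L x) (jU K L y) ⟨x, rfl⟩ ⟨y, rfl⟩
  obtain ⟨w, hw⟩ := h
  have h1 : E.zz (x + y) - E.zz x - E.zz y
      = jU K L (w - E.pmap (x + y) + E.pmap x + E.pmap y) := by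
    simp only [zz, map_add, map_sub]
    rw [hw]
    abel
  have h2 := congrArg E.toMat h1
  rw [map_sub, map_sub, toMat_zz, toMat_zz, toMat_zz, toMat_jU, sub_zero, sub_zero] at h2
  have h3 : w - E.pmap (x + y) + E.pmap x + E.pmap y = 0 := by
    apply E.inj
    rw [← h2, map_zero]
  rw [h3, map_zero] at h1
  rw [sub_sub, sub_eq_zero] at h1
  exact h1

theorem zz_smul (c : K) (x : L) : E.zz (c • x) = c ^ p • E.zz x := by
  rw [zz, zz, E.pmap_smul, map_smul, map_smul, smul_pow, smul_sub]

theorem zz_zero : E.zz 0 = 0 := by
  have := E.zz_smul 0 0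
  rwa [zero_smul, zero_pow (Fact.out : p.Prime).ne_zero, zero_smul] at this

theorem zz_mem (x : L) : E.zz x ∈ GG K L (p + 1) := by
  have h2 : 2 ≤ p := (Fact.out : p.Prime).two_le
  refine sub_mem ?_ (GG_mono (by omega) (jU_mem_GG _))
  have := lp_mem (K := K) (List.replicate p x) (d := p + 1) (by simp)
  simpa [lp] using this

theorem sym_zz (x : L) : E.sym p (E.zz x) = E.ll x ^ p := by
  have h2 : 2 ≤ p := (Fact.out : p.Prime).two_le
  rw [zz, map_sub, E.sym_eq_zero h2 (jU_mem_GG _), sub_zero]
  have := E.sym_lp (List.replicate p x)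
  simpa [lp] using this

/-- The `zz` map applied to a linear combination of basis vectors. -/
theorem zz_sum {σ : Type} (s : Finset σ) (f : σ → L) :
    E.zz (∑ i ∈ s, f i) = ∑ i ∈ s, E.zz (f i) := by
  classical
  induction s using Finset.induction_on with
  | empty => simp [zz_zero]
  | insert a s ha ih => rw [Finset.sum_insert ha, Finset.sum_insert ha, zz_add, ih]

end REmb

end Pool.Agent.P166ae0
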