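import Mathlib
import Pool.Agent.Lib.P166ae0.Restr

/-!
# Reduced enveloping algebras
-/

set_option autoImplicit false
set_option linter.unusedSimpArgs false
set_option linter.unusedSectionVars false

namespace Pool.Agent.P166ae0

open MvPolynomial

/-- The defining relations of the reduced enveloping algebra. -/
def RRel {K L : Type} [Field K] [LieRing L] [LieAlgebra K L] (p : ℕ) (pmap : L → L)
    (χ : Module.Dual K L) : TensorAlgebra K L → TensorAlgebra K L → Prop := fun a b =>
  (∃ x y : L, a = TensorAlgebra.ι K x * TensorAlgebra.ι K y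
      - TensorAlgebra.ι K y * TensorAlgebra.ι K x ∧ b = TensorAlgebra.ι K ⁅x, y⁆) ∨
  (∃ x : L, a = (TensorAlgebra.ι K x) ^ p - TensorAlgebra.ι K (pmap x) ∧
      b = algebraMap K (TensorAlgebra K L) (χ x ^ p))

variable {K L : Type} [Field K] [LieRing L] [LieAlgebra K L] {m p : ℕ}
  [Fact p.Prime] [CharP K p] (E : REmb K L p m)

namespace REmb

/-- The reduced enveloping algebra. -/
abbrev RR (χ : Module.Dual K L) : Type := RingQuot (RRel p E.pmap χ)

variable (χ : Module.Dual K L)

/-- The canonical map. -/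
noncomputable def jR : L →ₗ[K] E.RR χ :=
  (RingQuot.mkAlgHom K (RRel p E.pmap χ)).toLinearMap ∘ₗ TensorAlgebra.ι K

theorem jR_apply (x : L) :
    E.jR χ x = RingQuot.mkAlgHom K (RRel p E.pmap χ) (TensorAlgebra.ι K x) := rfl

theorem jR_lie (x y : L) : E.jR χ ⁅x, y⁆ = E.jR χ x * E.jR χ y - E.jR χ y * E.jR χ x := by
  have h := RingQuot.mkAlgHom_rel K (s := RRel p E.pmap χ)
    (x := TensorAlgebra.ι K x * TensorAlgebra.ι K y - TensorAlgebra.ι K y * TensorAlgebra.ι K x)
    (y := TensorAlgebra.ι K ⁅x, y⁆) (Or.inl ⟨x, y, rfl, rfl⟩)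
  rw [map_sub, map_mul, map_mul] at h
  exact h.symm

theorem jR_pow (x : L) : E.jR χ x ^ p - E.jR χ (E.pmap x) = algebraMap K _ (χ x ^ p) := by
  have h := RingQuot.mkAlgHom_rel K (s := RRel p E.pmap χ)
    (x := (TensorAlgebra.ι K x) ^ p - TensorAlgebra.ι K (E.pmap x))
    (y := algebraMap K (TensorAlgebra K L) (χ x ^ p)) (Or.inr ⟨x, rfl, rfl⟩)
  rw [map_sub, map_pow, AlgHom.commutes] at h
  exact h

/-- The projection from the enveloping algebra. -/
noncomputable def piR : UU K L →ₐ[K] E.RR χ := liftU (E.jR χ) (E.jR_lie χ)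

theorem piR_jU (x : L) : E.piR χ (jU K L x) = E.jR χ x := liftU_jU _ _ _

theorem piR_zz (x : L) : E.piR χ (E.zz x) = algebraMap K _ (χ x ^ p) := by
  rw [zz, map_sub, map_pow, piR_jU, piR_jU, jR_pow]

theorem piR_surjective : Function.Surjective (E.piR χ) := by
  have h : ∀ t : TensorAlgebra K L, RingQuot.mkAlgHom K (RRel p E.pmap χ) t
      = E.piR χ (RingQuot.mkAlgHom K (URel K L) t) := by
    intro t
    have h2 : (RingQuot.mkAlgHom K (RRel p E.pmap χ))
        = (E.piR χ).comp (RingQuot.mkAlgHom K (URel K L)) := by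
      apply TensorAlgebra.hom_ext
      ext x
      exact (E.piR_jU χ x).symm
    exact congrArg (fun f => f t) h2
  intro r
  obtain ⟨t, rfl⟩ := RingQuot.mkAlgHom_surjective K (RRel p E.pmap χ) r
  exact ⟨_, (h t).symm⟩

theorem factor {A : Type} [Ring A] [Algebra K A] (f : UU K L →ₐ[K] A)
    (hf : ∀ x, f (E.zz x) = algebraMap K A (χ x ^ p)) :
    ∃ g : E.RR χ →ₐ[K] A, ∀ u, g (E.piR χ u) = f u := by
  let F : TensorAlgebra K L →ₐ[K] A := TensorAlgebra.lift K (f.toLinearMap ∘ₗ jU K L)
  have hF : ∀ x, F (TensorAlgebra.ι K x) = f (jU K L x) := by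
    intro x; simp [F]
  have hrel : ∀ ⦃a b⦄, RRel p E.pmap χ a b → F a = F b := by
    rintro _ _ (⟨x, y, rfl, rfl⟩ | ⟨x, rfl, rfl⟩)
    · rw [map_sub, map_mul, map_mul, hF, hF, hF, jU_lie, map_sub, map_mul, map_mul]
    · rw [map_sub, map_pow, hF, hF, AlgHom.commutes, ← hf, zz, map_sub, map_pow]
  refine ⟨RingQuot.liftAlgHom K ⟨F, hrel⟩, ?_⟩
  intro u
  have : (RingQuot.liftAlgHom K ⟨F, hrel⟩).comp (E.piR χ) = f := by
    apply algHom_ext_U
    intro x
    rw [AlgHom.comp_apply, piR_jU, jR_apply, RingQuot.liftAlgHom_mkAlgHom_apply, hF]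
  exact congrArg (fun f => f u) this

section center

variable {σ : Type} (b : Module.Basis σ K L)

/-- Polynomials in the central elements `zz (b i)`. -/
noncomputable def Zp : MvPolynomial σ K →ₐ[K] UU K L :=
  (Subalgebra.center K (UU K L)).val.comp
    (aeval (fun i => (⟨E.zz (b i), by
      rw [Subalgebra.mem_center_iff]
      intro u
      exact (E.zz_central (b i) u).symm⟩ : Subalgebra.center K (UU K L))))

theorem Zp_X (i : σ) : E.Zp b (X i) = E.zz (b i) := by
  simp [Zp]

theorem Zp_central (s : MvPolynomial σ K) (u : UU K L) : E.Zp b s * u = u * E.Zp b s := by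
  have h := ((aeval (fun i => (⟨E.zz (b i), by
      rw [Subalgebra.mem_center_iff]
      intro u
      exact (E.zz_central (b i) u).symm⟩ : Subalgebra.center K (UU K L)))) s).2
  rw [Subalgebra.mem_center_iff] at h
  exact (h u).symm

theorem Zp_list (w : List σ) :
    (w.map (fun i => E.zz (b i))).prod ∈ GG K L (p * w.length + 1) ∧
    E.sym (p * w.length) ((w.map (fun i => E.zz (b i))).prod)
      = (w.map (fun i => E.ll (b i) ^ p)).prod := by
  induction w with
  | nil =>
    simp only [List.map_nil, List.prod_nil, List.length_nil, mul_zero]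
    exact ⟨one_mem_GG, E.sym_one⟩
  | cons i w ih =>
    simp only [List.map_cons, List.prod_cons, List.length_cons]
    have e : p * (w.length + 1) = p + p * w.length := by ring
    rw [e]
    refine ⟨mul_mem_GG' (E.zz_mem (b i)) ih.1 (by omega), ?_⟩
    rw [E.sym_mul (E.zz_mem (b i)) ih.1, ih.2, E.sym_zz]

theorem Zp_monomial (β : σ →₀ ℕ) :
    E.Zp b (monomial β 1) ∈ GG K L (p * β.degree + 1) ∧
    E.sym (p * β.degree) (E.Zp b (monomial β 1)) = E.toT b (monomial (p • β) 1) := by
  have h1 : (monomial β 1 : MvPolynomial σ K) = ((wl β).map X).prod := by rw [prod_X, ex_wl]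
  have h2 : E.Zp b (monomial β 1) = ((wl β).map (fun i => E.zz (b i))).prod := by
    rw [h1, map_list_prod, List.map_map]
    congr 1
    apply List.map_congr_left
    intro i _
    exact E.Zp_X b i
  have h3 := E.Zp_list b (wl β)
  rw [wl_length] at h3
  rw [h2]
  refine ⟨h3.1, ?_⟩
  rw [h3.2]
  have h4 : (monomial (p • β) 1 : MvPolynomial σ K) = (monomial β 1) ^ p := by
    rw [monomial_pow, one_pow]
  rw [h4, map_pow, toT_monomial]
  generalize wl β = w
  induction w with
  | nil => simp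
  | cons i w ih => simp only [List.map_cons, List.prod_cons, mul_pow, ih]

/-- Quotient of an exponent vector by `p`. -/
noncomputable def qd (p : ℕ) {σ : Type} (α : σ →₀ ℕ) : σ →₀ ℕ :=
  α.mapRange (fun n => n / p) (Nat.zero_div p)

/-- Remainder of an exponent vector by `p`. -/
noncomputable def rm (p : ℕ) {σ : Type} (α : σ →₀ ℕ) : σ →₀ ℕ :=
  α.mapRange (fun n => n % p) (Nat.zero_mod p)

theorem qd_rm (α : σ →₀ ℕ) : p • qd p α + rm p α = α := by
  ext i
  simp [qd, rm, Nat.div_add_mod]

theorem rm_lt (α : σ →₀ ℕ) (i : σ) : rm p α i < p := by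
  simp only [rm, Finsupp.mapRange_apply]
  exact Nat.mod_lt _ (Fact.out : p.Prime).pos

theorem degree_qd_rm (α : σ →₀ ℕ) : p * (qd p α).degree + (rm p α).degree = α.degree := by
  conv_rhs => rw [← qd_rm (p := p) α]
  rw [map_add, map_nsmul, smul_eq_mul]

variable (w : (σ →₀ ℕ) → UU K L)

/-- The linear map `X ^ (p β + γ) ↦ z ^ β * w γ`. -/
noncomputable def MZ : MvPolynomial σ K →ₗ[K] UU K L :=
  (basisMonomials σ K).constr K (fun α => E.Zp b (monomial (qd p α) 1) * w (rm p α))

theorem MZ_monomial (α : σ →₀ ℕ) :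
    E.MZ b w (monomial α 1) = E.Zp b (monomial (qd p α) 1) * w (rm p α) := by
  have := (basisMonomials σ K).constr_basis K
    (fun α => E.Zp b (monomial (qd p α) 1) * w (rm p α)) α
  simpa [MZ] using this

variable (hw : ∀ γ : σ →₀ ℕ, (∀ i, γ i < p) →
  w γ ∈ GG K L (γ.degree + 1) ∧ E.sym γ.degree (w γ) = E.toT b (monomial γ 1))

include hw in
theorem MZ_h1 (α : σ →₀ ℕ) : E.MZ b w (monomial α 1) ∈ GG K L (α.degree + 1) := by
  rw [MZ_monomial]
  have h1 := (E.Zp_monomial b (qd p α)).1
  have h2 := (hw (rm p α) (rm_lt α)).1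
  have h3 := degree_qd_rm (p := p) α
  exact mul_mem_GG' h1 h2 (by omega)

include hw in
theorem MZ_h2 (α : σ →₀ ℕ) :
    E.sym α.degree (E.MZ b w (monomial α 1)) = E.toT b (monomial α 1) := by
  rw [MZ_monomial]
  obtain ⟨h1, h1'⟩ := (E.Zp_monomial b (qd p α))
  obtain ⟨h2, h2'⟩ := (hw (rm p α) (rm_lt α))
  rw [← degree_qd_rm (p := p) α, E.sym_mul h1 h2, h1', h2', ← map_mul, monomial_mul, qd_rm,
    mul_one]

/-- exponent vector of a function to `Fin p` -/
noncomputable def fs {σ : Type} [Finite σ] (f : σ → Fin p) : σ →₀ ℕ :=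
  Finsupp.equivFunOnFinite.symm (fun i => (f i : ℕ))

theorem fs_apply [Finite σ] (f : σ → Fin p) (i : σ) : fs f i = (f i : ℕ) := rfl

theorem fs_lt [Finite σ] (f : σ → Fin p) (i : σ) : fs f i < p := (f i).2

/-- the residue function -/
noncomputable def fr (p : ℕ) [Fact p.Prime] {σ : Type} (α : σ →₀ ℕ) : σ → Fin p :=
  fun i => ⟨α i % p, Nat.mod_lt _ (Fact.out : p.Prime).pos⟩

theorem fs_fr [Finite σ] (α : σ →₀ ℕ) : fs (fr p α) = rm p α := by
  ext i
  simp [fs_apply, fr, rm]

theorem qd_fs [Finite σ] (f : σ → Fin p) : qd p (fs f) = 0 := by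
  ext i
  simp [qd, fs_apply]

theorem rm_fs [Finite σ] (f : σ → Fin p) : rm p (fs f) = fs f := by
  ext i
  simp [rm, fs_apply, Nat.mod_eq_of_lt (f i).2]

theorem fr_fs [Finite σ] (f : σ → Fin p) : fr p (fs f) = f := by
  funext i
  apply Fin.ext
  simp [fr, fs_apply, Nat.mod_eq_of_lt (f i).2]

theorem fr_add (α : σ →₀ ℕ) (i : σ) : fr p (Finsupp.single i p + α) = fr p α := by
  classical
  funext j
  apply Fin.ext
  by_cases h : i = j
  · subst h
    simp [fr]
  · simp [fr, Finsupp.single_apply, h]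

theorem rm_add (α : σ →₀ ℕ) (i : σ) : rm p (Finsupp.single i p + α) = rm p α := by
  classical
  ext j
  by_cases h : i = j
  · subst h
    simp [rm]
  · simp [rm, Finsupp.single_apply, h]

theorem qd_add (α : σ →₀ ℕ) (i : σ) :
    qd p (Finsupp.single i p + α) = Finsupp.single i 1 + qd p α := by
  classical
  have hp : 0 < p := (Fact.out : p.Prime).pos
  ext j
  by_cases h : i = j
  · subst h
    simp [qd, Nat.add_div_left _ hp, add_comm]
  · simp [qd, Finsupp.single_apply, h]

theorem MZ_mul (α : σ →₀ ℕ) (i : σ) :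
    E.zz (b i) * E.MZ b w (monomial α 1) = E.MZ b w (monomial (Finsupp.single i p + α) 1) := by
  rw [MZ_monomial, MZ_monomial, rm_add, qd_add, ← mul_assoc, ← E.Zp_X b i, ← map_mul, X,
    monomial_mul, mul_one]

theorem MZ_fs [Finite σ] (f : σ → Fin p) : E.MZ b w (monomial (fs f) 1) = w (fs f) := by
  rw [MZ_monomial, qd_fs, rm_fs]
  have : (monomial (0 : σ →₀ ℕ) 1 : MvPolynomial σ K) = 1 := rfl
  rw [this, map_one, one_mul]

/-- the ideal of `U` defining the reduced enveloping algebra -/
noncomputable def JJ : Ideal (UU K L) :=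
  Ideal.span (Set.range (fun i => E.zz (b i) - algebraMap K (UU K L) (χ (b i) ^ p)))

theorem gen_central (i : σ) (u : UU K L) :
    (E.zz (b i) - algebraMap K (UU K L) (χ (b i) ^ p)) * u
      = u * (E.zz (b i) - algebraMap K (UU K L) (χ (b i) ^ p)) := by
  rw [sub_mul, mul_sub, E.zz_central, Algebra.commutes]

theorem JJ_twoSided : (E.JJ χ b).IsTwoSided := by
  constructor
  intro a c ha
  rw [JJ, Ideal.span] at ha ⊢
  induction ha using Submodule.span_induction with
  | mem x hx =>
    obtain ⟨i, rfl⟩ := hx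
    rw [gen_central]
    exact Submodule.smul_mem _ c (Submodule.subset_span ⟨i, rfl⟩)
  | zero => rw [zero_mul]; exact zero_mem _
  | add y z _ _ hy hz => rw [add_mul]; exact add_mem hy hz
  | smul r y _ hy => rw [smul_eq_mul, mul_assoc]; exact Submodule.smul_mem _ r hy

theorem zz_repr [Finite σ] (x : L) : ∃ f : σ → K, ∃ (_ : Fintype σ),
    x = ∑ i, f i • b i ∧ E.zz x = ∑ i, f i ^ p • E.zz (b i) ∧
      χ x ^ p = ∑ i, f i ^ p * χ (b i) ^ p := by
  have := Fintype.ofFinite σ
  refine ⟨fun i => b.repr x i, this, (b.sum_repr x).symm, ?_, ?_⟩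
  · conv_lhs => rw [← b.sum_repr x]
    rw [zz_sum]
    simp only [zz_smul]
  · conv_lhs => rw [← b.sum_repr x]
    rw [map_sum, sum_pow_char]
    simp [mul_pow]

theorem mem_JJ_of_piR [Finite σ] {u : UU K L} (hu : E.piR χ u = 0) : u ∈ E.JJ χ b := by
  have := E.JJ_twoSided χ b
  obtain ⟨g, hg⟩ := E.factor χ (Ideal.Quotient.mkₐ K (E.JJ χ b)) (by
    intro x
    obtain ⟨f, hfin, hx, hz, hc⟩ := E.zz_repr χ b x
    rw [hz, hc, map_sum, map_sum]
    refine Finset.sum_congr rfl fun i _ => ?_
    have h1 : Ideal.Quotient.mkₐ K (E.JJ χ b) (E.zz (b i))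
        = algebraMap K _ (χ (b i) ^ p) := by
      have h2 : Ideal.Quotient.mkₐ K (E.JJ χ b)
          (E.zz (b i) - algebraMap K (UU K L) (χ (b i) ^ p)) = 0 := by
        rw [Ideal.Quotient.mkₐ_eq_mk, Ideal.Quotient.eq_zero_iff_mem]
        exact Ideal.subset_span ⟨i, rfl⟩
      rw [map_sub, sub_eq_zero, AlgHom.commutes] at h2
      exact h2
    rw [map_smul, h1, map_mul, Algebra.smul_def])
  have h3 := hg u
  rw [hu, map_zero, Ideal.Quotient.mkₐ_eq_mk] at h3
  exact Ideal.Quotient.eq_zero_iff_mem.mp h3.symm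

include hw in
theorem span_w [Finite σ] (r : E.RR χ) :
    r ∈ Submodule.span K (Set.range (fun f : σ → Fin p => E.piR χ (w (fs f)))) := by
  obtain ⟨u, rfl⟩ := E.piR_surjective χ r
  obtain ⟨s, rfl⟩ := sec_surjective E.toEmb b (E.MZ b w) (E.MZ_h1 b w hw) (E.MZ_h2 b w hw) u
  induction s using MvPolynomial.induction_on' with
  | monomial α a =>
    have : (monomial α a : MvPolynomial σ K) = a • monomial α 1 := by
      rw [smul_monomial, smul_eq_mul, mul_one]
    rw [this, map_smul, map_smul, MZ_monomial, map_mul]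
    apply Submodule.smul_mem
    have hZ : ∀ s : MvPolynomial σ K, ∃ c : K, E.piR χ (E.Zp b s) = algebraMap K _ c := by
      intro s
      induction s using MvPolynomial.induction_on with
      | C a => exact ⟨a, by rw [← MvPolynomial.algebraMap_eq, AlgHom.commutes, AlgHom.commutes]⟩
      | add s t hs ht =>
        obtain ⟨c, hc⟩ := hs
        obtain ⟨d, hd⟩ := ht
        exact ⟨c + d, by rw [map_add, map_add, hc, hd, map_add]⟩
      | mul_X s i hs =>
        obtain ⟨c, hc⟩ := hs
        exact ⟨c * χ (b i) ^ p, by rw [map_mul, map_mul, hc, Zp_X, piR_zz, map_mul]⟩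
    obtain ⟨c, hc⟩ := hZ (monomial (qd p α) 1)
    rw [hc, ← Algebra.smul_def, ← fs_fr]
    exact Submodule.smul_mem _ _ (Submodule.subset_span ⟨fr p α, rfl⟩)
  | add s t hs ht => rw [map_add, map_add]; exact add_mem hs ht

/-- The functional used to prove independence, on polynomials. -/
noncomputable def psi [Finite σ] : MvPolynomial σ K →ₗ[K] ((σ → Fin p) →₀ K) :=
  (basisMonomials σ K).constr K
    (fun α => ((qd p α).prod fun i n => (χ (b i) ^ p) ^ n) • Finsupp.single (fr p α) 1)

theorem psi_monomial [Finite σ] (α : σ →₀ ℕ) : psi (p := p) χ b (monomial α 1)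
    = ((qd p α).prod fun i n => (χ (b i) ^ p) ^ n) • Finsupp.single (fr p α) 1 := by
  have := (basisMonomials σ K).constr_basis K
    (fun α => ((qd p α).prod fun i n => (χ (b i) ^ p) ^ n) •
      (Finsupp.single (fr p α) 1 : (σ → Fin p) →₀ K)) α
  simpa only [coe_basisMonomials, psi] using this

theorem psi_mul [Finite σ] (α : σ →₀ ℕ) (i : σ) :
    psi (p := p) χ b (monomial (Finsupp.single i p + α) 1)
      = (χ (b i) ^ p) • psi (p := p) χ b (monomial α 1) := by
  classical
  rw [psi_monomial, psi_monomial, fr_add, qd_add, smul_smul]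
  congr 1
  rw [Finsupp.prod_add_index' (fun _ => pow_zero _) (fun _ _ _ => pow_add _ _ _)]
  simp

include hw in
theorem indep_w [Finite σ] :
    LinearIndependent K (fun f : σ → Fin p => E.piR χ (w (fs f))) := by
  classical
  have := Fintype.ofFinite σ
  let e : MvPolynomial σ K ≃ₗ[K] UU K L := LinearEquiv.ofBijective (E.MZ b w)
    (sec_bijective E.toEmb b (E.MZ b w) (E.MZ_h1 b w hw) (E.MZ_h2 b w hw))
  have he : ∀ s, e s = E.MZ b w s := fun s => rfl
  let ψ : UU K L →ₗ[K] ((σ → Fin p) →₀ K) := psi (p := p) χ b ∘ₗ e.symm.toLinearMap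
  have hψ : ∀ s, ψ (E.MZ b w s) = psi (p := p) χ b s := by
    intro s
    rw [← he]
    simp [ψ]
  have h1 : ∀ (i : σ) (u : UU K L),
      ψ ((E.zz (b i) - algebraMap K (UU K L) (χ (b i) ^ p)) * u) = 0 := by
    intro i u
    obtain ⟨s, rfl⟩ := sec_surjective E.toEmb b (E.MZ b w) (E.MZ_h1 b w hw) (E.MZ_h2 b w hw) u
    induction s using MvPolynomial.induction_on' with
    | monomial α a =>
      have : (monomial α a : MvPolynomial σ K) = a • monomial α 1 := by
        rw [smul_monomial, smul_eq_mul, mul_one]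
      rw [this, map_smul, mul_smul_comm, map_smul, sub_mul, MZ_mul, ← Algebra.smul_def, map_sub,
        map_smul, hψ, hψ, psi_mul, sub_self, smul_zero]
    | add s t hs ht => rw [map_add, mul_add, map_add, hs, ht, add_zero]
  have h2 : ∀ u ∈ E.JJ χ b, ψ u = 0 := by
    intro u hu
    rw [JJ, Ideal.span] at hu
    have h3 : ∀ v : UU K L, ψ (v * u) = 0 := by
      induction hu using Submodule.span_induction with
      | mem x hx =>
        obtain ⟨i, rfl⟩ := hx
        intro v
        rw [← gen_central]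
        exact h1 i v
      | zero => intro v; simp
      | add y z _ _ hy hz => intro v; rw [mul_add, map_add, hy, hz, add_zero]
      | smul r y _ hy => intro v; rw [smul_eq_mul, ← mul_assoc]; exact hy _
    have := h3 1
    rwa [one_mul] at this
  rw [Fintype.linearIndependent_iff]
  intro c hc f
  have h4 : E.piR χ (∑ f, c f • w (fs f)) = 0 := by
    rw [map_sum, ← hc]
    refine Finset.sum_congr rfl fun f _ => ?_
    rw [map_smul]
  have h5 := h2 _ (E.mem_JJ_of_piR χ b h4)
  rw [map_sum] at h5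
  have h6 : ∀ g : σ → Fin p, ψ (c g • w (fs g)) = Finsupp.single g (c g) := by
    intro g
    rw [map_smul, ← E.MZ_fs b w g, hψ, psi_monomial, qd_fs, fr_fs]
    simp only [Finsupp.prod_zero_index, one_smul]
    rw [Finsupp.smul_single, smul_eq_mul, mul_one]
  simp only [h6] at h5
  have h7 := DFunLike.congr_fun h5 f
  rw [Finsupp.finsetSum_apply] at h7
  simpa [Finsupp.single_apply] using h7

end center

/-- The dimension of the reduced enveloping algebra. -/
theorem finrank_RR [FiniteDimensional K L] : FiniteDimensional K (E.RR χ) ∧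
    Module.finrank K (E.RR χ) = p ^ Module.finrank K L := by
  classical
  let b := Module.finBasis K L
  have hw : ∀ γ : Fin (Module.finrank K L) →₀ ℕ, (∀ i, γ i < p) →
      mon (K := K) b γ ∈ GG K L (γ.degree + 1) ∧
        E.sym γ.degree (mon b γ) = E.toT b (monomial γ 1) :=
    fun γ _ => ⟨mon_mem b γ, sym_mon E.toEmb b γ⟩
  let B : Module.Basis (Fin (Module.finrank K L) → Fin p) K (E.RR χ) :=
    Module.Basis.mk (E.indep_w χ b (mon b) hw) (fun r _ => E.span_w χ b (mon b) hw r)
  refine ⟨Module.Finite.of_basis B, ?_⟩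
  rw [Module.finrank_eq_card_basis B]
  simp

end REmb

end Pool.Agent.P166ae0
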