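import Mathlib
import Pool.Agent.Lib.P166ae0.Red

/-!
# The adjoint action of the enveloping algebra
-/

set_option autoImplicit false
set_option linter.unusedSimpArgs false
set_option linter.unusedSectionVars false

namespace Pool.Agent.P166ae0

variable {K L : Type} [Field K] [LieRing L] [LieAlgebra K L]

section adA

variable {A : Type} [Ring A] [Algebra K A] (f : UU K L →ₐ[K] A)

/-- The adjoint action of `U` on an algebra `A` receiving a homomorphism from `U`:
the element `x` of `L` acts as the commutator with `f x`. -/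
noncomputable def adA : UU K L →ₐ[K] Module.End K A :=
  liftU ((LinearMap.mul K A - (LinearMap.mul K A).flip) ∘ₗ f.toLinearMap ∘ₗ jU K L) (by
    intro x y
    ext a
    simp only [LinearMap.comp_apply, AlgHom.toLinearMap_apply, jU_lie, map_sub, map_mul,
      LinearMap.sub_apply, Module.End.mul_apply, LinearMap.mul_apply', LinearMap.flip_apply]
    simp only [mul_add, add_mul, mul_sub, sub_mul, mul_assoc]; abel)

theorem adA_jU (x : L) (a : A) : adA f (jU K L x) a = f (jU K L x) * a - a * f (jU K L x) := by
  rw [adA, liftU_jU]; rfl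

theorem adA_jU_mul (x : L) (u : UU K L) (a : A) : adA f (jU K L x * u) a =
    f (jU K L x) * adA f u a - adA f u a * f (jU K L x) := by
  rw [map_mul, Module.End.mul_apply, adA_jU]

/-- `x ∈ L` acts by a derivation. -/
theorem adA_leibniz (x : L) (a c : A) :
    adA f (jU K L x) (a * c) = adA f (jU K L x) a * c + a * adA f (jU K L x) c := by
  simp only [adA_jU]
  simp only [mul_add, add_mul, mul_sub, sub_mul, mul_assoc]; abel

/-- Equivariance of a linear map may be checked on `L`. -/
theorem adA_equivariant {M N : Type} [AddCommGroup M] [Module K M] [AddCommGroup N] [Module K N]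
    (φ : UU K L →ₐ[K] Module.End K M) (ψ : UU K L →ₐ[K] Module.End K N) (c : M →ₗ[K] N)
    (hc : ∀ (x : L) (a : M), c (φ (jU K L x) a) = ψ (jU K L x) (c a)) (u : UU K L) (a : M) :
    c (φ u a) = ψ u (c a) := by
  refine U_induction (P := fun u => ∀ a, c (φ u a) = ψ u (c a)) ?_ ?_ ?_ u a
  · intro l
    induction l with
    | nil => intro a; simp
    | cons x l ih =>
      intro a
      rw [lp_cons, map_mul, map_mul, Module.End.mul_apply, Module.End.mul_apply, hc, ih]
  · intro u v hu hv a
    rw [map_add, map_add, LinearMap.add_apply, LinearMap.add_apply, map_add, hu, hv]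
  · intro c' u hu a
    rw [map_smul, map_smul, LinearMap.smul_apply, LinearMap.smul_apply, map_smul, hu]

/-- Stability of a subspace may be checked on `L`. -/
theorem stable_of_stable {M : Type} [AddCommGroup M] [Module K M]
    (φ : UU K L →ₐ[K] Module.End K M) (W : Submodule K M)
    (hW : ∀ (x : L), ∀ a ∈ W, φ (jU K L x) a ∈ W) (u : UU K L) : ∀ a ∈ W, φ u a ∈ W := by
  refine U_induction (P := fun u => ∀ a ∈ W, φ u a ∈ W) ?_ ?_ ?_ u
  · intro l
    induction l with
    | nil => intro a ha; simpa using ha
    | cons x l ih =>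
      intro a ha
      rw [lp_cons, map_mul, Module.End.mul_apply]
      exact hW x _ (ih a ha)
  · intro u v hu hv a ha
    rw [map_add, LinearMap.add_apply]
    exact add_mem (hu a ha) (hv a ha)
  · intro c u hu a ha
    rw [map_smul, LinearMap.smul_apply]
    exact Submodule.smul_mem _ _ (hu a ha)

/-- Naturality of the adjoint action. -/
theorem adA_natural {B : Type} [Ring B] [Algebra K B] (g : A →ₐ[K] B) (u : UU K L) (a : A) :
    g (adA f u a) = adA (g.comp f) u (g a) := by
  refine adA_equivariant (adA f) (adA (g.comp f)) g.toLinearMap ?_ u a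
  intro x a
  simp [adA_jU]

end adA

variable {m p : ℕ} [Fact p.Prime] [CharP K p] (E : REmb K L p m)

namespace REmb

variable {A : Type} [Ring A] [Algebra K A] (f : UU K L →ₐ[K] A)

theorem adA_pow_p (x : L) (a : A) :
    adA f (jU K L x ^ p) a = f (jU K L x) ^ p * a - a * f (jU K L x) ^ p := by
  rw [← ad_iterate_p K p, map_pow, Module.End.pow_apply]
  congr 1
  funext a
  exact adA_jU f x a

theorem adA_zz (x : L) (hx : ∀ a : A, f (E.zz x) * a = a * f (E.zz x)) : adA f (E.zz x) = 0 := by
  ext a
  rw [zz, map_sub, LinearMap.sub_apply, adA_pow_p, adA_jU, LinearMap.zero_apply]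
  have h := hx a
  rw [zz, map_sub, map_pow, sub_mul, mul_sub] at h
  rw [sub_sub_sub_comm, h, sub_self]

/-- If the central elements act centrally, the adjoint action factors through `u(L, 0)`. -/
theorem adA_eq_zero (hf : ∀ (x : L) (a : A), f (E.zz x) * a = a * f (E.zz x)) {u : UU K L}
    (hu : E.piR 0 u = 0) : adA f u = 0 := by
  obtain ⟨g, hg⟩ := E.factor 0 (adA f) (by
    intro x
    rw [E.adA_zz f x (hf x), LinearMap.zero_apply, zero_pow (Fact.out : p.Prime).ne_zero,
      map_zero])
  rw [← hg, hu, map_zero]

/-- factorisation of the adjoint action through `u(L, 0)` -/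
theorem adA_factor (hf : ∀ (x : L) (a : A), f (E.zz x) * a = a * f (E.zz x)) :
    ∃ g : E.RR 0 →ₐ[K] Module.End K A, ∀ u, g (E.piR 0 u) = adA f u :=
  E.factor 0 (adA f) (by
    intro x
    rw [E.adA_zz f x (hf x), LinearMap.zero_apply, zero_pow (Fact.out : p.Prime).ne_zero,
      map_zero])

theorem id_central (x : L) (a : UU K L) :
    AlgHom.id K (UU K L) (E.zz x) * a = a * AlgHom.id K (UU K L) (E.zz x) :=
  E.zz_central x a

theorem piR_central (χ : Module.Dual K L) (x : L) (a : E.RR χ) :
    E.piR χ (E.zz x) * a = a * E.piR χ (E.zz x) := by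
  rw [piR_zz, Algebra.commutes]

/-- The left regular representation of `u(L, χ)`, as a homomorphism from `U`. -/
noncomputable def lreg (χ : Module.Dual K L) : UU K L →ₐ[K] Module.End K (E.RR χ) :=
  (Algebra.lmul K (E.RR χ)).comp (E.piR χ)

theorem lreg_apply (χ : Module.Dual K L) (u : UU K L) (r : E.RR χ) :
    E.lreg χ u r = E.piR χ u * r := rfl

theorem lreg_central (χ : Module.Dual K L) (x : L) (a : Module.End K (E.RR χ)) :
    E.lreg χ (E.zz x) * a = a * E.lreg χ (E.zz x) := by
  rw [lreg, AlgHom.comp_apply, piR_zz, AlgHom.commutes, Algebra.commutes]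

end REmb

end Pool.Agent.P166ae0
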