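import Mathlib

/-! Averaging operator for a `p`-nilpotent map with `Ker D = Im D^(p-1)`. -/

set_option autoImplicit false

namespace Pool.Agent.P166ae0

open Finset

theorem exists_average {K M : Type*} [Field K] [AddCommGroup M] [Module K M] (p : ℕ)
    (hp : 0 < p) (D : M →ₗ[K] M) (hD : D ^ p = 0)
    (hex : ∀ m, D m = 0 → ∃ g, m = (D ^ (p - 1)) g) :
    ∃ h : M →ₗ[K] M, ∀ m, ∑ j ∈ Finset.range p, (D ^ j) (h ((D ^ (p - 1 - j)) m)) = m := by
  classical
  obtain ⟨V, hV⟩ := Submodule.exists_isCompl (LinearMap.ker (D ^ (p - 1)))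
  -- powers at least `p` vanish
  have hbig : ∀ k, p ≤ k → ∀ m, (D ^ k) m = 0 := by
    intro k hk m
    obtain ⟨l, rfl⟩ := Nat.exists_eq_add_of_le hk
    rw [add_comm, pow_add, hD, mul_zero]
    rfl
  have hpow : ∀ a b : ℕ, ∀ m, (D ^ a) ((D ^ b) m) = (D ^ (a + b)) m := by
    intro a b m
    rw [pow_add]
    rfl
  have hinj : ∀ v : V, (D ^ (p - 1)) (v : M) = 0 → v = 0 := by
    intro v hv
    have h1 : (v : M) ∈ LinearMap.ker (D ^ (p - 1)) ⊓ V := ⟨hv, v.2⟩
    rw [hV.inf_eq_bot] at h1
    exact Subtype.ext h1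
  have hsur : ∀ m, D m = 0 → ∃ v : V, (D ^ (p - 1)) (v : M) = m := by
    intro m hm
    obtain ⟨g, hg⟩ := hex m hm
    have h1 : g ∈ LinearMap.ker (D ^ (p - 1)) ⊔ V := by rw [hV.sup_eq_top]; trivial
    obtain ⟨w, hw, v, hv, hwv⟩ := Submodule.mem_sup.1 h1
    refine ⟨⟨v, hv⟩, ?_⟩
    rw [hg, ← hwv, map_add]
    have h2 : (D ^ (p - 1)) w = 0 := hw
    rw [h2, zero_add]
  let e : (Fin p → V) →ₗ[K] M :=
    ∑ j : Fin p, (D ^ (j : ℕ)) ∘ₗ V.subtype ∘ₗ LinearMap.proj j
  have he : ∀ w : Fin p → V, e w = ∑ j : Fin p, (D ^ (j : ℕ)) (w j : M) := by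
    intro w
    show (∑ j : Fin p, (D ^ (j : ℕ)) ∘ₗ V.subtype ∘ₗ LinearMap.proj j) w = _
    rw [LinearMap.sum_apply]
    rfl
  have hsingle : ∀ (k : Fin p) (v : V), e (Pi.single k v) = (D ^ (k : ℕ)) (v : M) := by
    intro k v
    rw [he, Finset.sum_eq_single k]
    · rw [Pi.single_eq_same]
    · intro j _ hj
      rw [Pi.single_eq_of_ne hj]
      simp
    · intro h
      exact absurd (mem_univ k) h
  have e_inj : Function.Injective e := by
    rw [← LinearMap.ker_eq_bot, LinearMap.ker_eq_bot']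
    intro w hw
    rw [he] at hw
    have key : ∀ n : ℕ, ∀ hn : n < p, w ⟨n, hn⟩ = 0 := by
      intro n
      induction n using Nat.strong_induction_on with
      | _ n ih =>
        intro hn
        have h1 := congrArg (fun x => (D ^ (p - 1 - n)) x) hw
        simp only [map_sum, map_zero, hpow] at h1
        rw [Finset.sum_eq_single (⟨n, hn⟩ : Fin p)] at h1
        · have h2 : p - 1 - n + n = p - 1 := by omega
          dsimp only at h1
          rw [h2] at h1
          exact hinj _ h1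
        · intro j _ hj
          rcases lt_or_ge (j : ℕ) n with h | h
          · have h3 := ih j h j.2
            have h4 : w j = 0 := h3
            rw [h4]
            simp
          · have h5 : (j : ℕ) ≠ n := fun hh => hj (Fin.ext hh)
            exact hbig _ (by omega) _
        · intro h
          exact absurd (mem_univ _) h
    funext j
    exact key j j.2
  have e_surj : Function.Surjective e := by
    have key : ∀ k : ℕ, k ≤ p → ∀ m, (D ^ k) m = 0 → m ∈ LinearMap.range e := by
      intro k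
      induction k with
      | zero =>
        intro _ m hm
        have h1 : m = 0 := by simpa using hm
        rw [h1]
        exact Submodule.zero_mem _
      | succ k ih =>
        intro hk m hm
        have h1 : D ((D ^ k) m) = 0 := by
          have h2 := hpow 1 k m
          rw [pow_one, add_comm] at h2
          rw [h2]
          exact hm
        obtain ⟨v, hv⟩ := hsur _ h1
        have hlt : p - 1 - k < p := by omega
        have h2 : (D ^ k) (m - (D ^ (p - 1 - k)) (v : M)) = 0 := by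
          rw [map_sub, hpow, show k + (p - 1 - k) = p - 1 by omega, hv, sub_self]
        have h3 := ih (by omega) _ h2
        have h4 : (D ^ (p - 1 - k)) (v : M) ∈ LinearMap.range e :=
          ⟨Pi.single ⟨p - 1 - k, hlt⟩ v, hsingle _ _⟩
        have h5 := Submodule.add_mem _ h3 h4
        rwa [sub_add_cancel] at h5
    intro m
    exact key p le_rfl m (hbig p le_rfl m)
  let E : (Fin p → V) ≃ₗ[K] M := LinearEquiv.ofBijective e ⟨e_inj, e_surj⟩
  have hE : ∀ (k : Fin p) (v : V), E.symm ((D ^ (k : ℕ)) (v : M)) = Pi.single k v := by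
    intro k v
    rw [LinearEquiv.symm_apply_eq]
    exact (hsingle k v).symm
  have hlast : p - 1 < p := by omega
  refine ⟨V.subtype ∘ₗ LinearMap.proj (⟨p - 1, hlast⟩ : Fin p) ∘ₗ E.symm.toLinearMap, ?_⟩
  have hh : ∀ (k : ℕ) (hk : k < p) (v : V),
      (V.subtype ∘ₗ LinearMap.proj (⟨p - 1, hlast⟩ : Fin p) ∘ₗ E.symm.toLinearMap)
        ((D ^ k) (v : M)) = if k = p - 1 then (v : M) else 0 := by
    intro k hk v
    have h1 := hE ⟨k, hk⟩ v
    dsimp only at h1
    show ((E.symm ((D ^ k) (v : M)) (⟨p - 1, hlast⟩ : Fin p) : V) : M) = _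
    rw [h1]
    split_ifs with h
    · subst h
      rw [Pi.single_eq_same]
    · rw [Pi.single_eq_of_ne (fun hh => h (congrArg Fin.val hh).symm)]
      rfl
  set h := V.subtype ∘ₗ LinearMap.proj (⟨p - 1, hlast⟩ : Fin p) ∘ₗ E.symm.toLinearMap with hdef
  -- linearity
  let S : M →ₗ[K] M := ∑ j ∈ range p, (D ^ j) ∘ₗ h ∘ₗ (D ^ (p - 1 - j))
  have hS : ∀ m, S m = ∑ j ∈ range p, (D ^ j) (h ((D ^ (p - 1 - j)) m)) := by
    intro m
    show (∑ j ∈ range p, (D ^ j) ∘ₗ h ∘ₗ (D ^ (p - 1 - j))) m = _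
    rw [LinearMap.sum_apply]
    rfl
  have hgen : ∀ (i : ℕ) (hi : i < p) (v : V), S ((D ^ i) (v : M)) = (D ^ i) (v : M) := by
    intro i hi v
    rw [hS, Finset.sum_eq_single i]
    · rw [hpow, show p - 1 - i + i = p - 1 by omega, hh (p - 1) hlast, if_pos rfl]
    · intro j hj hji
      rw [mem_range] at hj
      rw [hpow]
      rcases lt_or_ge (p - 1 - j + i) p with hlt | hge
      · rw [hh _ hlt, if_neg (by omega), map_zero]
      · rw [hbig _ hge, map_zero, map_zero]
    · intro hn
      exact absurd (mem_range.2 hi) hn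
  intro m
  rw [← hS]
  obtain ⟨w, rfl⟩ := e_surj m
  rw [he, map_sum]
  exact Finset.sum_congr rfl (fun j _ => hgen j j.2 (w j))

end Pool.Agent.P166ae0
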