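import Mathlib

/-!
# Definitions shared by the modules of the proof of the Premet–Skryabin conjecture (MP_166ae0_al)
-/

set_option autoImplicit false

namespace Pool.Agent.P166ae0

open MvPolynomial

/-- The derivation of the polynomial ring `K[y_0, …, y_{M-1}]` with `y_i ↦ y_{i+1}` and
`y_{M-1} ↦ 0` (one Jordan block). -/
noncomputable def blockD (K : Type*) [Field K] (M : ℕ) :
    Derivation K (MvPolynomial (Fin M) K) (MvPolynomial (Fin M) K) :=
  mkDerivation K (fun i : Fin M => if h : (i : ℕ) + 1 < M then X ⟨(i : ℕ) + 1, h⟩ else 0)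

/-- The same for a family of Jordan blocks. -/
noncomputable def sigmaD (K : Type*) [Field K] {r : ℕ} (m : Fin r → ℕ) :
    Derivation K (MvPolynomial (Σ k : Fin r, Fin (m k)) K)
      (MvPolynomial (Σ k : Fin r, Fin (m k)) K) :=
  mkDerivation K (fun x : (Σ k : Fin r, Fin (m k)) =>
    if h : (x.2 : ℕ) + 1 < m x.1 then X ⟨x.1, ⟨(x.2 : ℕ) + 1, h⟩⟩ else 0)

/-- Abstract symbol calculus with a derivation: `Sy d` is the set of pairs `(u, f)` where `u`
lies in the `d`-th filtration piece and has symbol `f`. -/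
structure SymbSetting (K U T : Type*) [Field K] [Ring U] [Algebra K U] [CommRing T]
    [Algebra K T] where
  /-- the derivation of the filtered algebra -/
  DU : U →ₗ[K] U
  /-- the derivation of the symbol algebra -/
  DT : T →ₗ[K] T
  /-- pairs (element, symbol) -/
  Sy : ℕ → Submodule K (U × T)
  DU_mul : ∀ a b : U, DU (a * b) = DU a * b + a * DU b
  DT_mul : ∀ a b : T, DT (a * b) = DT a * b + a * DT b
  one_mem : ((1 : U), (1 : T)) ∈ Sy 0
  mul_mem : ∀ {d e : ℕ} {a b : U} {f g : T}, (a, f) ∈ Sy d → (b, g) ∈ Sy e →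
    (a * b, f * g) ∈ Sy (d + e)
  D_mem : ∀ {d : ℕ} {u : U} {f : T}, (u, f) ∈ Sy d → (DU u, DT f) ∈ Sy d

/-- A polynomial ring with a derivation `Dσ`, mapped to the symbol algebra by `ℓ`, lifts
equivariantly to the filtered algebra. -/
def Liftable {K U T : Type*} [Field K] [Ring U] [Algebra K U] [CommRing T] [Algebra K T]
    (S : SymbSetting K U T) {σ : Type*}
    (Dσ : Derivation K (MvPolynomial σ K) (MvPolynomial σ K)) (ℓ : σ → T) : Prop :=
  ∃ Φ : MvPolynomial σ K →ₗ[K] U,
    (∀ (d : ℕ) (f : MvPolynomial σ K), f.IsHomogeneous d → (Φ f, aeval ℓ f) ∈ S.Sy d) ∧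
    ∀ f : MvPolynomial σ K, Φ (Dσ f) = S.DU (Φ f)

end Pool.Agent.P166ae0
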