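import Mathlib
import Pool.Agent.Lib.P166ae0.Defs

/-!
# Exactness of the truncated symmetric powers of one Jordan block
-/

set_option autoImplicit false

open MvPolynomial

namespace Pool.Agent.P166ae0

namespace BlockExact

variable {K : Type*} [Field K] {M : ℕ}

/-- the monomial ideal generated by `y_0 ^ p` and the `y_i` with `i ≥ j` -/
noncomputable def II (K : Type*) [Field K] {M : ℕ} (p : ℕ) (hM : 0 < M) (j : ℕ) :
    Ideal (MvPolynomial (Fin M) K) :=
  Ideal.span ((fun s => monomial s (1 : K)) ''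
    {s : Fin M →₀ ℕ | s = Finsupp.single ⟨0, hM⟩ p ∨ ∃ i : Fin M, j ≤ (i : ℕ) ∧
      s = Finsupp.single i 1})

theorem mem_II {p : ℕ} {hM : 0 < M} {j : ℕ} {f : MvPolynomial (Fin M) K} :
    f ∈ II K p hM j ↔ ∀ m ∈ f.support, p ≤ m ⟨0, hM⟩ ∨ ∃ i : Fin M, j ≤ (i : ℕ) ∧ 1 ≤ m i := by
  rw [II, mem_ideal_span_monomial_image]
  refine forall₂_congr fun m _ => ?_
  constructor
  · rintro ⟨s, hs | ⟨i, hi, hs⟩, hle⟩
    · left
      subst hs
      simpa using hle ⟨0, hM⟩
    · right
      subst hs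
      exact ⟨i, hi, by simpa using hle i⟩
  · rintro (h | ⟨i, hi, h⟩)
    · exact ⟨_, Or.inl rfl, by simpa [Finsupp.single_le_iff] using h⟩
    · exact ⟨_, Or.inr ⟨i, hi, rfl⟩, by simpa [Finsupp.single_le_iff] using h⟩

theorem II_mono {p : ℕ} {hM : 0 < M} {j : ℕ} : II K p hM (j + 1) ≤ II K p hM j := by
  intro f hf
  rw [mem_II] at hf ⊢
  intro m hm
  rcases hf m hm with h | ⟨i, hi, h⟩
  · exact Or.inl h
  · exact Or.inr ⟨i, by omega, h⟩

theorem X_mem_II {p : ℕ} {hM : 0 < M} {j : ℕ} (i : Fin M) (hi : j ≤ (i : ℕ)) :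
    (X i : MvPolynomial (Fin M) K) ∈ II K p hM j := by
  apply Ideal.subset_span
  exact ⟨Finsupp.single i 1, Or.inr ⟨i, hi, rfl⟩, rfl⟩

theorem D_X (i : Fin M) : blockD K M (X i) =
    if h : (i : ℕ) + 1 < M then X ⟨(i : ℕ) + 1, h⟩ else 0 := by
  rw [blockD, mkDerivation_X]

theorem D_mem_II (p : ℕ) [Fact p.Prime] [CharP K p] {hM : 0 < M} {j : ℕ}
    {f : MvPolynomial (Fin M) K} (hf : f ∈ II K p hM j) : blockD K M f ∈ II K p hM j := by
  refine Submodule.span_induction (p := fun x _ => blockD K M x ∈ II K p hM j) ?_ ?_ ?_ ?_ hf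
  · rintro _ ⟨s, hs | ⟨i, hi, hs⟩, rfl⟩
    · subst hs
      have : (monomial (Finsupp.single (⟨0, hM⟩ : Fin M) p) (1 : K)) = X ⟨0, hM⟩ ^ p := by
        rw [X_pow_eq_monomial]
      simp only [this, Derivation.leibniz_pow]
      have h0 : (p : ℕ) • ((X (⟨0, hM⟩ : Fin M) : MvPolynomial (Fin M) K) ^ (p - 1) •
          blockD K M (X ⟨0, hM⟩)) = 0 := by
        rw [← Nat.cast_smul_eq_nsmul K, CharP.cast_eq_zero, zero_smul]
      rw [h0]
      exact zero_mem _
    · subst hs
      have : (monomial (Finsupp.single i 1) (1 : K)) = X i := rfl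
      simp only [this, D_X]
      split_ifs with h
      · exact X_mem_II (K := K) (p := p) (hM := hM) ⟨(i : ℕ) + 1, h⟩ (by simp; omega)
      · exact zero_mem _
  · simp
  · intro x y _ _ hx hy
    rw [map_add]; exact add_mem hx hy
  · intro a x hx hDx
    rw [smul_eq_mul, Derivation.leibniz, smul_eq_mul, smul_eq_mul]
    refine add_mem (Ideal.mul_mem_left _ _ hDx) ?_
    exact Ideal.mul_mem_right _ _ hx

theorem Dn_mem_II (p : ℕ) [Fact p.Prime] [CharP K p] {hM : 0 < M} {j : ℕ} (n : ℕ)
    {f : MvPolynomial (Fin M) K} (hf : f ∈ II K p hM j) :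
    (blockD K M)^[n] f ∈ II K p hM j := by
  induction n with
  | zero => simpa using hf
  | succ n ih => rw [Function.iterate_succ_apply']; exact D_mem_II p ih

theorem Dn_add (n : ℕ) (f g : MvPolynomial (Fin M) K) :
    (blockD K M)^[n] (f + g) = (blockD K M)^[n] f + (blockD K M)^[n] g :=
  iterate_map_add (blockD K M) n f g

theorem Dn_sub (n : ℕ) (f g : MvPolynomial (Fin M) K) :
    (blockD K M)^[n] (f - g) = (blockD K M)^[n] f - (blockD K M)^[n] g :=
  iterate_map_sub (blockD K M) n f g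

theorem Dn_neg (n : ℕ) (f : MvPolynomial (Fin M) K) :
    (blockD K M)^[n] (-f) = -(blockD K M)^[n] f :=
  iterate_map_neg (blockD K M) n f

theorem Dn_zero (n : ℕ) : (blockD K M)^[n] (0 : MvPolynomial (Fin M) K) = 0 :=
  iterate_map_zero (blockD K M) n

/-- nilpotency -/
theorem Dn_mul (n : ℕ) (f g : MvPolynomial (Fin M) K) :
    (blockD K M)^[n] (f * g) = ∑ k ∈ Finset.range (n + 1),
      (n.choose k : MvPolynomial (Fin M) K) * ((blockD K M)^[k] f * (blockD K M)^[n - k] g) := by
  induction n with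
  | zero => simp
  | succ n ih =>
    have hc : ∀ m : ℕ, blockD K M (m : MvPolynomial (Fin M) K) = 0 := fun m =>
      Derivation.map_natCast _ m
    rw [Function.iterate_succ_apply', ih, map_sum, Finset.sum_range_succ' _ (n + 1)]
    have key : ∀ k ∈ Finset.range (n + 1), blockD K M ((n.choose k : MvPolynomial (Fin M) K) *
        ((blockD K M)^[k] f * (blockD K M)^[n - k] g)) =
        (n.choose k : MvPolynomial (Fin M) K) *
          ((blockD K M)^[k + 1] f * (blockD K M)^[n - k] g) +
        (n.choose k : MvPolynomial (Fin M) K) *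
          ((blockD K M)^[k] f * (blockD K M)^[n + 1 - k] g) := by
      intro k hk
      have hk' : k ≤ n := by simpa [Nat.lt_succ_iff] using hk
      rw [Derivation.leibniz, hc, smul_zero, add_zero, Derivation.leibniz]
      simp only [smul_eq_mul]
      rw [← Function.iterate_succ_apply' (blockD K M) k f,
        ← Function.iterate_succ_apply' (blockD K M) (n - k) g,
        show (n - k).succ = n + 1 - k by omega]
      ring
    rw [Finset.sum_congr rfl key, Finset.sum_add_distrib]
    have h2 : ∑ k ∈ Finset.range (n + 1), (n.choose k : MvPolynomial (Fin M) K) *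
          ((blockD K M)^[k] f * (blockD K M)^[n + 1 - k] g) =
        ∑ k ∈ Finset.range (n + 1), (n.choose (k + 1) : MvPolynomial (Fin M) K) *
          ((blockD K M)^[k + 1] f * (blockD K M)^[n + 1 - (k + 1)] g) +
          f * (blockD K M)^[n + 1] g := by
      rw [Finset.sum_range_succ' _ n, Finset.sum_range_succ _ n]
      simp
    rw [h2]
    simp only [Nat.choose_succ_succ, Nat.cast_add, add_mul, Finset.sum_add_distrib,
      Nat.add_sub_add_right]
    simp
    ring

theorem Dp_mul (p : ℕ) [hp : Fact p.Prime] [CharP K p] (f g : MvPolynomial (Fin M) K) :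
    (blockD K M)^[p] (f * g) = f * (blockD K M)^[p] g + (blockD K M)^[p] f * g := by
  rw [Dn_mul, Finset.sum_eq_add 0 p hp.out.ne_zero.symm]
  · simp
  · intro c hc hc'
    have hdvd : p ∣ p.choose c :=
      hp.out.dvd_choose_self hc'.1 (lt_of_le_of_ne (by simpa [Nat.lt_succ_iff] using hc) hc'.2)
    have : (p.choose c : MvPolynomial (Fin M) K) = 0 :=
      (CharP.cast_eq_zero_iff (MvPolynomial (Fin M) K) p _).2 hdvd
    rw [this, zero_mul]
  · intro h; simp at h
  · intro h; simp at h

theorem Dn_X (n : ℕ) (i : Fin M) : (blockD K M)^[n] (X i) =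
    if h : (i : ℕ) + n < M then X ⟨(i : ℕ) + n, h⟩ else 0 := by
  induction n with
  | zero => simp
  | succ n ih =>
    rw [Function.iterate_succ_apply', ih]
    by_cases h : (i : ℕ) + n < M
    · rw [dif_pos h, D_X]
      by_cases h' : (i : ℕ) + (n + 1) < M
      · rw [dif_pos h', dif_pos (by simpa [add_assoc] using h')]
        simp [add_assoc]
      · rw [dif_neg h', dif_neg (by simpa [add_assoc] using h')]
    · rw [dif_neg h, dif_neg (by omega), map_zero]

theorem Dp_zero (p : ℕ) [hp : Fact p.Prime] [CharP K p] (hMp : M ≤ p)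
    (f : MvPolynomial (Fin M) K) : (blockD K M)^[p] f = 0 := by
  induction f using MvPolynomial.induction_on with
  | C a =>
    obtain ⟨q, hq⟩ : ∃ q, p = q + 1 := ⟨p - 1, by have := hp.out.pos; omega⟩
    rw [hq, Function.iterate_succ_apply]
    have : blockD K M (C a) = 0 := derivation_C _ a
    rw [this, Dn_zero]
  | add f g hf hg => rw [Dn_add, hf, hg, add_zero]
  | mul_X f i hf =>
    rw [Dp_mul, hf, zero_mul, add_zero, Dn_X, dif_neg (by omega), mul_zero]

/-- homogeneity -/
theorem D_homog {d : ℕ} {f : MvPolynomial (Fin M) K} (hf : f.IsHomogeneous d) :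
    (blockD K M f).IsHomogeneous d := by
  classical
  have hsum : ∀ (s : Finset (Fin M)) (E : Fin M → Derivation K (MvPolynomial (Fin M) K)
      (MvPolynomial (Fin M) K)) (h : MvPolynomial (Fin M) K),
      (∑ i ∈ s, E i) h = ∑ i ∈ s, E i h := by
    intro s E h
    induction s using Finset.induction_on with
    | empty => simp
    | insert a s ha ih => rw [Finset.sum_insert ha, Finset.sum_insert ha, Derivation.add_apply, ih]
  have hD : blockD K M f = ∑ i, pderiv i f * blockD K M (X i) := by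
    have : blockD K M = ∑ i, (blockD K M (X i)) • (pderiv i : Derivation K _ _) := by
      apply derivation_ext
      intro i
      rw [hsum, Finset.sum_eq_single i]
      · simp
      · intro j _ hj
        simp [pderiv_X, hj.symm]
      · simp
    conv_lhs => rw [this]
    rw [hsum]
    exact Finset.sum_congr rfl fun i _ => by simp [mul_comm]
  rw [hD]
  refine IsHomogeneous.sum _ _ _ fun i _ => ?_
  rcases Nat.eq_zero_or_pos d with rfl | hd
  · have : pderiv i f = 0 := by
      have hf0 : f = C (coeff 0 f) := by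
        rw [← totalDegree_eq_zero_iff_eq_C]
        exact Nat.le_zero.1 hf.totalDegree_le
      rw [hf0, pderiv_C]
    rw [this, zero_mul]
    exact isHomogeneous_zero _ _ _
  · have h1 : (blockD K M (X i)).IsHomogeneous 1 := by
      rw [D_X]
      split_ifs
      · exact isHomogeneous_X _ _
      · exact isHomogeneous_zero _ _ _
    have := (hf.pderiv (i := i)).mul h1
    rwa [Nat.sub_add_cancel hd] at this

theorem Dn_homog {d : ℕ} (n : ℕ) {f : MvPolynomial (Fin M) K} (hf : f.IsHomogeneous d) :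
    ((blockD K M)^[n] f).IsHomogeneous d := by
  induction n with
  | zero => simpa using hf
  | succ n ih => rw [Function.iterate_succ_apply']; exact D_homog ih

/-- `f ∈ Im D^k + I` in degree `d` -/
def InIm (K : Type*) [Field K] {M : ℕ} (I : Ideal (MvPolynomial (Fin M) K)) (k d : ℕ)
    (f : MvPolynomial (Fin M) K) : Prop :=
  ∃ g : MvPolynomial (Fin M) K, g.IsHomogeneous d ∧ f - (blockD K M)^[k] g ∈ I

def Claim (K : Type*) [Field K] {M : ℕ} (p : ℕ) (hM : 0 < M) (j : ℕ) : Prop :=
  ∀ (d : ℕ), p ≤ d → ∀ f : MvPolynomial (Fin M) K, f.IsHomogeneous d →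
    blockD K M f ∈ II K p hM j → InIm K (II K p hM j) (p - 1) d f

theorem claim_C (p : ℕ) [hp : Fact p.Prime] [CharP K p] (hMp : M ≤ p) {hM : 0 < M} {j : ℕ}
    (hcl : Claim K p hM j) {d : ℕ} (hd : p ≤ d) (i : ℕ) (hi : i ≤ p - 1) (hi0 : 0 < i) :
    ∀ x : MvPolynomial (Fin M) K, x.IsHomogeneous d →
      (blockD K M)^[i] x ∈ II K p hM j → InIm K (II K p hM j) (p - i) d x := by
  induction i with
  | zero => omega
  | succ i ih =>
    intro x hx hDx
    rcases Nat.eq_zero_or_pos i with rfl | hi1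
    · simpa using hcl d hd x hx (by simpa using hDx)
    · obtain ⟨w, hw, hwI⟩ := ih (by omega) hi1 (blockD K M x) (D_homog hx)
        (by rwa [Function.iterate_succ_apply] at hDx)
      have h1 : blockD K M (x - (blockD K M)^[p - (i + 1)] w) ∈ II K p hM j := by
        rw [map_sub, ← Function.iterate_succ_apply' (blockD K M),
          show (p - (i + 1)).succ = p - i by omega]
        exact hwI
      obtain ⟨v, hv, hvI⟩ := hcl d hd _ (hx.sub (Dn_homog _ hw)) h1
      refine ⟨w + (blockD K M)^[i] v, hw.add (Dn_homog _ hv), ?_⟩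
      rw [Dn_add, ← Function.iterate_add_apply, show p - (i + 1) + i = p - 1 by omega]
      have : x - ((blockD K M)^[p - (i + 1)] w + (blockD K M)^[p - 1] v) =
        x - (blockD K M)^[p - (i + 1)] w - (blockD K M)^[p - 1] v := by ring
      rw [this]
      exact hvI

/-- splitting off the variable `y_j` -/
theorem split_II {p : ℕ} {hM : 0 < M} {j : ℕ} (hj : j < M) {d : ℕ}
    {f : MvPolynomial (Fin M) K} (hf : f.IsHomogeneous (d + 1)) (hfI : f ∈ II K p hM j) :
    ∃ g : MvPolynomial (Fin M) K, g.IsHomogeneous d ∧ f - X ⟨j, hj⟩ * g ∈ II K p hM (j + 1) := by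
  classical
  refine ⟨divMonomial f (Finsupp.single ⟨j, hj⟩ 1), ?_, ?_⟩
  · intro m hm
    rw [coeff_divMonomial] at hm
    have h1 : (Finsupp.single (⟨j, hj⟩ : Fin M) 1 + m).degree = d + 1 := by
      by_contra hne
      exact hm (hf.coeff_eq_zero hne)
    rw [map_add, Finsupp.degree_single] at h1
    have h2 : m.degree = d := by omega
    rw [← h2, Finsupp.degree_eq_weight_one]
    rfl
  · have := divMonomial_add_modMonomial_single f ⟨j, hj⟩
    have h2 : f - X ⟨j, hj⟩ * (divMonomial f (Finsupp.single ⟨j, hj⟩ 1)) =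
        modMonomial f (Finsupp.single ⟨j, hj⟩ 1) := by
      nth_rewrite 1 [← this]
      ring
    rw [h2, mem_II]
    intro m hm
    rw [mem_support_iff] at hm
    by_cases hle : Finsupp.single ⟨j, hj⟩ 1 ≤ m
    · exact absurd (coeff_modMonomial_of_le _ hle) hm
    · rw [coeff_modMonomial_of_not_le _ hle] at hm
      rcases mem_II.1 hfI m (mem_support_iff.2 hm) with h | ⟨i, hi, h⟩
      · exact Or.inl h
      · right
        refine ⟨i, ?_, h⟩
        rcases Nat.lt_or_ge j (i : ℕ) with h3 | h3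
        · exact h3
        · exfalso
          have : i = ⟨j, hj⟩ := Fin.ext (by simp; omega)
          subst this
          exact hle (by simpa [Finsupp.single_le_iff] using h)

theorem cancel_X {p : ℕ} {hM : 0 < M} {j : ℕ} (hj0 : 0 < j) (hj : j < M)
    {f : MvPolynomial (Fin M) K} (hf : X ⟨j, hj⟩ * f ∈ II K p hM (j + 1)) :
    f ∈ II K p hM (j + 1) := by
  rw [mem_II] at hf ⊢
  intro m hm
  have h1 : Finsupp.single (⟨j, hj⟩ : Fin M) 1 + m ∈
      ((X (⟨j, hj⟩ : Fin M) : MvPolynomial (Fin M) K) * f).support := by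
    rw [mem_support_iff, coeff_X_mul]
    exact mem_support_iff.1 hm
  rcases hf _ h1 with h | ⟨i, hi, h⟩
  · left
    have : (⟨j, hj⟩ : Fin M) ≠ ⟨0, hM⟩ := by
      intro h; simp at h; omega
    simpa [Finsupp.single_apply, this] using h
  · right
    refine ⟨i, hi, ?_⟩
    have : (⟨j, hj⟩ : Fin M) ≠ i := by
      intro h; subst h; simp at hi
    simpa [Finsupp.single_apply, this] using h

theorem DX_mem {p : ℕ} {hM : 0 < M} {j : ℕ} (hj : j < M) :
    blockD K M (X ⟨j, hj⟩) ∈ II K p hM (j + 1) := by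
  rw [D_X]
  split_ifs with h
  · exact X_mem_II (K := K) (p := p) (hM := hM) _ (by simp)
  · exact zero_mem _

/-- constants modulo `I` pull out -/
theorem Dn_const_mul (p : ℕ) [Fact p.Prime] [CharP K p] {hM : 0 < M} {j : ℕ}
    {c : MvPolynomial (Fin M) K} (hc : blockD K M c ∈ II K p hM j) (n : ℕ)
    (f : MvPolynomial (Fin M) K) :
    (blockD K M)^[n] (c * f) - c * (blockD K M)^[n] f ∈ II K p hM j := by
  induction n with
  | zero => simp
  | succ n ih =>
    rw [Function.iterate_succ_apply', Function.iterate_succ_apply']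
    have h1 := D_mem_II p ih
    rw [map_sub, Derivation.leibniz (blockD K M) c, smul_eq_mul, smul_eq_mul] at h1
    have h2 : (blockD K M)^[n] f * blockD K M c ∈ II K p hM j := Ideal.mul_mem_left _ _ hc
    have := add_mem h1 h2
    convert this using 1
    ring

theorem step_A (p : ℕ) [hp : Fact p.Prime] [CharP K p] (hMp : M ≤ p) {hM : 0 < M} {j : ℕ}
    (hj0 : 0 < j) (hj : j < M) (hcl : Claim K p hM j) {d : ℕ} (hd : p ≤ d + 1)
    {f : MvPolynomial (Fin M) K}
    (h : InIm K (II K p hM (j + 1)) (p - 1) (d + 1) (X ⟨j, hj⟩ * f)) :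
    InIm K (II K p hM (j + 1)) (p - 1) d f := by
  obtain ⟨g, hg, hgI⟩ := h
  have hp2 := hp.out.two_le
  have hXf : X ⟨j, hj⟩ * f ∈ II K p hM j :=
    Ideal.mul_mem_right _ _ (X_mem_II (K := K) (p := p) (hM := hM) ⟨j, hj⟩ le_rfl)
  have hDg : (blockD K M)^[p - 1] g ∈ II K p hM j := by
    have := sub_mem hXf (II_mono hgI)
    simpa using this
  obtain ⟨k, hk, hkI⟩ := claim_C p hMp hcl hd (p - 1) le_rfl (by omega) g hg hDg
  rw [show p - (p - 1) = 1 by omega, Function.iterate_one] at hkI
  obtain ⟨g', hg', hg'I⟩ := split_II hj (hg.sub (D_homog hk)) hkI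
  refine ⟨g', hg', ?_⟩
  apply cancel_X hj0 hj
  have e1 : (blockD K M)^[p - 1] (g - blockD K M k - X ⟨j, hj⟩ * g') ∈ II K p hM (j + 1) :=
    Dn_mem_II p _ hg'I
  rw [Dn_sub, Dn_sub, ← Function.iterate_succ_apply (blockD K M),
    show (p - 1).succ = p by omega, Dp_zero p hMp, sub_zero] at e1
  have e2 := Dn_const_mul p (DX_mem (K := K) (p := p) (hM := hM) hj) (p - 1) g'
  have := add_mem (add_mem hgI e1) e2
  convert this using 1
  ring

theorem wilson_aux (p : ℕ) [hp : Fact p.Prime] [CharP K p] {hM : 0 < M} {j : ℕ}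
    (hj : j + 1 < M) (n : ℕ) (hn : n ≤ p - 1) :
    (blockD K M)^[n] (X ⟨j, by omega⟩ ^ (p - 1)) -
      ((p - 1).descFactorial n : MvPolynomial (Fin M) K) *
        (X ⟨j, by omega⟩ ^ (p - 1 - n) * X ⟨j + 1, hj⟩ ^ n) ∈ II K p hM (j + 2) := by
  induction n with
  | zero => simp
  | succ n ih =>
    have h1 := D_mem_II p (ih (by omega))
    rw [Function.iterate_succ_apply']
    have hX : blockD K M (X ⟨j, by omega⟩) = X ⟨j + 1, hj⟩ := by
      rw [D_X, dif_pos hj]
    rw [map_sub, Derivation.leibniz, Derivation.map_natCast, smul_zero, add_zero,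
      Derivation.leibniz, Derivation.leibniz_pow, Derivation.leibniz_pow, hX] at h1
    have h2 : blockD K M (X ⟨j + 1, hj⟩) ∈ II K p hM (j + 2) := DX_mem hj
    have h3 : ((p - 1).descFactorial n : MvPolynomial (Fin M) K) *
        (X ⟨j, by omega⟩ ^ (p - 1 - n) * ((n : MvPolynomial (Fin M) K) *
          (X ⟨j + 1, hj⟩ ^ (n - 1) * blockD K M (X ⟨j + 1, hj⟩)))) ∈ II K p hM (j + 2) := by
      refine Ideal.mul_mem_left _ _ (Ideal.mul_mem_left _ _ (Ideal.mul_mem_left _ _
        (Ideal.mul_mem_left _ _ h2)))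
    have h4 := add_mem h1 h3
    convert h4 using 1
    rw [Nat.descFactorial_succ, show p - 1 - (n + 1) = p - 1 - n - 1 by omega]
    simp only [smul_eq_mul, nsmul_eq_mul, Nat.cast_mul]
    ring

theorem wilson_II (p : ℕ) [hp : Fact p.Prime] [CharP K p] {hM : 0 < M} {j : ℕ}
    (hj : j + 1 < M) :
    (blockD K M)^[p - 1] (X ⟨j, by omega⟩ ^ (p - 1)) + X ⟨j + 1, hj⟩ ^ (p - 1)
      ∈ II K p hM (j + 2) := by
  have h := wilson_aux (K := K) p (hM := hM) hj (p - 1) le_rfl
  have hw : ((p - 1).descFactorial (p - 1) : MvPolynomial (Fin M) K) = -1 := by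
    rw [Nat.descFactorial_self]
    have h1 : (((p - 1).factorial : ℕ) : ZMod p) = -1 := ZMod.wilsons_lemma p
    have h2 : (p : ℕ) ∣ (p - 1).factorial + 1 := by
      rw [← ZMod.natCast_eq_zero_iff]
      push_cast
      rw [h1]; ring
    have h3 : (((p - 1).factorial + 1 : ℕ) : MvPolynomial (Fin M) K) = 0 :=
      (CharP.cast_eq_zero_iff (MvPolynomial (Fin M) K) p _).2 h2
    push_cast at h3
    exact eq_neg_of_add_eq_zero_left h3
  rw [hw] at h
  simpa using h

theorem claim_one (p : ℕ) [hp : Fact p.Prime] {hM : 0 < M} : Claim K p hM 1 := by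
  intro d hd f hf _
  refine ⟨0, isHomogeneous_zero _ _ _, ?_⟩
  rw [Dn_zero, sub_zero, mem_II]
  intro m hm
  by_contra hcon
  rw [not_or] at hcon
  obtain ⟨h0, h1'⟩ := hcon
  have h1 : ∀ i : Fin M, 1 ≤ (i : ℕ) → m i = 0 := by
    intro i hi
    by_contra h
    exact h1' ⟨i, hi, by omega⟩
  have hdeg : m.degree = d := by
    by_contra hne
    exact mem_support_iff.1 hm (hf.coeff_eq_zero hne)
  have : m.degree = m ⟨0, hM⟩ := by
    rw [Finsupp.degree_apply]
    rw [Finset.sum_subset (Finset.subset_univ _)]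
    · rw [Finset.sum_eq_single ⟨0, hM⟩]
      · intro i _ hi
        have : 1 ≤ (i : ℕ) := by
          rcases Nat.eq_zero_or_pos (i : ℕ) with h | h
          · exact absurd (Fin.ext h) hi
          · exact h
        have := h1 i this
        omega
      · simp
    · intro i _ hi
      simpa using hi
  omega

theorem claim_succ (p : ℕ) [hp : Fact p.Prime] [CharP K p] (hMp : M ≤ p) {hM : 0 < M} {j : ℕ}
    (hj0 : 0 < j) (hj : j < M) (hcl : Claim K p hM j) : Claim K p hM (j + 1) := by
  intro d hd f hf hDf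
  have hp2 := hp.out.two_le
  have hB : InIm K (II K p hM (j + 1)) (p - 1) (d + (p - 1)) (X ⟨j, hj⟩ ^ (p - 1) * f) := by
    obtain ⟨i, rfl⟩ : ∃ i, j = i + 1 := ⟨j - 1, by omega⟩
    refine ⟨-(f * X ⟨i, by omega⟩ ^ (p - 1)), ?_, ?_⟩
    · refine (hf.mul ?_).neg
      simpa using (isHomogeneous_X K (⟨i, by omega⟩ : Fin M)).pow (p - 1)
    · rw [Dn_neg, sub_neg_eq_add]
      have h1 := Dn_const_mul p hDf (p - 1) (X (⟨i, by omega⟩ : Fin M) ^ (p - 1))
      have h2 := Ideal.mul_mem_left _ f (wilson_II (K := K) p (hM := hM) (j := i) hj)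
      have := add_mem h1 h2
      convert this using 1
      ring
  have hdesc : ∀ k, k ≤ p - 1 → InIm K (II K p hM (j + 1)) (p - 1) (d + (p - 1 - k))
      (X ⟨j, hj⟩ ^ (p - 1 - k) * f) := by
    intro k
    induction k with
    | zero => intro _; simpa using hB
    | succ k ih =>
      intro hk
      have h := ih (by omega)
      have e : p - 1 - k = p - 1 - (k + 1) + 1 := by omega
      rw [e, pow_succ', mul_assoc, ← add_assoc] at h
      exact step_A p hMp hj0 hj hcl (by omega) h
  simpa using hdesc (p - 1) le_rfl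

theorem claim_all (p : ℕ) [hp : Fact p.Prime] [CharP K p] (hMp : M ≤ p) {hM : 0 < M} (j : ℕ)
    (hj : j + 1 ≤ M) : Claim K p hM (j + 1) := by
  induction j with
  | zero => exact claim_one p
  | succ j ih => exact claim_succ p hMp (by omega) (by omega) (ih (by omega))

/-- polynomials whose monomials all have `y_0`-exponent `< p` are stable under `D` -/
theorem D_small {p : ℕ} {hM : 0 < M} {f : MvPolynomial (Fin M) K}
    (hf : ∀ m ∈ f.support, m ⟨0, hM⟩ < p) : ∀ m ∈ (blockD K M f).support, m ⟨0, hM⟩ < p := by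
  classical
  have hD : blockD K M f = ∑ s ∈ f.support, blockD K M (monomial s (coeff s f)) := by
    conv_lhs => rw [f.as_sum, map_sum]
  intro m hm
  rw [hD] at hm
  obtain ⟨s, hs, hms⟩ := Finset.mem_biUnion.1 (support_sum hm)
  rw [blockD, mkDerivation_monomial, ← C_mul'] at hms
  rw [mem_support_iff, coeff_C_mul] at hms
  have hms' := right_ne_zero_of_mul hms
  rw [Finsupp.sum, coeff_sum] at hms'
  obtain ⟨i, hi, hne⟩ := Finset.exists_ne_zero_of_sum_ne_zero hms'
  rw [smul_eq_mul] at hne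
  by_cases h : (i : ℕ) + 1 < M
  · rw [dif_pos h, coeff_mul_X'] at hne
    split_ifs at hne with h1
    · rw [coeff_monomial] at hne
      split_ifs at hne with h2
      · have h3 := hf s hs
        have h4 : m ⟨0, hM⟩ =
            (m - Finsupp.single (⟨(i : ℕ) + 1, h⟩ : Fin M) 1 : Fin M →₀ ℕ) ⟨0, hM⟩ := by
          have : (⟨(i : ℕ) + 1, h⟩ : Fin M) ≠ ⟨0, hM⟩ := by intro h; simp at h
          simp
        rw [h4, ← h2]
        simp only [Finsupp.coe_tsub, Pi.sub_apply]
        omega
      · exact absurd rfl hne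
    · exact absurd rfl hne
  · rw [dif_neg h, mul_zero, coeff_zero] at hne
    exact absurd rfl hne

theorem Dn_small {p : ℕ} {hM : 0 < M} (n : ℕ) {f : MvPolynomial (Fin M) K}
    (hf : ∀ m ∈ f.support, m ⟨0, hM⟩ < p) :
    ∀ m ∈ ((blockD K M)^[n] f).support, m ⟨0, hM⟩ < p := by
  induction n with
  | zero => simpa using hf
  | succ n ih => rw [Function.iterate_succ_apply']; exact D_small ih

end BlockExact

open BlockExact

theorem block_exact {K : Type*} [Field K] (p : ℕ) [Fact p.Prime] [CharP K p] (M : ℕ)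
    (hM : 0 < M) (hMp : M ≤ p) (d : ℕ) (hd : p ≤ d) (f : MvPolynomial (Fin M) K)
    (hf : f.IsHomogeneous d) (hfB : f.degreeOf ⟨0, hM⟩ < p) (hD : blockD K M f = 0) :
    ∃ g : MvPolynomial (Fin M) K, g.IsHomogeneous d ∧ g.degreeOf ⟨0, hM⟩ < p ∧
      f = (blockD K M)^[p - 1] g := by
  classical
  have hp := (Fact.out : p.Prime)
  have hcl : Claim K p hM M := by
    obtain ⟨j, hj⟩ : ∃ j, M = j + 1 := ⟨M - 1, by omega⟩
    have := claim_all (K := K) (M := M) p hMp (hM := hM) j (by omega)
    rwa [← hj] at this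
  obtain ⟨g, hg, hgI⟩ := hcl d hd f hf (by rw [hD]; exact zero_mem _)
  have hfs : ∀ m ∈ f.support, m ⟨0, hM⟩ < p := fun m hm =>
    lt_of_le_of_lt (monomial_le_degreeOf _ hm) hfB
  set g1 := modMonomial g (Finsupp.single (⟨0, hM⟩ : Fin M) p) with hg1
  set q := divMonomial g (Finsupp.single (⟨0, hM⟩ : Fin M) p) with hq
  have hsum : monomial (Finsupp.single (⟨0, hM⟩ : Fin M) p) 1 * q + g1 = g :=
    divMonomial_add_modMonomial g _
  have hg1s : ∀ m ∈ g1.support, m ⟨0, hM⟩ < p := by
    intro m hm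
    by_contra hcon
    rw [not_lt] at hcon
    rw [mem_support_iff] at hm
    exact hm (coeff_modMonomial_of_le _ (by simpa [Finsupp.single_le_iff] using hcon))
  have hg1h : g1.IsHomogeneous d := by
    intro m hm
    by_cases hle : Finsupp.single (⟨0, hM⟩ : Fin M) p ≤ m
    · exact absurd (coeff_modMonomial_of_le _ hle) hm
    · rw [hg1, coeff_modMonomial_of_not_le _ hle] at hm
      exact hg hm
  have hqI : monomial (Finsupp.single (⟨0, hM⟩ : Fin M) p) 1 * q ∈ II K p hM M :=
    Ideal.mul_mem_right _ _ (Ideal.subset_span ⟨_, Or.inl rfl, rfl⟩)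
  refine ⟨g1, hg1h, ?_, ?_⟩
  · rw [degreeOf_lt_iff hp.pos]
    exact hg1s
  · have h1 : f - (blockD K M)^[p - 1] g1 ∈ II K p hM M := by
      have h2 := Dn_mem_II p (p - 1) hqI
      have h3 := add_mem hgI h2
      rw [← hsum, Dn_add] at h3
      convert h3 using 1
      ring
    rw [← sub_eq_zero]
    by_contra hne
    obtain ⟨m, hm⟩ := Finset.nonempty_iff_ne_empty.2 (mt support_eq_empty.1 hne)
    rcases mem_II.1 h1 m hm with h | ⟨i, hi, _⟩
    · have : m ∈ f.support ∪ ((blockD K M)^[p - 1] g1).support := support_sub _ _ _ hm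
      rcases Finset.mem_union.1 this with h4 | h4
      · exact absurd (hfs m h4) (by omega)
      · exact absurd (Dn_small (p - 1) hg1s m h4) (by omega)
    · exact absurd i.2 (by omega)

end Pool.Agent.P166ae0
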