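import Mathlib
import Pool.Agent.Lib.P166ae0.Defs
import Pool.Agent.Lib.P166ae0.BlockExact
import Pool.Agent.Lib.P166ae0.Average

/-!
# Equivariant lifting of one Jordan block
-/

set_option autoImplicit false

namespace Pool.Agent.P166ae0

namespace BlockLift
open MvPolynomial

variable {K : Type*} [Field K] {M : ℕ}

theorem blockD_X (i : Fin M) :
    blockD K M (X i) = if h : (i : ℕ) + 1 < M then X ⟨(i : ℕ) + 1, h⟩ else 0 := by
  simp [blockD, mkDerivation_X]

theorem dsum_apply {ι : Type*} (s : Finset ι)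
    (D : ι → Derivation K (MvPolynomial (Fin M) K) (MvPolynomial (Fin M) K))
    (f : MvPolynomial (Fin M) K) : (∑ j ∈ s, D j) f = ∑ j ∈ s, D j f := by
  classical
  induction s using Finset.induction_on with
  | empty => simp
  | insert a s ha ih => rw [Finset.sum_insert ha, Finset.sum_insert ha, Derivation.add_apply, ih]

theorem blockD_eq (f : MvPolynomial (Fin M) K) :
    blockD K M f = ∑ j, blockD K M (X j) * pderiv j f := by
  classical
  have h : blockD K M = ∑ j, blockD K M (X j) • pderiv (R := K) j := by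
    apply derivation_ext
    intro i
    rw [dsum_apply]
    simp only [Derivation.smul_apply, smul_eq_mul]
    simp [pderiv_X, Pi.single_apply]
  have h3 := congrArg (fun D : Derivation K (MvPolynomial (Fin M) K) (MvPolynomial (Fin M) K) =>
    D f) h
  rw [dsum_apply] at h3
  simpa only [Derivation.smul_apply, smul_eq_mul] using h3

theorem pderiv_blockD (i : Fin M) (f : MvPolynomial (Fin M) K) :
    pderiv i (blockD K M f) = blockD K M (pderiv i f) +
      ∑ j : Fin M, if (i : ℕ) = (j : ℕ) + 1 then pderiv j f else 0 := by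
  classical
  have h : ⁅pderiv (R := K) i, blockD K M⁆ =
      ∑ j : Fin M, (if (i : ℕ) = (j : ℕ) + 1 then (1 : K) else 0) • pderiv (R := K) j := by
    apply derivation_ext
    intro k
    rw [dsum_apply, Derivation.commutator_apply]
    simp only [Derivation.smul_apply]
    have h3 : blockD K M (pderiv i (X k)) = 0 := by
      rw [pderiv_X, Pi.single_apply]
      split_ifs <;> simp
    rw [h3, sub_zero, blockD_X]
    have h4 : ∑ j : Fin M, (if (i : ℕ) = (j : ℕ) + 1 then (1 : K) else 0) •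
        (pderiv j (X k) : MvPolynomial (Fin M) K)
        = if (i : ℕ) = (k : ℕ) + 1 then 1 else 0 := by
      rw [Finset.sum_eq_single k]
      · simp
      · intro b _ hb
        rw [pderiv_X_of_ne (Ne.symm hb), smul_zero]
      · simp
    rw [h4]
    split_ifs with h5 h6 h7
    · have : i = ⟨(k : ℕ) + 1, h5⟩ := Fin.ext h6
      rw [this, pderiv_X_self]
    · rw [pderiv_X_of_ne]
      intro h7
      exact h6 (by rw [← h7])
    · exact absurd (h7 ▸ i.2) h5
    · simp
  have h3 := congrArg (fun D : Derivation K (MvPolynomial (Fin M) K) (MvPolynomial (Fin M) K) =>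
    D f) h
  simp only [Derivation.commutator_apply] at h3
  rw [dsum_apply] at h3
  have h5 : ∑ j : Fin M, (if (i : ℕ) = (j : ℕ) + 1 then pderiv j f else 0) =
      ∑ j : Fin M, ((if (i : ℕ) = (j : ℕ) + 1 then (1 : K) else 0) • pderiv (R := K) j) f := by
    apply Finset.sum_congr rfl
    intro j _
    rw [Derivation.smul_apply]
    split_ifs <;> simp
  rw [h5, ← h3]
  ring

theorem blockD_hom {d : ℕ} {f : MvPolynomial (Fin M) K} (hf : f.IsHomogeneous d) :
    (blockD K M f).IsHomogeneous d := by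
  rw [blockD_eq]
  apply IsHomogeneous.sum
  intro j _
  rcases Nat.eq_zero_or_pos d with h0 | h0
  · subst h0
    have : pderiv j f = 0 := by
      rw [(totalDegree_eq_zero_iff_eq_C (p := f)).1 (Nat.le_zero.1 hf.totalDegree_le)]
      simp
    rw [this, mul_zero]
    exact isHomogeneous_zero _ _ _
  · have h1 : (blockD K M (X j : MvPolynomial (Fin M) K)).IsHomogeneous 1 := by
      rw [blockD_X]
      split_ifs
      · exact isHomogeneous_X _ _
      · exact isHomogeneous_zero _ _ _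
    have h2 : (pderiv j f).IsHomogeneous (d - 1) := hf.pderiv
    have h3 := h1.mul h2
    have h4 : 1 + (d - 1) = d := by omega
    rwa [h4] at h3

theorem degreeOf_pderiv_le (i j : Fin M) (f : MvPolynomial (Fin M) K) :
    (pderiv j f).degreeOf i ≤ f.degreeOf i := by
  classical
  rw [degreeOf_le_iff]
  intro m hm
  rw [mem_support_iff, coeff_pderiv] at hm
  have h1 : m + Finsupp.single j 1 ∈ f.support := by
    rw [mem_support_iff]
    intro h
    exact hm (by rw [h, zero_mul])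
  have h2 := (degreeOf_le_iff.1 (le_refl (f.degreeOf i))) _ h1
  simp only [Finsupp.add_apply] at h2
  omega

theorem degreeOf_blockD_X (hM : 0 < M) (j : Fin M) :
    (blockD K M (X j : MvPolynomial (Fin M) K)).degreeOf ⟨0, hM⟩ = 0 := by
  rw [blockD_X]
  split_ifs with h
  · rw [degreeOf_X, if_neg]
    intro h1
    simp at h1
  · simp

theorem degreeOf_blockD_le (hM : 0 < M) (f : MvPolynomial (Fin M) K) :
    (blockD K M f).degreeOf ⟨0, hM⟩ ≤ f.degreeOf ⟨0, hM⟩ := by
  rw [blockD_eq]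
  refine (degreeOf_sum_le _ _ _).trans ?_
  apply Finset.sup_le
  intro j _
  refine (degreeOf_mul_le _ _ _).trans ?_
  rw [degreeOf_blockD_X, zero_add]
  exact degreeOf_pderiv_le _ _ _

theorem blockD_iter_mul (n : ℕ) (a b : MvPolynomial (Fin M) K) :
    (blockD K M)^[n] (a * b) = ∑ ij ∈ Finset.HasAntidiagonal.antidiagonal n,
      n.choose ij.1 • ((blockD K M)^[ij.1] a * (blockD K M)^[ij.2] b) := by
  induction n with
  | zero => simp
  | succ n ih =>
    rw [Function.iterate_succ_apply', ih, map_sum,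
      Finset.sum_antidiagonal_choose_succ_nsmul
        (fun i j => (blockD K M)^[i] a * (blockD K M)^[j] b) n, ← Finset.sum_add_distrib]
    apply Finset.sum_congr rfl
    rintro ⟨i, j⟩ hij
    rw [map_nsmul, Derivation.leibniz, Function.iterate_succ_apply', Function.iterate_succ_apply']
    simp only [smul_eq_mul]
    have h1 : n.choose j = n.choose i := by
      have := Finset.HasAntidiagonal.mem_antidiagonal.1 hij
      simp only at this
      rw [← this]
      exact (Nat.choose_symm_add).symm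
    rw [h1]
    rw [← nsmul_add]
    congr 1
    ring

theorem blockD_iter_p (p : ℕ) [Fact p.Prime] [CharP K p] (hMp : M ≤ p)
    (f : MvPolynomial (Fin M) K) : (blockD K M)^[p] f = 0 := by
  have hp : p.Prime := Fact.out
  have hadd : ∀ n : ℕ, ∀ a b : MvPolynomial (Fin M) K,
      (blockD K M)^[n] (a + b) = (blockD K M)^[n] a + (blockD K M)^[n] b := by
    intro n
    induction n with
    | zero => intro a b; rfl
    | succ n ih => intro a b; rw [Function.iterate_succ_apply', ih, map_add,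
        Function.iterate_succ_apply', Function.iterate_succ_apply']
  have hX : ∀ n : ℕ, ∀ i : Fin M, (blockD K M)^[n] (X i) =
      if h : (i : ℕ) + n < M then X ⟨(i : ℕ) + n, h⟩ else 0 := by
    intro n i
    induction n with
    | zero => simp
    | succ n ih =>
      rw [Function.iterate_succ_apply', ih]
      by_cases h1 : (i : ℕ) + (n + 1) < M
      · rw [dif_pos (by omega), dif_pos h1, blockD_X, dif_pos (by simpa [add_assoc] using h1)]
        rfl
      · rw [dif_neg h1]
        split_ifs with h2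
        · rw [blockD_X, dif_neg]
          simpa [add_assoc] using h1
        · simp
  have hp0 : p ≠ 0 := hp.ne_zero
  induction f using MvPolynomial.induction_on with
  | C a =>
    obtain ⟨q, rfl⟩ := Nat.exists_eq_succ_of_ne_zero hp0
    rw [Function.iterate_succ_apply]
    have : blockD K M (C a) = 0 := by
      rw [← algebraMap_eq, Derivation.map_algebraMap]
    rw [this]
    exact Function.iterate_fixed (map_zero _) q
  | add f g hf hg => rw [hadd, hf, hg, add_zero]
  | mul_X f i hf =>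
    rw [blockD_iter_mul]
    apply Finset.sum_eq_zero
    rintro ⟨a, b⟩ hab
    have hab' := Finset.HasAntidiagonal.mem_antidiagonal.1 hab
    simp only at hab' ⊢
    rcases Nat.eq_zero_or_pos a with h0 | h0
    · subst h0
      have hb : b = p := by omega
      rw [hb, hX p i, dif_neg (by omega), mul_zero, smul_zero]
    · rcases Nat.eq_zero_or_pos b with h1 | h1
      · subst h1
        have ha : a = p := by omega
        rw [ha, hf, zero_mul, smul_zero]
      · have h2 : p ∣ p.choose a := hp.dvd_choose_self (by omega) (by omega)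
        obtain ⟨c, hc⟩ := h2
        rw [hc, mul_smul, ← Nat.cast_smul_eq_nsmul K p]
        rw [CharP.cast_eq_zero K p, zero_smul]

section Main

variable {U T : Type*} [Ring U] [Algebra K U] [CommRing T] [Algebra K T]

theorem mk_sum' {ι A B : Type*} [AddCommMonoid A] [AddCommMonoid B] (s : Finset ι) (f : ι → A)
    (g : ι → B) : (∑ i ∈ s, f i, ∑ i ∈ s, g i) = ∑ i ∈ s, (f i, g i) :=
  Prod.ext (by rw [Prod.fst_sum]) (by rw [Prod.snd_sum])

/-- degree-wise lifting -/
def LiftD (S : SymbSetting K U T) (ℓ : Fin M → T) (d : ℕ) : Prop :=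
  ∃ φ : MvPolynomial (Fin M) K →ₗ[K] U, ∀ f : MvPolynomial (Fin M) K, f.IsHomogeneous d →
    (φ f, aeval ℓ f) ∈ S.Sy d ∧ φ (blockD K M f) = S.DU (φ f)

theorem degree_of_hom {d : ℕ} {f : MvPolynomial (Fin M) K} (hf : f.IsHomogeneous d)
    {a : Fin M →₀ ℕ} (ha : coeff a f ≠ 0) : a.degree = d := by
  have h := hf ha
  rw [Finsupp.degree_eq_weight_one]
  exact h

/-- linear map given on monomials -/
noncomputable def onMon (u : (Fin M →₀ ℕ) → U) : MvPolynomial (Fin M) K →ₗ[K] U :=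
  (basisMonomials (Fin M) K).constr K u

theorem onMon_monomial (u : (Fin M →₀ ℕ) → U) (a : Fin M →₀ ℕ) (c : K) :
    onMon u (monomial a c) = c • u a := by
  have h1 : (monomial a c : MvPolynomial (Fin M) K) = c • basisMonomials (Fin M) K a := by
    rw [coe_basisMonomials, smul_monomial, smul_eq_mul, mul_one]
  rw [h1, map_smul, onMon, Module.Basis.constr_basis]

theorem onMon_eq (u : (Fin M →₀ ℕ) → U) (f : MvPolynomial (Fin M) K) :
    onMon u f = ∑ a ∈ f.support, coeff a f • u a := by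
  conv_lhs => rw [f.as_sum]
  rw [map_sum]
  exact Finset.sum_congr rfl (fun a _ => onMon_monomial u a _)

theorem liftable_of_liftD (S : SymbSetting K U T) (ℓ : Fin M → T) (h : ∀ d, LiftD S ℓ d) :
    Liftable S (blockD K M) ℓ := by
  choose φ hφ using h
  have h1 : ∀ (d : ℕ) (f : MvPolynomial (Fin M) K), f.IsHomogeneous d →
      onMon (fun a => φ a.degree (monomial a 1)) f = φ d f := by
    intro d f hf
    conv_rhs => rw [f.as_sum]
    rw [onMon_eq, map_sum]
    apply Finset.sum_congr rfl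
    intro a ha
    rw [degree_of_hom hf (mem_support_iff.1 ha), ← map_smul, smul_monomial, smul_eq_mul, mul_one]
  refine ⟨onMon (fun a => φ a.degree (monomial a 1)), ?_, ?_⟩
  · intro d f hf
    rw [h1 d f hf]
    exact (hφ d f hf).1
  · intro f
    have h2 : ∀ g : MvPolynomial (Fin M) K, (∃ d, g.IsHomogeneous d) →
        onMon (fun a => φ a.degree (monomial a 1)) (blockD K M g) =
          S.DU (onMon (fun a => φ a.degree (monomial a 1)) g) := by
      rintro g ⟨d, hg⟩
      rw [h1 d _ (blockD_hom hg), h1 d g hg]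
      exact (hφ d g hg).2
    conv_lhs => rw [← sum_homogeneousComponent f]
    conv_rhs => rw [← sum_homogeneousComponent f]
    rw [map_sum, map_sum, map_sum, map_sum]
    apply Finset.sum_congr rfl
    intro d _
    exact h2 _ ⟨d, homogeneousComponent_isHomogeneous _ _⟩

theorem DU_one (S : SymbSetting K U T) : S.DU 1 = 0 := by
  have h := S.DU_mul 1 1
  simpa using h

theorem DT_one (S : SymbSetting K U T) : S.DT 1 = 0 := by
  have h := S.DT_mul 1 1
  simpa using h

theorem liftD_zero (S : SymbSetting K U T) (ℓ : Fin M → T) : LiftD S ℓ 0 := by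
  refine ⟨((Algebra.ofId K U).comp (aeval (fun _ => (0 : K)))).toLinearMap, ?_⟩
  intro f hf
  obtain ⟨c, rfl⟩ : ∃ c, f = C c :=
    ⟨_, (totalDegree_eq_zero_iff_eq_C (p := f)).1 (Nat.le_zero.1 hf.totalDegree_le)⟩
  have h0 : blockD K M (C c) = 0 := by
    rw [← algebraMap_eq, Derivation.map_algebraMap]
  have h1 : ((Algebra.ofId K U).comp (aeval (fun _ : Fin M => (0 : K)))).toLinearMap (C c)
      = c • (1 : U) := by
    simp [Algebra.ofId_apply, Algebra.algebraMap_eq_smul_one]
  rw [h0, map_zero, h1, map_smul, DU_one, smul_zero]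
  refine ⟨?_, rfl⟩
  have h2 : (c • (1 : U), aeval ℓ (C c)) = c • ((1 : U), (1 : T)) := by
    rw [Prod.smul_mk]
    simp [Algebra.algebraMap_eq_smul_one]
  rw [h2]
  exact (S.Sy 0).smul_mem c S.one_mem

theorem liftD_succ (S : SymbSetting K U T) (y : Fin M → U) (ℓ : Fin M → T)
    (hy : ∀ i, (y i, ℓ i) ∈ S.Sy 1)
    (hDy : ∀ i : Fin M, S.DU (y i) = if h : (i : ℕ) + 1 < M then y ⟨(i : ℕ) + 1, h⟩ else 0)
    (d : ℕ) (hd : ((d + 1 : ℕ) : K) ≠ 0) (h : LiftD S ℓ d) : LiftD S ℓ (d + 1) := by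
  classical
  obtain ⟨φ, hφ⟩ := h
  refine ⟨((d + 1 : ℕ) : K)⁻¹ • ∑ i : Fin M,
    (LinearMap.mulLeft K (y i)) ∘ₗ φ ∘ₗ ((pderiv (R := K) i : Derivation K _ _) :
      MvPolynomial (Fin M) K →ₗ[K] MvPolynomial (Fin M) K), ?_⟩
  intro f hf
  have hpd : ∀ i, (pderiv i f).IsHomogeneous d := fun i => by
    have := hf.pderiv (i := i)
    simpa using this
  have happ : ∀ g : MvPolynomial (Fin M) K, (((d + 1 : ℕ) : K)⁻¹ • ∑ i : Fin M,
    (LinearMap.mulLeft K (y i)) ∘ₗ φ ∘ₗ ((pderiv (R := K) i : Derivation K _ _) :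
      MvPolynomial (Fin M) K →ₗ[K] MvPolynomial (Fin M) K)) g =
      ((d + 1 : ℕ) : K)⁻¹ • ∑ i : Fin M, y i * φ (pderiv i g) := by
    intro g
    rw [LinearMap.smul_apply, LinearMap.sum_apply]
    rfl
  rw [happ, happ]
  constructor
  · have h1 : aeval ℓ f = ((d + 1 : ℕ) : K)⁻¹ • ∑ i : Fin M, ℓ i * aeval ℓ (pderiv i f) := by
      have h2 := congrArg (aeval ℓ) hf.sum_X_mul_pderiv
      rw [map_sum, map_nsmul] at h2
      simp only [map_mul, aeval_X] at h2
      rw [h2, ← Nat.cast_smul_eq_nsmul K, smul_smul, inv_mul_cancel₀ hd, one_smul]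
    rw [h1]
    have h3 : (((d + 1 : ℕ) : K)⁻¹ • ∑ i : Fin M, y i * φ (pderiv i f),
        ((d + 1 : ℕ) : K)⁻¹ • ∑ i : Fin M, ℓ i * aeval ℓ (pderiv i f)) =
        ((d + 1 : ℕ) : K)⁻¹ • ∑ i : Fin M, (y i * φ (pderiv i f), ℓ i * aeval ℓ (pderiv i f)) := by
      rw [← mk_sum', Prod.smul_mk]
    rw [h3]
    apply Submodule.smul_mem
    apply Submodule.sum_mem
    intro i _
    have h4 := S.mul_mem (hy i) (hφ _ (hpd i)).1
    rwa [add_comm 1 d] at h4
  · rw [map_smul, map_sum]
    congr 1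
    have h1 : ∀ i : Fin M, y i * φ (pderiv i (blockD K M f)) =
        y i * S.DU (φ (pderiv i f)) +
          ∑ j : Fin M, (if (i : ℕ) = (j : ℕ) + 1 then y i * φ (pderiv j f) else 0) := by
      intro i
      rw [pderiv_blockD, map_add, (hφ _ (hpd i)).2, map_sum, mul_add, Finset.mul_sum]
      congr 1
      apply Finset.sum_congr rfl
      intro j _
      split_ifs <;> simp
    rw [Finset.sum_congr rfl (fun i _ => h1 i), Finset.sum_add_distrib, Finset.sum_comm,
      ← Finset.sum_add_distrib]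
    apply Finset.sum_congr rfl
    intro j _
    rw [S.DU_mul, hDy j, add_comm]
    congr 1
    split_ifs with h2
    · rw [Finset.sum_eq_single ⟨(j : ℕ) + 1, h2⟩]
      · simp
      · intro b _ hb
        rw [if_neg]
        intro h3
        exact hb (Fin.ext h3)
      · simp
    · rw [zero_mul]
      apply Finset.sum_eq_zero
      intro b _
      rw [if_neg]
      intro h3
      exact h2 (h3 ▸ b.2)

theorem DT_aeval (S : SymbSetting K U T) (ℓ : Fin M → T)
    (hDℓ : ∀ i : Fin M, S.DT (ℓ i) = if h : (i : ℕ) + 1 < M then ℓ ⟨(i : ℕ) + 1, h⟩ else 0)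
    (f : MvPolynomial (Fin M) K) : S.DT (aeval ℓ f) = aeval ℓ (blockD K M f) := by
  induction f using MvPolynomial.induction_on with
  | C a =>
    have h0 : blockD K M (C a) = 0 := by
      rw [← algebraMap_eq, Derivation.map_algebraMap]
    rw [h0, map_zero, algHom_C, Algebra.algebraMap_eq_smul_one, map_smul, DT_one, smul_zero]
  | add f g hf hg => rw [map_add, map_add, hf, hg, map_add, map_add]
  | mul_X f i hf =>
    rw [map_mul, S.DT_mul, hf, Derivation.leibniz, aeval_X, hDℓ i, blockD_X, map_add]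
    simp only [smul_eq_mul, map_mul, aeval_X]
    have h1 : aeval ℓ (if h : (i : ℕ) + 1 < M then X ⟨(i : ℕ) + 1, h⟩ else
        (0 : MvPolynomial (Fin M) K)) = if h : (i : ℕ) + 1 < M then ℓ ⟨(i : ℕ) + 1, h⟩ else 0 := by
      split_ifs <;> simp
    rw [h1]
    ring

theorem exists_lin (S : SymbSetting K U T) (y : Fin M → U) (ℓ : Fin M → T)
    (hy : ∀ i, (y i, ℓ i) ∈ S.Sy 1) :
    ∃ s : MvPolynomial (Fin M) K →ₗ[K] U, ∀ (d : ℕ) (f : MvPolynomial (Fin M) K),
      f.IsHomogeneous d → (s f, aeval ℓ f) ∈ S.Sy d := by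
  have h1 : ∀ a : Fin M →₀ ℕ, ∃ u : U, (u, aeval ℓ (monomial a (1 : K))) ∈ S.Sy a.degree := by
    intro a
    induction a using Finsupp.induction_linear with
    | zero =>
      refine ⟨1, ?_⟩
      have h2 : aeval ℓ (monomial (0 : Fin M →₀ ℕ) (1 : K)) = 1 := by simp
      rw [h2, map_zero]
      exact S.one_mem
    | add a b ha hb =>
      obtain ⟨u, hu⟩ := ha
      obtain ⟨v, hv⟩ := hb
      refine ⟨u * v, ?_⟩
      have h2 : aeval ℓ (monomial (a + b) (1 : K)) =
          aeval ℓ (monomial a (1 : K)) * aeval ℓ (monomial b (1 : K)) := by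
        rw [← map_mul, monomial_mul, one_mul]
      rw [h2, map_add]
      exact S.mul_mem hu hv
    | single i n =>
      refine ⟨y i ^ n, ?_⟩
      have h2 : aeval ℓ (monomial (Finsupp.single i n) (1 : K)) = ℓ i ^ n := by
        rw [← X_pow_eq_monomial, map_pow, aeval_X]
      rw [h2, Finsupp.degree_single]
      induction n with
      | zero => rw [pow_zero, pow_zero]; exact S.one_mem
      | succ n ih =>
        rw [pow_succ, pow_succ]
        refine S.mul_mem (ih ?_) (hy i)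
        rw [← X_pow_eq_monomial, map_pow, aeval_X]
  choose u hu using h1
  refine ⟨onMon u, ?_⟩
  intro d f hf
  have h2 : aeval ℓ f = ∑ a ∈ f.support, coeff a f • aeval ℓ (monomial a (1 : K)) := by
    conv_lhs => rw [f.as_sum]
    rw [map_sum]
    apply Finset.sum_congr rfl
    intro a _
    rw [← map_smul, smul_monomial, smul_eq_mul, mul_one]
  rw [onMon_eq, h2, mk_sum']
  apply Submodule.sum_mem
  intro a ha
  rw [← Prod.smul_mk]
  apply Submodule.smul_mem
  have := hu a
  rwa [degree_of_hom hf (mem_support_iff.1 ha)] at this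

/-- division by `X_0 ^ p` -/
noncomputable def qdiv (hM : 0 < M) (p : ℕ) :
    MvPolynomial (Fin M) K →ₗ[K] MvPolynomial (Fin M) K where
  toFun f := f.divMonomial (Finsupp.single ⟨0, hM⟩ p)
  map_add' f g := add_divMonomial f g _
  map_smul' c f := by
    ext m
    rw [coeff_divMonomial, coeff_smul, RingHom.id_apply, coeff_smul, coeff_divMonomial]

theorem coeff_qdiv (hM : 0 < M) (p : ℕ) (f : MvPolynomial (Fin M) K) (m : Fin M →₀ ℕ) :
    coeff m (qdiv hM p f) = coeff (Finsupp.single ⟨0, hM⟩ p + m) f :=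
  coeff_divMonomial _ _ _

/-- remainder of the division by `X_0 ^ p` -/
noncomputable def rmod (hM : 0 < M) (p : ℕ) :
    MvPolynomial (Fin M) K →ₗ[K] MvPolynomial (Fin M) K :=
  LinearMap.id - (LinearMap.mulLeft K (X (⟨0, hM⟩ : Fin M) ^ p : MvPolynomial (Fin M) K)) ∘ₗ
    qdiv hM p

theorem qr_eq (hM : 0 < M) (p : ℕ) (f : MvPolynomial (Fin M) K) :
    X ⟨0, hM⟩ ^ p * qdiv hM p f + rmod hM p f = f := by
  simp [rmod]

theorem coeff_rmod (hM : 0 < M) (p : ℕ) (f : MvPolynomial (Fin M) K) (m : Fin M →₀ ℕ)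
    (hm : p ≤ m ⟨0, hM⟩) : coeff m (rmod hM p f) = 0 := by
  have h1 : Finsupp.single ⟨0, hM⟩ p ≤ m := by
    rw [Finsupp.single_le_iff]
    exact hm
  have h2 : rmod hM p f = f.modMonomial (Finsupp.single ⟨0, hM⟩ p) := by
    have h3 := divMonomial_add_modMonomial f (Finsupp.single ⟨0, hM⟩ p)
    have h4 : f.modMonomial (Finsupp.single ⟨0, hM⟩ p) = f - monomial (Finsupp.single ⟨0, hM⟩ p) 1 *
        f.divMonomial (Finsupp.single ⟨0, hM⟩ p) := by
      rw [eq_sub_iff_add_eq']
      exact h3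
    have h5 : rmod hM p f = f - X (⟨0, hM⟩ : Fin M) ^ p * qdiv hM p f := by simp [rmod]
    rw [h4, h5, X_pow_eq_monomial]
    rfl
  rw [h2]
  exact coeff_modMonomial_of_le _ h1

theorem qdiv_mul (hM : 0 < M) (p : ℕ) (f : MvPolynomial (Fin M) K) :
    qdiv hM p (X ⟨0, hM⟩ ^ p * f) = f := by
  ext m
  rw [coeff_qdiv, X_pow_eq_monomial, coeff_monomial_mul, one_mul]

theorem degreeOf_rmod (hM : 0 < M) (p : ℕ) (hp : 0 < p) (f : MvPolynomial (Fin M) K) :
    (rmod hM p f).degreeOf ⟨0, hM⟩ < p := by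
  rw [degreeOf_lt_iff hp]
  intro m hm
  by_contra h
  exact (mem_support_iff.1 hm) (coeff_rmod hM p f m (not_lt.1 h))

theorem qdiv_small (hM : 0 < M) (p : ℕ) (f : MvPolynomial (Fin M) K)
    (hf : f.degreeOf ⟨0, hM⟩ < p) : qdiv hM p f = 0 := by
  ext m
  rw [coeff_qdiv, coeff_zero]
  by_contra h
  have h1 := (degreeOf_lt_iff (by omega)).1 hf _ (mem_support_iff.2 h)
  simp at h1

theorem qdiv_D (hM : 0 < M) (p : ℕ) [Fact p.Prime] [CharP K p] (f : MvPolynomial (Fin M) K) :
    qdiv hM p (blockD K M f) = blockD K M (qdiv hM p f) ∧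
    rmod hM p (blockD K M f) = blockD K M (rmod hM p f) := by
  have hp : p.Prime := Fact.out
  have h0 : blockD K M (X ⟨0, hM⟩ ^ p) = 0 := by
    rw [Derivation.leibniz_pow, ← Nat.cast_smul_eq_nsmul K p, CharP.cast_eq_zero K p, zero_smul]
  have h1 : blockD K M f = X ⟨0, hM⟩ ^ p * blockD K M (qdiv hM p f) +
      blockD K M (rmod hM p f) := by
    conv_lhs => rw [← qr_eq hM p f]
    rw [map_add, Derivation.leibniz, h0, smul_zero, add_zero, smul_eq_mul]
  have h2 : (blockD K M (rmod hM p f)).degreeOf ⟨0, hM⟩ < p :=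
    lt_of_le_of_lt (degreeOf_blockD_le hM _) (degreeOf_rmod hM p hp.pos f)
  have h3 : qdiv hM p (blockD K M f) = blockD K M (qdiv hM p f) := by
    rw [h1, map_add, qdiv_mul, qdiv_small hM p _ h2, add_zero]
  refine ⟨h3, ?_⟩
  have h4 := qr_eq hM p (blockD K M f)
  rw [h3] at h4
  have h5 : X ⟨0, hM⟩ ^ p * blockD K M (qdiv hM p f) + rmod hM p (blockD K M f) =
      X ⟨0, hM⟩ ^ p * blockD K M (qdiv hM p f) + blockD K M (rmod hM p f) := by
    rw [h4]; exact h1
  exact add_left_cancel h5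

theorem qdiv_hom (hM : 0 < M) (p d : ℕ) (f : MvPolynomial (Fin M) K)
    (hf : f.IsHomogeneous (d + p)) : (qdiv hM p f).IsHomogeneous d := by
  intro m hm
  rw [coeff_qdiv] at hm
  have h1 := degree_of_hom hf hm
  rw [map_add, Finsupp.degree_single] at h1
  have h2 : m.degree = d := by omega
  rw [Finsupp.degree_eq_weight_one] at h2
  exact h2

theorem rmod_hom (hM : 0 < M) (p d : ℕ) (f : MvPolynomial (Fin M) K)
    (hf : f.IsHomogeneous (d + p)) : (rmod hM p f).IsHomogeneous (d + p) := by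
  have h1 : rmod hM p f = f - X ⟨0, hM⟩ ^ p * qdiv hM p f := by simp [rmod]
  rw [h1]
  refine hf.sub ?_
  have h2 : (X ⟨0, hM⟩ ^ p : MvPolynomial (Fin M) K).IsHomogeneous p := by
    have := (isHomogeneous_X K (⟨0, hM⟩ : Fin M)).pow p
    rwa [one_mul] at this
  have h3 := h2.mul (qdiv_hom hM p d f hf)
  rwa [add_comm p d] at h3

/-- homogeneous polynomials of degree `d` with small exponent of `X_0` -/
noncomputable def Bd (K : Type*) [Field K] {M : ℕ} (hM : 0 < M) (p : ℕ) (hp : 0 < p) (d : ℕ) :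
    Submodule K (MvPolynomial (Fin M) K) where
  carrier := {f | f.IsHomogeneous d ∧ f.degreeOf ⟨0, hM⟩ < p}
  add_mem' := by
    rintro f g ⟨h1, h2⟩ ⟨h3, h4⟩
    exact ⟨h1.add h3, lt_of_le_of_lt (degreeOf_add_le _ _ _) (max_lt h2 h4)⟩
  zero_mem' := ⟨isHomogeneous_zero _ _ _, by rw [degreeOf_zero]; exact hp⟩
  smul_mem' := by
    rintro c f ⟨h1, h2⟩
    rw [smul_eq_C_mul]
    refine ⟨?_, lt_of_le_of_lt (degreeOf_C_mul_le _ _ _) h2⟩
    have := (isHomogeneous_C (Fin M) c).mul h1
    rwa [zero_add] at this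

theorem mem_Bd (hM : 0 < M) (p : ℕ) (hp : 0 < p) (d : ℕ) (f : MvPolynomial (Fin M) K) :
    f ∈ Bd K hM p hp d ↔ f.IsHomogeneous d ∧ f.degreeOf ⟨0, hM⟩ < p := Iff.rfl

/-- averaging map, abstract version -/
noncomputable def avgMap {K B U : Type*} [Field K] [AddCommGroup B] [Module K B] [AddCommGroup U]
    [Module K U] (p : ℕ) (DB : B →ₗ[K] B) (h : B →ₗ[K] B) (DU : U →ₗ[K] U) (s : B →ₗ[K] U) :
    B →ₗ[K] U :=
  ∑ j ∈ Finset.range p, (DU ^ j) ∘ₗ s ∘ₗ h ∘ₗ (DB ^ (p - 1 - j))

theorem avgMap_apply {K B U : Type*} [Field K] [AddCommGroup B] [Module K B] [AddCommGroup U]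
    [Module K U] (p : ℕ) (DB : B →ₗ[K] B) (h : B →ₗ[K] B) (DU : U →ₗ[K] U) (s : B →ₗ[K] U)
    (x : B) : avgMap p DB h DU s x =
      ∑ j ∈ Finset.range p, (DU ^ j) (s (h ((DB ^ (p - 1 - j)) x))) := by
  rw [avgMap, LinearMap.sum_apply]
  rfl

theorem avgMap_comm {K B U : Type*} [Field K] [AddCommGroup B] [Module K B] [AddCommGroup U]
    [Module K U] (p : ℕ) (hp : p ≠ 0) (DB : B →ₗ[K] B) (h : B →ₗ[K] B) (DU : U →ₗ[K] U)
    (s : B →ₗ[K] U) (hB : DB ^ p = 0) (hU : DU ^ p = 0) (x : B) :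
    avgMap p DB h DU s (DB x) = DU (avgMap p DB h DU s x) := by
  obtain ⟨q, rfl⟩ := Nat.exists_eq_succ_of_ne_zero hp
  rw [avgMap_apply, avgMap_apply, map_sum, Finset.sum_range_succ', Finset.sum_range_succ]
  congr 1
  · apply Finset.sum_congr rfl
    intro j hj
    have hj' := Finset.mem_range.1 hj
    have h1 : q.succ - 1 - j = (q.succ - 1 - (j + 1)) + 1 := by
      have : q.succ = q + 1 := rfl
      omega
    rw [h1, pow_succ DB, Module.End.mul_apply, pow_succ' DU, Module.End.mul_apply]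
  · have h1 : q.succ - 1 - 0 = q := rfl
    have h2 : (DB ^ (q.succ - 1 - 0)) (DB x) = 0 := by
      rw [h1, ← Module.End.mul_apply, ← pow_succ, ← Nat.succ_eq_add_one, hB]
      rfl
    rw [h2, map_zero]
    have h3 : ∀ w : U, DU ((DU ^ q) w) = 0 := by
      intro w
      rw [← Module.End.mul_apply, ← pow_succ', ← Nat.succ_eq_add_one, hU]
      rfl
    rw [h3]
    simp

theorem liftD_add (S : SymbSetting K U T) (p : ℕ) [Fact p.Prime] [CharP K p]
    (hDp : ∀ u, (S.DU)^[p] u = 0) (hM : 0 < M) (hMp : M ≤ p)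
    (y : Fin M → U) (ℓ : Fin M → T) (hy : ∀ i, (y i, ℓ i) ∈ S.Sy 1)
    (hDℓ : ∀ i : Fin M, S.DT (ℓ i) = if h : (i : ℕ) + 1 < M then ℓ ⟨(i : ℕ) + 1, h⟩ else 0)
    (z : U) (hz : (z, ℓ ⟨0, hM⟩ ^ p) ∈ S.Sy p) (hDz : S.DU z = 0) (d : ℕ)
    (hL : LiftD S ℓ d) : LiftD S ℓ (d + p) := by
  have hp : p.Prime := Fact.out
  obtain ⟨φ, hφ⟩ := hL
  obtain ⟨s, hs⟩ := exists_lin S y ℓ hy
  obtain ⟨B, hB⟩ : ∃ B : Submodule K (MvPolynomial (Fin M) K), B = Bd K hM p hp.pos (d + p) :=
    ⟨_, rfl⟩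
  have hBm : ∀ f, f ∈ B ↔ f.IsHomogeneous (d + p) ∧ f.degreeOf ⟨0, hM⟩ < p := by
    intro f; rw [hB]; exact Iff.rfl
  have hBD : ∀ f ∈ B, (blockD K M : MvPolynomial (Fin M) K →ₗ[K] MvPolynomial (Fin M) K) f ∈ B :=
    fun f hf => (hBm _).2 ⟨blockD_hom ((hBm f).1 hf).1,
      lt_of_le_of_lt (degreeOf_blockD_le hM f) ((hBm f).1 hf).2⟩
  obtain ⟨DB, hDBv⟩ : ∃ DB : B →ₗ[K] B, ∀ x : B, ((DB x : B) : MvPolynomial (Fin M) K) =
      blockD K M x := ⟨LinearMap.restrict
    (blockD K M : MvPolynomial (Fin M) K →ₗ[K] MvPolynomial (Fin M) K) hBD, fun x => rfl⟩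
  have hpow : ∀ (n : ℕ) (x : B), (((DB ^ n) x : B) : MvPolynomial (Fin M) K) =
      (blockD K M)^[n] x := by
    intro n
    induction n with
    | zero => intro x; rfl
    | succ n ih =>
      intro x
      rw [pow_succ', Module.End.mul_apply, hDBv, ih, Function.iterate_succ_apply']
  have hDBp : DB ^ p = 0 := by
    ext1 x
    apply Subtype.ext
    rw [hpow, blockD_iter_p p hMp]
    rfl
  obtain ⟨h, hh⟩ := exists_average p hp.pos DB hDBp
    (by
      intro m hm
      have h1 : blockD K M (m : MvPolynomial (Fin M) K) = 0 := by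
        rw [← hDBv, hm]; rfl
      have h2 := (hBm _).1 m.2
      have hle : p ≤ d + p := Nat.le_add_left p d
      have h7 := h2.1
      have h8 := h2.2
      have h9 := block_exact p M hM hMp (d + p) hle (m : MvPolynomial (Fin M) K) h7 h8
      have h10 := h9 h1
      obtain ⟨g, hg1, hg2, hg3⟩ := h10
      have hgB : g ∈ B := (hBm g).2 ⟨hg1, hg2⟩
      have h3 : (((DB ^ (p - 1)) ⟨g, hgB⟩ : B) : MvPolynomial (Fin M) K) =
        (blockD K M)^[p - 1] g := hpow (p - 1) ⟨g, hgB⟩
      exact ⟨⟨g, hgB⟩, Subtype.ext (hg3.trans h3.symm)⟩)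
  have hπ : ∀ f : MvPolynomial (Fin M) K,
      ((homogeneousComponent (d + p)) ∘ₗ rmod hM p) f ∈ B := by
    intro f
    rw [hBm]
    refine ⟨homogeneousComponent_isHomogeneous _ _, ?_⟩
    rw [degreeOf_lt_iff hp.pos]
    intro m hm
    rw [mem_support_iff, LinearMap.comp_apply, coeff_homogeneousComponent] at hm
    have h1 : coeff m (rmod hM p f) ≠ 0 := by
      intro h2
      rw [h2] at hm
      simp at hm
    exact (degreeOf_lt_iff hp.pos).1 (degreeOf_rmod hM p hp.pos f) m (mem_support_iff.2 h1)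
  obtain ⟨π, hπ1⟩ : ∃ π : MvPolynomial (Fin M) K →ₗ[K] B, ∀ f : MvPolynomial (Fin M) K,
      (π f : MvPolynomial (Fin M) K) = homogeneousComponent (d + p) (rmod hM p f) :=
    ⟨LinearMap.codRestrict B ((homogeneousComponent (d + p)) ∘ₗ rmod hM p) hπ, fun f => rfl⟩
  have hπv : ∀ f : MvPolynomial (Fin M) K, f.IsHomogeneous (d + p) →
      (π f : MvPolynomial (Fin M) K) = rmod hM p f := by
    intro f hf
    rw [hπ1, homogeneousComponent_of_mem (rmod_hom hM p d f hf), if_pos rfl]
  obtain ⟨φB, hφB⟩ : ∃ φB : B →ₗ[K] U, φB = avgMap p DB h S.DU (s ∘ₗ B.subtype) := ⟨_, rfl⟩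
  have hφBv : ∀ x : B, φB x = ∑ j ∈ Finset.range p,
      (S.DU ^ j) (s (h ((DB ^ (p - 1 - j)) x) : MvPolynomial (Fin M) K)) := by
    intro x
    rw [hφB, avgMap_apply]
    rfl
  have hDT : ∀ (n : ℕ) (g : MvPolynomial (Fin M) K), (S.DT ^ n) (aeval ℓ g) =
      aeval ℓ ((blockD K M)^[n] g) := by
    intro n
    induction n with
    | zero => intro g; rfl
    | succ n ih =>
      intro g
      rw [pow_succ', Module.End.mul_apply, ih, DT_aeval S ℓ hDℓ, Function.iterate_succ_apply']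
  have hDmem : ∀ (n : ℕ) {e : ℕ} {u : U} {f : T}, (u, f) ∈ S.Sy e →
      ((S.DU ^ n) u, (S.DT ^ n) f) ∈ S.Sy e := by
    intro n
    induction n with
    | zero => intro e u f h; exact h
    | succ n ih =>
      intro e u f h
      rw [pow_succ', Module.End.mul_apply, pow_succ', Module.End.mul_apply]
      exact S.D_mem (ih h)
  have hsym : ∀ x : B, (φB x, aeval ℓ (x : MvPolynomial (Fin M) K)) ∈ S.Sy (d + p) := by
    intro x
    have h1 : aeval ℓ (x : MvPolynomial (Fin M) K) = ∑ j ∈ Finset.range p,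
        (S.DT ^ j) (aeval ℓ (h ((DB ^ (p - 1 - j)) x) : MvPolynomial (Fin M) K)) := by
      have h2 : aeval ℓ ((∑ j ∈ Finset.range p, (DB ^ j) (h ((DB ^ (p - 1 - j)) x)) : B) :
          MvPolynomial (Fin M) K) = aeval ℓ (x : MvPolynomial (Fin M) K) :=
        congrArg (fun w : B => aeval ℓ (w : MvPolynomial (Fin M) K)) (hh x)
      rw [← h2]
      have h3 : ((∑ j ∈ Finset.range p, (DB ^ j) (h ((DB ^ (p - 1 - j)) x)) : B) :
          MvPolynomial (Fin M) K) = ∑ j ∈ Finset.range p,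
          (blockD K M)^[j] (h ((DB ^ (p - 1 - j)) x) : MvPolynomial (Fin M) K) := by
        rw [← Submodule.subtype_apply, map_sum]
        apply Finset.sum_congr rfl
        intro j _
        rw [Submodule.subtype_apply, hpow]
      rw [h3, map_sum]
      apply Finset.sum_congr rfl
      intro j _
      rw [hDT]
    rw [h1, hφBv, mk_sum']
    apply Submodule.sum_mem
    intro j _
    exact hDmem j (hs _ _ ((hBm _).1 (h ((DB ^ (p - 1 - j)) x)).2).1)
  have hDUp : S.DU ^ p = 0 := by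
    ext1 u
    rw [Module.End.pow_apply]
    exact hDp u
  have heq : ∀ x : B, φB (DB x) = S.DU (φB x) := by
    intro x
    rw [hφB]
    exact avgMap_comm p hp.ne_zero DB h S.DU _ hDBp hDUp x
  refine ⟨(LinearMap.mulLeft K z) ∘ₗ φ ∘ₗ qdiv hM p + φB ∘ₗ π, ?_⟩
  intro f hf
  have happ : ∀ g : MvPolynomial (Fin M) K,
      ((LinearMap.mulLeft K z) ∘ₗ φ ∘ₗ qdiv hM p + φB ∘ₗ π) g =
        z * φ (qdiv hM p g) + φB (π g) := fun g => rfl
  rw [happ, happ]
  have hq1 := hφ _ (qdiv_hom hM p d f hf)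
  constructor
  · have h1 : aeval ℓ f = ℓ ⟨0, hM⟩ ^ p * aeval ℓ (qdiv hM p f) +
        aeval ℓ (π f : MvPolynomial (Fin M) K) := by
      conv_lhs => rw [← qr_eq hM p f]
      rw [map_add, map_mul, map_pow, aeval_X, hπv f hf]
    rw [h1]
    have h2 := S.mul_mem hz hq1.1
    rw [add_comm p d] at h2
    exact (S.Sy (d + p)).add_mem h2 (hsym (π f))
  · have h1 : π (blockD K M f) = DB (π f) := by
      apply Subtype.ext
      rw [hπv _ (blockD_hom hf), hDBv, hπv f hf]
      exact (qdiv_D hM p f).2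
    rw [h1, heq, (qdiv_D hM p f).1, hq1.2, map_add, S.DU_mul, hDz, zero_mul, zero_add]

end Main

end BlockLift

open MvPolynomial in
theorem block_liftable {K U T : Type*} [Field K] [Ring U] [Algebra K U] [CommRing T]
    [Algebra K T] (S : SymbSetting K U T) (p : ℕ) [Fact p.Prime] [CharP K p]
    (hDp : ∀ u, (S.DU)^[p] u = 0) (M : ℕ) (hM : 0 < M) (hMp : M ≤ p)
    (y : Fin M → U) (ℓ : Fin M → T) (hy : ∀ i, (y i, ℓ i) ∈ S.Sy 1)
    (hDy : ∀ i : Fin M, S.DU (y i) = if h : (i : ℕ) + 1 < M then y ⟨(i : ℕ) + 1, h⟩ else 0)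
    (hDℓ : ∀ i : Fin M, S.DT (ℓ i) = if h : (i : ℕ) + 1 < M then ℓ ⟨(i : ℕ) + 1, h⟩ else 0)
    (z : U) (hz : (z, ℓ ⟨0, hM⟩ ^ p) ∈ S.Sy p) (hDz : S.DU z = 0) :
    Liftable S (blockD K M) ℓ := by
  have hp : p.Prime := Fact.out
  apply BlockLift.liftable_of_liftD
  intro d
  induction d using Nat.strong_induction_on with
  | _ d ih =>
    rcases Nat.lt_or_ge d p with hd | hd
    · rcases Nat.eq_zero_or_pos d with h0 | h0
      · subst h0
        exact BlockLift.liftD_zero S ℓ
      · obtain ⟨e, rfl⟩ := Nat.exists_eq_succ_of_ne_zero h0.ne'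
        refine BlockLift.liftD_succ S y ℓ hy hDy e ?_ (ih e (Nat.lt_succ_self e))
        intro h1
        rw [CharP.cast_eq_zero_iff K p] at h1
        have := Nat.le_of_dvd (Nat.succ_pos e) h1
        omega
    · obtain ⟨e, rfl⟩ := Nat.exists_eq_add_of_le' hd
      exact BlockLift.liftD_add S p hDp hM hMp y ℓ hy hDℓ z hz hDz e
        (ih e (by have := hp.pos; omega))

end Pool.Agent.P166ae0
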