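import Mathlib
import Pool.Agent.Lib.P166ae0.Adj

/-!
# A nonzero central element of the enveloping algebra is invertible in some reduced quotient
-/

set_option autoImplicit false
set_option linter.unusedSectionVars false

open MvPolynomial

namespace Pool.Agent.P166ae0

variable {K L : Type} [Field K] [LieRing L] [LieAlgebra K L]
variable {m p : ℕ} [Fact p.Prime] [CharP K p] (E : REmb K L p m)

/-- The image of a central polynomial in the reduced enveloping algebra is a scalar. -/
theorem REmb.piR_Zp {σ : Type} (b : Module.Basis σ K L) (χ : Module.Dual K L)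
    (s : MvPolynomial σ K) :
    E.piR χ (E.Zp b s) = algebraMap K _ (MvPolynomial.eval (fun i => χ (b i) ^ p) s) := by
  induction s using MvPolynomial.induction_on with
  | C a => rw [eval_C, ← MvPolynomial.algebraMap_eq, AlgHom.commutes, AlgHom.commutes]
  | add s t hs ht => rw [map_add, map_add, hs, ht, map_add, map_add]
  | mul_X s i hs => rw [map_mul, map_mul, hs, E.Zp_X, E.piR_zz, map_mul, eval_X, map_mul]

/-- A nonzero element divides a nonzero central polynomial. -/
theorem REmb.exists_mul_eq_Zp [FiniteDimensional K L] (C : UU K L) (hC : C ≠ 0) :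
    ∃ (Q : MvPolynomial (Fin (Module.finrank K L)) K) (D : UU K L), Q ≠ 0 ∧
      C * D = E.Zp (Module.finBasis K L) Q := by
  classical
  set b := Module.finBasis K L with hb
  have hw : ∀ γ : Fin (Module.finrank K L) →₀ ℕ, (∀ i, γ i < p) →
      mon (K := K) b γ ∈ GG K L (γ.degree + 1) ∧
        E.sym γ.degree (mon b γ) = E.toT b (monomial γ 1) :=
    fun γ _ => ⟨mon_mem b γ, sym_mon E.toEmb b γ⟩
  let : Algebra (MvPolynomial (Fin (Module.finrank K L)) K) (UU K L) :=
    RingHom.toAlgebra' (E.Zp b).toRingHom (fun s u => E.Zp_central b s u)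
  have halg : ∀ (s : MvPolynomial (Fin (Module.finrank K L)) K) (u : UU K L),
      s • u = E.Zp b s * u := fun s u => Algebra.smul_def s u
  have hfin : Module.Finite (MvPolynomial (Fin (Module.finrank K L)) K) (UU K L) := by
    refine ⟨⟨Finset.univ.image
      (fun f : Fin (Module.finrank K L) → Fin p => mon (K := K) b (REmb.fs f)), ?_⟩⟩
    rw [eq_top_iff]
    intro u _
    obtain ⟨s, rfl⟩ := sec_surjective E.toEmb b (E.MZ b (mon b)) (E.MZ_h1 b (mon b) hw)
      (E.MZ_h2 b (mon b) hw) u
    induction s using MvPolynomial.induction_on' with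
    | monomial α a =>
      have h1 : (monomial α a : MvPolynomial (Fin (Module.finrank K L)) K)
          = a • monomial α 1 := by
        rw [smul_monomial, smul_eq_mul, mul_one]
      have h2 : a • E.MZ b (mon b) (monomial α 1)
          = (a • monomial (REmb.qd p α) 1 : MvPolynomial (Fin (Module.finrank K L)) K) •
            mon (K := K) b (REmb.fs (REmb.fr p α)) := by
        rw [E.MZ_monomial, REmb.fs_fr, halg, map_smul, smul_mul_assoc]
      rw [h1, map_smul, h2]
      refine Submodule.smul_mem _ _ (Submodule.subset_span ?_)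
      simp
    | add s t hs ht =>
      rw [map_add]
      exact add_mem (hs trivial) (ht trivial)
  have hnz : NoZeroDivisors (UU K L) := E.toEmb.noZeroDivisors
  have hint : IsIntegral (MvPolynomial (Fin (Module.finrank K L)) K) C :=
    IsIntegral.of_finite _ C
  obtain ⟨Q, hQ, D, hD⟩ := hint.isAlgebraic.exists_nonzero_dvd (mem_nonZeroDivisors_of_ne_zero hC)
  exact ⟨Q, D, hQ, hD.symm⟩

/-- module CentralInv, file CentralInv.lean -/
theorem REmb.exists_invertible [IsAlgClosed K] [FiniteDimensional K L] (C : UU K L) (hC : C ≠ 0)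
    (hcen : ∀ u, C * u = u * C) :
    ∃ (χ : Module.Dual K L) (C' : E.RR χ), E.piR χ C * C' = 1 ∧ C' * E.piR χ C = 1 := by
  classical
  obtain ⟨Q, D, hQ, hD⟩ := E.exists_mul_eq_Zp C hC
  have hp0 : 0 < p := (Fact.out : p.Prime).pos
  have : Infinite K := IsAlgClosed.instInfinite
  obtain ⟨c, hc⟩ : ∃ c : Fin (Module.finrank K L) → K, MvPolynomial.eval c Q ≠ 0 := by
    by_contra hcon
    push Not at hcon
    exact hQ (MvPolynomial.funext (fun c => by rw [hcon c, map_zero]))
  choose d hd using fun i => IsAlgClosed.exists_pow_nat_eq (c i) hp0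
  let χ : Module.Dual K L := (Module.finBasis K L).constr K d
  have hχ : ∀ i, χ (Module.finBasis K L i) = d i := fun i => Module.Basis.constr_basis _ _ _ _
  have h1 : E.piR χ (E.Zp (Module.finBasis K L) Q) = algebraMap K _ (MvPolynomial.eval c Q) := by
    have h2 : (fun i => χ (Module.finBasis K L i) ^ p) = c := by
      funext i
      rw [hχ, hd]
    rw [E.piR_Zp, h2]
  refine ⟨χ, (MvPolynomial.eval c Q)⁻¹ • E.piR χ D, ?_, ?_⟩
  · rw [mul_smul_comm, ← map_mul, hD, h1, Algebra.smul_def, ← map_mul, inv_mul_cancel₀ hc, map_one]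
  · rw [smul_mul_assoc, ← map_mul, ← hcen D, hD, h1, Algebra.smul_def, ← map_mul,
      inv_mul_cancel₀ hc, map_one]

end Pool.Agent.P166ae0
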