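import Mathlib

/-!
# Iterated derivations at a point (module of the proof of MP_166ae0_al)
-/

set_option autoImplicit false

namespace Pool.Agent.P166ae0

open MvPolynomial

/-- A derivation maps `I ^ (n + 1)` into `I ^ n`. -/
theorem derivation_mem_pow {R A : Type*} [CommRing R] [CommRing A] [Algebra R A]
    (D : Derivation R A A) (I : Ideal A) (n : ℕ) (x : A) (hx : x ∈ I ^ (n + 1)) :
    D x ∈ I ^ n := by
  induction n generalizing x with
  | zero => simp
  | succ n ih =>
    rw [pow_succ] at hx
    induction hx using Submodule.mul_induction_on' with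
    | mem_mul_mem a ha b hb =>
      rw [D.leibniz, smul_eq_mul, smul_eq_mul]
      refine Ideal.add_mem _ (Ideal.mul_mem_right _ _ ha) ?_
      have h1 : D a * b ∈ I ^ n * I := Ideal.mul_mem_mul (ih a ha) hb
      rw [mul_comm b (D a), pow_succ]
      exact h1
    | add a _ b _ ha hb =>
      rw [map_add]
      exact Ideal.add_mem _ ha hb

/-- Chain rule for derivations composed with an evaluation of polynomials. -/
theorem derivation_aeval {K T : Type*} [Field K] [CommRing T] [Algebra K T] {s : ℕ}
    (D : Derivation K T T) (G : Fin s → T) (q : MvPolynomial (Fin s) K) :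
    D (aeval G q) = ∑ j, aeval G (pderiv j q) * D (G j) := by
  induction q using MvPolynomial.induction_on with
  | C a => simp
  | add p q hp hq =>
    simp only [map_add, hp, hq, add_mul, Finset.sum_add_distrib]
  | mul_X p i hp =>
    simp only [map_mul, aeval_X, Derivation.leibniz, smul_eq_mul, hp, map_add, pderiv_X,
      add_mul, Finset.sum_add_distrib]
    have e1 : ∑ x, aeval G p * aeval G ((Pi.single x 1 : Fin s → MvPolynomial (Fin s) K) i) *
        D (G x) = aeval G p * D (G i) := by
      rw [Finset.sum_eq_single i]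
      · simp
      · intro j _ hj
        simp [hj.symm]
      · simp
    rw [e1, Finset.mul_sum]
    congr 1
    refine Finset.sum_congr rfl fun j _ => by ring

section Main

variable {K T : Type*} [Field K] [CommRing T] [Algebra K T] (ev : T →ₐ[K] K)
    {s : ℕ} (Y : Fin s → Derivation K T T) (G : Fin s → T)

/-- `t` is approximated by the polynomial `q` in the variables `G` to order `k`. -/
def JetApprox (k : ℕ) (t : T) (q : MvPolynomial (Fin s) K) : Prop :=
  q ∈ (Ideal.span (Set.range (X : Fin s → MvPolynomial (Fin s) K))) ^ k ∧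
    t - aeval G q ∈ (RingHom.ker ev.toRingHom) ^ (k + 1)

variable {ev Y G}

theorem aeval_mem (hG : ∀ j, ev (G j) = 0) (k : ℕ) (q : MvPolynomial (Fin s) K)
    (hq : q ∈ (Ideal.span (Set.range (X : Fin s → MvPolynomial (Fin s) K))) ^ k) :
    aeval G q ∈ (RingHom.ker ev.toRingHom) ^ k := by
  have h1 : (Ideal.span (Set.range (X : Fin s → MvPolynomial (Fin s) K))).map
      (aeval G : MvPolynomial (Fin s) K →ₐ[K] T).toRingHom ≤ RingHom.ker ev.toRingHom := by
    rw [Ideal.map_span, Ideal.span_le]
    rintro _ ⟨_, ⟨j, rfl⟩, rfl⟩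
    simpa [RingHom.mem_ker] using hG j
  have h2 := Ideal.mem_map_of_mem (aeval G : MvPolynomial (Fin s) K →ₐ[K] T).toRingHom hq
  rw [Ideal.map_pow] at h2
  exact Ideal.pow_right_mono h1 k h2

theorem JetApprox.step (hG : ∀ j, ev (G j) = 0)
    (hYG : ∀ i j, ev (Y i (G j)) = if i = j then 1 else 0) {k : ℕ} {t : T}
    {q : MvPolynomial (Fin s) K} (h : JetApprox ev G (k + 1) t q) (i : Fin s) :
    JetApprox ev G k (Y i t) (pderiv i q) := by
  refine ⟨derivation_mem_pow (pderiv i) _ _ _ h.1, ?_⟩
  have h1 : Y i (t - aeval G q) ∈ (RingHom.ker ev.toRingHom) ^ (k + 1) :=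
    derivation_mem_pow (Y i) _ _ _ h.2
  have h2 : Y i (aeval G q) - aeval G (pderiv i q) ∈ (RingHom.ker ev.toRingHom) ^ (k + 1) := by
    have e : Y i (aeval G q) - aeval G (pderiv i q) =
        ∑ j, aeval G (pderiv j q) * (Y i (G j) - if i = j then 1 else 0) := by
      simp only [mul_sub, Finset.sum_sub_distrib, ← derivation_aeval, mul_ite, mul_one, mul_zero,
        Finset.sum_ite_eq, Finset.mem_univ, if_true]
    rw [e]
    refine Ideal.sum_mem _ fun j _ => ?_
    rw [pow_succ]
    refine Ideal.mul_mem_mul (aeval_mem hG k _ (derivation_mem_pow (pderiv j) _ _ _ h.1)) ?_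
    have := hYG i j
    rw [RingHom.mem_ker]
    show ev (Y i (G j) - if i = j then 1 else 0) = 0
    rw [map_sub, this]
    split_ifs <;> simp
  have : Y i t - aeval G (pderiv i q) =
      Y i (t - aeval G q) + (Y i (aeval G q) - aeval G (pderiv i q)) := by
    rw [map_sub]; ring
  rw [this]
  exact Ideal.add_mem _ h1 h2

theorem JetApprox.pow (hG : ∀ j, ev (G j) = 0)
    (hYG : ∀ i j, ev (Y i (G j)) = if i = j then 1 else 0) (i : Fin s) (b : ℕ) :
    ∀ {k : ℕ} {t : T} {q : MvPolynomial (Fin s) K}, JetApprox ev G (k + b) t q →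
    JetApprox ev G k ((((Y i : T →ₗ[K] T) : Module.End K T) ^ b) t)
      ((((pderiv i : Derivation K (MvPolynomial (Fin s) K) (MvPolynomial (Fin s) K)) :
        MvPolynomial (Fin s) K →ₗ[K] MvPolynomial (Fin s) K) :
        Module.End K (MvPolynomial (Fin s) K)) ^ b • q) := by
  induction b with
  | zero => intro k t q h; simpa using h
  | succ b ih =>
    intro k t q h
    rw [pow_succ, pow_succ]
    exact ih (JetApprox.step hG hYG (k := k + b) (by rwa [add_assoc]) i)

theorem JetApprox.list (hG : ∀ j, ev (G j) = 0)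
    (hYG : ∀ i j, ev (Y i (G j)) = if i = j then 1 else 0) (β : Fin s → ℕ)
    (l : List (Fin s)) :
    ∀ {k : ℕ} {t : T} {q : MvPolynomial (Fin s) K}, JetApprox ev G (k + (l.map β).sum) t q →
    JetApprox ev G k ((l.map fun i => ((Y i : T →ₗ[K] T) : Module.End K T) ^ β i).prod t)
      ((l.map fun i => (((pderiv i : Derivation K (MvPolynomial (Fin s) K)
        (MvPolynomial (Fin s) K)) : MvPolynomial (Fin s) K →ₗ[K] MvPolynomial (Fin s) K) :
        Module.End K (MvPolynomial (Fin s) K)) ^ β i).prod q) := by
  induction l with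
  | nil => intro k t q h; simpa using h
  | cons i l ih =>
    intro k t q h
    simp only [List.map_cons, List.prod_cons, List.sum_cons] at h ⊢
    rw [← add_assoc] at h
    exact JetApprox.pow hG hYG i (β i) (ih h)

end Main

theorem pderiv_pow_monomial {K : Type*} [Field K] {s : ℕ} (i : Fin s) (b : ℕ)
    (γ : Fin s →₀ ℕ) (a : K) :
    (((pderiv i : Derivation K (MvPolynomial (Fin s) K) (MvPolynomial (Fin s) K)) :
        MvPolynomial (Fin s) K →ₗ[K] MvPolynomial (Fin s) K) :
        Module.End K (MvPolynomial (Fin s) K) ) ^ b • (monomial γ a : MvPolynomial (Fin s) K) =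
      monomial (γ - Finsupp.single i b) (a * ((γ i).descFactorial b : K)) := by
  induction b with
  | zero => simp
  | succ b ih =>
    rw [pow_succ', mul_smul, ih]
    show pderiv i _ = _
    rw [pderiv_monomial]
    congr 1
    · rw [tsub_tsub, ← Finsupp.single_add]
    · rw [Nat.descFactorial_succ]
      simp only [Finsupp.coe_tsub, Pi.sub_apply, Finsupp.single_eq_same]
      push_cast
      ring

theorem pderiv_list_monomial {K : Type*} [Field K] {s : ℕ} (β : Fin s → ℕ) (γ : Fin s →₀ ℕ)
    (l : List (Fin s)) (hl : l.Nodup) (a : K) :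
    (l.map fun i => (((pderiv i : Derivation K (MvPolynomial (Fin s) K)
        (MvPolynomial (Fin s) K)) : MvPolynomial (Fin s) K →ₗ[K] MvPolynomial (Fin s) K) :
        Module.End K (MvPolynomial (Fin s) K)) ^ β i).prod (monomial γ a) =
      monomial (γ - (l.map fun i => Finsupp.single i (β i)).sum)
        (a * (l.map fun i => ((γ i).descFactorial (β i) : K)).prod) := by
  induction l with
  | nil => simp
  | cons i l ih =>
    have hi : i ∉ l := (List.nodup_cons.1 hl).1
    simp only [List.map_cons, List.prod_cons, List.sum_cons]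
    rw [Module.End.mul_apply, ih (List.nodup_cons.1 hl).2]
    have h0 : ((l.map fun j => Finsupp.single j (β j)).sum : Fin s →₀ ℕ) i = 0 := by
      clear ih hl
      induction l with
      | nil => simp
      | cons j l ihl =>
        simp only [List.mem_cons, not_or] at hi
        simp only [List.map_cons, List.sum_cons, Finsupp.add_apply, ihl hi.2, add_zero]
        rw [Finsupp.single_apply, if_neg (Ne.symm hi.1)]
    have := pderiv_pow_monomial i (β i)
      (γ - (l.map fun i => Finsupp.single i (β i)).sum)
      (a * (l.map fun i => ((γ i).descFactorial (β i) : K)).prod)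
    refine this.trans ?_
    congr 1
    · rw [tsub_tsub, add_comm]
    · rw [Finsupp.tsub_apply, h0, Nat.sub_zero]
      ring

theorem deriv_at_point {K T : Type*} [Field K] [CommRing T] [Algebra K T] (ev : T →ₐ[K] K)
    (s : ℕ) (Y : Fin s → Derivation K T T) (G : Fin s → T) (hG : ∀ j, ev (G j) = 0)
    (hYG : ∀ i j, ev (Y i (G j)) = if i = j then 1 else 0)
    (β γ : Fin s → ℕ) (hle : ∑ i, β i ≤ ∑ i, γ i) :
    ev ((List.ofFn fun i => ((Y i : T →ₗ[K] T) : Module.End K T) ^ β i).prod (∏ j, G j ^ γ j)) =
      if β = γ then ∏ i, ((γ i).factorial : K) else 0 := by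
  obtain ⟨k, hk⟩ := Nat.exists_eq_add_of_le hle
  have hsum : ((List.finRange s).map β).sum = ∑ i, β i := by
    rw [← List.ofFn_eq_map, List.sum_ofFn]
  have e1 : (aeval G (∏ j, (X j : MvPolynomial (Fin s) K) ^ γ j) : T) = ∏ j, G j ^ γ j := by
    simp
  have hstart : JetApprox ev G (k + ((List.finRange s).map β).sum) (∏ j, G j ^ γ j)
      (∏ j, (X j : MvPolynomial (Fin s) K) ^ γ j) := by
    constructor
    · rw [hsum, add_comm, ← hk, ← Finset.prod_pow_eq_pow_sum]
      exact Ideal.prod_mem_prod fun j _ =>
        Ideal.pow_mem_pow (Ideal.subset_span (Set.mem_range_self j)) _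
    · rw [e1, sub_self]
      exact Ideal.zero_mem _
  have hfin := JetApprox.list hG hYG β (List.finRange s) hstart
  have hmon : (∏ j, (X j : MvPolynomial (Fin s) K) ^ γ j) =
      monomial (Finsupp.equivFunOnFinite.symm γ) 1 := by
    rw [monomial_eq, Finsupp.prod_fintype _ _ (by simp)]
    simp
  rw [hmon, pderiv_list_monomial β _ _ (List.nodup_finRange s)] at hfin
  have hev := hfin.2
  have hker : (RingHom.ker ev.toRingHom) ^ (k + 1) ≤ RingHom.ker ev.toRingHom :=
    Ideal.pow_le_self (Nat.succ_ne_zero k)
  have h3 := hker hev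
  rw [RingHom.mem_ker] at h3
  have h4 : ev (((List.finRange s).map fun i =>
      ((Y i : T →ₗ[K] T) : Module.End K T) ^ β i).prod (∏ j, G j ^ γ j)) =
      ev (aeval G (monomial (Finsupp.equivFunOnFinite.symm γ -
        ((List.finRange s).map fun i => Finsupp.single i (β i)).sum)
        (1 * ((List.finRange s).map fun i =>
          (((Finsupp.equivFunOnFinite.symm γ) i).descFactorial (β i) : K)).prod) :
          MvPolynomial (Fin s) K)) := by
    have : ev.toRingHom _ = _ := h3
    rw [map_sub, sub_eq_zero] at this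
    exact this
  rw [List.ofFn_eq_map, h4]
  have hS : ((List.finRange s).map fun i => (Finsupp.single i (β i) : Fin s →₀ ℕ)).sum =
      Finsupp.equivFunOnFinite.symm β := by
    rw [← List.ofFn_eq_map, List.sum_ofFn]
    ext j
    simp [Finsupp.single_apply]
  rw [hS, one_mul, ← List.ofFn_eq_map, List.prod_ofFn]
  rw [aeval_monomial]
  by_cases hβγ : β = γ
  · subst hβγ
    rw [if_pos rfl, tsub_self]
    simp [Nat.descFactorial_self]
  · rw [if_neg hβγ]
    -- some exponent of `γ - β` is nonzero
    have : ∃ j, β j < γ j := by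
      by_contra hcon
      push Not at hcon
      apply hβγ
      funext j
      by_contra hj
      have hlt : γ j < β j := lt_of_le_of_ne (hcon j) (Ne.symm hj)
      have := Finset.sum_lt_sum (fun i _ => hcon i) ⟨j, Finset.mem_univ j, hlt⟩
      omega
    obtain ⟨j, hj⟩ := this
    rw [map_mul]
    refine mul_eq_zero_of_right _ ?_
    rw [Finsupp.prod_fintype _ _ (by simp), map_prod]
    refine Finset.prod_eq_zero (Finset.mem_univ j) ?_
    rw [map_pow, hG j]
    refine zero_pow ?_
    simp only [Finsupp.coe_tsub, Pi.sub_apply, Finsupp.equivFunOnFinite_symm_apply_apply]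
    omega

end Pool.Agent.P166ae0
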