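import Mathlib
import Pool.Agent.Lib.P166ae0.Defs

/-!
# Products of equivariant lifts (module of the proof of MP_166ae0_al)
-/

set_option autoImplicit false

namespace Pool.Agent.P166ae0

open MvPolynomial

/-- The inclusion of the `k`-th block of variables. -/
def blockIncl {r : ℕ} (m : Fin r → ℕ) (k : Fin r) : Fin (m k) → (Σ k : Fin r, Fin (m k)) :=
  fun i => ⟨k, i⟩

theorem blockIncl_injective {r : ℕ} (m : Fin r → ℕ) (k : Fin r) :
    Function.Injective (blockIncl m k) := by
  intro i j hij
  exact sigma_mk_injective (i := k) hij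

/-- Leibniz rule for an ordered product. -/
theorem leibniz_ofFn {A : Type*} [Ring A] (D : A → A)
    (hD : ∀ a b, D (a * b) = D a * b + a * D b) :
    ∀ (r : ℕ) (u : Fin r → A), D (List.ofFn u).prod =
      ∑ k, (List.ofFn (Function.update u k (D (u k)))).prod := by
  intro r
  induction r with
  | zero =>
    intro u
    have h := hD 1 1
    rw [mul_one, mul_one, one_mul] at h
    have h1 : D 1 = 0 := by
      have := left_eq_add.1 h
      exact this
    simpa using h1
  | succ r ih =>
    intro u
    rw [List.ofFn_succ, List.prod_cons, hD, ih, Fin.sum_univ_succ]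
    congr 1
    · rw [List.ofFn_succ, List.prod_cons]
      simp
    · rw [Finset.mul_sum]
      refine Finset.sum_congr rfl fun k _ => ?_
      rw [List.ofFn_succ, List.prod_cons, Function.update_of_ne (Fin.succ_ne_zero k).symm]
      congr 3
      funext i
      by_cases hik : i = k
      · subst hik; simp
      · rw [Function.update_of_ne hik,
          Function.update_of_ne (fun h => hik (Fin.succ_injective _ h))]

/-- Ordered products of elements with symbols. -/
theorem SymbSetting.list_mem {K U T : Type*} [Field K] [Ring U] [Algebra K U] [CommRing T]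
    [Algebra K T] (S : SymbSetting K U T) : ∀ (r : ℕ) (u : Fin r → U) (t : Fin r → T)
    (d : Fin r → ℕ), (∀ k, (u k, t k) ∈ S.Sy (d k)) →
    ((List.ofFn u).prod, ∏ k, t k) ∈ S.Sy (∑ k, d k) := by
  intro r
  induction r with
  | zero => intro u t d _; simpa using S.one_mem
  | succ r ih =>
    intro u t d h
    rw [List.ofFn_succ, List.prod_cons, Fin.prod_univ_succ, Fin.sum_univ_succ]
    exact S.mul_mem (h 0) (ih _ _ _ fun k => h k.succ)

theorem sigmaD_rename {K : Type*} [Field K] {r : ℕ} (m : Fin r → ℕ) (k : Fin r)
    (F : MvPolynomial (Fin (m k)) K) :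
    sigmaD K m (rename (blockIncl m k) F) = rename (blockIncl m k) (blockD K (m k) F) := by
  induction F using MvPolynomial.induction_on with
  | C a => simp
  | add p q hp hq => simp only [map_add, hp, hq]
  | mul_X p i hp =>
    have h1 : sigmaD K m (X (blockIncl m k i)) =
        rename (blockIncl m k) (blockD K (m k) (X i)) := by
      unfold sigmaD blockD
      rw [mkDerivation_X, mkDerivation_X]
      by_cases hi : (i : ℕ) + 1 < m k
      · rw [dif_pos hi, dif_pos (show ((blockIncl m k i).2 : ℕ) + 1 < m (blockIncl m k i).1 from hi),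
          rename_X]
        rfl
      · rw [dif_neg hi,
          dif_neg (show ¬ ((blockIncl m k i).2 : ℕ) + 1 < m (blockIncl m k i).1 from hi), map_zero]
    simp only [map_mul, rename_X, Derivation.leibniz, smul_eq_mul, hp, h1, map_add]

theorem split_sum_mapDomain {r : ℕ} (m : Fin r → ℕ) (v : (k : Fin r) → (Fin (m k) →₀ ℕ))
    (k : Fin r) :
    Finsupp.split (∑ j, Finsupp.mapDomain (blockIncl m j) (v j) :
      (Σ k : Fin r, Fin (m k)) →₀ ℕ) k = v k := by
  ext i
  rw [Finsupp.split_apply, Finsupp.finsetSum_apply, Finset.sum_eq_single k]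
  · exact Finsupp.mapDomain_apply (blockIncl_injective m k) _ _
  · intro j _ hj
    refine Finsupp.mapDomain_of_notMem_range _ _ ?_
    rintro ⟨x, hx⟩
    exact hj (congrArg Sigma.fst hx)
  · intro h
    exact absurd (Finset.mem_univ k) h

theorem eq_sum_mapDomain {r : ℕ} (m : Fin r → ℕ) (a : (Σ k : Fin r, Fin (m k)) →₀ ℕ) :
    a = ∑ j, Finsupp.mapDomain (blockIncl m j) (Finsupp.split a j) := by
  ext ⟨k, i⟩
  have := congrArg (fun f => f i) (split_sum_mapDomain m (fun j => Finsupp.split a j) k)
  simp only [Finsupp.split_apply] at this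
  rw [this]

theorem monomial_eq_prod {K : Type*} [Field K] {r : ℕ} (m : Fin r → ℕ)
    (a : (Σ k : Fin r, Fin (m k)) →₀ ℕ) :
    (monomial a 1 : MvPolynomial (Σ k : Fin r, Fin (m k)) K) =
      ∏ k, rename (blockIncl m k) (monomial (Finsupp.split a k) 1) := by
  conv_lhs => rw [eq_sum_mapDomain m a]
  rw [monomial_sum_one]
  refine Finset.prod_congr rfl fun k _ => ?_
  rw [rename_monomial]

theorem sigma_liftable {K U T : Type*} [Field K] [Ring U] [Algebra K U] [CommRing T]
    [Algebra K T] (S : SymbSetting K U T) {r : ℕ} (m : Fin r → ℕ)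
    (ℓ : (Σ k : Fin r, Fin (m k)) → T)
    (h : ∀ k, Liftable S (blockD K (m k)) (fun i => ℓ ⟨k, i⟩)) :
    Liftable S (sigmaD K m) ℓ := by
  classical
  choose P hP1 hP2 using h
  let Φ : MvPolynomial (Σ k : Fin r, Fin (m k)) K →ₗ[K] U :=
    (basisMonomials (Σ k : Fin r, Fin (m k)) K).constr K
      (fun a => (List.ofFn fun k => P k (monomial (Finsupp.split a k) 1)).prod)
  have hΦ : ∀ a : (Σ k : Fin r, Fin (m k)) →₀ ℕ, Φ (monomial a 1) =
      (List.ofFn fun k => P k (monomial (Finsupp.split a k) 1)).prod := by
    intro a
    have := (basisMonomials (Σ k : Fin r, Fin (m k)) K).constr_basis K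
      (fun a => (List.ofFn fun k => P k (monomial (Finsupp.split a k) 1)).prod) a
    rwa [coe_basisMonomials] at this
  have hA : ∀ F : (k : Fin r) → MvPolynomial (Fin (m k)) K,
      Φ (∏ k, rename (blockIncl m k) (F k)) = (List.ofFn fun k => P k (F k)).prod := by
    have key : Φ.compMultilinearMap ((MultilinearMap.mkPiAlgebra K (Fin r)
        (MvPolynomial (Σ k : Fin r, Fin (m k)) K)).compLinearMap
        (fun k => (rename (blockIncl m k) : MvPolynomial (Fin (m k)) K →ₐ[K]
          MvPolynomial (Σ k : Fin r, Fin (m k)) K).toLinearMap)) =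
        (MultilinearMap.mkPiAlgebraFin K r U).compLinearMap P := by
      refine Module.Basis.ext_multilinear (fun k => basisMonomials (Fin (m k)) K) fun v => ?_
      simp only [coe_basisMonomials, LinearMap.compMultilinearMap_apply,
        MultilinearMap.compLinearMap_apply, MultilinearMap.mkPiAlgebra_apply,
        MultilinearMap.mkPiAlgebraFin_apply, AlgHom.toLinearMap_apply, rename_monomial]
      rw [← monomial_sum_one, hΦ]
      simp only [split_sum_mapDomain]
    intro F
    have := congrArg (fun f => f F) key
    simpa only [LinearMap.compMultilinearMap_apply, MultilinearMap.compLinearMap_apply,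
      MultilinearMap.mkPiAlgebra_apply, MultilinearMap.mkPiAlgebraFin_apply,
      AlgHom.toLinearMap_apply] using this
  refine ⟨Φ, ?_, ?_⟩
  · intro d f hf
    have hmono : ∀ a : (Σ k : Fin r, Fin (m k)) →₀ ℕ, ∀ c : K, a.degree = d →
        (Φ (monomial a c), aeval ℓ (monomial a c)) ∈ S.Sy d := by
      intro a c ha
      have h1 : (Φ (monomial a 1), aeval ℓ (monomial a (1 : K))) ∈ S.Sy d := by
        have hdeg : ∑ k, (Finsupp.split a k).degree = d := by
          rw [← ha]
          conv_rhs => rw [eq_sum_mapDomain m a]
          rw [map_sum]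
          refine Finset.sum_congr rfl fun k _ => ?_
          rw [Finsupp.degree_mapDomain]
        rw [← hdeg, hΦ, monomial_eq_prod m a, map_prod]
        refine S.list_mem r _ _ _ fun k => ?_
        rw [aeval_rename]
        exact hP1 k _ _ (isHomogeneous_monomial _ rfl)
      have h2 : (monomial a c : MvPolynomial (Σ k : Fin r, Fin (m k)) K) = c • monomial a 1 := by
        rw [smul_monomial, smul_eq_mul, mul_one]
      rw [h2, map_smul, map_smul]
      exact (S.Sy d).smul_mem c h1
    rw [f.as_sum, map_sum, map_sum]
    have hs : (∑ a ∈ f.support, Φ (monomial a (coeff a f)),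
        ∑ a ∈ f.support, aeval ℓ (monomial a (coeff a f))) =
        ∑ a ∈ f.support, (Φ (monomial a (coeff a f)), aeval ℓ (monomial a (coeff a f))) := by
      ext
      · simp [Prod.fst_sum]
      · simp [Prod.snd_sum]
    rw [hs]
    refine Submodule.sum_mem _ fun a ha => hmono a _ ?_
    have := hf (mem_support_iff.1 ha)
    rw [← this, Finsupp.degree_eq_weight_one]
    rfl
  · intro f
    have hlin : Φ ∘ₗ (sigmaD K m : MvPolynomial (Σ k : Fin r, Fin (m k)) K →ₗ[K]
        MvPolynomial (Σ k : Fin r, Fin (m k)) K) = S.DU ∘ₗ Φ := by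
      refine (basisMonomials (Σ k : Fin r, Fin (m k)) K).ext fun a => ?_
      rw [coe_basisMonomials]
      show Φ (sigmaD K m (monomial a 1)) = S.DU (Φ (monomial a 1))
      rw [hΦ, leibniz_ofFn S.DU S.DU_mul, monomial_eq_prod m a, ← List.prod_ofFn,
        leibniz_ofFn (fun f => sigmaD K m f)
          (fun a b => by rw [Derivation.leibniz, smul_eq_mul, smul_eq_mul]; ring), map_sum]
      refine Finset.sum_congr rfl fun k _ => ?_
      rw [sigmaD_rename, ← hP2 k]
      have e1 : (Function.update (fun j => rename (blockIncl m j)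
          (monomial (Finsupp.split a j) (1 : K))) k
          (rename (blockIncl m k) (blockD K (m k) (monomial (Finsupp.split a k) 1)))) =
          fun j => rename (blockIncl m j) (Function.update
            (fun j => (monomial (Finsupp.split a j) (1 : K))) k
            (blockD K (m k) (monomial (Finsupp.split a k) 1)) j) := by
        funext j
        exact (Function.apply_update (fun j => (rename (blockIncl m j) :
          MvPolynomial (Fin (m j)) K → MvPolynomial (Σ k : Fin r, Fin (m k)) K)) _ k _ j).symm
      have e2 : (Function.update (fun j => P j (monomial (Finsupp.split a j) (1 : K))) k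
          (P k (blockD K (m k) (monomial (Finsupp.split a k) 1)))) =
          fun j => P j (Function.update
            (fun j => (monomial (Finsupp.split a j) (1 : K))) k
            (blockD K (m k) (monomial (Finsupp.split a k) 1)) j) := by
        funext j
        exact (Function.apply_update (fun j => (P j :
          MvPolynomial (Fin (m j)) K → U)) _ k _ j).symm
      rw [e1, e2, List.prod_ofFn, hA]
    exact congrArg (fun g => g f) hlin

end Pool.Agent.P166ae0
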