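import Mathlib
import Pool.Agent.Lib.P166ae0.Adj
import Pool.Agent.Lib.P166ae0.JordanBasis
import Pool.Agent.Lib.P166ae0.BlockLift
import Pool.Agent.Lib.P166ae0.SigmaLift

/-!
# Strictness of `(ad v) ^ (p - 1)` for `p`-nilpotent `v`
-/

set_option autoImplicit false
set_option linter.unusedSimpArgs false
set_option linter.unusedSectionVars false

namespace Pool.Agent.P166ae0

open MvPolynomial

variable {K L : Type} [Field K] [LieRing L] [LieAlgebra K L]
variable {m p : ℕ} [Fact p.Prime] [CharP K p] (E : REmb K L p m)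

namespace REmb

/-- The symbol calculus with the derivation `ad v`. -/
noncomputable def setting (v : L) : SymbSetting K (UU K L) (TT K m) where
  DU := adA (AlgHom.id K _) (jU K L v)
  DT := (der (cmul (E.ι v))).toLinearMap
  Sy d :=
    { carrier := {q | q.1 ∈ GG K L (d + 1) ∧ E.sym d q.1 = q.2}
      add_mem' := by
        rintro a b ⟨h1, h2⟩ ⟨h3, h4⟩
        exact ⟨add_mem h1 h3, by rw [Prod.fst_add, map_add, h2, h4]; rfl⟩
      zero_mem' := ⟨zero_mem _, by simp⟩
      smul_mem' := by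
        rintro c a ⟨h1, h2⟩
        exact ⟨Submodule.smul_mem _ _ h1, by rw [Prod.smul_fst, map_smul, h2]; rfl⟩ }
  DU_mul := adA_leibniz _ v
  DT_mul := by
    intro a b
    change der (cmul (E.ι v)) (a * b) = der (cmul (E.ι v)) a * b + a * der (cmul (E.ι v)) b
    rw [Derivation.leibniz, smul_eq_mul, smul_eq_mul]
    ring
  one_mem := ⟨one_mem_GG, E.sym_one⟩
  mul_mem := by
    rintro d e a b f g ⟨h1, h2⟩ ⟨h3, h4⟩
    refine ⟨mul_mem_GG' h1 h3 (by omega), ?_⟩
    have := E.sym_mul h1 h3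
    simp only at h2 h4
    rw [h2, h4] at this
    exact this
  D_mem := by
    rintro d u f ⟨h1, h2⟩
    simp only at h1 h2
    have h3 := comm_mem_GG v h1
    have h4 := E.sym_comm v h1
    rw [h2] at h4
    refine ⟨?_, ?_⟩
    · simp only [adA_jU, AlgHom.id_apply]; exact h3
    · simp only [adA_jU, AlgHom.id_apply]; exact h4

theorem mem_Sy (v : L) (d : ℕ) (u : UU K L) (f : TT K m) :
    (u, f) ∈ (E.setting v).Sy d ↔ u ∈ GG K L (d + 1) ∧ E.sym d u = f := Iff.rfl

/-- The equivariant lift. -/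
theorem exists_lift [FiniteDimensional K L] (v : L) (hpv : E.pmap v = 0) :
    ∃ (r : ℕ) (n : Fin r → ℕ) (b : Module.Basis (Σ k : Fin r, Fin (n k)) K L),
      (∀ (x : Σ k : Fin r, Fin (n k)),
        ⁅v, b x⁆ = if h : (x.2 : ℕ) + 1 < n x.1 then b ⟨x.1, ⟨(x.2 : ℕ) + 1, h⟩⟩ else 0) ∧
      Liftable (E.setting v) (sigmaD K n) (fun x => E.ll (b x)) := by
  let D : L →ₗ[K] L := LieAlgebra.ad K L v
  have hD : ∀ y, D y = ⁅v, y⁆ := fun y => rfl
  have hDp : D ^ p = 0 := by
    ext y
    rw [Module.End.pow_apply]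
    have h := E.ad_pmap v y
    rw [hpv, zero_lie] at h
    exact h
  obtain ⟨r, n, b, hn, hb⟩ := exists_jordan_basis D p hDp
  refine ⟨r, n, b, fun x => hb x.1 x.2, ?_⟩
  apply sigma_liftable
  intro k
  have hM := (hn k).1
  refine block_liftable (E.setting v) p ?_ (n k) hM (hn k).2 (fun i => jU K L (b ⟨k, i⟩))
    (fun i => E.ll (b ⟨k, i⟩)) ?_ ?_ ?_ (E.zz (b ⟨k, ⟨0, hM⟩⟩)) ?_ ?_
  · intro u
    have h1 : ((E.setting v).DU)^[p] u = adA (AlgHom.id K _) (jU K L v ^ p) u := by
      rw [map_pow, Module.End.pow_apply]; rfl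
    rw [h1, adA_pow_p]
    have h2 := E.zz_central v u
    rw [zz, hpv, map_zero, sub_zero] at h2
    rw [AlgHom.id_apply, h2, sub_self]
  · intro i
    rw [mem_Sy]
    exact ⟨jU_mem_GG _, E.sym_jU _⟩
  · intro i
    have h1 : (E.setting v).DU (jU K L (b ⟨k, i⟩)) = jU K L ⁅v, b ⟨k, i⟩⁆ := by
      rw [jU_lie]; exact adA_jU _ _ _
    rw [h1, ← hD, hb k i]
    split_ifs <;> simp
  · intro i
    have h1 : (E.setting v).DT (E.ll (b ⟨k, i⟩)) = E.ll ⁅v, b ⟨k, i⟩⁆ := E.der_ll _ _
    rw [h1, ← hD, hb k i]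
    split_ifs <;> simp
  · rw [mem_Sy]
    exact ⟨E.zz_mem _, E.sym_zz _⟩
  · have h1 : (E.setting v).DU (E.zz (b ⟨k, ⟨0, hM⟩⟩))
        = jU K L v * E.zz (b ⟨k, ⟨0, hM⟩⟩) - E.zz (b ⟨k, ⟨0, hM⟩⟩) * jU K L v := adA_jU _ _ _
    rw [h1, E.zz_central, sub_self]

section evalpoly

variable {σ : Type} (c : σ → K)

/-- Evaluation along a line. -/
noncomputable def evt : MvPolynomial σ K →ₐ[K] Polynomial K :=
  aeval (fun i => Polynomial.C (c i) * Polynomial.X)

theorem evt_homog {d : ℕ} {s : MvPolynomial σ K} (hs : s.IsHomogeneous d) :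
    evt c s = Polynomial.C (eval c s) * Polynomial.X ^ d := by
  refine homog_induction (P := fun s => evt c s = Polynomial.C (eval c s) * Polynomial.X ^ d)
    ?_ ?_ ?_ ?_ s hs
  · intro α hα
    have h : (monomial α 1 : MvPolynomial σ K) = ((wl α).map X).prod := by rw [prod_X, ex_wl]
    have hl : (wl α).length = d := by rw [wl_length, hα]
    rw [h, ← hl]
    generalize wl α = w
    induction w with
    | nil => simp
    | cons i w ih =>
      rw [List.map_cons, List.prod_cons, map_mul, map_mul, ih, List.length_cons, pow_succ,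
        Polynomial.C_mul]
      have : evt c (X i) = Polynomial.C (c i) * Polynomial.X := by simp [evt]
      rw [this, eval_X]
      ring
  · simp
  · intro s t hs ht
    rw [map_add, map_add, hs, ht, Polynomial.C_add, add_mul]
  · intro a s hs
    rw [map_smul, hs, smul_eval, Polynomial.C_mul, Polynomial.smul_eq_C_mul, mul_assoc]

theorem evt_SS {d : ℕ} {s : MvPolynomial σ K} (hs : s ∈ SS K σ d) : (evt c s).coeff d = 0 := by
  induction hs using Submodule.span_induction with
  | mem s hs =>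
    obtain ⟨α, hα, rfl⟩ := hs
    rw [evt_homog c (d := α.degree) (isHomogeneous_monomial _ rfl), Polynomial.coeff_C_mul,
      Polynomial.coeff_X_pow, if_neg (by omega), mul_zero]
  | zero => simp
  | add y z _ _ hy hz => rw [map_add, Polynomial.coeff_add, hy, hz, add_zero]
  | smul a y _ hy => rw [map_smul, Polynomial.coeff_smul, hy, smul_zero]

theorem evt_derivation (D : Derivation K (MvPolynomial σ K) (MvPolynomial σ K))
    (hD : ∀ i, evt c (D (X i)) = 0) (s : MvPolynomial σ K) : evt c (D s) = 0 := by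
  induction s using MvPolynomial.induction_on with
  | C a => rw [← MvPolynomial.algebraMap_eq, Derivation.map_algebraMap, map_zero]
  | add s t hs ht => rw [map_add, map_add, hs, ht, add_zero]
  | mul_X s i hs =>
    rw [Derivation.leibniz, map_add, smul_eq_mul, smul_eq_mul, map_mul, map_mul, hs, hD]
    simp

end evalpoly

/-- The key lemma: the symbol of an element of the image of `(ad v) ^ (p - 1)` vanishes at every
linear form vanishing on `[v, L]`. -/
theorem key [FiniteDimensional K L] (v : L) (hpv : E.pmap v = 0) (ξ : Module.Dual K L)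
    (hξ : ∀ y, ξ ⁅v, y⁆ = 0) (ev : TT K m →ₐ[K] K) (hev : ∀ x, ev (E.ll x) = ξ x)
    (w : UU K L) (e : ℕ) (hc : adA (AlgHom.id K _) (jU K L v ^ (p - 1)) w ∈ GG K L (e + 1)) :
    ev (E.sym e (adA (AlgHom.id K _) (jU K L v ^ (p - 1)) w)) = 0 := by
  obtain ⟨r, n, b, hb, Φ, hΦ1, hΦ2⟩ := E.exists_lift v hpv
  have h1 : ∀ α : (Σ k : Fin r, Fin (n k)) →₀ ℕ, Φ (monomial α 1) ∈ GG K L (α.degree + 1) :=
    fun α => (hΦ1 α.degree (monomial α 1) (isHomogeneous_monomial _ rfl)).1
  have h2 : ∀ α : (Σ k : Fin r, Fin (n k)) →₀ ℕ,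
      E.sym α.degree (Φ (monomial α 1)) = E.toT b (monomial α 1) :=
    fun α => (hΦ1 α.degree (monomial α 1) (isHomogeneous_monomial _ rfl)).2
  obtain ⟨s, rfl⟩ := sec_surjective E.toEmb b Φ h1 h2 w
  have h3 : ∀ k : ℕ, adA (AlgHom.id K _) (jU K L v ^ k) (Φ s) = Φ ((sigmaD K n)^[k] s) := by
    intro k
    induction k with
    | zero => simp
    | succ k ih =>
      rw [pow_succ', map_mul, Module.End.mul_apply, ih, Function.iterate_succ_apply', hΦ2]
      rfl
  obtain ⟨q, hq⟩ : ∃ q, p - 1 = q + 1 := ⟨p - 2, by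
    have := (Fact.out : p.Prime).two_le
    omega⟩
  rw [h3, hq, Function.iterate_succ_apply'] at hc ⊢
  set t := (sigmaD K n)^[q] s with ht
  have h4 := sec_mem_SS E.toEmb b Φ h1 h2 (e + 1) _ hc
  obtain ⟨s₁, s₂, hs₁, hs₂, hsum⟩ := SS_succ h4
  have h5 := sec_homog E.toEmb b Φ h1 h2 hs₁
  have h6 : E.sym e (Φ ((sigmaD K n) t)) = E.toT b s₁ := by
    rw [hsum, map_add, map_add, h5.2, E.sym_eq_zero (le_refl _) (sec_mem Φ h1 hs₂), add_zero]
  rw [h6]
  have h7 : ev (E.toT b s₁) = eval (fun x => ξ (b x)) s₁ := by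
    have : ev.comp (E.toT b) = aeval (fun x => ξ (b x)) := by
      apply MvPolynomial.algHom_ext
      intro x
      rw [AlgHom.comp_apply, E.toT_X, hev, aeval_X]
    have h8 := congrArg (fun f => f s₁) this
    simp only [AlgHom.comp_apply] at h8
    rw [h8]
    rw [← coe_aeval_eq_eval]
    rfl
  rw [h7]
  have h9 : evt (fun x => ξ (b x)) ((sigmaD K n) t) = 0 := by
    apply evt_derivation
    intro x
    rw [sigmaD, mkDerivation_X]
    have h10 := hξ (b x)
    rw [hb x] at h10
    split_ifs with h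
    · rw [dif_pos h] at h10
      simp [evt, h10]
    · simp
  have h11 := congrArg (fun f => Polynomial.coeff f e) h9
  simp only [hsum, map_add, Polynomial.coeff_add, evt_SS _ hs₂, add_zero, evt_homog _ hs₁,
    Polynomial.coeff_C_mul, Polynomial.coeff_X_pow, if_true, mul_one, Polynomial.coeff_zero] at h11
  exact h11

end REmb

end Pool.Agent.P166ae0
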