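import Mathlib
import Pool.Agent.Lib.P166ae0.Adj

/-!
# Writing the identity of `u(L, χ)` through invariants of `u(L, 0)`
-/

set_option autoImplicit false
set_option linter.unusedSimpArgs false
set_option linter.unusedSectionVars false

open MvPolynomial

namespace Pool.Agent.P166ae0

variable {K L : Type} [Field K] [LieRing L] [LieAlgebra K L]
variable {m p : ℕ} [Fact p.Prime] [CharP K p] (E : REmb K L p m)

theorem REmb.inv_theta [FiniteDimensional K L] (χ : Module.Dual K L) :
    ∃ (N : ℕ) (a : Fin N → UU K L) (F : Fin N → Module.End K (E.RR χ)),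
      (∀ j x, E.piR 0 (jU K L x * a j) = 0) ∧ ∑ j, adA (E.lreg χ) (a j) (F j) = 1 := by
  classical
  obtain ⟨hfin, hrank⟩ := E.finrank_RR χ
  obtain ⟨hfin0, hrank0⟩ := E.finrank_RR 0
  obtain ⟨g, hg⟩ := E.adA_factor (A := Module.End K (E.RR χ)) (E.lreg χ) (E.lreg_central χ)
  let N := Module.finrank K (E.RR χ)
  let b : Module.Basis (Fin N) K (E.RR χ) := Module.finBasis K (E.RR χ)
  -- rank one maps
  let rk : E.RR χ → Module.Dual K (E.RR χ) →ₗ[K] Module.End K (E.RR χ) := fun y =>
    { toFun := fun φ => φ.smulRight y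
      map_add' := by intro φ ψ; ext r; simp [add_smul]
      map_smul' := by intro c φ; ext r; simp [smul_smul] }
  have rk_apply : ∀ y φ r, rk y φ r = φ r • y := fun y φ r => rfl
  let Θ : (Fin N → E.RR 0) →ₗ[K] Module.End K (E.RR χ) :=
    { toFun := fun a => ∑ i, g (a i) (rk 1 (b.coord i))
      map_add' := by
        intro a a'
        simp only [Pi.add_apply, map_add, LinearMap.add_apply, Finset.sum_add_distrib]
      map_smul' := by
        intro c a
        simp only [Pi.smul_apply, map_smul, LinearMap.smul_apply, Finset.smul_sum,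
          RingHom.id_apply] }
  have hΘ : ∀ a, Θ a = ∑ i, g (a i) (rk 1 (b.coord i)) := fun a => rfl
  have hmul : ∀ (s : E.RR 0) (a : Fin N → E.RR 0), g s (Θ a) = Θ (fun i => s * a i) := by
    intro s a
    rw [hΘ, hΘ, map_sum]
    refine Finset.sum_congr rfl fun i _ => ?_
    rw [map_mul, Module.End.mul_apply]
  have hone : ∀ φ : Module.Dual K (E.RR χ), rk 1 φ ∈ LinearMap.range Θ := by
    intro φ
    refine ⟨fun i => algebraMap K _ (φ (b i)), ?_⟩
    rw [hΘ]
    have h1 : φ = ∑ i, φ (b i) • b.coord i := by
      refine b.ext fun j => ?_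
      simp [Finsupp.single_apply]
    conv_rhs => rw [h1]
    rw [map_sum]
    refine Finset.sum_congr rfl fun i _ => ?_
    rw [AlgHom.commutes, map_smul, Module.algebraMap_end_apply]
  have hstab : ∀ (u : UU K L) (f : Module.End K (E.RR χ)), f ∈ LinearMap.range Θ →
      adA (E.lreg χ) u f ∈ LinearMap.range Θ := by
    rintro u _ ⟨a, rfl⟩
    rw [← hg, hmul]
    exact ⟨_, rfl⟩
  have hrk : ∀ (u : UU K L) (φ : Module.Dual K (E.RR χ)),
      rk (E.piR χ u) φ ∈ LinearMap.range Θ := by
    intro u
    refine U_induction (P := fun u => ∀ φ : Module.Dual K (E.RR χ),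
      rk (E.piR χ u) φ ∈ LinearMap.range Θ) ?_ ?_ ?_ u
    · intro l
      induction l with
      | nil =>
        intro φ
        rw [lp_nil, map_one]
        exact hone φ
      | cons x l ih =>
        intro φ
        have h1 : rk (E.piR χ (lp (x :: l))) φ
            = adA (E.lreg χ) (jU K L x) (rk (E.piR χ (lp l)) φ)
              + rk (E.piR χ (lp l)) (φ ∘ₗ (E.lreg χ (jU K L x))) := by
          ext r
          rw [adA_jU]
          simp only [LinearMap.add_apply, LinearMap.sub_apply, Module.End.mul_apply, rk_apply,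
            map_smul, E.lreg_apply, LinearMap.comp_apply, lp_cons, map_mul]
          rw [mul_smul_comm]
          abel
        rw [h1]
        exact add_mem (hstab _ _ (ih φ)) (ih _)
    · intro u v hu hv φ
      have h1 : rk (E.piR χ (u + v)) φ = rk (E.piR χ u) φ + rk (E.piR χ v) φ := by
        ext r
        simp only [rk_apply, map_add, smul_add, LinearMap.add_apply]
      rw [h1]
      exact add_mem (hu φ) (hv φ)
    · intro c u hu φ
      have h1 : rk (E.piR χ (c • u)) φ = c • rk (E.piR χ u) φ := by
        ext r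
        simp only [rk_apply, map_smul, LinearMap.smul_apply]
        rw [smul_comm]
      rw [h1]
      exact Submodule.smul_mem _ _ (hu φ)
  have hsurj : Function.Surjective Θ := by
    intro f
    have h1 : f = ∑ i, rk (f (b i)) (b.coord i) := by
      refine b.ext fun j => ?_
      simp [rk_apply, Finsupp.single_apply, LinearMap.sum_apply]
    change f ∈ LinearMap.range Θ
    rw [h1]
    refine sum_mem fun i _ => ?_
    obtain ⟨u, hu⟩ := E.piR_surjective χ (f (b i))
    rw [← hu]
    exact hrk u _
  have hdim : Module.finrank K (Fin N → E.RR 0) = Module.finrank K (Module.End K (E.RR χ)) := by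
    rw [Module.finrank_pi_fintype]
    simp only [Finset.sum_const, Finset.card_univ, Fintype.card_fin, smul_eq_mul]
    rw [Module.finrank_linearMap, hrank0, ← hrank]
  have hfinE : FiniteDimensional K (Module.End K (E.RR χ)) := inferInstance
  have hfinP : FiniteDimensional K (Fin N → E.RR 0) := inferInstance
  have hinj : Function.Injective Θ := by
    have h : Function.Injective Θ ↔ Function.Surjective Θ :=
      LinearMap.injective_iff_surjective_of_finrank_eq_finrank (K := K) (V := Fin N → E.RR 0)
        (V₂ := Module.End K (E.RR χ)) hdim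
    exact h.2 hsurj
  obtain ⟨a, ha⟩ := hsurj 1
  have hzero : ∀ (x : L) (i : Fin N), E.piR 0 (jU K L x) * a i = 0 := by
    intro x i
    have h1 : g (E.piR 0 (jU K L x)) (Θ a) = 0 := by
      rw [ha, hg, adA_jU, mul_one, one_mul, sub_self]
    rw [hmul] at h1
    have h2 := hinj (h1.trans (map_zero Θ).symm)
    exact congrFun h2 i
  choose u hu using fun i => E.piR_surjective 0 (a i)
  refine ⟨N, u, fun i => rk 1 (b.coord i), ?_, ?_⟩
  · intro j x
    rw [map_mul, hu]
    exact hzero x j
  · rw [← ha, hΘ]
    refine Finset.sum_congr rfl fun i _ => ?_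
    rw [← hg, hu]

end Pool.Agent.P166ae0
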