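import Mathlib
import Pool.Agent.Lib.P166ae0.InvTheta

/-!
# A semisimple reduced enveloping algebra yields a nonzero invariant
-/

set_option autoImplicit false
set_option linter.unusedSectionVars false

open MvPolynomial

namespace Pool.Agent.P166ae0

/-- A nonzero semisimple algebra over an algebraically closed field has a matrix representation,
surjective, whose module is a direct summand of the regular module. -/
theorem exists_rep_of_semisimple {K A : Type} [Field K] [IsAlgClosed K] [Ring A] [Algebra K A]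
    [FiniteDimensional K A] [Nontrivial A] [IsSemisimpleRing A] :
    ∃ (d : ℕ) (_ : NeZero d) (f : A →ₐ[K] Module.End K (Fin d → K))
      (i : (Fin d → K) →ₗ[K] A) (r : A →ₗ[K] (Fin d → K)), Function.Surjective f ∧
      (∀ a v, i (f a v) = a * i v) ∧ (∀ a x, r (a * x) = f a (r x)) ∧ ∀ v, r (i v) = v := by
  classical
  obtain ⟨n, d, hd, ⟨e⟩⟩ := IsSemisimpleRing.exists_algEquiv_pi_matrix_of_isAlgClosed K A
  have hn : n ≠ 0 := by
    rintro rfl
    have h1 : (1 : A) = 0 := e.injective (by funext j; exact j.elim0)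
    exact one_ne_zero h1
  let k : Fin n := ⟨0, Nat.pos_of_ne_zero hn⟩
  have := hd k
  let ρ : A →ₐ[K] Matrix (Fin (d k)) (Fin (d k)) K :=
    (Pi.evalAlgHom K (fun j => Matrix (Fin (d j)) (Fin (d j)) K) k).comp e.toAlgHom
  have hρ : ∀ a, ρ a = e a k := fun a => rfl
  let f : A →ₐ[K] Module.End K (Fin (d k) → K) :=
    (Matrix.toLinAlgEquiv' : Matrix (Fin (d k)) (Fin (d k)) K ≃ₐ[K] _).toAlgHom.comp ρ
  have hf : ∀ a v, f a v = (ρ a).mulVec v := fun a v => rfl
  let z : Fin (d k) := 0
  -- matrix with first column `v`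
  let col : (Fin (d k) → K) →ₗ[K] Matrix (Fin (d k)) (Fin (d k)) K :=
    { toFun := fun v => Matrix.of fun x y => if y = z then v x else 0
      map_add' := fun v w => by
        ext x y
        simp only [Matrix.of_apply, Matrix.add_apply, Pi.add_apply]
        split_ifs <;> simp
      map_smul' := fun c v => by
        ext x y
        simp only [Matrix.of_apply, Matrix.smul_apply, Pi.smul_apply, RingHom.id_apply]
        split_ifs <;> simp }
  have hcol : ∀ v x y, col v x y = if y = z then v x else 0 := fun v x y => rfl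
  let i : (Fin (d k) → K) →ₗ[K] A :=
    e.symm.toLinearMap ∘ₗ
      (LinearMap.single K (fun j => Matrix (Fin (d j)) (Fin (d j)) K) k) ∘ₗ col
  have hi : ∀ v, i v = e.symm (Pi.single k (col v)) := fun v => rfl
  let r : A →ₗ[K] (Fin (d k) → K) :=
    { toFun := fun x => (ρ x).mulVec (Pi.single z 1)
      map_add' := fun x y => by rw [map_add, Matrix.add_mulVec]
      map_smul' := fun c x => by rw [map_smul, Matrix.smul_mulVec, RingHom.id_apply] }
  have hr : ∀ x, r x = (ρ x).mulVec (Pi.single z 1) := fun x => rfl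
  refine ⟨d k, hd k, f, i, r, ?_, ?_, ?_, ?_⟩
  · intro F
    refine ⟨e.symm (Pi.single k ((Matrix.toLinAlgEquiv' :
      Matrix (Fin (d k)) (Fin (d k)) K ≃ₐ[K] _).symm F)), ?_⟩
    apply LinearMap.ext
    intro v
    rw [hf, hρ, AlgEquiv.apply_symm_apply, Pi.single_eq_same]
    exact congrArg (fun g : Module.End K (Fin (d k) → K) => g v)
      ((Matrix.toLinAlgEquiv' : Matrix (Fin (d k)) (Fin (d k)) K ≃ₐ[K] _).apply_symm_apply F)
  · intro a v
    apply e.injective
    rw [hi, hi, map_mul, AlgEquiv.apply_symm_apply, AlgEquiv.apply_symm_apply, hf]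
    funext j
    rw [Pi.mul_apply]
    by_cases hj : j = k
    · subst hj
      rw [Pi.single_eq_same, Pi.single_eq_same, ← hρ]
      ext x y
      rw [hcol, Matrix.mul_apply]
      simp only [hcol]
      split_ifs with hy
      · rfl
      · simp
    · rw [Pi.single_eq_of_ne hj, Pi.single_eq_of_ne hj, mul_zero]
  · intro a x
    rw [hr, hr, hf, map_mul, Matrix.mulVec_mulVec]
  · intro v
    rw [hr, hρ, hi, AlgEquiv.apply_symm_apply, Pi.single_eq_same]
    ext x
    rw [Matrix.mulVec_single_one]
    simp [hcol]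

variable {K L : Type} [Field K] [LieRing L] [LieAlgebra K L]

/-- Equivariance between adjoint actions on two algebras. -/
theorem adA_equi {A B : Type} [Ring A] [Algebra K A] [Ring B] [Algebra K B]
    (f : UU K L →ₐ[K] A) (g : UU K L →ₐ[K] B) (c : A →ₗ[K] B)
    (hc : ∀ (x : L) (a : A), c (f (jU K L x) * a - a * f (jU K L x))
      = g (jU K L x) * c a - c a * g (jU K L x)) (u : UU K L) (a : A) :
    c (adA f u a) = adA g u (c a) := by
  refine adA_equivariant (adA f) (adA g) c ?_ u a
  intro x a
  rw [adA_jU, adA_jU, hc]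

variable {m p : ℕ} [Fact p.Prime] [CharP K p] (E : REmb K L p m)

/-- module SemisimpleInv, file SemisimpleInv.lean (may use inv_theta) -/
theorem REmb.semisimple_inv [IsAlgClosed K] [FiniteDimensional K L] (χ : Module.Dual K L)
    (h : IsSemisimpleRing (E.RR χ)) :
    ∃ a b : UU K L, (∀ x, E.piR 0 (jU K L x * a) = 0) ∧ adA (AlgHom.id K _) a b ≠ 0 := by
  classical
  obtain ⟨hfin, hrank⟩ := E.finrank_RR χ
  have hnt : Nontrivial (E.RR χ) := by
    apply Module.nontrivial_of_finrank_pos (R := K)
    rw [hrank]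
    exact pow_pos (Fact.out : p.Prime).pos _
  obtain ⟨d, hd, f, i, r, hsurj, hi, hr, hri⟩ := exists_rep_of_semisimple (K := K) (A := E.RR χ)
  obtain ⟨N, a, F, ha, hF⟩ := E.inv_theta χ
  -- compression of endomorphisms
  let c : Module.End K (E.RR χ) →ₗ[K] Module.End K (Fin d → K) :=
    { toFun := fun G => r ∘ₗ G ∘ₗ i
      map_add' := fun G H => by
        apply LinearMap.ext
        intro v
        simp
      map_smul' := fun t G => by
        apply LinearMap.ext
        intro v
        simp }
  have hc : ∀ G v, c G v = r (G (i v)) := fun G v => rfl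
  have hc1 : c 1 = 1 := by
    apply LinearMap.ext
    intro v
    rw [hc, Module.End.one_apply, hri, Module.End.one_apply]
  have hequi : ∀ (u : UU K L) (G : Module.End K (E.RR χ)),
      c (adA (E.lreg χ) u G) = adA (f.comp (E.piR χ)) u (c G) := by
    intro u G
    refine adA_equi (E.lreg χ) (f.comp (E.piR χ)) c ?_ u G
    intro x G
    apply LinearMap.ext
    intro v
    rw [hc, LinearMap.sub_apply, LinearMap.sub_apply, map_sub]
    simp only [Module.End.mul_apply, AlgHom.comp_apply, hc, REmb.lreg_apply]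
    rw [hr, hi]
  have hb : ∀ j, ∃ b : UU K L, f (E.piR χ b) = c (F j) := by
    intro j
    obtain ⟨y, hy⟩ := hsurj (c (F j))
    obtain ⟨u, hu⟩ := E.piR_surjective χ y
    exact ⟨u, by rw [hu, hy]⟩
  choose b hb using hb
  by_contra hcon
  push Not at hcon
  have h0 : ∀ j, adA (AlgHom.id K _) (a j) (b j) = 0 := fun j => hcon (a j) (b j) (ha j)
  have h1 : ∀ j, c (adA (E.lreg χ) (a j) (F j)) = 0 := by
    intro j
    rw [hequi, ← hb j]
    have h2 := adA_natural (AlgHom.id K (UU K L)) (f.comp (E.piR χ)) (a j) (b j)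
    rw [h0 j, map_zero, AlgHom.comp_id] at h2
    exact h2.symm
  have h2 : c 1 = 0 := by
    rw [← hF, map_sum]
    exact Finset.sum_eq_zero fun j _ => h1 j
  rw [hc1] at h2
  have h3 := congrArg (fun g : Module.End K (Fin d → K) => g (fun _ => 1) (0 : Fin d)) h2
  simp at h3

end Pool.Agent.P166ae0
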