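import Mathlib

set_option autoImplicit false
set_option linter.unusedSectionVars false

namespace Pool.Agent.P166ae0

/-- The q-th power of the commutator map is the commutator with the q-th power, q a power of p. -/
theorem comm_pow_char {K A : Type*} [Field K] (p : ℕ) [Fact p.Prime] [CharP K p] [Ring A]
    [Algebra K A] (X Y : A) (k : ℕ) :
    X ^ (p ^ k) * Y - Y * X ^ (p ^ k) = (fun W : A => X * W - W * X)^[p ^ k] Y := by
  rcases subsingleton_or_nontrivial A with h | h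
  · exact Subsingleton.elim _ _
  have : CharP (Module.End K A) p :=
    charP_of_injective_algebraMap (algebraMap K (Module.End K A)).injective p
  have hc : Commute (LinearMap.mulLeft K X) (LinearMap.mulRight K X) :=
    LinearMap.commute_mulLeft_right X X
  have h1 : (LinearMap.mulLeft K X - LinearMap.mulRight K X : Module.End K A) ^ (p ^ k) =
      LinearMap.mulLeft K X ^ (p ^ k) - LinearMap.mulRight K X ^ (p ^ k) :=
    sub_pow_expChar_pow_of_commute p k hc
  have h2 := congrArg (fun f : Module.End K A => f Y) h1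
  simp only [LinearMap.pow_mulLeft, LinearMap.pow_mulRight, LinearMap.sub_apply,
    LinearMap.mulLeft_apply, LinearMap.mulRight_apply] at h2
  rw [← h2, Module.End.pow_apply]
  congr 1

section

variable (p : ℕ) [Fact p.Prime] (K : Type) [Field K] [IsAlgClosed K]
    [CharP K p] (L : Type) [LieRing L] [LieAlgebra K L] [FiniteDimensional K L] (pmap : L → L)
    (n : ℕ) (ι : L →ₗ[K] Matrix (Fin n) (Fin n) K) (hinj : Function.Injective ι)
    (hlie : ∀ x y : L, ι ⁅x, y⁆ = ι x * ι y - ι y * ι x)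
    (hp : ∀ x : L, ι (pmap x) = ι x ^ p)

include hp in
theorem iter_pmap (x : L) (k : ℕ) : ι (pmap^[k] x) = ι x ^ (p ^ k) := by
  induction k with
  | zero => simp
  | succ k ih => rw [Function.iterate_succ_apply', hp, ih, ← pow_mul, pow_succ]

include hlie in
theorem iter_ad (x y : L) (k : ℕ) :
    ι ((fun w : L => ⁅x, w⁆)^[k] y) = (fun W => ι x * W - W * ι x)^[k] (ι y) := by
  induction k with
  | zero => simp
  | succ k ih => rw [Function.iterate_succ_apply', Function.iterate_succ_apply', hlie, ih]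

include hinj hlie hp in
theorem bracket_iter (x y : L) (k : ℕ) :
    ⁅pmap^[k] x, y⁆ = (fun w : L => ⁅x, w⁆)^[p ^ k] y := by
  apply hinj
  rw [hlie, iter_pmap p K L pmap n ι hp, iter_ad K L n ι hlie, comm_pow_char (K := K) p]

/-- The stabiliser. -/
theorem stab_lie (ξ : Module.Dual K L) (x z : L) (hx : ∀ y : L, ξ ⁅x, y⁆ = 0)
    (hz : ∀ y : L, ξ ⁅z, y⁆ = 0) : ∀ y : L, ξ ⁅⁅x, z⁆, y⁆ = 0 := by
  intro y
  rw [lie_lie, map_sub, hx, hz, sub_zero]

include hinj hlie hp in
theorem stab_pmap (ξ : Module.Dual K L) (x : L) (hx : ∀ y : L, ξ ⁅x, y⁆ = 0) :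
    ∀ y : L, ξ ⁅pmap x, y⁆ = 0 := by
  intro y
  have h := bracket_iter p K L pmap n ι hinj hlie hp x y 1
  rw [Function.iterate_one, pow_one] at h
  rw [h]
  obtain ⟨q, hq⟩ : ∃ q, p = q + 1 := ⟨p - 1, by have := (Fact.out : p.Prime).pos; omega⟩
  rw [hq, Function.iterate_succ_apply']
  exact hx _

include hinj hlie hp in
theorem stab_iter (ξ : Module.Dual K L) (x : L) (hx : ∀ y : L, ξ ⁅x, y⁆ = 0) (k : ℕ) :
    ∀ y : L, ξ ⁅pmap^[k] x, y⁆ = 0 := by
  induction k with
  | zero => simpa using hx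
  | succ k ih =>
    rw [Function.iterate_succ_apply']
    exact stab_pmap p K L pmap n ι hinj hlie hp ξ _ ih

theorem stab_sum (ξ : Module.Dual K L) (s : Finset ℕ) (c : ℕ → K) (v : ℕ → L)
    (hv : ∀ i, ∀ y : L, ξ ⁅v i, y⁆ = 0) : ∀ y : L, ξ ⁅∑ i ∈ s, c i • v i, y⁆ = 0 := by
  intro y
  induction s using Finset.induction_on with
  | empty => simp
  | insert a s ha ih =>
    rw [Finset.sum_insert ha, add_lie, map_add, ih, smul_lie, map_smul, hv, smul_zero, add_zero]

include hinj hp in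
theorem pmap_sum (x : L) (m : ℕ) (d : ℕ → K) :
    pmap (∑ i ∈ Finset.range m, d i • pmap^[i] x) =
      ∑ i ∈ Finset.range m, (d i) ^ p • pmap^[i + 1] x := by
  apply hinj
  rw [hp, map_sum, map_sum]
  simp only [map_smul, iter_pmap p K L pmap n ι hp]
  have h1 : (∑ i ∈ Finset.range m, Polynomial.C (d i) * Polynomial.X ^ (p ^ i) : Polynomial K) ^ p =
      ∑ i ∈ Finset.range m, Polynomial.C (d i ^ p) * Polynomial.X ^ (p ^ (i + 1)) := by
    rw [sum_pow_char]
    refine Finset.sum_congr rfl fun i _ => ?_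
    rw [mul_pow, ← pow_mul, ← pow_succ, Polynomial.C_pow]
  have h2 := congrArg (Polynomial.aeval (ι x)) h1
  simpa [Algebra.smul_def] using h2

include hinj hlie hp in
theorem span_aux (ξ : Module.Dual K L)
    (hξ : ∀ x : L, (∀ y : L, ξ ⁅x, y⁆ = 0) → pmap x = 0 → x = 0)
    (x : L) (hx : ∀ y : L, ξ ⁅x, y⁆ = 0) (m : ℕ) :
    ∀ c : ℕ → K, (∃ i ≤ m, c i ≠ 0) → ∑ i ∈ Finset.range (m + 1), c i • pmap^[i] x = 0 →
      x ∈ Submodule.span K (Set.range (fun k : ℕ => pmap^[k + 1] x)) := by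
  induction m with
  | zero =>
    rintro c ⟨i, hi, hci⟩ hs
    have hi0 : i = 0 := by omega
    subst hi0
    simp only [zero_add, Finset.range_one, Finset.sum_singleton, Function.iterate_zero, id] at hs
    have : x = 0 := (smul_eq_zero.mp hs).resolve_left hci
    rw [this]
    exact Submodule.zero_mem _
  | succ m ih =>
    rintro c ⟨i, hi, hci⟩ hs
    by_cases h0 : c 0 = 0
    · choose d hd using fun i : ℕ => IsAlgClosed.exists_pow_nat_eq (c (i + 1))
        (Fact.out : p.Prime).pos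
      have hsum : ∑ i ∈ Finset.range (m + 1), d i • pmap^[i] x = 0 := by
        apply hξ
        · exact stab_sum K L ξ _ _ _ fun i => stab_iter p K L pmap n ι hinj hlie hp ξ x hx i
        · rw [pmap_sum p K L pmap n ι hinj hp]
          rw [Finset.sum_range_succ' _ (m + 1), h0, zero_smul, add_zero] at hs
          rw [← hs]
          exact Finset.sum_congr rfl fun i _ => by rw [hd]
      refine ih d ⟨i - 1, by omega, ?_⟩ hsum
      have hi0 : i ≠ 0 := by rintro rfl; exact hci h0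
      intro hdi
      apply hci
      have := hd (i - 1)
      rw [hdi, zero_pow (Fact.out : p.Prime).ne_zero, Nat.sub_add_cancel (by omega)] at this
      exact this.symm
    · rw [Finset.sum_range_succ', Function.iterate_zero, id] at hs
      have hx' : x = ∑ i ∈ Finset.range (m + 1), (-(c 0)⁻¹ * c (i + 1)) • pmap^[i + 1] x := by
        have h1 : c 0 • x = - ∑ i ∈ Finset.range (m + 1), c (i + 1) • pmap^[i + 1] x :=
          eq_neg_of_add_eq_zero_right hs
        have h2 : x = (c 0)⁻¹ • (c 0 • x) := by rw [smul_smul, inv_mul_cancel₀ h0, one_smul]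
        calc x = (c 0)⁻¹ • (c 0 • x) := h2
          _ = _ := by
            rw [h1, smul_neg, Finset.smul_sum, ← Finset.sum_neg_distrib]
            refine Finset.sum_congr rfl fun i _ => ?_
            rw [smul_smul, neg_mul, neg_smul]
      have hmem : ∑ i ∈ Finset.range (m + 1), (-(c 0)⁻¹ * c (i + 1)) • pmap^[i + 1] x ∈
          Submodule.span K (Set.range (fun k : ℕ => pmap^[k + 1] x)) :=
        Submodule.sum_mem _ fun i _ => Submodule.smul_mem _ _ (Submodule.subset_span ⟨i, rfl⟩)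
      rwa [← hx'] at hmem

include hinj hlie hp in
theorem mem_span (ξ : Module.Dual K L)
    (hξ : ∀ x : L, (∀ y : L, ξ ⁅x, y⁆ = 0) → pmap x = 0 → x = 0)
    (x : L) (hx : ∀ y : L, ξ ⁅x, y⁆ = 0) :
    x ∈ Submodule.span K (Set.range (fun k : ℕ => pmap^[k + 1] x)) := by
  have hnot : ¬ LinearIndependent K (fun i : ℕ => pmap^[i] x) := by
    intro hli
    exact (Infinite.not_finite (α := ℕ)) hli.finite
  rw [linearIndependent_iff'] at hnot
  push Not at hnot
  obtain ⟨s, g, hs, i, his, hgi⟩ := hnot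
  set m := s.sup id with hm
  have hle : ∀ j ∈ s, j ≤ m := fun j hj => Finset.le_sup (f := id) hj
  refine span_aux p K L pmap n ι hinj hlie hp ξ hξ x hx m (fun j => if j ∈ s then g j else 0)
    ⟨i, hle i his, by simp [his, hgi]⟩ ?_
  rw [← hs]
  symm
  apply Finset.sum_subset_zero_on_sdiff
  · intro j hj
    exact Finset.mem_range.mpr (Nat.lt_succ_of_le (hle j hj))
  · intro j hj
    have : j ∉ s := (Finset.mem_sdiff.mp hj).2
    simp [this]
  · intro j hj
    simp [hj]

include hinj hlie hp in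
theorem ad_sq (ξ : Module.Dual K L)
    (hξ : ∀ x : L, (∀ y : L, ξ ⁅x, y⁆ = 0) → pmap x = 0 → x = 0)
    (x : L) (hx : ∀ y : L, ξ ⁅x, y⁆ = 0) (w : L) (hw : ⁅x, ⁅x, w⁆⁆ = 0) : ⁅x, w⁆ = 0 := by
  have h0 : ∀ k : ℕ, (fun w : L => ⁅x, w⁆)^[k] 0 = 0 := by
    intro k
    induction k with
    | zero => rfl
    | succ k ih => rw [Function.iterate_succ_apply', ih, lie_zero]
  have key : ∀ u ∈ Submodule.span K (Set.range (fun k : ℕ => pmap^[k + 1] x)), ⁅u, w⁆ = 0 := by
    intro u hu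
    induction hu using Submodule.span_induction with
    | mem u hu =>
      obtain ⟨k, rfl⟩ := hu
      show ⁅pmap^[k + 1] x, w⁆ = 0
      rw [bracket_iter p K L pmap n ι hinj hlie hp]
      have h2 : 2 ≤ p ^ (k + 1) := by
        have h3 : p ^ 1 ≤ p ^ (k + 1) := Nat.pow_le_pow_right (Fact.out : p.Prime).pos (by omega)
        have h4 := (Fact.out : p.Prime).two_le
        rw [pow_one] at h3
        omega
      obtain ⟨q, hq⟩ : ∃ q, p ^ (k + 1) = q + 2 := ⟨p ^ (k + 1) - 2, by omega⟩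
      rw [hq, Function.iterate_add_apply]
      have : (fun w : L => ⁅x, w⁆)^[2] w = 0 := hw
      rw [this, h0]
    | zero => exact zero_lie w
    | add u v _ _ hu hv => rw [add_lie, hu, hv, add_zero]
    | smul a u _ hu => rw [smul_lie, hu, smul_zero]
  exact key x (mem_span p K L pmap n ι hinj hlie hp ξ hξ x hx)

end

theorem toral_of_no_nilpotent (p : ℕ) [Fact p.Prime] (K : Type) [Field K] [IsAlgClosed K]
    [CharP K p] (L : Type) [LieRing L] [LieAlgebra K L] [FiniteDimensional K L] (pmap : L → L)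
    (n : ℕ) (ι : L →ₗ[K] Matrix (Fin n) (Fin n) K) (hinj : Function.Injective ι)
    (hlie : ∀ x y : L, ι ⁅x, y⁆ = ι x * ι y - ι y * ι x)
    (hp : ∀ x : L, ι (pmap x) = ι x ^ p)
    (ξ : Module.Dual K L)
    (hξ : ∀ x : L, (∀ y : L, ξ ⁅x, y⁆ = 0) → pmap x = 0 → x = 0) :
    (∀ x : L, (∀ y : L, ξ ⁅x, y⁆ = 0) → ∀ z : L, (∀ y : L, ξ ⁅z, y⁆ = 0) → ⁅x, z⁆ = 0) ∧
    (∀ x : L, (∀ y : L, ξ ⁅x, y⁆ = 0) → ∀ y : L, ξ ⁅pmap x, y⁆ = 0) ∧
    (∀ x : L, (∀ y : L, ξ ⁅x, y⁆ = 0) →
      x ∈ Submodule.span K (Set.range (fun k : ℕ => pmap^[k + 1] x))) := by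
  refine ⟨?_, fun x hx => stab_pmap p K L pmap n ι hinj hlie hp ξ x hx,
    fun x hx => mem_span p K L pmap n ι hinj hlie hp ξ hξ x hx⟩
  intro x hx z hz
  by_contra hne
  -- the stabiliser as a submodule
  let Z : Submodule K L :=
    { carrier := {u | ∀ y : L, ξ ⁅u, y⁆ = 0}
      add_mem' := by
        intro a b ha hb y
        rw [add_lie, map_add, ha y, hb y, add_zero]
      zero_mem' := by
        intro y
        rw [zero_lie, map_zero]
      smul_mem' := by
        intro c a ha y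
        rw [smul_lie, map_smul, ha y, smul_zero] }
  have hZ : ∀ u, u ∈ Z ↔ ∀ y : L, ξ ⁅u, y⁆ = 0 := fun u => Iff.rfl
  let A : L →ₗ[K] L := (LieAlgebra.ad K L x : L →ₗ[K] L)
  have hA : ∀ u, A u = ⁅x, u⁆ := fun u => rfl
  let V : Submodule K L := Z.map A
  have hVZ : V ≤ Z := by
    rintro _ ⟨u, hu, rfl⟩
    exact stab_lie K L ξ x u hx hu
  have hAV : ∀ v ∈ V, A v ∈ V := fun v hv => ⟨v, hVZ hv, rfl⟩
  let B : V →ₗ[K] V := A.restrict hAV
  have hxz : A z ∈ V := ⟨z, hz, rfl⟩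
  have : Nontrivial V := ⟨⟨⟨A z, hxz⟩, 0, fun h => hne (congrArg Subtype.val h)⟩⟩
  obtain ⟨c, hc⟩ := Module.End.exists_eigenvalue B
  obtain ⟨v, hv⟩ := hc.exists_hasEigenvector
  have hv1 : B v = c • v := hv.apply_eq_smul
  have hv2 : ⁅x, (v : L)⁆ = c • (v : L) := congrArg Subtype.val hv1
  have hv0 : (v : L) ≠ 0 := fun h => hv.2 (Subtype.ext h)
  have hvZ : ∀ y : L, ξ ⁅(v : L), y⁆ = 0 := hVZ v.2
  have h1 : ⁅(v : L), ⁅(v : L), x⁆⁆ = 0 := by
    rw [← lie_skew (v : L) x, hv2, lie_neg, lie_smul, lie_self, smul_zero, neg_zero]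
  have h2 := ad_sq p K L pmap n ι hinj hlie hp ξ hξ v hvZ x h1
  have h3 : ⁅x, (v : L)⁆ = 0 := by rw [← lie_skew, h2, neg_zero]
  obtain ⟨u, hu, huv⟩ := v.2
  have h4 : ⁅x, u⁆ = 0 := by
    apply ad_sq p K L pmap n ι hinj hlie hp ξ hξ x hx
    have : ⁅x, u⁆ = (v : L) := huv
    rw [this, h3]
  apply hv0
  rw [← huv]
  exact h4

end Pool.Agent.P166ae0
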