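import Mathlib
import Pool.Agent.Lib.P166ae0.Adj

/-!
# The annihilator of a `p`-nilpotent element in `u(L, 0)`
-/

set_option autoImplicit false
set_option linter.unusedSimpArgs false
set_option linter.unusedSectionVars false

open MvPolynomial

namespace Pool.Agent.P166ae0

variable {K L : Type} [Field K] [LieRing L] [LieAlgebra K L]
variable {m p : ℕ} [Fact p.Prime] [CharP K p] (E : REmb K L p m)

namespace VF

theorem pow_mem (v : L) (k : ℕ) : jU K L v ^ k ∈ GG K L (k + 1) := by
  have := lp_mem (K := K) (List.replicate k v) (d := k + 1) (by simp)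
  simpa [lp] using this

theorem sym_pow (E : Emb K L m) (v : L) (k : ℕ) : E.sym k (jU K L v ^ k) = E.ll v ^ k := by
  have := E.sym_lp (List.replicate k v)
  simpa [lp] using this

theorem erase_degree {σ : Type} (γ : σ →₀ ℕ) (i : σ) :
    γ i + (γ.erase i).degree = γ.degree := by
  classical
  conv_rhs => rw [← Finsupp.single_add_erase i γ]
  rw [map_add, Finsupp.degree_single]

/-- the monomials with the distinguished basis vector first -/
noncomputable def ww {σ : Type} (b : Module.Basis σ K L) (i : σ) (γ : σ →₀ ℕ) : UU K L :=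
  jU K L (b i) ^ (γ i) * mon b (γ.erase i)

theorem ww_mem {σ : Type} (b : Module.Basis σ K L) (i : σ) (γ : σ →₀ ℕ) :
    ww b i γ ∈ GG K L (γ.degree + 1) := by
  have h := erase_degree γ i
  exact mul_mem_GG' (pow_mem (b i) (γ i)) (mon_mem b _) (by omega)

theorem sym_ww (E : Emb K L m) {σ : Type} (b : Module.Basis σ K L) (i : σ) (γ : σ →₀ ℕ) :
    E.sym γ.degree (ww b i γ) = E.toT b (monomial γ 1) := by
  rw [← erase_degree γ i, ww, E.sym_mul (pow_mem (b i) (γ i)) (mon_mem b _), sym_pow, sym_mon,
    ← E.toT_X, ← map_pow, ← map_mul]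
  congr 1
  rw [X_pow_eq_monomial, monomial_mul, mul_one, Finsupp.single_add_erase]

/-- raise the distinguished exponent by one when possible -/
noncomputable def up {σ : Type} [DecidableEq σ] (i : σ) (f : σ → Fin p) : σ → Fin p :=
  if h : (f i : ℕ) + 1 < p then Function.update f i ⟨(f i : ℕ) + 1, h⟩ else f

theorem up_inj {σ : Type} [DecidableEq σ] (i : σ) {f g : σ → Fin p} (hf : (f i : ℕ) + 1 < p)
    (hg : (g i : ℕ) + 1 < p) (h : up i f = up i g) : f = g := by
  rw [up, dif_pos hf, up, dif_pos hg] at h
  funext j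
  by_cases hj : j = i
  · subst hj
    have h1 := congrFun h j
    rw [Function.update_self, Function.update_self, Fin.mk.injEq] at h1
    apply Fin.ext
    omega
  · have h1 := congrFun h j
    rwa [Function.update_of_ne hj, Function.update_of_ne hj] at h1

theorem jR_pow_zero (v : L) (hpv : E.pmap v = 0) : E.jR 0 v ^ p = 0 := by
  have h := E.jR_pow 0 v
  rw [hpv, map_zero, sub_zero, LinearMap.zero_apply, zero_pow (Fact.out : p.Prime).ne_zero,
    map_zero] at h
  exact h

theorem main {σ : Type} [Finite σ] (b : Module.Basis σ K L) (i : σ) (hpv : E.pmap (b i) = 0)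
    (a : UU K L) (ha : E.piR 0 (jU K L (b i) * a) = 0) :
    ∃ a', E.piR 0 a = E.piR 0 (jU K L (b i) ^ (p - 1) * a') := by
  classical
  have := Fintype.ofFinite σ
  have hp : 0 < p := (Fact.out : p.Prime).pos
  have hw : ∀ γ : σ →₀ ℕ, (∀ i, γ i < p) → ww b i γ ∈ GG K L (γ.degree + 1) ∧
      E.sym γ.degree (ww b i γ) = E.toT b (monomial γ 1) :=
    fun γ _ => ⟨ww_mem b i γ, sym_ww E.toEmb b i γ⟩
  let B : Module.Basis (σ → Fin p) K (E.RR 0) :=
    Module.Basis.mk (E.indep_w 0 b (ww b i) hw) (fun r _ => E.span_w 0 b (ww b i) hw r)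
  have hB : ∀ f, B f = E.jR 0 (b i) ^ (f i : ℕ) * E.piR 0 (mon b ((REmb.fs f).erase i)) := by
    intro f
    rw [Module.Basis.mk_apply, ww, map_mul, map_pow, E.piR_jU, REmb.fs_apply]
  have hmul : ∀ f : σ → Fin p, E.jR 0 (b i) * B f
      = if (f i : ℕ) + 1 < p then B (up i f) else 0 := by
    intro f
    rw [hB, ← mul_assoc, ← pow_succ']
    split_ifs with h
    · rw [hB, up, dif_pos h]
      congr 2
      · rw [Function.update_self]
      · congr 1
        ext j
        by_cases hj : j = i
        · subst hj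
          simp
        · rw [Finsupp.erase_ne hj, Finsupp.erase_ne hj, REmb.fs_apply, REmb.fs_apply,
            Function.update_of_ne hj]
    · have : (f i : ℕ) + 1 = p := by
        have := (f i).2
        omega
      rw [this, jR_pow_zero E _ hpv, zero_mul]
  have hrepr : ∀ (f : σ → Fin p), (f i : ℕ) + 1 < p → ∀ r : E.RR 0,
      B.repr (E.jR 0 (b i) * r) (up i f) = B.repr r f := by
    intro f hf
    have h1 : (B.coord (up i f)) ∘ₗ LinearMap.mulLeft K (E.jR 0 (b i)) = B.coord f := by
      refine B.ext fun g => ?_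
      rw [LinearMap.comp_apply, LinearMap.mulLeft_apply, hmul, Module.Basis.coord_apply,
        Module.Basis.coord_apply, B.repr_self]
      split_ifs with h
      · rw [B.repr_self, Finsupp.single_apply, Finsupp.single_apply]
        by_cases hfg : g = f
        · subst hfg
          simp
        · rw [if_neg hfg, if_neg]
          exact fun h' => hfg (up_inj i h hf h')
      · rw [map_zero, Finsupp.zero_apply, Finsupp.single_apply, if_neg]
        rintro rfl
        exact h hf
    intro r
    exact congrArg (fun F => F r) h1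
  rw [map_mul, E.piR_jU] at ha
  have hzero : ∀ f : σ → Fin p, (f i : ℕ) + 1 < p → B.repr (E.piR 0 a) f = 0 := by
    intro f hf
    rw [← hrepr f hf, ha, map_zero, Finsupp.zero_apply]
  obtain ⟨a', ha'⟩ := E.piR_surjective 0
    (∑ f, B.repr (E.piR 0 a) f • E.piR 0 (mon b ((REmb.fs f).erase i)))
  refine ⟨a', ?_⟩
  rw [map_mul, map_pow, E.piR_jU, ha', Finset.mul_sum]
  conv_lhs => rw [← B.sum_repr (E.piR 0 a)]
  refine Finset.sum_congr rfl fun f _ => ?_
  by_cases hf : (f i : ℕ) + 1 < p
  · rw [hzero f hf, zero_smul, zero_smul, mul_zero]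
  · have h1 : (f i : ℕ) = p - 1 := by
      have := (f i).2
      omega
    rw [hB, h1, mul_smul_comm]

end VF

theorem REmb.vfirst [FiniteDimensional K L] (v : L) (hv : v ≠ 0) (hpv : E.pmap v = 0)
    (a : UU K L) (ha : E.piR 0 (jU K L v * a) = 0) :
    ∃ a', E.piR 0 a = E.piR 0 (jU K L v ^ (p - 1) * a') := by
  classical
  have hli : LinearIndepOn K id ({v} : Set L) := by
    rw [linearIndepOn_singleton_iff]
    exact hv
  let b := Module.Basis.extend hli
  let i : ↑(hli.extend (Set.subset_univ _)) := ⟨v, hli.subset_extend _ rfl⟩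
  have hbi : b i = v := Module.Basis.extend_apply_self hli i
  have hfin : Finite ↑(hli.extend (Set.subset_univ _)) := Module.Finite.finite_basis b
  have h := VF.main E b i (by rw [hbi]; exact hpv) a (by rw [hbi]; exact ha)
  rwa [hbi] at h

end Pool.Agent.P166ae0
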