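import Mathlib
import Pool.Agent.Lib.P166ae0.Key
import Pool.Agent.Lib.P166ae0.Toral
import Pool.Agent.Lib.P166ae0.SemisimpleInv
import Pool.Agent.Lib.P166ae0.VFirst

/-!
# A semisimple reduced enveloping algebra forces a toral centraliser
-/

set_option autoImplicit false
set_option linter.unusedSimpArgs false
set_option linter.unusedSectionVars false

namespace Pool.Agent.P166ae0

open MvPolynomial

variable {K L : Type} [Field K] [LieRing L] [LieAlgebra K L]
variable {m p : ℕ} [Fact p.Prime] [CharP K p] (E : REmb K L p m)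

namespace REmb

/-- A nonzero element has a nonzero symbol. -/
theorem exists_sym_ne_zero {u : UU K L} (hu : u ≠ 0) :
    ∃ d, u ∈ GG K L (d + 1) ∧ E.sym d u ≠ 0 := by
  classical
  have hex := exists_mem_GG u
  have h1 := Nat.find_spec hex
  have h0 : Nat.find hex ≠ 0 := by
    intro h
    rw [h, GG_zero, Submodule.mem_bot] at h1
    exact hu h1
  obtain ⟨d, hd⟩ := Nat.exists_eq_succ_of_ne_zero h0
  refine ⟨d, by rwa [hd] at h1, ?_⟩
  intro h
  have h2 := E.mem_GG_of_sym_eq_zero (by rwa [hd] at h1) h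
  exact Nat.find_min hex (by omega) h2

/-- Every linear form on `L` extends to an evaluation of symbols. -/
theorem exists_ev (ξ : Module.Dual K L) :
    ∃ ev : TT K m →ₐ[K] K, ∀ x, ev (E.ll x) = ξ x := by
  obtain ⟨r, hr⟩ := E.ι.exists_leftInverse_of_injective (LinearMap.ker_eq_bot.mpr E.inj)
  let ev : TT K m →ₐ[K] K := aeval (fun q => ξ (r (Matrix.single q.1 q.2 1)))
  have hev : ∀ y, ev (lin K m y) = ξ (r y) := by
    intro y
    conv_rhs => rw [matrix_eq_sum y]
    rw [lin_apply]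
    simp only [map_sum, map_smul, ev, aeval_X]
  refine ⟨ev, fun x => ?_⟩
  rw [E.ll_apply, hev]
  have : r (E.ι x) = x := congrArg (fun f => f x) hr
  rw [this]

theorem dir1 [IsAlgClosed K] [FiniteDimensional K L] (χ : Module.Dual K L)
    (h : IsSemisimpleRing (E.RR χ)) :
    ∃ ξ : Module.Dual K L,
      (∀ x : L, (∀ y : L, ξ ⁅x, y⁆ = 0) → ∀ z : L, (∀ y : L, ξ ⁅z, y⁆ = 0) → ⁅x, z⁆ = 0) ∧
      (∀ x : L, (∀ y : L, ξ ⁅x, y⁆ = 0) → ∀ y : L, ξ ⁅E.pmap x, y⁆ = 0) ∧
      (∀ x : L, (∀ y : L, ξ ⁅x, y⁆ = 0) →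
        x ∈ Submodule.span K (Set.range (fun k : ℕ => E.pmap^[k + 1] x))) := by
  obtain ⟨a, c, ha, hC⟩ := E.semisimple_inv χ h
  obtain ⟨e, he, hsym⟩ := E.exists_sym_ne_zero hC
  let b := Module.finBasis K L
  obtain ⟨s, hs, hs2⟩ := exists_homog_sym E.toEmb b he
  have hs0 : s ≠ 0 := by
    rintro rfl
    rw [map_zero] at hs2
    exact hsym hs2
  have hinf : Infinite K := IsAlgClosed.instInfinite
  obtain ⟨pt, hpt⟩ : ∃ pt, eval pt s ≠ 0 := by
    by_contra hcon
    push Not at hcon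
    apply hs0
    apply MvPolynomial.funext
    intro x
    rw [hcon x, map_zero]
  let ξ : Module.Dual K L := b.constr K pt
  have hξb : ∀ i, ξ (b i) = pt i := fun i => b.constr_basis K pt i
  obtain ⟨ev, hev⟩ := E.exists_ev ξ
  refine ⟨ξ, toral_of_no_nilpotent p K L E.pmap m E.ι E.inj E.lie E.hp ξ ?_⟩
  intro v hv hpv
  by_contra hv0
  obtain ⟨a', ha'⟩ := E.vfirst v hv0 hpv a (ha v)
  have h1 : adA (AlgHom.id K (UU K L)) a = adA (AlgHom.id K _) (jU K L v ^ (p - 1) * a') := by
    have h2 : E.piR 0 (a - jU K L v ^ (p - 1) * a') = 0 := by rw [map_sub, ha', sub_self]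
    have h3 := E.adA_eq_zero (AlgHom.id K _) E.id_central h2
    rw [map_sub, sub_eq_zero] at h3
    exact h3
  have h4 : adA (AlgHom.id K (UU K L)) a c
      = adA (AlgHom.id K _) (jU K L v ^ (p - 1)) (adA (AlgHom.id K _) a' c) := by
    rw [h1, map_mul, Module.End.mul_apply]
  have h5 := E.key v hpv ξ hv ev hev (adA (AlgHom.id K _) a' c) e (by rw [← h4]; exact he)
  rw [← h4, hs2] at h5
  have h7 : ev (E.toT b s) = eval (fun x => ξ (b x)) s := by
    have : ev.comp (E.toT b) = aeval (fun x => ξ (b x)) := by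
      apply MvPolynomial.algHom_ext
      intro x
      rw [AlgHom.comp_apply, E.toT_X, hev, aeval_X]
    have h8 := congrArg (fun f => f s) this
    simp only [AlgHom.comp_apply] at h8
    rw [h8, ← coe_aeval_eq_eval]
    rfl
  rw [h7] at h5
  apply hpt
  rw [← h5]
  congr 2
  funext i
  exact (hξb i).symm

end REmb

end Pool.Agent.P166ae0
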