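import Mathlib
import Pool.Agent.Lib.P166ae0.Dir1

/-!
# A semisimple reduced enveloping algebra forces generically toral centralisers
-/

set_option autoImplicit false
set_option linter.unusedSimpArgs false
set_option linter.unusedSectionVars false

namespace Pool.Agent.P166ae0

open MvPolynomial

variable {K L : Type} [Field K] [LieRing L] [LieAlgebra K L]
variable {m p : ℕ} [Fact p.Prime] [CharP K p] (E : REmb K L p m)

namespace REmb

theorem dir1_gen [IsAlgClosed K] [FiniteDimensional K L] (χ : Module.Dual K L)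
    (h : IsSemisimpleRing (E.RR χ)) {σ : Type} (b : Module.Basis σ K L) :
    ∃ s : MvPolynomial σ K, s ≠ 0 ∧ ∀ ξ : Module.Dual K L, eval (fun i => ξ (b i)) s ≠ 0 →
      (∀ x : L, (∀ y : L, ξ ⁅x, y⁆ = 0) → E.pmap x = 0 → x = 0) := by
  obtain ⟨a, c, ha, hC⟩ := E.semisimple_inv χ h
  obtain ⟨e, he, hsym⟩ := E.exists_sym_ne_zero hC
  obtain ⟨s, hs, hs2⟩ := exists_homog_sym E.toEmb b he
  have hs0 : s ≠ 0 := by
    rintro rfl
    rw [map_zero] at hs2
    exact hsym hs2
  refine ⟨s, hs0, ?_⟩
  intro ξ hpt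
  obtain ⟨ev, hev⟩ := E.exists_ev ξ
  intro v hv hpv
  by_contra hv0
  obtain ⟨a', ha'⟩ := E.vfirst v hv0 hpv a (ha v)
  have h1 : adA (AlgHom.id K (UU K L)) a = adA (AlgHom.id K _) (jU K L v ^ (p - 1) * a') := by
    have h2 : E.piR 0 (a - jU K L v ^ (p - 1) * a') = 0 := by rw [map_sub, ha', sub_self]
    have h3 := E.adA_eq_zero (AlgHom.id K _) E.id_central h2
    rw [map_sub, sub_eq_zero] at h3
    exact h3
  have h4 : adA (AlgHom.id K (UU K L)) a c
      = adA (AlgHom.id K _) (jU K L v ^ (p - 1)) (adA (AlgHom.id K _) a' c) := by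
    rw [h1, map_mul, Module.End.mul_apply]
  have h5 := E.key v hpv ξ hv ev hev (adA (AlgHom.id K _) a' c) e (by rw [← h4]; exact he)
  rw [← h4, hs2] at h5
  have h7 : ev (E.toT b s) = eval (fun x => ξ (b x)) s := by
    have : ev.comp (E.toT b) = aeval (fun x => ξ (b x)) := by
      apply MvPolynomial.algHom_ext
      intro x
      rw [AlgHom.comp_apply, E.toT_X, hev, aeval_X]
    have h8 := congrArg (fun f => f s) this
    simp only [AlgHom.comp_apply] at h8
    rw [h8, ← coe_aeval_eq_eval]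
    rfl
  rw [h7] at h5
  exact hpt h5

end REmb

end Pool.Agent.P166ae0
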