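import Mathlib
import Pool.Agent.Lib.P166ae0.Adj

/-!
# Semisimplicity of the reduced enveloping algebra from an invariant element
-/

set_option autoImplicit false
set_option linter.unusedSectionVars false

namespace Pool.Agent.P166ae0

variable {K L : Type} [Field K] [LieRing L] [LieAlgebra K L]
variable {m p : ℕ} [Fact p.Prime] [CharP K p] (E : REmb K L p m)

/-- stability of a subspace for the adjoint action, with a predicate -/
theorem adA_stable {A : Type} [Ring A] [Algebra K A] (f : UU K L →ₐ[K] A) (P : A → Prop)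
    (h0 : P 0) (hadd : ∀ a b, P a → P b → P (a + b)) (hsmul : ∀ (c : K) a, P a → P (c • a))
    (hW : ∀ (x : L), ∀ a, P a → P (adA f (jU K L x) a)) (u : UU K L) :
    ∀ a, P a → P (adA f u a) :=
  stable_of_stable (adA f)
    { carrier := {a | P a}
      add_mem' := fun ha hb => hadd _ _ ha hb
      zero_mem' := h0
      smul_mem' := fun c _ ha => hsmul c _ ha } hW u

/-- stability of a subspace of a product for two adjoint actions, with a predicate -/
theorem adA_stable_prod {A B : Type} [Ring A] [Algebra K A] [Ring B] [Algebra K B]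
    (f : UU K L →ₐ[K] A) (g : UU K L →ₐ[K] B) (P : A → B → Prop)
    (h0 : P 0 0) (hadd : ∀ a b a' b', P a b → P a' b' → P (a + a') (b + b'))
    (hsmul : ∀ (c : K) a b, P a b → P (c • a) (c • b))
    (hW : ∀ (x : L), ∀ a b, P a b → P (adA f (jU K L x) a) (adA g (jU K L x) b)) (u : UU K L)
    (a : A) (b : B) (hab : P a b) : P (adA f u a) (adA g u b) :=
  stable_of_stable ((LinearMap.prodMapAlgHom K A B).comp ((adA f).prod (adA g)))
    { carrier := {a | P a.1 a.2}
      add_mem' := fun ha hb => hadd _ _ _ _ ha hb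
      zero_mem' := h0
      smul_mem' := fun c _ ha => hsmul c _ _ ha } (fun x _ ha => hW x _ _ ha) u (a, b) hab

theorem exists_proj {K V : Type} [Field K] [AddCommGroup V] [Module K V] (N : Submodule K V) :
    ∃ g : V →ₗ[K] N, g ∘ₗ N.subtype = LinearMap.id :=
  LinearMap.exists_leftInverse_of_injective N.subtype N.ker_subtype

theorem exists_equivariant_proj {A : Type} [Ring A] [Algebra K A] (f : UU K L →ₐ[K] A)
    (a : UU K L) (hzero : ∀ x, adA ((Algebra.lmul K A).comp f) (jU K L x * a) = 0) (b : A)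
    (hb : adA f a b = 1) (N : Submodule A A) :
    ∃ Q : Module.End K A, (∀ r, Q r ∈ N) ∧ (∀ r ∈ N, Q r = r) ∧
      ∀ (x : L) (r : A), Q (f (jU K L x) * r) = f (jU K L x) * Q r := by
  obtain ⟨g, hg⟩ := exists_proj (K := K) (N.restrictScalars K)
  obtain ⟨q, hq1, hq2⟩ : ∃ q : A →ₗ[K] A, (∀ r, q r ∈ N) ∧ ∀ r ∈ N, q r = r := by
    refine ⟨(N.restrictScalars K).subtype ∘ₗ g, fun r => (g r).2, ?_⟩
    intro r hr
    have h1 := LinearMap.congr_fun hg ⟨r, hr⟩
    have h2 : g r = ⟨r, hr⟩ := h1
    show ((g r : N.restrictScalars K) : A) = r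
    rw [h2]
  obtain ⟨h, hh⟩ : ∃ h : Module.End K A, ∀ r, h r = b * q r :=
    ⟨LinearMap.mulLeft K b ∘ₗ q, fun r => rfl⟩
  have hlreg : ∀ (x : L) (r : A), ((Algebra.lmul K A).comp f) (jU K L x) r = f (jU K L x) * r :=
    fun x r => rfl
  refine ⟨adA ((Algebra.lmul K A).comp f) a h, ?_, ?_, ?_⟩
  · refine adA_stable ((Algebra.lmul K A).comp f) (fun h => ∀ r, h r ∈ N) ?_ ?_ ?_ ?_ a h ?_
    · intro r
      exact N.zero_mem
    · intro h1 h2 hh1 hh2 r
      exact N.add_mem (hh1 r) (hh2 r)
    · intro c h hh r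
      exact (N.restrictScalars K).smul_mem c (hh r)
    · intro x h hh r
      rw [adA_jU, LinearMap.sub_apply, Module.End.mul_apply, Module.End.mul_apply, hlreg, hlreg]
      exact N.sub_mem (N.smul_mem _ (hh r)) (hh _)
    · intro r
      rw [hh]
      exact N.smul_mem b (hq1 r)
  · have h1 : ∀ r ∈ N, adA ((Algebra.lmul K A).comp f) a h r = adA f a b * r := by
      refine adA_stable_prod ((Algebra.lmul K A).comp f) f (fun h c => ∀ r ∈ N, h r = c * r)
        ?_ ?_ ?_ ?_ a h b ?_
      · intro r _
        rw [LinearMap.zero_apply, zero_mul]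
      · intro h1 c1 h2 c2 hh1 hh2 r hr
        rw [LinearMap.add_apply, hh1 r hr, hh2 r hr, add_mul]
      · intro c h1 c1 hh r hr
        rw [LinearMap.smul_apply, hh r hr, smul_mul_assoc]
      · intro x h c hh r hr
        have h7 : f (jU K L x) * r ∈ N := N.smul_mem _ hr
        rw [adA_jU, adA_jU, LinearMap.sub_apply, Module.End.mul_apply, Module.End.mul_apply,
          hlreg, hlreg, hh r hr, hh _ h7, sub_mul, mul_assoc, mul_assoc]
      · intro r hr
        rw [hh, hq2 r hr]
    intro r hr
    rw [h1 r hr, hb, one_mul]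
  · intro x r
    have h2 := adA_jU_mul ((Algebra.lmul K A).comp f) x a h
    rw [hzero x, LinearMap.zero_apply] at h2
    have h3 := LinearMap.congr_fun h2 r
    rw [LinearMap.zero_apply, LinearMap.sub_apply, Module.End.mul_apply, Module.End.mul_apply,
      hlreg, hlreg] at h3
    exact (sub_eq_zero.1 h3.symm).symm

theorem semisimple_of_inv_abs {A : Type} [Ring A] [Algebra K A] (f : UU K L →ₐ[K] A)
    (hsurj : Function.Surjective f)
    (a : UU K L) (hzero : ∀ x, adA ((Algebra.lmul K A).comp f) (jU K L x * a) = 0) (b : A)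
    (hb : adA f a b = 1) : IsSemisimpleRing A := by
  have key : ∀ N : Submodule A A, ∃ N', IsCompl N N' := by
    intro N
    obtain ⟨Q, hQ1, hQ2, hcomm⟩ := exists_equivariant_proj f a hzero b hb N
    have hcomm2 : ∀ (u : UU K L) (r : A), Q (f u * r) = f u * Q r := by
      intro u
      refine U_induction (P := fun u => ∀ r, Q (f u * r) = f u * Q r) ?_ ?_ ?_ u
      · intro l
        induction l with
        | nil => intro r; simp
        | cons x l ih =>
          intro r
          rw [lp_cons, map_mul f, mul_assoc, mul_assoc, hcomm, ih]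
      · intro u v hu hv r
        rw [map_add, add_mul, add_mul, map_add, hu, hv]
      · intro c u hu r
        rw [map_smul, smul_mul_assoc, smul_mul_assoc, map_smul, hu]
    let QR : A →ₗ[A] N :=
      { toFun := fun r => ⟨Q r, hQ1 r⟩
        map_add' := by
          intro r s
          exact Subtype.ext (map_add Q r s)
        map_smul' := by
          intro s r
          apply Subtype.ext
          obtain ⟨u, rfl⟩ := hsurj s
          exact hcomm2 u r }
    exact ⟨LinearMap.ker QR, LinearMap.isCompl_of_proj (fun x => Subtype.ext (hQ2 x x.2))⟩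
  exact { exists_isCompl := key }

theorem REmb.semisimple_of_inv_abs' {A : Type} [Ring A] [Algebra K A] (f : UU K L →ₐ[K] A)
    (hsurj : Function.Surjective f) (hz : ∀ x, ∃ c : K, f (E.zz x) = algebraMap K A c)
    (a : UU K L) (ha : ∀ x, E.piR 0 (jU K L x * a) = 0) (b : A) (hb : adA f a b = 1) :
    IsSemisimpleRing A := by
  refine semisimple_of_inv_abs f hsurj a (fun x => ?_) b hb
  refine E.adA_eq_zero ((Algebra.lmul K A).comp f) ?_ (ha x)
  intro y h
  obtain ⟨c, hc⟩ := hz y
  rw [AlgHom.comp_apply, hc, AlgHom.commutes, Algebra.commutes]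

theorem REmb.semisimple_of_inv (χ : Module.Dual K L) (a : UU K L)
    (ha : ∀ x, E.piR 0 (jU K L x * a) = 0) (b : E.RR χ) (hb : adA (E.piR χ) a b = 1) :
    IsSemisimpleRing (E.RR χ) :=
  E.semisimple_of_inv_abs' (E.piR χ) (E.piR_surjective χ) (fun x => ⟨_, E.piR_zz χ x⟩) a ha b hb

end Pool.Agent.P166ae0
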