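import Mathlib

/-!
# Toral elements killing an element of the right ideal they generate
-/

set_option autoImplicit false

namespace Pool.Agent.P166ae0

theorem toral_trick {K A : Type*} [Field K] [Ring A] [Algebra K A] (p : ℕ) (hp : 2 ≤ p) {r : ℕ}
    (t : Fin r → A) (hcomm : ∀ i j, t i * t j = t j * t i)
    (ht : ∀ i, t i ∈ Submodule.span K (Set.range fun k : ℕ => t i ^ (p ^ (k + 1))))
    (Λ : A) (hΛ : ∀ i, t i * Λ = 0) (hmem : ∃ u : Fin r → A, Λ = ∑ i, t i * u i) : Λ = 0 := by
  classical
  have h1 : ∀ i, ∃ s : A, t i = t i * s ∧ s * Λ = 0 ∧ ∀ j, s * t j = t j * s := by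
    intro i
    have key : ∀ x ∈ Submodule.span K (Set.range fun k : ℕ => t i ^ (p ^ (k + 1))),
        ∃ s : A, x = t i * s ∧ s * Λ = 0 ∧ ∀ j, s * t j = t j * s := by
      intro x hx
      induction hx using Submodule.span_induction with
      | mem x hx =>
        obtain ⟨k, rfl⟩ := hx
        have h2 : 2 ≤ p ^ (k + 1) := by
          calc 2 ≤ p := hp
            _ = p ^ 1 := (pow_one p).symm
            _ ≤ p ^ (k + 1) := Nat.pow_le_pow_right (by omega) (by omega)
        obtain ⟨q, hq⟩ : ∃ q, p ^ (k + 1) = q + 2 := ⟨p ^ (k + 1) - 2, by omega⟩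
        refine ⟨t i ^ (q + 1), ?_, ?_, ?_⟩
        · simp only [hq]
          rw [← pow_succ']
        · rw [pow_succ, mul_assoc, hΛ, mul_zero]
        · intro j
          exact (Commute.pow_left (hcomm i j) (q + 1))
      | zero => exact ⟨0, by simp, by simp, by simp⟩
      | add y z _ _ hy hz =>
        obtain ⟨a, ha1, ha2, ha3⟩ := hy
        obtain ⟨b, hb1, hb2, hb3⟩ := hz
        refine ⟨a + b, ?_, ?_, ?_⟩
        · rw [mul_add, ← ha1, ← hb1]
        · rw [add_mul, ha2, hb2, add_zero]
        · intro j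
          rw [add_mul, mul_add, ha3, hb3]
      | smul c y _ hy =>
        obtain ⟨a, ha1, ha2, ha3⟩ := hy
        refine ⟨c • a, ?_, ?_, ?_⟩
        · rw [mul_smul_comm, ← ha1]
        · rw [smul_mul_assoc, ha2, smul_zero]
        · intro j
          rw [smul_mul_assoc, mul_smul_comm, ha3]
    exact key _ (ht i)
  choose s hs1 hs2 hs3 using h1
  obtain ⟨u, hu⟩ := hmem
  have key : ∀ (S : Finset (Fin r)) (u : Fin r → A), Λ = ∑ i ∈ S, t i * u i → Λ = 0 := by
    intro S
    induction S using Finset.induction_on with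
    | empty => intro u hu; simpa using hu
    | insert i S hi ih =>
      intro u hu
      apply ih (fun j => (1 - s i) * u j)
      rw [Finset.sum_insert hi] at hu
      have h2 : Λ = (1 - s i) * Λ := by rw [sub_mul, one_mul, hs2, sub_zero]
      have h3 : (1 - s i) * (t i * u i) = 0 := by
        rw [← mul_assoc, sub_mul, one_mul, hs3 i i, ← hs1 i, sub_self, zero_mul]
      conv_lhs => rw [h2, hu]
      rw [mul_add, h3, zero_add, Finset.mul_sum]
      refine Finset.sum_congr rfl fun j _ => ?_
      rw [← mul_assoc, ← mul_assoc]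
      congr 1
      rw [sub_mul, mul_sub, one_mul, mul_one, hs3 i j]
  exact key Finset.univ u hu

end Pool.Agent.P166ae0
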