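import Mathlib
import Pool.Agent.Lib.P166ae0.Dir1
import Pool.Agent.Lib.P166ae0.DerivAtPoint
import Pool.Agent.Lib.P166ae0.ToralTrick

/-!
# An invariant of `u(L, 0)` acts non-trivially when some centraliser is toral
-/

set_option autoImplicit false
set_option linter.unusedSimpArgs false
set_option linter.unusedSectionVars false

namespace Pool.Agent.P166ae0

open MvPolynomial

variable {K L : Type} [Field K] [LieRing L] [LieAlgebra K L]
variable {m p : ℕ} [Fact p.Prime] [CharP K p] (E : REmb K L p m)

/-- ordered product of powers -/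
noncomputable def op {n : ℕ} (x : Fin n → L) (k : Fin n → ℕ) : UU K L :=
  (List.ofFn fun i => jU K L (x i) ^ k i).prod

namespace REmb

theorem pow_mem_sym (x : L) (k : ℕ) :
    jU K L x ^ k ∈ GG K L (k + 1) ∧ E.sym k (jU K L x ^ k) = E.ll x ^ k := by
  have h1 := lp_mem (K := K) (List.replicate k x) (d := k + 1) (by simp)
  have h2 := E.sym_lp (List.replicate k x)
  simp only [lp, List.map_replicate, List.prod_replicate, List.length_replicate] at h1 h2
  exact ⟨h1, h2⟩

theorem op_mem_sym {n : ℕ} (x : Fin n → L) (k : Fin n → ℕ) :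
    op (K := K) x k ∈ GG K L (∑ i, k i + 1) ∧
      E.sym (∑ i, k i) (op x k) = ∏ i, E.ll (x i) ^ k i := by
  induction n with
  | zero => simpa [op] using ⟨one_mem_GG, E.sym_one⟩
  | succ n ih =>
    obtain ⟨h1, h2⟩ := E.pow_mem_sym (x 0) (k 0)
    obtain ⟨h3, h4⟩ := ih (fun i => x i.succ) (fun i => k i.succ)
    have e : op (K := K) x k = jU K L (x 0) ^ k 0 * op (fun i => x i.succ) (fun i => k i.succ) := by
      rw [op, List.ofFn_succ, List.prod_cons]; rfl
    rw [e, Fin.sum_univ_succ, Fin.prod_univ_succ, E.sym_mul h1 h3, h2, h4]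
    exact ⟨mul_mem_GG' h1 h3 (by omega), rfl⟩

/-- The action of `U` on symbols by derivations. -/
noncomputable def DT : UU K L →ₐ[K] Module.End K (TT K m) :=
  liftU (A := Module.End K (TT K m))
    { toFun := fun x => ((der (cmul (E.ι x))).toLinearMap : Module.End K (TT K m))
      map_add' := by
        intro x y
        have hd : der (cmul (E.ι (x + y))) = der (cmul (E.ι x)) + der (cmul (E.ι y)) := by
          apply der_ext
          intro z
          rw [Derivation.add_apply, der_lin, der_lin, der_lin, ← map_add]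
          congr 1
          simp only [cmul_apply, map_add, add_mul, mul_add]
          abel
        rw [hd]; rfl
      map_smul' := by
        intro c x
        have hd : der (cmul (E.ι (c • x))) = c • der (cmul (E.ι x)) := by
          apply der_ext
          intro z
          rw [Derivation.smul_apply, der_lin, der_lin, ← map_smul]
          congr 1
          simp only [cmul_apply, map_smul, smul_mul_assoc, mul_smul_comm, smul_sub]
        rw [hd]; rfl } (by
    intro x y
    have h : ⁅der (cmul (E.ι x)), der (cmul (E.ι y))⁆ = der (cmul (E.ι ⁅x, y⁆)) := by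
      apply der_ext
      intro z
      rw [Derivation.commutator_apply, der_lin, der_lin, der_lin, der_lin, der_lin, ← map_sub]
      congr 1
      simp only [cmul_apply, E.lie]
      simp only [mul_add, add_mul, mul_sub, sub_mul, mul_assoc]; abel
    refine LinearMap.ext fun f => ?_
    change der (cmul (E.ι ⁅x, y⁆)) f = der (cmul (E.ι x)) (der (cmul (E.ι y)) f)
      - der (cmul (E.ι y)) (der (cmul (E.ι x)) f)
    rw [← h, Derivation.commutator_apply])

theorem DT_jU (x : L) (f : TT K m) : E.DT (jU K L x) f = der (cmul (E.ι x)) f := by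
  rw [DT, liftU_jU]; rfl

theorem DT_sym (u : UU K L) : ∀ {d : ℕ} {a : UU K L}, a ∈ GG K L (d + 1) →
    adA (AlgHom.id K _) u a ∈ GG K L (d + 1) ∧
      E.sym d (adA (AlgHom.id K _) u a) = E.DT u (E.sym d a) := by
  refine U_induction (P := fun u => ∀ {d : ℕ} {a : UU K L}, a ∈ GG K L (d + 1) →
    adA (AlgHom.id K _) u a ∈ GG K L (d + 1) ∧
      E.sym d (adA (AlgHom.id K _) u a) = E.DT u (E.sym d a)) ?_ ?_ ?_ u
  · intro l
    induction l with
    | nil => intro d a ha; simpa using ha
    | cons x l ih =>
      intro d a ha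
      obtain ⟨h1, h2⟩ := ih ha
      rw [lp_cons, map_mul, map_mul, Module.End.mul_apply, Module.End.mul_apply, adA_jU, DT_jU]
      exact ⟨comm_mem_GG x h1, by rw [← h2]; exact E.sym_comm x h1⟩
  · intro u v hu hv d a ha
    rw [map_add, map_add, LinearMap.add_apply, LinearMap.add_apply, map_add, (hu ha).2, (hv ha).2]
    exact ⟨add_mem (hu ha).1 (hv ha).1, rfl⟩
  · intro c u hu d a ha
    rw [map_smul, map_smul, LinearMap.smul_apply, LinearMap.smul_apply, map_smul, (hu ha).2]
    exact ⟨Submodule.smul_mem _ _ (hu ha).1, rfl⟩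

/-- The symbols of elements of the enveloping algebra. -/
noncomputable def SL : Submodule K (TT K m) :=
  Submodule.span K {f | ∃ l : List L, f = (l.map E.ll).prod}

theorem SL_mul {f g : TT K m} (hf : f ∈ E.SL) (hg : g ∈ E.SL) : f * g ∈ E.SL := by
  induction hf using Submodule.span_induction with
  | mem f hf =>
    obtain ⟨l, rfl⟩ := hf
    induction hg using Submodule.span_induction with
    | mem g hg =>
      obtain ⟨l', rfl⟩ := hg
      exact Submodule.subset_span ⟨l ++ l', by simp⟩
    | zero => simp
    | add y z _ _ hy hz => rw [mul_add]; exact add_mem hy hz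
    | smul c y _ hy => rw [mul_smul_comm]; exact Submodule.smul_mem _ _ hy
  | zero => simp
  | add y z _ _ hy hz => rw [add_mul]; exact add_mem hy hz
  | smul c y _ hy => rw [smul_mul_assoc]; exact Submodule.smul_mem _ _ hy

theorem one_mem_SL : (1 : TT K m) ∈ E.SL := Submodule.subset_span ⟨[], by simp⟩

theorem ll_mem_SL (x : L) : E.ll x ∈ E.SL := Submodule.subset_span ⟨[x], by simp⟩

theorem pow_mem_SL {f : TT K m} (hf : f ∈ E.SL) (k : ℕ) : f ^ k ∈ E.SL := by
  induction k with
  | zero => simpa using E.one_mem_SL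
  | succ k ih => rw [pow_succ]; exact E.SL_mul ih hf

theorem prod_mem_SL {n : ℕ} (f : Fin n → TT K m) (hf : ∀ i, f i ∈ E.SL) : ∏ i, f i ∈ E.SL := by
  classical
  exact Finset.prod_induction f (fun g => g ∈ E.SL) (fun _ _ => E.SL_mul) E.one_mem_SL
    (fun i _ => hf i)

theorem der_mem_SL (x : L) {f : TT K m} (hf : f ∈ E.SL) : der (cmul (E.ι x)) f ∈ E.SL := by
  induction hf using Submodule.span_induction with
  | mem f hf =>
    obtain ⟨l, rfl⟩ := hf
    induction l with
    | nil => simp
    | cons y l ih =>
      rw [List.map_cons, List.prod_cons, Derivation.leibniz, E.der_ll, smul_eq_mul, smul_eq_mul]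
      exact add_mem (E.SL_mul (E.ll_mem_SL y) ih)
        (E.SL_mul (Submodule.subset_span ⟨l, rfl⟩) (E.ll_mem_SL _))
  | zero => simp
  | add y z _ _ hy hz => rw [map_add]; exact add_mem hy hz
  | smul c y _ hy => rw [Derivation.map_smul]; exact Submodule.smul_mem _ _ hy

theorem DT_mem_SL (u : UU K L) {f : TT K m} (hf : f ∈ E.SL) : E.DT u f ∈ E.SL :=
  stable_of_stable E.DT E.SL (fun x a ha => by rw [DT_jU]; exact E.der_mem_SL x ha) u f hf

/-- If `u` acts by zero on `U` then it acts by zero on symbols. -/
theorem DT_eq_zero {u : UU K L} (hu : ∀ a, adA (AlgHom.id K (UU K L)) u a = 0) {f : TT K m}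
    (hf : f ∈ E.SL) : E.DT u f = 0 := by
  induction hf using Submodule.span_induction with
  | mem f hf =>
    obtain ⟨l, rfl⟩ := hf
    rw [← E.sym_lp l, ← (E.DT_sym u (lp_mem l (Nat.lt_succ_self _))).2, hu, map_zero]
  | zero => simp
  | add y z _ _ hy hz => rw [map_add, hy, hz, add_zero]
  | smul c y _ hy => rw [map_smul, hy, smul_zero]

theorem ev_der (ξ : Module.Dual K L) (ev : TT K m →ₐ[K] K) (hev : ∀ x, ev (E.ll x) = ξ x)
    (t : L) (ht : ∀ y, ξ ⁅t, y⁆ = 0) {f : TT K m} (hf : f ∈ E.SL) :
    ev (E.DT (jU K L t) f) = 0 := by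
  rw [DT_jU]
  induction hf using Submodule.span_induction with
  | mem f hf =>
    obtain ⟨l, rfl⟩ := hf
    induction l with
    | nil => simp
    | cons y l ih =>
      rw [List.map_cons, List.prod_cons, Derivation.leibniz, E.der_ll, smul_eq_mul, smul_eq_mul,
        map_add, map_mul, map_mul, ih, hev, hev, ht, mul_zero, mul_zero, add_zero]
  | zero => simp
  | add y z _ _ hy hz => rw [map_add, map_add, hy, hz, add_zero]
  | smul c y _ hy => rw [Derivation.map_smul, map_smul, hy, smul_zero]

/-- Dual vectors for independent functionals. -/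
theorem exists_dual_vectors {V : Type} [AddCommGroup V] [Module K V] {s : ℕ}
    (f : Fin s → Module.Dual K V) (hf : LinearIndependent K f) :
    ∃ g : Fin s → V, ∀ i j, f i (g j) = if i = j then 1 else 0 := by
  let Φ : V →ₗ[K] (Fin s → K) := LinearMap.pi f
  have hsurj : LinearMap.range Φ = ⊤ := by
    by_contra hcon
    obtain ⟨c, hc0, hc⟩ := Submodule.exists_le_ker_of_lt_top _ (lt_top_iff_ne_top.mpr hcon)
    apply hc0
    have h1 : ∑ i, c (Pi.single i 1) • f i = 0 := by
      ext v
      have h2 : c (Φ v) = 0 := hc ⟨v, rfl⟩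
      have h3 : Φ v = ∑ i, (f i v) • (Pi.single i 1 : Fin s → K) := by
        funext j
        simp [Φ, Pi.single_apply]
      rw [h3, map_sum] at h2
      simp only [map_smul, smul_eq_mul] at h2
      simp only [LinearMap.sum_apply, LinearMap.smul_apply, smul_eq_mul, LinearMap.zero_apply]
      rw [← h2]
      exact Finset.sum_congr rfl fun i _ => mul_comm _ _
    have h4 := Fintype.linearIndependent_iff.mp hf _ h1
    apply LinearMap.pi_ext'
    intro i
    ext
    simpa using h4 i
  rw [LinearMap.range_eq_top] at hsurj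
  choose g hg using fun j : Fin s => hsurj (Pi.single j 1)
  refine ⟨g, fun i j => ?_⟩
  have := congrFun (hg j) i
  simp only [Φ, LinearMap.pi_apply] at this
  rw [this, Pi.single_apply]

/-- ordered product in which some exponent is positive begins with one of the factors -/
theorem op_mem_left {n : ℕ} (x : Fin n → L) (k : Fin n → ℕ) (hk : k ≠ 0) :
    ∃ (i : Fin n) (u : UU K L), op (K := K) x k = jU K L (x i) * u := by
  induction n with
  | zero => exact absurd (Subsingleton.elim _ _) hk
  | succ n ih =>
    have e : op (K := K) x k = jU K L (x 0) ^ k 0 * op (fun i => x i.succ) (fun i => k i.succ) := by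
      rw [op, List.ofFn_succ, List.prod_cons]; rfl
    rcases Nat.eq_zero_or_pos (k 0) with h0 | h0
    · have hk' : (fun i : Fin n => k i.succ) ≠ 0 := by
        intro h
        apply hk
        funext i
        refine Fin.cases ?_ (fun j => ?_) i
        · simpa using h0
        · exact congrFun h j
      obtain ⟨i, u, hu⟩ := ih (fun i => x i.succ) _ hk'
      refine ⟨i.succ, u, ?_⟩
      rw [e, h0, pow_zero, one_mul, hu]
    · obtain ⟨q, hq⟩ := Nat.exists_eq_succ_of_ne_zero h0.ne'
      refine ⟨0, jU K L (x 0) ^ q * op (fun i => x i.succ) (fun i => k i.succ), ?_⟩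
      rw [e, hq, Nat.succ_eq_add_one, pow_succ', mul_assoc]

end REmb

end Pool.Agent.P166ae0
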