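import Mathlib
import Pool.Agent.Lib.P166ae0.TorEval

/-!
# An invariant of `u(L, 0)` acts non-trivially when some centraliser is toral
-/

set_option autoImplicit false
set_option linter.unusedSimpArgs false
set_option linter.unusedSectionVars false

namespace Pool.Agent.P166ae0

open MvPolynomial

variable {K L : Type} [Field K] [LieRing L] [LieAlgebra K L]
variable {m p : ℕ} [Fact p.Prime] [CharP K p] (E : REmb K L p m)

namespace REmb

/-- A basis of `L` adapted to the centraliser of `ξ`. -/
theorem exists_adapted [FiniteDimensional K L] (ξ : Module.Dual K L) :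
    ∃ (r s : ℕ) (b : Module.Basis (Fin r ⊕ Fin s) K L) (g : Fin s → L),
      (∀ i y, ξ ⁅b (Sum.inl i), y⁆ = 0) ∧
      (∀ i j, ξ ⁅b (Sum.inr i), g j⁆ = if i = j then 1 else 0) := by
  let ω : L →ₗ[K] Module.Dual K L :=
    { toFun := fun x => ξ ∘ₗ (LieAlgebra.ad K L x : L →ₗ[K] L)
      map_add' := by intro x y; ext z; simp
      map_smul' := by intro c x; ext z; simp }
  have hω : ∀ x y, ω x y = ξ ⁅x, y⁆ := fun x y => rfl
  let t := LinearMap.ker ω
  obtain ⟨W, hW⟩ := t.exists_isCompl
  let bt := Module.finBasis K t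
  let bW := Module.finBasis K W
  let b : Module.Basis (Fin (Module.finrank K t) ⊕ Fin (Module.finrank K W)) K L :=
    (bt.prod bW).map (Submodule.prodEquivOfIsCompl t W hW)
  have hbl : ∀ i, b (Sum.inl i) = bt i := by
    intro i; simp [b]
  have hbr : ∀ i, b (Sum.inr i) = bW i := by
    intro i; simp [b]
  have hind : LinearIndependent K (fun i => ω (bW i)) := by
    have h1 : LinearIndependent K (fun i => (bW i : L)) :=
      bW.linearIndependent.map' W.subtype (Submodule.ker_subtype W)
    apply h1.map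
    rw [Submodule.disjoint_def]
    intro x hx hx2
    have h3 : x ∈ W := by
      refine Submodule.span_le.mpr ?_ hx
      rintro _ ⟨i, rfl⟩
      exact (bW i).2
    exact Submodule.disjoint_def.mp hW.disjoint x hx2 h3
  obtain ⟨g, hg⟩ := exists_dual_vectors (fun i => ω (bW i)) hind
  refine ⟨_, _, b, g, ?_, ?_⟩
  · intro i y
    have h1 : ω (bt i) = 0 := (bt i).2
    rw [hbl, ← hω, h1, LinearMap.zero_apply]
  · intro i j
    rw [hbr]
    exact hg i j

theorem jR_iterate (k : ℕ) (x : L) : E.jR 0 (E.pmap^[k] x) = E.jR 0 x ^ (p ^ k) := by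
  induction k with
  | zero => simp
  | succ k ih =>
    have h1 : ∀ y, E.jR 0 (E.pmap y) = E.jR 0 y ^ p := by
      intro y
      have h := E.jR_pow 0 y
      rw [LinearMap.zero_apply, zero_pow (Fact.out : p.Prime).ne_zero, map_zero,
        sub_eq_zero] at h
      exact h.symm
    rw [Function.iterate_succ_apply', h1, ih, ← pow_mul, pow_succ]

theorem toral_nonzero [FiniteDimensional K L] (ξ : Module.Dual K L)
    (h1 : ∀ x : L, (∀ y : L, ξ ⁅x, y⁆ = 0) → ∀ z : L, (∀ y : L, ξ ⁅z, y⁆ = 0) → ⁅x, z⁆ = 0)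
    (h3 : ∀ x : L, (∀ y : L, ξ ⁅x, y⁆ = 0) →
      x ∈ Submodule.span K (Set.range (fun k : ℕ => E.pmap^[k + 1] x)))
    (Λ : UU K L) (hΛ0 : E.piR 0 Λ ≠ 0) (hΛ : ∀ x, E.piR 0 (jU K L x * Λ) = 0) :
    ∃ a, adA (AlgHom.id K _) Λ a ≠ 0 := by
  classical
  by_contra hcon
  push Not at hcon
  obtain ⟨r, s, b, g, hbt, hbg⟩ := exists_adapted (K := K) ξ
  let t : Fin r → L := fun i => b (Sum.inl i)
  let y : Fin s → L := fun i => b (Sum.inr i)
  let w : (Fin r ⊕ Fin s →₀ ℕ) → UU K L := fun γ =>
    op t (fun i => γ (Sum.inl i)) * op y (fun i => γ (Sum.inr i))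
  have hw : ∀ γ : Fin r ⊕ Fin s →₀ ℕ, (∀ i, γ i < p) →
      w γ ∈ GG K L (γ.degree + 1) ∧ E.sym γ.degree (w γ) = E.toT b (monomial γ 1) := by
    intro γ _
    obtain ⟨h4, h5⟩ := E.op_mem_sym t (fun i => γ (Sum.inl i))
    obtain ⟨h6, h7⟩ := E.op_mem_sym y (fun i => γ (Sum.inr i))
    have hdeg : γ.degree = ∑ i, γ (Sum.inl i) + ∑ i, γ (Sum.inr i) := by
      rw [Finsupp.degree_eq_sum, Fintype.sum_sum_type]
    rw [hdeg, E.sym_mul h4 h6, h5, h7]
    refine ⟨mul_mem_GG' h4 h6 (by omega), ?_⟩
    rw [Emb.toT, aeval_monomial, map_one, one_mul, Finsupp.prod_fintype _ _ (by simp),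
      Fintype.prod_sum_type]
  -- expansion of the invariant
  have hexp : ∃ (c : (Fin s → Fin p) → K) (u : Fin r → UU K L),
      E.piR 0 Λ = E.piR 0 (∑ β, c β • op y (fun i => (β i : ℕ)) + ∑ i, jU K L (t i) * u i) := by
    have hsp := E.span_w 0 b w hw (E.piR 0 Λ)
    generalize E.piR 0 Λ = ρ at hsp
    induction hsp using Submodule.span_induction with
    | mem x hx =>
      obtain ⟨f, rfl⟩ := hx
      by_cases hf : (fun i => ((fs f) (Sum.inl i))) = 0
      · refine ⟨Pi.single (fun i => f (Sum.inr i)) 1, 0, ?_⟩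
        refine congrArg (E.piR 0) ?_
        simp only [Pi.zero_apply, mul_zero, Finset.sum_const_zero, add_zero]
        rw [Finset.sum_eq_single (fun i => f (Sum.inr i))]
        · rw [Pi.single_eq_same, one_smul]
          change op (K := K) t (fun i => (fs f) (Sum.inl i))
            * op y (fun i => (fs f) (Sum.inr i)) = _
          rw [hf]
          have : op (K := K) t (0 : Fin r → ℕ) = 1 := by
            simp [op]
          rw [this, one_mul]
          rfl
        · intro β _ hβ
          rw [Pi.single_eq_of_ne hβ, zero_smul]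
        · intro h; exact absurd (Finset.mem_univ _) h
      · obtain ⟨i, u, hu⟩ := op_mem_left (K := K) t _ hf
        refine ⟨0, Pi.single i (u * op y (fun i => (fs f) (Sum.inr i))), ?_⟩
        refine congrArg (E.piR 0) ?_
        simp only [Pi.zero_apply, zero_smul, Finset.sum_const_zero, zero_add]
        rw [Finset.sum_eq_single i]
        · rw [Pi.single_eq_same, ← mul_assoc, ← hu]
        · intro j _ hj
          rw [Pi.single_eq_of_ne hj, mul_zero]
        · intro h; exact absurd (Finset.mem_univ _) h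
    | zero => exact ⟨0, 0, by simp⟩
    | add x z _ _ hx hz =>
      obtain ⟨c, u, h⟩ := hx
      obtain ⟨c', u', h'⟩ := hz
      refine ⟨c + c', u + u', ?_⟩
      rw [h, h', ← map_add]
      congr 1
      simp only [Pi.add_apply, add_smul, mul_add, Finset.sum_add_distrib]
      abel
    | smul a x _ hx =>
      obtain ⟨c, u, h⟩ := hx
      refine ⟨a • c, a • u, ?_⟩
      rw [h, ← map_smul]
      congr 1
      simp only [Pi.smul_apply, smul_eq_mul, mul_smul, mul_smul_comm, Finset.smul_sum, smul_add]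
  obtain ⟨c, u, hcu⟩ := hexp
  -- some coefficient is nonzero
  have hc0 : c ≠ 0 := by
    rintro rfl
    apply hΛ0
    refine toral_trick (K := K) p (Fact.out : p.Prime).two_le (fun i => E.piR 0 (jU K L (t i))) ?_ ?_
      (E.piR 0 Λ) ?_ ⟨fun i => E.piR 0 (u i), ?_⟩
    · intro i j
      have h4 := h1 (t i) (hbt i) (t j) (hbt j)
      have h5 := jU_lie (K := K) (t i) (t j)
      rw [h4, map_zero] at h5
      have h6 := sub_eq_zero.mp h5.symm
      simp only [← map_mul, h6]
    · intro i
      have h4 := h3 (t i) (hbt i)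
      have h5 := Submodule.mem_map_of_mem (f := E.jR 0) h4
      rw [Submodule.map_span, ← Set.range_comp] at h5
      have h6 : (fun k : ℕ => E.jR 0 (t i) ^ (p ^ (k + 1)))
          = (E.jR 0) ∘ (fun k : ℕ => E.pmap^[k + 1] (t i)) := by
        funext k
        exact (E.jR_iterate (k + 1) (t i)).symm
      simp only [piR_jU]
      rw [h6]
      exact h5
    · intro i
      rw [← map_mul]
      exact hΛ (t i)
    · rw [hcu]
      simp [map_sum, map_mul]
  -- choose a nonzero coefficient of maximal degree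
  obtain ⟨βs, hβs, hmax⟩ : ∃ β : Fin s → Fin p, c β ≠ 0 ∧
      ∀ γ : Fin s → Fin p, c γ ≠ 0 → ∑ i, (γ i : ℕ) ≤ ∑ i, (β i : ℕ) := by
    have hne : (Finset.univ.filter (fun β : Fin s → Fin p => c β ≠ 0)).Nonempty := by
      by_contra hemp
      rw [Finset.not_nonempty_iff_eq_empty] at hemp
      apply hc0
      funext β
      by_contra hβ
      have : β ∈ Finset.univ.filter (fun β : Fin s → Fin p => c β ≠ 0) := by
        simpa using hβ
      rw [hemp] at this
      exact absurd this (Finset.notMem_empty _)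
    obtain ⟨β, hβ, hβ2⟩ := Finset.exists_max_image _ (fun β : Fin s → Fin p => ∑ i, (β i : ℕ)) hne
    refine ⟨β, by simpa using hβ, fun γ hγ => hβ2 γ (by simpa using hγ)⟩
  obtain ⟨ev, hev⟩ := E.exists_ev ξ
  let G : Fin s → TT K m := fun j => E.ll (g j) - algebraMap K _ (ξ (g j))
  have hG : ∀ j, ev (G j) = 0 := by
    intro j
    simp only [G, map_sub, hev, AlgHom.commutes]
    exact sub_self _
  let Y : Fin s → Derivation K (TT K m) (TT K m) := fun i => der (cmul (E.ι (y i)))
  have hYG : ∀ i j, ev (Y i (G j)) = if i = j then 1 else 0 := by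
    intro i j
    simp only [G, Y, map_sub, Derivation.map_algebraMap, sub_zero, E.der_ll, hev]
    exact hbg i j
  let f : TT K m := ∏ j, G j ^ (βs j : ℕ)
  have hGS : ∀ j, G j ∈ E.SL := by
    intro j
    refine sub_mem (E.ll_mem_SL _) ?_
    rw [Algebra.algebraMap_eq_smul_one]
    exact Submodule.smul_mem _ _ E.one_mem_SL
  have hfS : f ∈ E.SL := E.prod_mem_SL _ (fun j => E.pow_mem_SL (hGS j) _)
  have hkey : ∀ β : Fin s → ℕ, E.DT (op y β) f
      = (List.ofFn fun i => ((Y i : TT K m →ₗ[K] TT K m) : Module.End K (TT K m)) ^ β i).prod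
        (∏ j, G j ^ (βs j : ℕ)) := by
    intro β
    rw [op, map_list_prod, List.map_ofFn]
    have : (E.DT : UU K L → Module.End K (TT K m)) ∘ (fun i => jU K L (y i) ^ β i)
        = fun i => ((Y i : TT K m →ₗ[K] TT K m) : Module.End K (TT K m)) ^ β i := by
      funext i
      rw [Function.comp_apply, map_pow]
      congr 1
      refine LinearMap.ext fun f => ?_
      exact E.DT_jU _ _
    rw [this]
  -- apply the zero action
  have hz1 : E.DT Λ f = 0 := E.DT_eq_zero hcon hfS
  have hz2 : E.DT (Λ - (∑ β, c β • op y (fun i => (β i : ℕ)) + ∑ i, jU K L (t i) * u i)) f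
      = 0 := by
    apply E.DT_eq_zero _ hfS
    intro a
    have h4 := E.adA_eq_zero (AlgHom.id K (UU K L)) E.id_central
      (u := Λ - (∑ β, c β • op y (fun i => (β i : ℕ)) + ∑ i, jU K L (t i) * u i))
      (by rw [map_sub, hcu, sub_self])
    rw [h4, LinearMap.zero_apply]
  rw [map_sub, LinearMap.sub_apply, hz1, zero_sub, neg_eq_zero, map_add, LinearMap.add_apply,
    map_sum, map_sum, LinearMap.sum_apply, LinearMap.sum_apply] at hz2
  have hz3 := congrArg ev hz2
  rw [map_add, map_sum, map_sum, map_zero] at hz3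
  have hz4 : ∑ i, ev (E.DT (jU K L (t i) * u i) f) = 0 := by
    apply Finset.sum_eq_zero
    intro i _
    rw [map_mul, Module.End.mul_apply]
    exact E.ev_der ξ ev hev (t i) (hbt i) (E.DT_mem_SL (u i) hfS)
  rw [hz4, add_zero] at hz3
  have hz5 : ∀ β : Fin s → Fin p, β ≠ βs →
      ev (E.DT (c β • op y (fun i => (β i : ℕ))) f) = 0 := by
    intro β hβ
    rw [map_smul, LinearMap.smul_apply, map_smul]
    by_cases hcβ : c β = 0
    · rw [hcβ, zero_smul]
    · rw [hkey, deriv_at_point ev s Y G hG hYG (fun i => (β i : ℕ)) (fun i => (βs i : ℕ))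
        (hmax β hcβ), if_neg, smul_zero]
      intro h
      apply hβ
      funext i
      exact Fin.ext (congrFun h i)
  rw [Finset.sum_eq_single βs (fun β _ hβ => hz5 β hβ)
    (fun h => absurd (Finset.mem_univ _) h)] at hz3
  rw [map_smul, LinearMap.smul_apply, map_smul, hkey,
    deriv_at_point ev s Y G hG hYG (fun i => (βs i : ℕ)) (fun i => (βs i : ℕ)) le_rfl,
    if_pos rfl, smul_eq_mul] at hz3
  rcases mul_eq_zero.mp hz3 with h | h
  · exact hβs h
  · rw [Finset.prod_eq_zero_iff] at h
    obtain ⟨i, -, hi⟩ := h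
    rw [CharP.cast_eq_zero_iff K p, (Fact.out : p.Prime).dvd_factorial] at hi
    exact absurd (βs i).2 (by omega)

end REmb

end Pool.Agent.P166ae0
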