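import Mathlib
import Pool.Agent.Lib.P166ae0.TorMain
import Pool.Agent.Lib.P166ae0.InvTheta
import Pool.Agent.Lib.P166ae0.CentralInv
import Pool.Agent.Lib.P166ae0.SemisimpleOfInv

/-!
# A toral centraliser forces generic semisimplicity
-/

set_option autoImplicit false
set_option linter.unusedSimpArgs false
set_option linter.unusedSectionVars false

namespace Pool.Agent.P166ae0

variable {K L : Type} [Field K] [LieRing L] [LieAlgebra K L]
variable {m p : ℕ} [Fact p.Prime] [CharP K p] (E : REmb K L p m)

/-- The adjoint action commutes with right multiplication by central elements. -/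
theorem adA_mul_central {A : Type} [Ring A] [Algebra K A] (f : UU K L →ₐ[K] A) (u : UU K L)
    (a c : A) (hc : ∀ b, c * b = b * c) : adA f u (a * c) = adA f u a * c := by
  have h := adA_equivariant (adA f) (adA f) (LinearMap.mulRight K c) (by
    intro x a
    simp only [LinearMap.mulRight_apply, adA_jU, sub_mul, mul_assoc]
    rw [hc (f (jU K L x))]) u a
  simpa only [LinearMap.mulRight_apply] using h.symm

namespace REmb

theorem dir2 [IsAlgClosed K] [FiniteDimensional K L] (ξ : Module.Dual K L)
    (h1 : ∀ x : L, (∀ y : L, ξ ⁅x, y⁆ = 0) → ∀ z : L, (∀ y : L, ξ ⁅z, y⁆ = 0) → ⁅x, z⁆ = 0)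
    (h3 : ∀ x : L, (∀ y : L, ξ ⁅x, y⁆ = 0) →
      x ∈ Submodule.span K (Set.range (fun k : ℕ => E.pmap^[k + 1] x))) :
    ∃ χ : Module.Dual K L, IsSemisimpleRing (E.RR χ) := by
  obtain ⟨N, a, F, ha, hsum⟩ := E.inv_theta 0
  have hnt : Nontrivial (E.RR 0) := by
    obtain ⟨h4, h5⟩ := E.finrank_RR 0
    apply Module.nontrivial_of_finrank_pos (R := K)
    rw [h5]
    exact pow_pos (Fact.out : p.Prime).pos _
  obtain ⟨j, hj⟩ : ∃ j, E.piR 0 (a j) ≠ 0 := by
    by_contra hcon
    push Not at hcon
    have h4 : ∑ j, adA (E.lreg 0) (a j) (F j) = 0 := by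
      apply Finset.sum_eq_zero
      intro j _
      have h5 := E.adA_eq_zero (A := Module.End K (E.RR 0)) (E.lreg 0) (E.lreg_central 0)
        (u := a j) (hcon j)
      rw [h5, LinearMap.zero_apply]
    rw [hsum] at h4
    have h5 := congrArg (fun f : Module.End K (E.RR 0) => f 1) h4
    simp only [Module.End.one_apply, LinearMap.zero_apply] at h5
    exact one_ne_zero h5
  obtain ⟨c, hC⟩ := E.toral_nonzero ξ h1 h3 (a j) hj (ha j)
  set C := adA (AlgHom.id K (UU K L)) (a j) c with hCdef
  have hCx : ∀ x, jU K L x * C = C * jU K L x := by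
    intro x
    have h4 := E.adA_eq_zero (AlgHom.id K (UU K L)) E.id_central (ha j x)
    have h5 := congrArg (fun f : Module.End K (UU K L) => f c) h4
    simp only [adA_jU_mul, LinearMap.zero_apply, AlgHom.id_apply] at h5
    exact sub_eq_zero.mp h5
  have hCu : ∀ u, C * u = u * C := by
    intro u
    have := subalgebra_eq_top (Subalgebra.centralizer K {C})
      (fun y => by
        rw [Subalgebra.mem_centralizer_iff]
        rintro g rfl
        exact (hCx y).symm) u
    rw [Subalgebra.mem_centralizer_iff] at this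
    exact this _ rfl
  obtain ⟨χ, C', hC1, hC2⟩ := E.exists_invertible C hC hCu
  have hC3 : ∀ r, C' * r = r * C' := by
    intro r
    obtain ⟨u, rfl⟩ := E.piR_surjective χ r
    have h4 : E.piR χ C * E.piR χ u = E.piR χ u * E.piR χ C := by
      rw [← map_mul, ← map_mul, hCu]
    calc C' * E.piR χ u = C' * E.piR χ u * (E.piR χ C * C') := by rw [hC1, mul_one]
      _ = C' * (E.piR χ u * E.piR χ C) * C' := by simp only [mul_assoc]
      _ = C' * (E.piR χ C * E.piR χ u) * C' := by rw [h4]
      _ = (C' * E.piR χ C) * E.piR χ u * C' := by simp only [mul_assoc]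
      _ = E.piR χ u * C' := by rw [hC2, one_mul]
  refine ⟨χ, E.semisimple_of_inv χ (a j) (ha j) (E.piR χ c * C') ?_⟩
  rw [adA_mul_central _ _ _ _ hC3]
  have h6 := adA_natural (AlgHom.id K (UU K L)) (E.piR χ) (a j) c
  rw [AlgHom.comp_id] at h6
  rw [← h6, ← hCdef, hC1]

end REmb

end Pool.Agent.P166ae0
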