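import Mathlib

/-!
# Restricted Lie algebras, reduced enveloping algebras, toral subalgebras: definitions
-/

set_option autoImplicit false

namespace Pool.Agent.P166ae0

/-- `adCoeff x y m i` is the coefficient of `t ^ i` in `(ad (t x + y)) ^ m (x)`. -/
def adCoeff {L : Type*} [LieRing L] (x y : L) : ℕ → ℕ → L
  | 0, 0 => x
  | 0, _ + 1 => 0
  | m + 1, 0 => ⁅y, adCoeff x y m 0⁆
  | m + 1, i + 1 => ⁅x, adCoeff x y m i⁆ + ⁅y, adCoeff x y m (i + 1)⁆

/-- Jacobson's axioms for a `p`-map `x ↦ x^[p]` on a Lie algebra over a field of characteristic `p`: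
`(c x)^[p] = c^p x^[p]`, `ad (x^[p]) = (ad x)^p`, `(x + y)^[p] = x^[p] + y^[p] + ∑ s_i (x, y)`, where
`i s_i (x, y)` is the coefficient of `t ^ (i - 1)` in `(ad (t x + y)) ^ (p - 1) (x)`. -/
structure IsRestricted (p : ℕ) (K L : Type*) [Field K] [LieRing L] [LieAlgebra K L]
    (pmap : L → L) : Prop where
  smul : ∀ (c : K) (x : L), pmap (c • x) = c ^ p • pmap x
  ad : ∀ x y : L, ⁅pmap x, y⁆ = (fun z : L => ⁅x, z⁆)^[p] y
  add : ∀ x y : L, pmap (x + y) = pmap x + pmap y +
    ∑ i ∈ Finset.Ico 1 p, ((i : K)⁻¹) • adCoeff x y (p - 1) (i - 1)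

section

variable {K L : Type} [Field K] [LieRing L] [LieAlgebra K L]

/-- The two-sided ideal `I_χ` of `U(L)` generated by all `x ^ p - x^[p] - χ(x) ^ p`. -/
noncomputable def redIdeal (p : ℕ) (pmap : L → L) (χ : Module.Dual K L) :
    TwoSidedIdeal (UniversalEnvelopingAlgebra K L) :=
  TwoSidedIdeal.span {z | ∃ x : L, z = UniversalEnvelopingAlgebra.ι K x ^ p
    - UniversalEnvelopingAlgebra.ι K (pmap x)
    - algebraMap K (UniversalEnvelopingAlgebra K L) (χ x ^ p)}

/-- The reduced enveloping algebra `u(L, χ) = U(L) / I_χ`. -/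
abbrev RedEnv (p : ℕ) (pmap : L → L) (χ : Module.Dual K L) : Type :=
  (redIdeal p pmap χ).ringCon.Quotient

/-- The centralizer (coadjoint stabilizer) `{x | ξ [x, y] = 0 for all y}`. -/
def cent (ξ : Module.Dual K L) : Submodule K L where
  carrier := {x | ∀ y : L, ξ ⁅x, y⁆ = 0}
  add_mem' := by
    intro a b ha hb y
    rw [add_lie, map_add, ha y, hb y, add_zero]
  zero_mem' := by
    intro y
    rw [zero_lie, map_zero]
  smul_mem' := by
    intro c a ha y
    rw [smul_lie, map_smul, ha y, smul_zero]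

/-- A subspace `T` is toral: it is abelian, closed under the `p`-map, and has a basis of elements `t`
with `t^[p] = t`. -/
def IsToral (pmap : L → L) (T : Submodule K L) : Prop :=
  (∀ x ∈ T, ∀ y ∈ T, ⁅x, y⁆ = 0) ∧ (∀ x ∈ T, pmap x ∈ T) ∧
    ∃ b : Module.Basis (Fin (Module.finrank K T)) K T, ∀ i, pmap (b i) = b i

end

end Pool.Agent.P166ae0
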