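import Mathlib
import Pool.Agent.Lib.P166ae0.Jacobson
import Pool.Agent.Lib.P166ae0.LitDefs

/-!
# Jacobson's formula, explicit form
-/

set_option autoImplicit false

namespace Pool.Agent.P166ae0

open Polynomial

attribute [local instance 100] LieRing.ofAssociativeRing

/-- Jacobson's formula in an associative algebra. -/
theorem jacobson_explicit {K : Type*} [Field K] (p : ℕ) [Fact p.Prime] [CharP K p]
    {A : Type*} [Ring A] [Algebra K A] (x y : A) :
    (x + y) ^ p = x ^ p + y ^ p +
      ∑ i ∈ Finset.Ico 1 p, ((i : K)⁻¹) • adCoeff x y (p - 1) (i - 1) := by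
  have hp : p.Prime := Fact.out
  obtain ⟨g, hg⟩ : ∃ g : A[X], g = C y + X * C x := ⟨_, rfl⟩
  have hg0 : g.coeff 0 = y := by rw [hg]; simp
  have hg1 : g.coeff 1 = x := by rw [hg]; simp
  have hgn : ∀ n, 2 ≤ n → g.coeff n = 0 := by
    intro n hn
    obtain ⟨k, rfl⟩ : ∃ k, n = k + 2 := ⟨n - 2, by omega⟩
    rw [hg, coeff_add, coeff_C, coeff_X_mul, coeff_C]
    simp
  have hdeg : g.natDegree ≤ 1 := by
    rw [natDegree_le_iff_coeff_eq_zero]
    intro n hn
    exact hgn n (by omega)
  obtain ⟨L, hL⟩ : ∃ L : AddMonoid.End A[X], L = AddMonoidHom.mulLeft g := ⟨_, rfl⟩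
  obtain ⟨R, hR⟩ : ∃ R : AddMonoid.End A[X], R = AddMonoidHom.mulRight g := ⟨_, rfl⟩
  have hLR : Commute L R := by
    ext1 h
    rw [hL, hR]
    change g * (h * g) = g * h * g
    rw [mul_assoc]
  have hLp : ∀ k (h : A[X]), (L ^ k) h = g ^ k * h := by
    intro k
    induction k with
    | zero => intro h; simp
    | succ k ih =>
      intro h
      rw [pow_succ, end_mul_apply, ih, hL, pow_succ, mul_assoc]
      rfl
  have hRp : ∀ k (h : A[X]), (R ^ k) h = h * g ^ k := by
    intro k
    induction k with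
    | zero => intro h; simp
    | succ k ih =>
      intro h
      rw [pow_succ, end_mul_apply, ih, hR, pow_succ', ← mul_assoc]
      rfl
  have hpA : (p : A) = 0 := by
    have := congrArg (algebraMap K A) (CharP.cast_eq_zero K p)
    rwa [map_natCast, map_zero] at this
  have hpE : (p : AddMonoid.End A[X]) = 0 := by
    ext1 h
    change p • h = 0
    rw [nsmul_eq_mul, ← map_natCast (C : A →+* A[X]), hpA, map_zero, zero_mul]
  have had : ∀ (h : A[X]), (g * h - h * g).coeff 0 = ⁅y, h.coeff 0⁆ ∧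
      ∀ n, (g * h - h * g).coeff (n + 1) = ⁅x, h.coeff n⁆ + ⁅y, h.coeff (n + 1)⁆ := by
    intro h
    constructor
    · rw [coeff_sub, mul_coeff_zero, mul_coeff_zero, hg0, Ring.lie_def]
    · intro n
      have e1 : (g * h).coeff (n + 1) = y * h.coeff (n + 1) + x * h.coeff n := by
        rw [hg, add_mul, coeff_add, coeff_C_mul, mul_assoc, coeff_X_mul, coeff_C_mul]
      have e2 : (h * g).coeff (n + 1) = h.coeff (n + 1) * y + h.coeff n * x := by
        rw [hg, mul_add, coeff_add, coeff_mul_C, (commute_X (C x)).eq, ← mul_assoc, coeff_mul_X,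
          coeff_mul_C]
      rw [coeff_sub, e1, e2, Ring.lie_def, Ring.lie_def]
      abel
  have hadp : ∀ k n, (((L - R) ^ k) (C x)).coeff n = adCoeff x y k n := by
    intro k
    induction k with
    | zero =>
      intro n
      change (C x).coeff n = _
      rcases n with _ | n
      · rw [coeff_C_zero, adCoeff]
      · rw [coeff_C_succ, adCoeff]
    | succ k ih =>
      intro n
      rw [pow_succ', end_mul_apply]
      obtain ⟨h0, h1⟩ := had (((L - R) ^ k) (C x))
      have e : (L - R) (((L - R) ^ k) (C x)) = g * (((L - R) ^ k) (C x))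
          - (((L - R) ^ k) (C x)) * g := by
        rw [hL, hR]; rfl
      rw [e]
      rcases n with _ | n
      · rw [h0, ih, adCoeff]
      · rw [h1, ih, ih, adCoeff]
  have hder : derivative (g ^ p) = ((L - R) ^ (p - 1)) (C x) := by
    have hdg : derivative g = C x := by
      rw [hg]; simp
    rw [derivative_pow_nc, hdg, commute_sub_pow hp hpE hLR]
    have : (∑ j ∈ Finset.range p, L ^ j * R ^ (p - 1 - j) : AddMonoid.End A[X]) (C x) =
        ∑ j ∈ Finset.range p, (L ^ j * R ^ (p - 1 - j) : AddMonoid.End A[X]) (C x) :=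
      AddMonoidHom.finsetSum_apply _ _ _
    rw [this]
    apply Finset.sum_congr rfl
    intro j _
    rw [end_mul_apply, hRp, hLp, mul_assoc]
  have hcoef : ∀ i, 1 ≤ i → i < p → (g ^ p).coeff i = ((i : K)⁻¹) • adCoeff x y (p - 1) (i - 1) := by
    intro i hi hip
    obtain ⟨k, rfl⟩ : ∃ k, i = k + 1 := ⟨i - 1, by omega⟩
    have h1 := hadp (p - 1) k
    rw [← hder, coeff_derivative] at h1
    have hne : ((k + 1 : ℕ) : K) ≠ 0 := by
      rw [Ne, CharP.cast_eq_zero_iff K p]
      exact Nat.not_dvd_of_pos_of_lt (by omega) hip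
    rw [Nat.add_sub_cancel, ← h1]
    have h3 : (g ^ p).coeff (k + 1) * ((k : A) + 1) = ((k + 1 : ℕ) : K) •
        (g ^ p).coeff (k + 1) := by
      rw [Nat.cast_smul_eq_nsmul, nsmul_eq_mul]
      push_cast
      rw [← Nat.cast_succ, ← (Nat.cast_commute (k + 1) _).eq]
    rw [h3, smul_smul, inv_mul_cancel₀ hne, one_smul]
  -- evaluation at `1`
  have hev : (x + y) ^ p = ∑ i ∈ Finset.range (p + 1), (g ^ p).coeff i := by
    have h1 : ∀ q : A[X], eval₂RingHom' (RingHom.id A) 1 (fun a => Commute.one_right _) q =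
        q.eval 1 := fun q => rfl
    have h2 : (g ^ p).eval 1 = (x + y) ^ p := by
      rw [← h1, map_pow, h1, hg]
      simp [add_comm]
    rw [← h2, eval_eq_sum_range' (n := p + 1)]
    · simp
    · have := natDegree_pow_le_of_le p hdeg
      omega
  have hc0 : (g ^ p).coeff 0 = y ^ p := by
    rw [← hg0]
    exact map_pow (constantCoeff : A[X] →+* A) g p
  have hcp : (g ^ p).coeff p = x ^ p := by
    have := coeff_pow_of_natDegree_le (m := p) hdeg
    rw [mul_one, hg1] at this
    exact this
  rw [hev, Finset.sum_range_succ, hcp, Finset.range_eq_Ico,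
    Finset.sum_eq_sum_Ico_succ_bot hp.pos, hc0]
  have : ∑ k ∈ Finset.Ico (0 + 1) p, (g ^ p).coeff k =
      ∑ i ∈ Finset.Ico 1 p, ((i : K)⁻¹) • adCoeff x y (p - 1) (i - 1) := by
    apply Finset.sum_congr rfl
    intro k hk
    have := Finset.mem_Ico.1 hk
    exact hcoef k (by omega) (by omega)
  rw [this]
  abel

/-- A Lie homomorphism maps `adCoeff` to `adCoeff`. -/
theorem map_adCoeff {L M F : Type*} [LieRing L] [LieRing M] [FunLike F L M]
    [AddMonoidHomClass F L M] (f : F)
    (hf : ∀ x y : L, f ⁅x, y⁆ = ⁅f x, f y⁆) (x y : L) (m i : ℕ) :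
    f (adCoeff x y m i) = adCoeff (f x) (f y) m i := by
  induction m generalizing i with
  | zero =>
    rcases i with _ | i
    · rw [adCoeff, adCoeff]
    · rw [adCoeff, adCoeff, map_zero]
  | succ m ih =>
    rcases i with _ | i
    · rw [adCoeff, adCoeff, hf, ih]
    · rw [adCoeff, adCoeff, map_add, hf, hf, ih, ih]

end Pool.Agent.P166ae0
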