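import Mathlib
import Pool.Agent.Lib.P166ae0.Jac2

/-!
# Scalar extension of a Lie algebra: derivations of the scalars and truncated exponentials
-/

set_option autoImplicit false

namespace Pool.Agent.P166ae0

open TensorProduct

variable {K R L : Type} [Field K] [CommRing R] [Algebra K R] [LieRing L] [LieAlgebra K L]

/-- A derivation of the scalars acts on the scalar extension. -/
noncomputable def dT (D : Derivation K R R) : R ⊗[K] L →ₗ[K] R ⊗[K] L :=
  LinearMap.rTensor L (D : R →ₗ[K] R)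

theorem dT_tmul (D : Derivation K R R) (a : R) (x : L) : dT D (a ⊗ₜ[K] x) = D a ⊗ₜ[K] x := rfl

theorem dT_one (D : Derivation K R R) (x : L) : dT D ((1 : R) ⊗ₜ[K] x) = 0 := by
  rw [dT_tmul, Derivation.map_one_eq_zero, zero_tmul]

theorem dT_smul (D : Derivation K R R) (a : R) (u : R ⊗[K] L) :
    dT D (a • u) = D a • u + a • dT D u := by
  induction u using TensorProduct.induction_on with
  | zero => simp
  | tmul b x =>
    rw [smul_tmul', dT_tmul, dT_tmul, smul_tmul', smul_tmul', ← add_tmul, smul_eq_mul,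
      Derivation.leibniz]
    congr 1
    simp only [smul_eq_mul]
    ring
  | add u v hu hv => rw [smul_add, map_add, hu, hv, map_add, smul_add, smul_add]; abel

theorem dT_lie (D : Derivation K R R) (u v : R ⊗[K] L) :
    dT D ⁅u, v⁆ = ⁅dT D u, v⁆ + ⁅u, dT D v⁆ := by
  induction u using TensorProduct.induction_on with
  | zero => simp
  | tmul a x =>
    induction v using TensorProduct.induction_on with
    | zero => simp
    | tmul b y =>
      rw [LieAlgebra.ExtendScalars.bracket_tmul, dT_tmul, dT_tmul, dT_tmul,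
        LieAlgebra.ExtendScalars.bracket_tmul, LieAlgebra.ExtendScalars.bracket_tmul, ← add_tmul,
        Derivation.leibniz]
      congr 1
      simp only [smul_eq_mul]
      ring
    | add v w hv hw => rw [lie_add, map_add, hv, hw, map_add, lie_add, lie_add]; abel
  | add u w hu hw => rw [add_lie, map_add, hu, hw, map_add, add_lie, add_lie]; abel

/-- An endomorphism of the scalars acts on the scalar extension. -/
noncomputable def fT (φ : R →ₐ[K] R) : R ⊗[K] L →ₗ[K] R ⊗[K] L :=
  LinearMap.rTensor L φ.toLinearMap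

theorem fT_tmul (φ : R →ₐ[K] R) (a : R) (x : L) : fT φ (a ⊗ₜ[K] x) = φ a ⊗ₜ[K] x := rfl

theorem fT_smul (φ : R →ₐ[K] R) (a : R) (u : R ⊗[K] L) : fT φ (a • u) = φ a • fT φ u := by
  induction u using TensorProduct.induction_on with
  | zero => simp
  | tmul b x =>
    rw [smul_tmul', fT_tmul, fT_tmul, smul_tmul', smul_eq_mul, smul_eq_mul, map_mul]
  | add u v hu hv => rw [smul_add, map_add, hu, hv, map_add, smul_add]

variable (R) in
/-- The adjoint action of an element of `L` on the scalar extension. -/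
noncomputable def AA (e : L) : Module.End R (R ⊗[K] L) := LieAlgebra.ad R (R ⊗[K] L) (1 ⊗ₜ[K] e)

theorem AA_apply (e : L) (u : R ⊗[K] L) : AA R e u = ⁅(1 : R) ⊗ₜ[K] e, u⁆ := rfl

theorem AA_tmul (e : L) (a : R) (x : L) : AA (K := K) R e (a ⊗ₜ[K] x) = a ⊗ₜ[K] ⁅e, x⁆ := by
  rw [AA_apply, LieAlgebra.ExtendScalars.bracket_tmul, one_mul]

theorem dT_AA (D : Derivation K R R) (e : L) (u : R ⊗[K] L) :
    dT D (AA R e u) = AA R e (dT D u) := by
  rw [AA_apply, dT_lie, dT_one, zero_lie, zero_add, AA_apply]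

theorem fT_AA (φ : R →ₐ[K] R) (e : L) (u : R ⊗[K] L) : fT φ (AA R e u) = AA R e (fT φ u) := by
  induction u using TensorProduct.induction_on with
  | zero => simp
  | tmul b x => rw [AA_tmul, fT_tmul, fT_tmul, AA_tmul]
  | add u v hu hv => rw [map_add, map_add, hu, hv, map_add, map_add]

theorem dT_AA_pow (D : Derivation K R R) (e : L) (k : ℕ) (u : R ⊗[K] L) :
    dT D ((AA R e ^ k) u) = (AA R e ^ k) (dT D u) := by
  induction k generalizing u with
  | zero => simp
  | succ k ih => rw [pow_succ, Module.End.mul_apply, ih, dT_AA, Module.End.mul_apply]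

theorem fT_AA_pow (φ : R →ₐ[K] R) (e : L) (k : ℕ) (u : R ⊗[K] L) :
    fT φ ((AA R e ^ k) u) = (AA R e ^ k) (fT φ u) := by
  induction k generalizing u with
  | zero => simp
  | succ k ih => rw [pow_succ, Module.End.mul_apply, ih, fT_AA, Module.End.mul_apply]

theorem AA_pow_lie (e : L) (n : ℕ) (u v : R ⊗[K] L) :
    (AA R e ^ n) ⁅u, v⁆ =
      ∑ k ∈ Finset.range (n + 1), n.choose k • ⁅(AA R e ^ k) u, (AA R e ^ (n - k)) v⁆ := by
  have h := LieDerivation.iterate_apply_lie
    (LieDerivation.ad R (R ⊗[K] L) ((1 : R) ⊗ₜ[K] e)) n u v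
  have h1 : ∀ (k : ℕ) (u : R ⊗[K] L),
      (⇑(LieDerivation.ad R (R ⊗[K] L) ((1 : R) ⊗ₜ[K] e)))^[k] u = (AA R e ^ k) u := by
    intro k
    induction k with
    | zero => intro u; simp
    | succ k ih =>
      intro u
      rw [Function.iterate_succ_apply, ih, pow_succ, Module.End.mul_apply, AA_apply,
        LieDerivation.ad_apply_apply]
  rw [h1] at h
  rw [h, Finset.Nat.sum_antidiagonal_eq_sum_range_succ_mk]
  apply Finset.sum_congr rfl
  intro k _
  simp only [h1]

theorem AA_pow_p {p : ℕ} {pmap : L → L} (had : ∀ x y : L, ⁅pmap x, y⁆ = (fun z : L => ⁅x, z⁆)^[p] y)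
    (e : L) (u : R ⊗[K] L) : (AA R e ^ p) u = AA R (pmap e) u := by
  have h : ∀ (k : ℕ) (a : R) (x : L),
      (AA (K := K) R e ^ k) (a ⊗ₜ[K] x) = a ⊗ₜ[K] ((fun z : L => ⁅e, z⁆)^[k] x) := by
    intro k
    induction k with
    | zero => intro a x; simp
    | succ k ih =>
      intro a x
      rw [pow_succ, Module.End.mul_apply, AA_tmul, ih, Function.iterate_succ_apply]
  induction u using TensorProduct.induction_on with
  | zero => simp
  | tmul a x => rw [h, AA_tmul, had]
  | add u v hu hv => rw [map_add, map_add, hu, hv]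

variable (K) in
/-- The coefficients of the exponential of `-t`. -/
noncomputable def cc (k : ℕ) : K := (-1) ^ k / (k.factorial : K)

theorem cc_zero : cc K 0 = 1 := by simp [cc]

section char

variable (p : ℕ) [hpf : Fact p.Prime] [CharP K p]

theorem fact_ne {k : ℕ} (hk : k < p) : ((k.factorial : ℕ) : K) ≠ 0 := by
  rw [Ne, CharP.cast_eq_zero_iff K p, hpf.out.dvd_factorial]
  omega

theorem cc_succ {k : ℕ} (hk : k + 1 < p) : cc K (k + 1) * ((k + 1 : ℕ) : K) = - cc K k := by
  have h1 : ((k.factorial : ℕ) : K) ≠ 0 := fact_ne p (by omega)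
  have h2 : ((k + 1 : ℕ) : K) ≠ 0 := by
    rw [Ne, CharP.cast_eq_zero_iff K p]
    exact Nat.not_dvd_of_pos_of_lt (by omega) hk
  rw [cc, cc, Nat.factorial_succ, Nat.cast_mul, pow_succ]
  field_simp

theorem cc_mul {i j : ℕ} (h : i + j < p) :
    cc K i * cc K j = cc K (i + j) * (((i + j).choose i : ℕ) : K) := by
  have h1 : ((i.factorial : ℕ) : K) ≠ 0 := fact_ne p (by omega)
  have h2 : ((j.factorial : ℕ) : K) ≠ 0 := fact_ne p (by omega)
  have h3 : (((i + j).factorial : ℕ) : K) ≠ 0 := fact_ne p h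
  have h4 : (((i + j).factorial : ℕ) : K) =
      (((i + j).choose i : ℕ) : K) * ((i.factorial : ℕ) : K) * ((j.factorial : ℕ) : K) := by
    have := Nat.add_choose_mul_factorial_mul_factorial i j
    rw [← this, Nat.choose_symm_add]
    push_cast
    ring
  rw [cc, cc, cc, pow_add]
  rw [div_mul_div_comm, div_mul_eq_mul_div, div_eq_div_iff (mul_ne_zero h1 h2) h3, h4]
  ring

theorem cc_last : cc K (p - 1) = -1 := by
  have h : (((p - 1).factorial : ℕ) : K) = -1 := by
    have h1 := ZMod.wilsons_lemma p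
    have h2 := congrArg (ZMod.castHom (dvd_refl p) K) h1
    rwa [map_natCast, map_neg, map_one] at h2
  have h2 : ((-1 : K)) ^ (p - 1) = 1 := by
    rcases hpf.out.eq_two_or_odd' with h2 | h2
    · subst h2
      have : (-1 : K) = 1 := by
        have := CharP.cast_eq_zero K 2
        have h3 : (1 : K) + 1 = 0 := by exact_mod_cast this
        exact (eq_neg_of_add_eq_zero_left h3).symm
      rw [this, one_pow]
    · obtain ⟨m, hm⟩ := h2
      rw [hm, Nat.add_sub_cancel, pow_mul]
      simp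
  rw [cc, h, h2]
  norm_num

/-- The truncated exponential `exp (-s ad e)`. -/
noncomputable def EE (s : R) (e : L) : Module.End R (R ⊗[K] L) :=
  ∑ k ∈ Finset.range p, (algebraMap K R (cc K k) * s ^ k) • AA R e ^ k

theorem EE_apply (s : R) (e : L) (u : R ⊗[K] L) : EE p s e u =
    ∑ k ∈ Finset.range p, (algebraMap K R (cc K k) * s ^ k) • (AA R e ^ k) u := by
  rw [EE, LinearMap.sum_apply]
  rfl

theorem EE_zero (e : L) (u : R ⊗[K] L) : EE p (0 : R) e u = u := by
  rw [EE_apply, Finset.sum_eq_single 0]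
  · rw [cc_zero, map_one, pow_zero, pow_zero, mul_one, one_smul, Module.End.one_apply]
  · intro k _ hk
    rw [zero_pow hk, mul_zero, zero_smul]
  · intro h
    exact absurd (Finset.mem_range.2 hpf.out.pos) h

theorem fT_EE (φ : R →ₐ[K] R) (s : R) (e : L) (u : R ⊗[K] L) :
    fT φ (EE p s e u) = EE p (φ s) e (fT φ u) := by
  rw [EE_apply, EE_apply, map_sum]
  apply Finset.sum_congr rfl
  intro k _
  rw [fT_smul, fT_AA_pow, map_mul, AlgHom.commutes, map_pow]

theorem EE_lie (s : R) (hs : s ^ p = 0) (e : L) (u v : R ⊗[K] L) :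
    EE p s e ⁅u, v⁆ = ⁅EE p s e u, EE p s e v⁆ := by
  have h0 : ∀ m, p ≤ m → s ^ m = 0 := by
    intro m hm
    obtain ⟨k, rfl⟩ := Nat.exists_eq_add_of_le hm
    rw [pow_add, hs, zero_mul]
  have hR : ⁅EE p s e u, EE p s e v⁆ = ∑ i ∈ Finset.range p, ∑ j ∈ Finset.range p,
      (algebraMap K R (cc K i * cc K j) * s ^ (i + j)) •
        ⁅(AA R e ^ i) u, (AA R e ^ j) v⁆ := by
    rw [EE_apply, EE_apply, sum_lie]
    apply Finset.sum_congr rfl
    intro i _
    rw [lie_sum]
    apply Finset.sum_congr rfl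
    intro j _
    rw [lie_smul, smul_lie, smul_smul]
    congr 1
    rw [map_mul, pow_add]
    ring
  rw [hR, EE_apply]
  have hL : ∀ m ∈ Finset.range p, (algebraMap K R (cc K m) * s ^ m) • (AA R e ^ m) ⁅u, v⁆ =
      ∑ k ∈ Finset.range (m + 1), (algebraMap K R (cc K k * cc K (m - k)) * s ^ (k + (m - k))) •
        ⁅(AA R e ^ k) u, (AA R e ^ (m - k)) v⁆ := by
    intro m hm
    rw [AA_pow_lie, Finset.smul_sum]
    apply Finset.sum_congr rfl
    intro k hk
    have h1 := Finset.mem_range.1 hm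
    have h2 := Finset.mem_range.1 hk
    rw [cc_mul p (by omega), ← Nat.cast_smul_eq_nsmul R, smul_smul]
    have h3 : k + (m - k) = m := by omega
    rw [h3, map_mul, map_natCast]
    congr 1
    ring
  rw [Finset.sum_congr rfl hL, Finset.sum_range_diag_flip p (fun i j =>
    (algebraMap K R (cc K i * cc K j) * s ^ (i + j)) • ⁅(AA R e ^ i) u, (AA R e ^ j) v⁆)]
  apply Finset.sum_congr rfl
  intro i hi
  apply Finset.sum_subset
  · intro j hj
    rw [Finset.mem_range] at hj ⊢
    omega
  · intro j _ hj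
    rw [Finset.mem_range] at hj
    rw [h0 _ (by omega), mul_zero, zero_smul]

variable {p}

/-- The element `1 ⊗ e + s ^ (p - 1) ⊗ e ^ [p]`. -/
noncomputable def ww (p : ℕ) (pmap : L → L) (s : R) (e : L) : R ⊗[K] L :=
  1 ⊗ₜ[K] e + (s ^ (p - 1)) ⊗ₜ[K] pmap e

theorem dT_EE {pmap : L → L} (had : ∀ x y : L, ⁅pmap x, y⁆ = (fun z : L => ⁅x, z⁆)^[p] y)
    (D : Derivation K R R) (s : R) (hs : s ^ p = 0) (e : L) (u : R ⊗[K] L) :
    dT D (EE p s e u) = EE p s e (dT D u) - D s • ⁅(ww p pmap s e : R ⊗[K] L), EE p s e u⁆ := by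
  obtain ⟨q, hq⟩ : ∃ q, p = q + 1 := ⟨p - 1, by have := hpf.out.pos; omega⟩
  have hq1 : p - 1 = q := by omega
  have hEA : ∀ u : R ⊗[K] L, EE p s e (AA R e u) = AA R e (EE p s e u) := by
    intro u
    rw [EE_apply, EE_apply, map_sum]
    apply Finset.sum_congr rfl
    intro k _
    rw [map_smul, ← Module.End.mul_apply, ← Module.End.mul_apply, ← pow_succ, ← pow_succ']
  -- the correction term
  have hcor : s ^ (p - 1) • (AA (K := K) R e ^ p) (EE p s e u) =
      s ^ (p - 1) • (AA (K := K) R e ^ p) u := by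
    rw [EE_apply, map_sum, Finset.smul_sum, Finset.sum_eq_single 0]
    · rw [cc_zero, map_one, pow_zero, pow_zero, mul_one, one_smul, Module.End.one_apply]
    · intro k _ hk
      rw [map_smul, smul_smul]
      have : s ^ (p - 1) * (algebraMap K R (cc K k) * s ^ k) = 0 := by
        obtain ⟨l, rfl⟩ : ∃ l, k = l + 1 := ⟨k - 1, by omega⟩
        have h : s ^ (p - 1) * s ^ (l + 1) = 0 := by
          rw [← pow_add]
          have : p - 1 + (l + 1) = p + l := by omega
          rw [this, pow_add, hs, zero_mul]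
        calc s ^ (p - 1) * (algebraMap K R (cc K (l + 1)) * s ^ (l + 1))
            = algebraMap K R (cc K (l + 1)) * (s ^ (p - 1) * s ^ (l + 1)) := by ring
          _ = 0 := by rw [h, mul_zero]
      rw [this, zero_smul]
    · intro h
      exact absurd (Finset.mem_range.2 hpf.out.pos) h
  have hw : ⁅(ww p pmap s e : R ⊗[K] L), EE p s e u⁆ = AA (K := K) R e (EE p s e u) +
      s ^ (p - 1) • (AA (K := K) R e ^ p) u := by
    have h1 : (s ^ (p - 1)) ⊗ₜ[K] pmap e = s ^ (p - 1) • ((1 : R) ⊗ₜ[K] pmap e) := by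
      rw [smul_tmul', smul_eq_mul, mul_one]
    rw [ww, add_lie, h1, smul_lie, ← hcor, AA_pow_p had]
    rfl
  have h1 : dT D (EE p s e u) = ∑ k ∈ Finset.range p,
      (D (algebraMap K R (cc K k) * s ^ k) • (AA R e ^ k) u +
        (algebraMap K R (cc K k) * s ^ k) • (AA R e ^ k) (dT D u)) := by
    rw [EE_apply, map_sum]
    apply Finset.sum_congr rfl
    intro k _
    rw [dT_smul, dT_AA_pow]
  rw [h1, Finset.sum_add_distrib, ← EE_apply, add_comm, sub_eq_add_neg]
  congr 1
  rw [hw]
  have h2 : ∀ k, D (algebraMap K R (cc K (k + 1)) * s ^ (k + 1)) =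
      (algebraMap K R (cc K (k + 1) * ((k + 1 : ℕ) : K)) * s ^ k) * D s := by
    intro k
    rw [Derivation.leibniz, Derivation.map_algebraMap, smul_zero, add_zero,
      Derivation.leibniz_pow]
    simp only [Nat.add_sub_cancel, smul_eq_mul, nsmul_eq_mul, map_mul, map_natCast]
    ring
  have h3 : ∑ k ∈ Finset.range p, D (algebraMap K R (cc K k) * s ^ k) • (AA R e ^ k) u =
      ∑ k ∈ Finset.range q, -(D s • ((algebraMap K R (cc K k) * s ^ k) •
        (AA R e ^ (k + 1)) u)) := by
    rw [hq, Finset.sum_range_succ', pow_zero, mul_one, Derivation.map_algebraMap, zero_smul,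
      add_zero]
    apply Finset.sum_congr rfl
    intro k hk
    have hk' := Finset.mem_range.1 hk
    rw [h2, cc_succ p (by omega), map_neg, smul_smul, ← neg_smul]
    congr 1
    ring
  have h4 : AA R e (EE p s e u) = ∑ k ∈ Finset.range q,
      (algebraMap K R (cc K k) * s ^ k) • (AA R e ^ (k + 1)) u
        - s ^ (p - 1) • (AA R e ^ p) u := by
    rw [EE_apply, map_sum]
    conv_lhs => rw [hq]
    rw [Finset.sum_range_succ]
    have h5 : cc K q = -1 := by rw [← hq1]; exact cc_last p
    rw [h5, map_neg, map_one, map_smul, ← Module.End.mul_apply, ← pow_succ', hq1, ← hq,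
      sub_eq_add_neg]
    congr 1
    · apply Finset.sum_congr rfl
      intro k _
      rw [map_smul, ← Module.End.mul_apply, ← pow_succ']
    · rw [neg_mul, one_mul, neg_smul]
  rw [h3, h4, sub_add_cancel, Finset.sum_neg_distrib, Finset.smul_sum]

end char

end Pool.Agent.P166ae0
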