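import Mathlib

/-! An injective `p`-semilinear map on a finite-dimensional vector space over an algebraically
closed field of characteristic `p` has a basis of fixed vectors. -/

set_option autoImplicit false

open Polynomial

namespace Pool.Agent.P166ae0

namespace FixedBasis

variable {K : Type*} [Field K] (p : ℕ)

/-- The polynomials solving the recursion. -/
noncomputable def rp (a : ℕ → K) : ℕ → K[X]
  | 0 => C (a 0) * X ^ p
  | i + 1 => (rp a i) ^ p + C (a (i + 1)) * X ^ p

theorem rp_eval_zero (hp : p ≠ 0) (a : ℕ → K) (i : ℕ) : (rp p a i).eval 0 = 0 := by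
  induction i with
  | zero => simp [rp, hp]
  | succ i ih => simp [rp, hp, ih]

theorem rp_derivative [CharP K p] (a : ℕ → K) (i : ℕ) : derivative (rp p a i) = 0 := by
  cases i with
  | zero => simp [rp, derivative_X_pow]
  | succ i => simp [rp, derivative_X_pow, derivative_pow]

theorem rp_natDegree (hp : 2 ≤ p) (a : ℕ → K) (ha : a 0 ≠ 0) (i : ℕ) :
    (rp p a i).natDegree = p ^ (i + 1) := by
  induction i with
  | zero => simp [rp, natDegree_C_mul_X_pow, ha]
  | succ i ih =>
    rw [rp]
    have h1 : ((rp p a i) ^ p).natDegree = p ^ (i + 2) := by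
      rw [natDegree_pow, ih, pow_succ' p (i + 1)]
    have h2 : (C (a (i + 1)) * X ^ p : K[X]).natDegree ≤ p := natDegree_C_mul_X_pow_le _ _
    rw [natDegree_add_eq_left_of_natDegree_lt, h1]
    rw [h1]
    refine lt_of_le_of_lt h2 ?_
    calc p = p ^ 1 := (pow_one p).symm
      _ < p ^ (i + 2) := Nat.pow_lt_pow_right (by omega) (by omega)

theorem exists_root [IsAlgClosed K] [CharP K p] (hp : 2 ≤ p) (a : ℕ → K) (ha : a 0 ≠ 0) (j : ℕ) :
    ∃ t : K, t ≠ 0 ∧ (rp p a j).eval t = t := by
  set f : K[X] := rp p a j - X with hf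
  have hdeg : f.natDegree = p ^ (j + 1) := by
    rw [hf, natDegree_sub_eq_left_of_natDegree_lt, rp_natDegree p hp a ha]
    rw [rp_natDegree p hp a ha, natDegree_X]
    exact Nat.one_lt_pow (by omega) (by omega)
  have h0 : f.coeff 0 = 0 := by
    rw [coeff_zero_eq_eval_zero, hf, eval_sub, rp_eval_zero p (by omega), eval_X, sub_zero]
  have h1 : f.coeff 1 = -1 := by
    have h2 : (derivative f).coeff 0 = f.coeff 1 * ((0 : ℕ) + 1) := coeff_derivative f 0
    rw [hf, derivative_sub, rp_derivative, derivative_X, zero_sub, coeff_neg, coeff_one_zero,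
      ← hf] at h2
    simpa using h2.symm
  have hX : f.divX * X = f := by
    have := divX_mul_X_add f
    rwa [h0, C_0, add_zero] at this
  have hgd : f.divX.degree ≠ 0 := by
    intro h
    have h3 : f.divX.natDegree = 0 := natDegree_eq_of_degree_eq_some h
    rw [natDegree_divX_eq_natDegree_tsub_one, hdeg] at h3
    have h4 : 1 < p ^ (j + 1) := Nat.one_lt_pow (by omega) (by omega)
    omega
  obtain ⟨t, ht⟩ := IsAlgClosed.exists_root f.divX hgd
  refine ⟨t, ?_, ?_⟩
  · rintro rfl
    rw [IsRoot.def, ← coeff_zero_eq_eval_zero, coeff_divX, zero_add, h1] at ht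
    exact one_ne_zero (neg_eq_zero.1 ht)
  · have h5 : f.eval t = 0 := by
      rw [← hX, eval_mul, ht.eq_zero, zero_mul]
    rw [hf, eval_sub, eval_X] at h5
    exact sub_eq_zero.1 h5

variable {V : Type*} [AddCommGroup V] [Module K V]

theorem map_sum' (φ : V → V) (hadd : ∀ x y, φ (x + y) = φ x + φ y) {ι : Type*} (s : Finset ι)
    (f : ι → V) (h0 : φ 0 = 0) : φ (∑ i ∈ s, f i) = ∑ i ∈ s, φ (f i) := by
  classical
  induction s using Finset.induction_on with
  | empty => simpa using h0
  | insert i s hi ih => rw [Finset.sum_insert hi, Finset.sum_insert hi, hadd, ih]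

/-- A nonzero fixed vector. -/
theorem exists_fixed [IsAlgClosed K] [CharP K p] [FiniteDimensional K V] (hp : 2 ≤ p)
    (φ : V → V) (hadd : ∀ x y, φ (x + y) = φ x + φ y)
    (hsmul : ∀ (c : K) (x : V), φ (c • x) = c ^ p • φ x) (hinj : ∀ x, φ x = 0 → x = 0)
    (v : V) (hv : v ≠ 0) : ∃ w : V, w ≠ 0 ∧ φ w = w := by
  classical
  have h0 : φ 0 = 0 := by
    have := hsmul 0 0
    rwa [zero_smul, zero_pow (by omega), zero_smul] at this
  have hex : ∃ m : ℕ, ¬ LinearIndependent K (fun i : Fin m => φ^[i] v) := by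
    refine ⟨Module.finrank K V + 1, fun h => ?_⟩
    have := h.fintype_card_le_finrank
    rw [Fintype.card_fin] at this
    omega
  obtain ⟨m, hm, hmin⟩ : ∃ m : ℕ, ¬ LinearIndependent K (fun i : Fin m => φ^[i] v) ∧
      ∀ k < m, LinearIndependent K (fun i : Fin k => φ^[i] v) :=
    ⟨Nat.find hex, Nat.find_spec hex, fun k hk => not_not.1 (Nat.find_min hex hk)⟩
  have hm2 : 2 ≤ m := by
    by_contra h
    have : m = 0 ∨ m = 1 := by omega
    rcases this with rfl | rfl
    · exact hm (linearIndependent_empty_type)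
    · apply hm
      rw [linearIndependent_unique_iff]
      simpa using hv
  obtain ⟨j, rfl⟩ : ∃ j, m = j + 2 := ⟨m - 2, by omega⟩
  have hind : LinearIndependent K (fun i : Fin (j + 1) => φ^[i] v) := hmin _ (by omega)
  -- the relation
  obtain ⟨a, ha⟩ : ∃ a : ℕ → K, φ^[j + 1] v = ∑ i ∈ Finset.range (j + 1), a i • φ^[i] v := by
    have hmem : φ^[j + 1] v ∈ Submodule.span K (Set.range (fun i : Fin (j + 1) => φ^[i] v)) := by
      by_contra hnot
      apply hm
      rw [linearIndependent_finSucc']
      have e : (Fin.init fun i : Fin (j + 2) => φ^[(i : ℕ)] v) =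
          (fun i : Fin (j + 1) => φ^[(i : ℕ)] v) := by
        funext i
        rfl
      refine ⟨?_, ?_⟩
      · rw [e]; exact hind
      · rw [e]; exact hnot
    rw [Submodule.mem_span_range_iff_exists_fun] at hmem
    obtain ⟨c, hc⟩ := hmem
    refine ⟨fun i => if h : i < j + 1 then c ⟨i, h⟩ else 0, ?_⟩
    rw [← hc, Finset.sum_range]
    refine Finset.sum_congr rfl fun i _ => ?_
    beta_reduce
    rw [dif_pos i.2]
  have hli : ∀ c : ℕ → K, ∑ i ∈ Finset.range (j + 1), c i • φ^[i] v = 0 → ∀ i < j + 1, c i = 0 := by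
    intro c hc i hi
    rw [Finset.sum_range] at hc
    exact Fintype.linearIndependent_iff.1 hind (fun i => c i) hc ⟨i, hi⟩
  have ha0 : a 0 ≠ 0 := by
    intro ha0
    rw [Finset.sum_range_succ', ha0, zero_smul, add_zero] at ha
    choose b hb using fun i : ℕ => IsAlgClosed.exists_pow_nat_eq (a (i + 1)) (by omega : 0 < p)
    have h1 : φ (φ^[j] v) = φ (∑ i ∈ Finset.range j, b i • φ^[i] v) := by
      rw [← Function.iterate_succ_apply' φ j v, ha, map_sum' φ hadd _ _ h0]
      refine Finset.sum_congr rfl fun i _ => ?_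
      rw [hsmul, hb, Function.iterate_succ_apply']
    have hneg : ∀ x, φ (-x) = - φ x := by
      intro x
      have := hadd x (-x)
      rw [add_neg_cancel, h0] at this
      exact (neg_eq_of_add_eq_zero_right this.symm).symm
    have h2 : φ^[j] v - ∑ i ∈ Finset.range j, b i • φ^[i] v = 0 := by
      apply hinj
      rw [sub_eq_add_neg, hadd, hneg, h1, add_neg_cancel]
    have h3 : ∑ i ∈ Finset.range (j + 1), (if i = j then (1 : K) else - b i) • φ^[i] v = 0 := by
      rw [Finset.sum_range_succ, if_pos rfl, one_smul, ← h2, sub_eq_neg_add,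
        ← Finset.sum_neg_distrib]
      congr 1
      refine Finset.sum_congr rfl fun i hi => ?_
      rw [if_neg (Finset.mem_range.1 hi).ne, neg_smul]
    have h4 := hli _ h3 j (by omega)
    rw [if_pos rfl] at h4
    exact one_ne_zero h4
  obtain ⟨t, ht0, ht⟩ := exists_root p hp a ha0 j
  set x : ℕ → K := fun i => (rp p a i).eval t with hx
  have hx0 : x 0 = a 0 * t ^ p := by simp [hx, rp]
  have hxs : ∀ i, x (i + 1) = x i ^ p + a (i + 1) * t ^ p := by
    intro i; simp [hx, rp]
  have hxj : x j = t := ht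
  refine ⟨∑ i ∈ Finset.range (j + 1), x i • φ^[i] v, ?_, ?_⟩
  · intro hw
    have := hli x hw j (by omega)
    rw [hxj] at this
    exact ht0 this
  · rw [map_sum' φ hadd _ _ h0]
    have h1 : ∀ i, φ (x i • φ^[i] v) = x i ^ p • φ^[i + 1] v := by
      intro i
      rw [hsmul, Function.iterate_succ_apply']
    simp only [h1]
    rw [Finset.sum_range_succ, ha, hxj, Finset.sum_range_succ' (fun i => a i • φ^[i] v),
      Finset.sum_range_succ' (fun i => x i • φ^[i] v), smul_add, Finset.smul_sum, ← add_assoc,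
      ← Finset.sum_add_distrib]
    congr 1
    · refine Finset.sum_congr rfl fun i _ => ?_
      rw [hxs, add_smul, smul_smul, mul_comm (t ^ p)]
    · rw [hx0, smul_smul, mul_comm (t ^ p)]

/-- The fixed vectors span. -/
theorem span_fixed [IsAlgClosed K] [CharP K p] [FiniteDimensional K V] (hp : 2 ≤ p)
    (φ : V → V) (hadd : ∀ x y, φ (x + y) = φ x + φ y)
    (hsmul : ∀ (c : K) (x : V), φ (c • x) = c ^ p • φ x) (hinj : ∀ x, φ x = 0 → x = 0) :
    Submodule.span K {v : V | φ v = v} = ⊤ := by
  classical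
  have h0 : φ 0 = 0 := by
    have := hsmul 0 0
    rwa [zero_smul, zero_pow (by omega), zero_smul] at this
  have hneg : ∀ x, φ (-x) = - φ x := by
    intro x
    have := hadd x (-x)
    rw [add_neg_cancel, h0] at this
    exact (neg_eq_of_add_eq_zero_right this.symm).symm
  have hsub : ∀ x y, φ (x - y) = φ x - φ y := by
    intro x y
    rw [sub_eq_add_neg, hadd, hneg, ← sub_eq_add_neg]
  have hinj' : Function.Injective φ := by
    intro x y hxy
    have : φ (x - y) = 0 := by rw [hsub, hxy, sub_self]
    exact sub_eq_zero.1 (hinj _ this)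
  set W := Submodule.span K {v : V | φ v = v} with hW
  -- every element of `W` is the image of an element of `W`
  have hpre : ∀ y ∈ W, ∃ z ∈ W, φ z = y := by
    intro y hy
    induction hy using Submodule.span_induction with
    | mem x hx => exact ⟨x, Submodule.subset_span hx, hx⟩
    | zero => exact ⟨0, W.zero_mem, h0⟩
    | add x y _ _ hx hy =>
      obtain ⟨z, hz, rfl⟩ := hx
      obtain ⟨z', hz', rfl⟩ := hy
      exact ⟨z + z', W.add_mem hz hz', hadd _ _⟩
    | smul c x _ hx =>
      obtain ⟨z, hz, rfl⟩ := hx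
      obtain ⟨b, hb⟩ := IsAlgClosed.exists_pow_nat_eq c (by omega : 0 < p)
      exact ⟨b • z, W.smul_mem _ hz, by rw [hsmul, hb]⟩
  have hst : ∀ y ∈ W, φ y ∈ W := by
    intro y hy
    induction hy using Submodule.span_induction with
    | mem x hx => rw [show φ x = x from hx]; exact Submodule.subset_span hx
    | zero => rw [h0]; exact W.zero_mem
    | add x y _ _ hx hy => rw [hadd]; exact W.add_mem hx hy
    | smul c x _ hx => rw [hsmul]; exact W.smul_mem _ hx
  -- Artin-Schreier on `W`
  have has : ∀ y ∈ W, ∃ z ∈ W, φ z = z - y := by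
    intro y hy
    induction hy using Submodule.closure_induction with
    | smul_mem c x hx =>
      obtain ⟨r, hr⟩ := IsAlgClosed.exists_root (X ^ p - X + C c) (by
        have h2 : (X ^ p - X + C c : K[X]).natDegree = p := by
          have h3 : (X ^ p - X + C c : K[X]) = X ^ p + (C c - X) := by ring
          have h4 : (C c - X : K[X]).natDegree < p := by
            have h5 := natDegree_sub_le (C c) (X : K[X])
            rw [natDegree_C, natDegree_X] at h5
            exact lt_of_le_of_lt h5 (by simp; omega)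
          rw [h3, natDegree_add_eq_left_of_natDegree_lt]
          · exact natDegree_X_pow p
          · rwa [natDegree_X_pow]
        intro h5
        have h6 : (X ^ p - X + C c : K[X]).natDegree = 0 := natDegree_eq_of_degree_eq_some h5
        omega)
      refine ⟨r • x, W.smul_mem _ (Submodule.subset_span hx), ?_⟩
      rw [hsmul, show φ x = x from hx]
      have h6 : r ^ p = r - c := by
        simp only [IsRoot.def, eval_add, eval_sub, eval_pow, eval_X, eval_C] at hr
        linear_combination hr
      rw [h6, sub_smul]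
    | zero => exact ⟨0, W.zero_mem, by rw [h0, sub_zero]⟩
    | add x y _ _ hx hy =>
      obtain ⟨z, hz, hz'⟩ := hx
      obtain ⟨u, hu, hu'⟩ := hy
      refine ⟨z + u, W.add_mem hz hu, ?_⟩
      rw [hadd, hz', hu']; abel
  by_contra hne
  have hnt : Nontrivial (V ⧸ W) := Submodule.Quotient.nontrivial_iff.2 hne
  obtain ⟨q, hq⟩ := exists_ne (0 : V ⧸ W)
  let g : V ⧸ W → V := Function.surjInv W.mkQ_surjective
  have hg : ∀ q, W.mkQ (g q) = q := Function.surjInv_eq W.mkQ_surjective
  let ψ : V ⧸ W → V ⧸ W := fun q => W.mkQ (φ (g q))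
  have hψ : ∀ x, ψ (W.mkQ x) = W.mkQ (φ x) := by
    intro x
    show W.mkQ (φ (g (W.mkQ x))) = W.mkQ (φ x)
    rw [← sub_eq_zero, ← map_sub, ← hsub, Submodule.mkQ_apply, Submodule.Quotient.mk_eq_zero]
    apply hst
    rw [← Submodule.Quotient.mk_eq_zero W, ← Submodule.mkQ_apply, map_sub, hg, sub_self]
  obtain ⟨w, hw0, hw⟩ := exists_fixed p hp ψ
    (by
      intro x y
      obtain ⟨x, rfl⟩ := W.mkQ_surjective x
      obtain ⟨y, rfl⟩ := W.mkQ_surjective y
      rw [← map_add, hψ, hψ, hψ, hadd, map_add])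
    (by
      intro c x
      obtain ⟨x, rfl⟩ := W.mkQ_surjective x
      rw [← map_smul, hψ, hψ, hsmul, map_smul])
    (by
      intro x hx
      obtain ⟨x, rfl⟩ := W.mkQ_surjective x
      rw [hψ, Submodule.mkQ_apply, Submodule.Quotient.mk_eq_zero] at hx
      obtain ⟨z, hz, hz'⟩ := hpre _ hx
      rw [Submodule.mkQ_apply, Submodule.Quotient.mk_eq_zero, ← hinj' hz']
      exact hz) q hq
  obtain ⟨u, rfl⟩ := W.mkQ_surjective w
  rw [hψ, ← sub_eq_zero, ← map_sub, Submodule.mkQ_apply, Submodule.Quotient.mk_eq_zero] at hw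
  obtain ⟨z, hz, hz'⟩ := has _ hw
  apply hw0
  rw [Submodule.mkQ_apply, Submodule.Quotient.mk_eq_zero]
  have h1 : u + z ∈ W := by
    apply Submodule.subset_span
    show φ (u + z) = u + z
    rw [hadd, hz']; abel
  have h2 := W.sub_mem h1 hz
  rwa [add_sub_cancel_right] at h2

end FixedBasis

/-- **Basis of fixed vectors.** -/
theorem exists_fixed_basis {K V : Type*} [Field K] [IsAlgClosed K] [AddCommGroup V] [Module K V]
    [FiniteDimensional K V] (p : ℕ) [hp : Fact p.Prime] [CharP K p] (φ : V → V)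
    (hadd : ∀ x y, φ (x + y) = φ x + φ y) (hsmul : ∀ (c : K) (x : V), φ (c • x) = c ^ p • φ x)
    (hinj : ∀ x, φ x = 0 → x = 0) :
    ∃ b : Module.Basis (Fin (Module.finrank K V)) K V, ∀ i, φ (b i) = b i := by
  classical
  obtain ⟨s, hs, hspan, hli⟩ := exists_linearIndependent K {v : V | φ v = v}
  rw [FixedBasis.span_fixed p hp.out.two_le φ hadd hsmul hinj] at hspan
  let b : Module.Basis s K V := Module.Basis.mk hli (by rw [Subtype.range_coe, hspan])
  have : Fintype s := FiniteDimensional.fintypeBasisIndex b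
  have hc : Fintype.card s = Module.finrank K V := (Module.finrank_eq_card_basis b).symm
  let e : s ≃ Fin (Module.finrank K V) := Fintype.equivFinOfCardEq hc
  refine ⟨b.reindex e, fun i => ?_⟩
  rw [Module.Basis.reindex_apply]
  have h1 : b (e.symm i) = (e.symm i : V) := Module.Basis.mk_apply hli _ _
  rw [h1]
  exact hs (e.symm i).2

end Pool.Agent.P166ae0
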