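import Mathlib

/-!
# The truncated polynomial ring `K[t_1, …, t_n] / (t_i ^ p)` and its derivations
-/

set_option autoImplicit false

namespace Pool.Agent.P166ae0

open MvPolynomial

variable (K : Type) [Field K] (p n : ℕ)

/-- the ideal generated by the `p`-th powers of the variables -/
noncomputable def trI : Ideal (MvPolynomial (Fin n) K) :=
  Ideal.span (Set.range fun i : Fin n => (X i : MvPolynomial (Fin n) K) ^ p)

/-- The truncated polynomial ring. -/
def TR : Type := MvPolynomial (Fin n) K ⧸ trI K p n

noncomputable instance : CommRing (TR K p n) :=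
  inferInstanceAs (CommRing (MvPolynomial (Fin n) K ⧸ trI K p n))

noncomputable instance : Algebra K (TR K p n) :=
  inferInstanceAs (Algebra K (MvPolynomial (Fin n) K ⧸ trI K p n))

namespace TR

/-- The projection from the polynomial ring. -/
noncomputable def mk : MvPolynomial (Fin n) K →ₐ[K] TR K p n := Ideal.Quotient.mkₐ K (trI K p n)

theorem mk_surjective : Function.Surjective (mk K p n) := Ideal.Quotient.mkₐ_surjective _ _

variable {K p n}

theorem mk_eq_zero {f : MvPolynomial (Fin n) K} (hf : f ∈ trI K p n) : mk K p n f = 0 :=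
  Ideal.Quotient.eq_zero_iff_mem.mpr hf

/-- The coordinates. -/
noncomputable def t (i : Fin n) : TR K p n := mk K p n (X i)

theorem t_pow (i : Fin n) : (t i : TR K p n) ^ p = 0 := by
  rw [t, ← map_pow]
  exact mk_eq_zero (Ideal.subset_span ⟨i, rfl⟩)

/-- Induction on the truncated polynomial ring. -/
theorem induction {P : TR K p n → Prop} (hC : ∀ c : K, P (algebraMap K _ c))
    (ht : ∀ i, P (t i)) (hadd : ∀ a b, P a → P b → P (a + b))
    (hmul : ∀ a b, P a → P b → P (a * b)) (a : TR K p n) : P a := by
  obtain ⟨f, rfl⟩ := mk_surjective K p n a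
  induction f using MvPolynomial.induction_on with
  | C c =>
    have : mk K p n (C c) = algebraMap K _ c := (mk K p n).commutes c
    rw [this]; exact hC c
  | add f g hf hg => rw [map_add]; exact hadd _ _ hf hg
  | mul_X f i hf => rw [map_mul]; exact hmul _ _ hf (ht i)

section lift

variable {S : Type} [CommRing S] [Algebra K S]

theorem aeval_trI (s : Fin n → S) (hs : ∀ i, s i ^ p = 0) :
    ∀ a ∈ trI K p n, aeval (R := K) s a = 0 := by
  intro a ha
  have : trI K p n ≤ RingHom.ker (aeval (R := K) s) := by
    rw [trI, Ideal.span_le]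
    rintro _ ⟨i, rfl⟩
    rw [SetLike.mem_coe, RingHom.mem_ker, map_pow, aeval_X, hs]
  exact this ha

/-- The universal property. -/
noncomputable def lift (s : Fin n → S) (hs : ∀ i, s i ^ p = 0) : TR K p n →ₐ[K] S :=
  Ideal.Quotient.liftₐ (trI K p n) (aeval s) (aeval_trI s hs)

theorem lift_t (s : Fin n → S) (hs : ∀ i, s i ^ p = 0) (i : Fin n) :
    (lift s hs : TR K p n →ₐ[K] S) (t i) = s i := by
  have : (lift s hs : TR K p n →ₐ[K] S) (t i) = aeval (R := K) s (X i) := rfl
  rw [this, aeval_X]

end lift

/-- The value at the origin. -/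
noncomputable def eps (hp : p ≠ 0) : TR K p n →ₐ[K] K := lift (fun _ => 0) (fun _ => zero_pow hp)

theorem eps_t (hp : p ≠ 0) (i : Fin n) : eps hp (t i : TR K p n) = 0 := lift_t _ _ _

/-- The projection to the `j`-th axis. -/
noncomputable def proj (hp : p ≠ 0) (j : Fin n) : TR K p n →ₐ[K] TR K p n :=
  lift (fun i => if i = j then t j else 0) (by
    intro i
    split_ifs
    · exact t_pow j
    · exact zero_pow hp)

theorem proj_t (hp : p ≠ 0) (i j : Fin n) :
    proj hp j (t i : TR K p n) = if i = j then t j else 0 := lift_t _ _ _

theorem eps_proj (hp : p ≠ 0) (j : Fin n) (a : TR K p n) : eps hp (proj hp j a) = eps hp a := by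
  induction a using induction with
  | hC c => rw [AlgHom.commutes]
  | ht i =>
    rw [proj_t, eps_t]
    split_ifs
    · exact eps_t hp j
    · exact map_zero _
  | hadd a b ha hb => rw [map_add, map_add, map_add, ha, hb]
  | hmul a b ha hb => rw [map_mul, map_mul, map_mul, ha, hb]

theorem isNilpotent_of_eps (hp : p ≠ 0) (a : TR K p n) (ha : eps hp a = 0) : IsNilpotent a := by
  have h : ∀ a : TR K p n, IsNilpotent (a - algebraMap K _ (eps hp a)) := by
    intro a
    induction a using induction with
    | hC c =>
      rw [AlgHom.commutes]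
      simp
    | ht i =>
      rw [eps_t, map_zero, sub_zero]
      exact ⟨p, t_pow i⟩
    | hadd a b ha hb =>
      have : a + b - algebraMap K (TR K p n) (eps hp (a + b)) =
          (a - algebraMap K _ (eps hp a)) + (b - algebraMap K _ (eps hp b)) := by
        rw [map_add, map_add]; ring
      rw [this]
      exact (Commute.all _ _).isNilpotent_add ha hb
    | hmul a b ha hb =>
      have : a * b - algebraMap K (TR K p n) (eps hp (a * b)) =
          (a - algebraMap K _ (eps hp a)) * b +
            algebraMap K _ (eps hp a) * (b - algebraMap K _ (eps hp b)) := by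
        rw [map_mul, map_mul]; ring
      rw [this]
      exact (Commute.all _ _).isNilpotent_add ((Commute.all _ _).isNilpotent_mul_right ha)
        ((Commute.all _ _).isNilpotent_mul_left hb)
  have := h a
  rwa [ha, map_zero, sub_zero] at this

theorem isUnit_of_eps (hp : p ≠ 0) (a : TR K p n) (ha : eps hp a = 1) : IsUnit a := by
  have h := isNilpotent_of_eps hp (a - 1) (by rw [map_sub, ha, map_one, sub_self])
  have := h.isUnit_one_add
  rwa [add_sub_cancel] at this

theorem finite (hp : p ≠ 0) : Module.Finite K (TR K p n) := by
  have h1 : Algebra.FiniteType K (TR K p n) :=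
    Algebra.FiniteType.of_surjective (mk K p n) (mk_surjective K p n)
  have h2 : Algebra.IsIntegral K (TR K p n) := by
    constructor
    intro a
    induction a using induction with
    | hC c => exact isIntegral_algebraMap
    | ht i =>
      exact IsIntegral.of_pow (Nat.pos_of_ne_zero hp) (by rw [t_pow]; exact isIntegral_zero)
    | hadd a b ha hb => exact ha.add hb
    | hmul a b ha hb => exact ha.mul hb
  exact Algebra.IsIntegral.finite

section der

variable [CharP K p]

/-- The images of the coordinates in the dual numbers. -/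
noncomputable def dualt (j i : Fin n) : TrivSqZeroExt (TR K p n) (TR K p n) :=
  TrivSqZeroExt.inl (t i) + TrivSqZeroExt.inr (if i = j then 1 else 0)

theorem dualt_fst (j i : Fin n) : (dualt j i : TrivSqZeroExt (TR K p n) (TR K p n)).fst = t i := by
  rw [dualt, TrivSqZeroExt.fst_add, TrivSqZeroExt.fst_inl, TrivSqZeroExt.fst_inr, add_zero]

theorem dualt_snd (j i : Fin n) : (dualt j i : TrivSqZeroExt (TR K p n) (TR K p n)).snd =
    if i = j then 1 else 0 := by
  rw [dualt, TrivSqZeroExt.snd_add, TrivSqZeroExt.snd_inl, TrivSqZeroExt.snd_inr, zero_add]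

theorem dualt_pow (j i : Fin n) : (dualt j i : TrivSqZeroExt (TR K p n) (TR K p n)) ^ p = 0 := by
  apply TrivSqZeroExt.ext
  · rw [TrivSqZeroExt.fst_pow, dualt_fst, TrivSqZeroExt.fst_zero]
    exact t_pow i
  · rw [TrivSqZeroExt.snd_pow, ← Nat.cast_smul_eq_nsmul K, CharP.cast_eq_zero, zero_smul,
      TrivSqZeroExt.snd_zero]

/-- The homomorphism to the dual numbers which defines the partial derivative. -/
noncomputable def dual (j : Fin n) :
    TR K p n →ₐ[K] TrivSqZeroExt (TR K p n) (TR K p n) :=
  lift (K := K) (p := p) (S := TrivSqZeroExt (TR K p n) (TR K p n)) (dualt j) (dualt_pow j)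

theorem dual_t (i j : Fin n) : dual j (t i : TR K p n) = dualt j i :=
  lift_t (K := K) (p := p) (S := TrivSqZeroExt (TR K p n) (TR K p n)) _ _ _

theorem fst_dual (j : Fin n) (a : TR K p n) : (dual j a).fst = a := by
  induction a using induction with
  | hC c => rw [AlgHom.commutes]; rfl
  | ht i => rw [dual_t, dualt_fst]
  | hadd a b ha hb => rw [map_add, TrivSqZeroExt.fst_add, ha, hb]
  | hmul a b ha hb => rw [map_mul, TrivSqZeroExt.fst_mul, ha, hb]

/-- The partial derivative. -/
noncomputable def der (j : Fin n) : Derivation K (TR K p n) (TR K p n) :=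
  Derivation.mk' (((TrivSqZeroExt.sndHom (TR K p n) (TR K p n)).restrictScalars K) ∘ₗ
    (dual j).toLinearMap) (by
      intro a b
      change (dual j (a * b)).snd = a • (dual j b).snd + b • (dual j a).snd
      rw [map_mul, TrivSqZeroExt.snd_mul, fst_dual, fst_dual, op_smul_eq_smul])

theorem der_apply (j : Fin n) (a : TR K p n) : der j a = (dual j a).snd := rfl

theorem der_t (i j : Fin n) : der j (t i : TR K p n) = if i = j then 1 else 0 := by
  rw [der_apply, dual_t, dualt_snd]

/-- Derivations with the same values at the coordinates are equal. -/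
theorem der_ext {D D' : Derivation K (TR K p n) (TR K p n)} (h : ∀ i, D (t i) = D' (t i)) :
    D = D' := by
  ext a
  induction a using induction with
  | hC c => rw [Derivation.map_algebraMap, Derivation.map_algebraMap]
  | ht i => exact h i
  | hadd a b ha hb => rw [map_add, map_add, ha, hb]
  | hmul a b ha hb => rw [Derivation.leibniz, Derivation.leibniz, ha, hb]

theorem eq_sum_der (D : Derivation K (TR K p n) (TR K p n)) : D = ∑ i, D (t i) • der i := by
  apply der_ext
  intro i
  have h : ∀ (s : Finset (Fin n)), (∑ j ∈ s, D (t j) • der j) (t i) =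
      ∑ j ∈ s, D (t j) * (if i = j then 1 else 0) := by
    classical
    intro s
    induction s using Finset.induction_on with
    | empty => simp
    | insert a s ha ih =>
      rw [Finset.sum_insert ha, Finset.sum_insert ha, Derivation.add_apply, ih,
        Derivation.smul_apply, der_t, smul_eq_mul]
  rw [h]
  simp

theorem der_comm (i j : Fin n) (a : TR K p n) : der i (der j a) = der j (der i a) := by
  have h : ⁅(der i : Derivation K (TR K p n) (TR K p n)),
      (der j : Derivation K (TR K p n) (TR K p n))⁆ = 0 := by
    apply der_ext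
    intro k
    rw [Derivation.commutator_apply, der_t, der_t, Derivation.zero_apply]
    split_ifs <;> simp
  have h2 := congrArg (fun D : Derivation K (TR K p n) (TR K p n) => D a) h
  simp only [Derivation.commutator_apply, Derivation.zero_apply] at h2
  exact sub_eq_zero.mp h2

theorem proj_der (hp : p ≠ 0) (j : Fin n) (a : TR K p n) :
    proj hp j (der j a) = der j (proj hp j a) := by
  induction a using induction with
  | hC c => rw [Derivation.map_algebraMap, map_zero, AlgHom.commutes, Derivation.map_algebraMap]
  | ht i =>
    rw [der_t, proj_t]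
    split_ifs with h
    · rw [map_one, der_t, if_pos rfl]
    · rw [map_zero, map_zero]
  | hadd a b ha hb => rw [map_add, map_add, map_add, map_add, ha, hb]
  | hmul a b ha hb =>
    rw [Derivation.leibniz, map_add, map_mul, Derivation.leibniz]
    simp only [smul_eq_mul, map_mul, ha, hb]

/-- The value at the origin of iterated derivatives of `t ^ k * b`. -/
theorem eps_der_iter (hp : p ≠ 0) (j : Fin n) (m k : ℕ) (hmk : m ≤ k) (b : TR K p n) :
    eps hp ((der j)^[m] (t j ^ k * b)) = if m = k then ((k.factorial : ℕ) : K) * eps hp b else 0 := by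
  induction m generalizing k b with
  | zero =>
    rw [Function.iterate_zero, id, map_mul, map_pow, eps_t]
    rcases k with _ | k
    · simp
    · simp
  | succ m ih =>
    obtain ⟨k, rfl⟩ : ∃ l, k = l + 1 := ⟨k - 1, by omega⟩
    have h1 : der j (t j ^ (k + 1) * b) = t j ^ k * (((k + 1 : ℕ) : TR K p n) * b)
        + t j ^ (k + 1) * der j b := by
      rw [Derivation.leibniz, Derivation.leibniz_pow, der_t, if_pos rfl]
      simp only [Nat.add_sub_cancel, smul_eq_mul, nsmul_eq_mul, mul_one]
      ring
    have h2 : ∀ (m : ℕ) (a b : TR K p n), (der j)^[m] (a + b) = (der j)^[m] a + (der j)^[m] b := by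
      intro m a b
      exact iterate_map_add (der j) m a b
    rw [Function.iterate_succ_apply, h1, h2, map_add, ih k (by omega), ih (k + 1) (by omega),
      if_neg (by omega : m ≠ k + 1), add_zero, map_mul, map_natCast]
    by_cases h : m = k
    · rw [if_pos h, if_pos (by omega), Nat.factorial_succ]
      push_cast
      ring
    · rw [if_neg h, if_neg (by omega)]

end der

end TR

end Pool.Agent.P166ae0
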