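import Mathlib
import Pool.Agent.Lib.P166ae0.ExtL
import Pool.Agent.Lib.P166ae0.TruncR

/-!
# A flat connection on the truncated polynomial ring
-/

set_option autoImplicit false

namespace Pool.Agent.P166ae0

open TensorProduct

variable {K L : Type} [Field K] [LieRing L] [LieAlgebra K L] {p n : ℕ} [hpf : Fact p.Prime]
  [CharP K p]

/-- The value at the origin, as an endomorphism. -/
noncomputable def eps0 (K : Type) [Field K] (p n : ℕ) [hpf : Fact p.Prime] :
    TR K p n →ₐ[K] TR K p n :=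
  (Algebra.ofId K (TR K p n)).comp (TR.eps hpf.out.ne_zero)

theorem eps0_t (i : Fin n) : eps0 K p n (TR.t i) = 0 := by
  rw [eps0, AlgHom.comp_apply, TR.eps_t, map_zero]

theorem eps0_apply (a : TR K p n) : eps0 K p n a =
    algebraMap K (TR K p n) (TR.eps hpf.out.ne_zero a) := rfl

theorem fT_ww {R : Type} [CommRing R] [Algebra K R] (φ : R →ₐ[K] R) (pmap : L → L) (s : R)
    (e : L) : fT φ (ww (K := K) p pmap s e) = ww p pmap (φ s) e := by
  rw [ww, map_add, fT_tmul, fT_tmul, map_one, map_pow, ww]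

theorem dT_ww {R : Type} [CommRing R] [Algebra K R] (D : Derivation K R R) (pmap : L → L) (s : R)
    (e : L) (h : D s = 0) : dT D (ww (K := K) p pmap s e) = 0 := by
  rw [ww, map_add, dT_one, dT_tmul, Derivation.leibniz_pow, h, smul_zero, smul_zero, zero_tmul,
    add_zero]

theorem flat_step (pmap : L → L)
    (had : ∀ x y : L, ⁅pmap x, y⁆ = (fun z : L => ⁅x, z⁆)^[p] y) (e : Fin n → L) (m : ℕ)
    (hm : m ≤ n) : ∃ ω : Fin n → TR K p n ⊗[K] L,
      (∀ i j : Fin n, (i : ℕ) < m → (j : ℕ) < m →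
        dT (TR.der i) (ω j) - dT (TR.der j) (ω i) = -⁅ω i, ω j⁆) ∧
      (∀ i j : Fin n, (i : ℕ) < m → m ≤ (j : ℕ) → dT (TR.der j) (ω i) = 0) ∧
      (∀ i : Fin n, (i : ℕ) < m → fT (eps0 K p n) (ω i) = 1 ⊗ₜ[K] e i) ∧
      (∀ i : Fin n, (i : ℕ) < m → fT (TR.proj hpf.out.ne_zero i) (ω i) =
        ww p pmap (TR.t i) (e i)) := by
  induction m with
  | zero =>
    refine ⟨fun _ => 0, ?_, ?_, ?_, ?_⟩
    · intro i j hi; omega
    · intro i j hi; omega
    · intro i hi; omega
    · intro i hi; omega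
  | succ m ih =>
    obtain ⟨ω, h1, h2, h3, h4⟩ := ih (by omega)
    let k : Fin n := ⟨m, by omega⟩
    have htk : (TR.t k : TR K p n) ^ p = 0 := TR.t_pow k
    let ω' : Fin n → TR K p n ⊗[K] L := fun i =>
      if (i : ℕ) < m then EE p (TR.t k) (e k) (ω i) else ww p pmap (TR.t k) (e k)
    have hlt : ∀ i : Fin n, (i : ℕ) < m → ω' i = EE p (TR.t k) (e k) (ω i) := fun i hi => if_pos hi
    have hk : ω' k = ww p pmap (TR.t k) (e k) := if_neg (lt_irrefl m)
    have hder : ∀ i : Fin n, i ≠ k → (TR.der i : Derivation K (TR K p n) (TR K p n)) (TR.t k) = 0 := by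
      intro i hi
      rw [TR.der_t, if_neg (Ne.symm hi)]
    have hderk : (TR.der k : Derivation K (TR K p n) (TR K p n)) (TR.t k) = 1 := by
      rw [TR.der_t, if_pos rfl]
    have hne : ∀ i : Fin n, (i : ℕ) < m → i ≠ k := by
      intro i hi h
      rw [h] at hi
      exact lt_irrefl m hi
    have hcase : ∀ i : Fin n, (i : ℕ) < m + 1 → (i : ℕ) < m ∨ i = k := by
      intro i hi
      rcases Nat.lt_succ_iff_lt_or_eq.mp hi with h | h
      · exact Or.inl h
      · exact Or.inr (Fin.ext h)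
    -- mixed case
    have hmix : ∀ i : Fin n, (i : ℕ) < m →
        dT (TR.der k) (ω' i) = -⁅ω' k, ω' i⁆ ∧ dT (TR.der i) (ω' k) = 0 := by
      intro i hi
      constructor
      · rw [hlt i hi, dT_EE had _ _ htk, h2 i k hi (le_refl m), map_zero, hderk, one_smul,
          zero_sub, hk]
      · rw [hk]
        exact dT_ww _ _ _ _ (hder i (hne i hi))
    refine ⟨ω', ?_, ?_, ?_, ?_⟩
    · intro i j hi hj
      rcases hcase i hi with hi' | rfl
      · rcases hcase j hj with hj' | rfl
        · rw [hlt i hi', hlt j hj', dT_EE had _ _ htk, dT_EE had _ _ htk, hder i (hne i hi'),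
            hder j (hne j hj'), zero_smul, zero_smul, sub_zero, sub_zero, ← map_sub, h1 i j hi' hj',
            map_neg, EE_lie p _ htk]
        · rw [(hmix i hi').1, (hmix i hi').2, zero_sub, neg_neg, lie_skew]
      · rcases hcase j hj with hj' | rfl
        · rw [(hmix j hj').1, (hmix j hj').2, sub_zero]
        · rw [sub_self, lie_self, neg_zero]
    · intro i j hi hj
      have hjk : j ≠ k := by
        intro h
        rw [h] at hj
        have : (k : ℕ) = m := rfl
        omega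
      rcases hcase i hi with hi' | rfl
      · rw [hlt i hi', dT_EE had _ _ htk, h2 i j hi' (by omega), map_zero, hder j hjk, zero_smul,
          sub_zero]
      · rw [hk]
        exact dT_ww _ _ _ _ (hder j hjk)
    · intro i hi
      rcases hcase i hi with hi' | rfl
      · rw [hlt i hi', fT_EE, eps0_t, EE_zero, h3 i hi']
      · rw [hk, ww, map_add, fT_tmul, fT_tmul, map_one, map_pow, eps0_t,
          zero_pow (by have := hpf.out.two_le; omega), zero_tmul, add_zero]
    · intro i hi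
      rcases hcase i hi with hi' | rfl
      · rw [hlt i hi', fT_EE, TR.proj_t, if_neg (Ne.symm (hne i hi')), EE_zero, h4 i hi']
      · rw [hk, fT_ww, TR.proj_t, if_pos rfl]

theorem exists_flat (pmap : L → L)
    (had : ∀ x y : L, ⁅pmap x, y⁆ = (fun z : L => ⁅x, z⁆)^[p] y) (e : Fin n → L) :
    ∃ ω : Fin n → TR K p n ⊗[K] L,
      (∀ i j : Fin n, dT (TR.der i) (ω j) - dT (TR.der j) (ω i) = -⁅ω i, ω j⁆) ∧
      (∀ i : Fin n, fT (eps0 K p n) (ω i) = 1 ⊗ₜ[K] e i) ∧
      (∀ i : Fin n, fT (TR.proj hpf.out.ne_zero i) (ω i) = ww p pmap (TR.t i) (e i)) := by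
  obtain ⟨ω, h1, _, h3, h4⟩ := flat_step (K := K) (n := n) pmap had e n (le_refl n)
  exact ⟨ω, fun i j => h1 i j i.2 j.2, fun i => h3 i i.2, fun i => h4 i i.2⟩

end Pool.Agent.P166ae0
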