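import Mathlib
import Pool.Agent.Lib.P166ae0.Flat
import Pool.Agent.Lib.P166ae0.Restr

/-!
# The frame of vector fields attached to a flat connection
-/

set_option autoImplicit false
set_option linter.unusedSectionVars false

namespace Pool.Agent.P166ae0

open TensorProduct

variable {K L : Type} [Field K] [LieRing L] [LieAlgebra K L] {p n : ℕ} [hpf : Fact p.Prime]
  [CharP K p]

/-- the constant frame -/
noncomputable def b0 (R : Type) [CommRing R] [Algebra K R] (e : Module.Basis (Fin n) K L) :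
    Module.Basis (Fin n) R (R ⊗[K] L) := Algebra.TensorProduct.basis R e

theorem b0_apply (R : Type) [CommRing R] [Algebra K R] (e : Module.Basis (Fin n) K L)
    (i : Fin n) : b0 R e i = 1 ⊗ₜ[K] e i := Algebra.TensorProduct.basis_apply e i

theorem b0_repr_tmul (R : Type) [CommRing R] [Algebra K R] (e : Module.Basis (Fin n) K L)
    (a : R) (x : L) (i : Fin n) : (b0 R e).repr (a ⊗ₜ[K] x) i = a * algebraMap K R (e.repr x i) := by
  rw [b0, Algebra.TensorProduct.basis_repr_tmul]
  rfl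

theorem b0_repr_fT (R : Type) [CommRing R] [Algebra K R] (e : Module.Basis (Fin n) K L)
    (φ : R →ₐ[K] R) (u : R ⊗[K] L) (i : Fin n) :
    (b0 R e).repr (fT φ u) i = φ ((b0 R e).repr u i) := by
  induction u using TensorProduct.induction_on with
  | zero => simp
  | tmul a x => rw [fT_tmul, b0_repr_tmul, b0_repr_tmul, map_mul, AlgHom.commutes]
  | add u v hu hv =>
    rw [map_add, map_add, map_add, Finsupp.add_apply, Finsupp.add_apply, map_add, hu, hv]

theorem eps_eps0 (a : TR K p n) :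
    TR.eps hpf.out.ne_zero (eps0 K p n a) = TR.eps hpf.out.ne_zero a := by
  rw [eps0_apply, AlgHom.commutes]
  rfl

theorem dT_eq_sum (δ : Derivation K (TR K p n) (TR K p n)) (u : TR K p n ⊗[K] L) :
    dT δ u = ∑ i, δ (TR.t i) • dT (TR.der i) u := by
  induction u using TensorProduct.induction_on with
  | zero => simp
  | tmul a x =>
    rw [dT_tmul]
    conv_lhs => rw [TR.eq_sum_der δ]
    have h : ∀ (s : Finset (Fin n)), ((∑ j ∈ s, δ (TR.t j) • TR.der j) :
        Derivation K (TR K p n) (TR K p n)) a ⊗ₜ[K] x =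
        ∑ j ∈ s, δ (TR.t j) • dT (TR.der j) (a ⊗ₜ[K] x) := by
      classical
      intro s
      induction s using Finset.induction_on with
      | empty => simp
      | insert b s hb ih =>
        rw [Finset.sum_insert hb, Finset.sum_insert hb, Derivation.add_apply, add_tmul, ih,
          Derivation.smul_apply, dT_tmul, smul_tmul']
    exact h _
  | add u v hu hv =>
    rw [map_add, hu, hv, ← Finset.sum_add_distrib]
    apply Finset.sum_congr rfl
    intro i _
    rw [map_add, smul_add]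

/-- The value of the connection form at a vector field. -/
noncomputable def WW (ω : Fin n → TR K p n ⊗[K] L) (δ : Derivation K (TR K p n) (TR K p n)) :
    TR K p n ⊗[K] L := ∑ i, δ (TR.t i) • ω i

theorem WW_der (ω : Fin n → TR K p n ⊗[K] L) (i : Fin n) : WW ω (TR.der i) = ω i := by
  rw [WW, Finset.sum_eq_single i]
  · rw [TR.der_t, if_pos rfl, one_smul]
  · intro j _ hj
    rw [TR.der_t, if_neg hj, zero_smul]
  · intro h
    exact absurd (Finset.mem_univ i) h

theorem WW_add (ω : Fin n → TR K p n ⊗[K] L) (δ δ' : Derivation K (TR K p n) (TR K p n)) :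
    WW ω (δ + δ') = WW ω δ + WW ω δ' := by
  rw [WW, WW, WW, ← Finset.sum_add_distrib]
  apply Finset.sum_congr rfl
  intro i _
  rw [Derivation.add_apply, add_smul]

theorem WW_smul (ω : Fin n → TR K p n ⊗[K] L) (a : TR K p n)
    (δ : Derivation K (TR K p n) (TR K p n)) : WW ω (a • δ) = a • WW ω δ := by
  rw [WW, WW, Finset.smul_sum]
  apply Finset.sum_congr rfl
  intro i _
  rw [Derivation.smul_apply, smul_smul, smul_eq_mul]

theorem WW_lie (ω : Fin n → TR K p n ⊗[K] L)
    (hω : ∀ i j : Fin n, dT (TR.der i) (ω j) - dT (TR.der j) (ω i) = -⁅ω i, ω j⁆)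
    (δ δ' : Derivation K (TR K p n) (TR K p n)) :
    WW ω ⁅δ, δ'⁆ = dT δ (WW ω δ') - dT δ' (WW ω δ) + ⁅WW ω δ, WW ω δ'⁆ := by
  have h1 : ∀ δ δ' : Derivation K (TR K p n) (TR K p n), dT δ (WW ω δ') =
      ∑ k, δ (δ' (TR.t k)) • ω k +
        ∑ i, ∑ k, (δ (TR.t i) * δ' (TR.t k)) • dT (TR.der i) (ω k) := by
    intro δ δ'
    rw [WW, map_sum, Finset.sum_comm, ← Finset.sum_add_distrib]
    apply Finset.sum_congr rfl
    intro k _
    rw [dT_smul, dT_eq_sum δ (ω k), Finset.smul_sum]
    congr 1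
    apply Finset.sum_congr rfl
    intro i _
    rw [smul_smul, mul_comm]
  have h2 : ⁅WW ω δ, WW ω δ'⁆ = ∑ i, ∑ k, (δ (TR.t i) * δ' (TR.t k)) • ⁅ω i, ω k⁆ := by
    rw [WW, WW, sum_lie]
    apply Finset.sum_congr rfl
    intro i _
    rw [lie_sum]
    apply Finset.sum_congr rfl
    intro k _
    rw [lie_smul, smul_lie, smul_smul, mul_comm]
  have h3 : WW ω ⁅δ, δ'⁆ = ∑ k, δ (δ' (TR.t k)) • ω k - ∑ k, δ' (δ (TR.t k)) • ω k := by
    rw [WW, ← Finset.sum_sub_distrib]
    apply Finset.sum_congr rfl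
    intro k _
    rw [Derivation.commutator_apply, sub_smul]
  have h4 : ∑ i, ∑ k, (δ' (TR.t i) * δ (TR.t k)) • dT (TR.der i) (ω k) =
      ∑ i, ∑ k, (δ (TR.t i) * δ' (TR.t k)) • dT (TR.der k) (ω i) := by
    rw [Finset.sum_comm]
    apply Finset.sum_congr rfl
    intro i _
    apply Finset.sum_congr rfl
    intro k _
    rw [mul_comm]
  have h5 : ∑ i, ∑ k, (δ (TR.t i) * δ' (TR.t k)) • dT (TR.der i) (ω k) -
      ∑ i, ∑ k, (δ (TR.t i) * δ' (TR.t k)) • dT (TR.der k) (ω i) +
      ∑ i, ∑ k, (δ (TR.t i) * δ' (TR.t k)) • ⁅ω i, ω k⁆ = 0 := by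
    rw [← Finset.sum_sub_distrib, ← Finset.sum_add_distrib]
    apply Finset.sum_eq_zero
    intro i _
    rw [← Finset.sum_sub_distrib, ← Finset.sum_add_distrib]
    apply Finset.sum_eq_zero
    intro k _
    rw [← smul_sub, hω, smul_neg, neg_add_cancel]
  rw [h1, h1, h2, h3, h4]
  have h6 : ∀ a b c d f : TR K p n ⊗[K] L, c - d + f = 0 →
      a - b = a + c - (b + d) + f := by
    intro a b c d f h
    have : a + c - (b + d) + f = a - b + (c - d + f) := by abel
    rw [this, h, add_zero]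
  exact h6 _ _ _ _ _ h5

/-- The connection form is a frame. -/
theorem exists_frame (e : Module.Basis (Fin n) K L) (ω : Fin n → TR K p n ⊗[K] L)
    (h3 : ∀ i : Fin n, fT (eps0 K p n) (ω i) = 1 ⊗ₜ[K] e i) :
    ∃ D : TR K p n ⊗[K] L →ₗ[TR K p n] Derivation K (TR K p n) (TR K p n),
      (∀ i, D (ω i) = TR.der i) ∧ ∀ u, WW ω (D u) = u := by
  have hu : IsUnit ((b0 (TR K p n) e).det ω) := by
    apply TR.isUnit_of_eps hpf.out.ne_zero
    rw [Module.Basis.det_apply, AlgHom.map_det]
    have : (TR.eps hpf.out.ne_zero).mapMatrix ((b0 (TR K p n) e).toMatrix ω) = 1 := by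
      ext i j
      rw [AlgHom.mapMatrix_apply, Matrix.map_apply, Module.Basis.toMatrix_apply, ← eps_eps0,
        ← b0_repr_fT, h3, ← b0_apply, Module.Basis.repr_self, Finsupp.single_apply,
        Matrix.one_apply]
      split_ifs with h1 h2 h2
      · exact map_one _
      · exact absurd h1.symm h2
      · exact absurd h2.symm h1
      · exact map_zero _
    rw [this, Matrix.det_one]
  obtain ⟨hli, hsp⟩ := (Module.Basis.is_basis_iff_det (b0 (TR K p n) e)).2 hu
  let B : Module.Basis (Fin n) (TR K p n) (TR K p n ⊗[K] L) := Module.Basis.mk hli (hsp ▸ le_refl _)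
  have hB : ∀ i, B i = ω i := fun i => Module.Basis.mk_apply _ _ i
  let D := B.constr (TR K p n) (fun i => (TR.der i : Derivation K (TR K p n) (TR K p n)))
  have hD : ∀ i, D (ω i) = TR.der i := by
    intro i
    rw [← hB]
    exact B.constr_basis _ _ i
  refine ⟨D, hD, ?_⟩
  intro u
  have h : ∀ u ∈ Submodule.span (TR K p n) (Set.range ω), WW ω (D u) = u := by
    intro u hu
    induction hu using Submodule.span_induction with
    | mem x hx =>
      obtain ⟨i, rfl⟩ := hx
      rw [hD, WW_der]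
    | zero =>
      rw [map_zero, WW]
      apply Finset.sum_eq_zero
      intro i _
      rw [Derivation.zero_apply, zero_smul]
    | add x y _ _ hx hy => rw [map_add, WW_add, hx, hy]
    | smul a x _ hx => rw [map_smul, WW_smul, hx]
  exact h u (by rw [hsp]; exact Submodule.mem_top)

theorem WW_injective (ω : Fin n → TR K p n ⊗[K] L)
    (D : TR K p n ⊗[K] L →ₗ[TR K p n] Derivation K (TR K p n) (TR K p n))
    (hD : ∀ i, D (ω i) = TR.der i) (δ : Derivation K (TR K p n) (TR K p n)) :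
    D (WW ω δ) = δ := by
  rw [WW, map_sum]
  conv_rhs => rw [TR.eq_sum_der δ]
  apply Finset.sum_congr rfl
  intro i _
  rw [map_smul, hD]

/-- The vector fields of the elements of `L` form a Lie algebra homomorphism. -/
theorem D_lie (ω : Fin n → TR K p n ⊗[K] L)
    (hω : ∀ i j : Fin n, dT (TR.der i) (ω j) - dT (TR.der j) (ω i) = -⁅ω i, ω j⁆)
    (D : TR K p n ⊗[K] L →ₗ[TR K p n] Derivation K (TR K p n) (TR K p n))
    (hD : ∀ i, D (ω i) = TR.der i) (hW : ∀ u, WW ω (D u) = u) (x y : L) :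
    D (1 ⊗ₜ[K] ⁅x, y⁆) = ⁅D (1 ⊗ₜ[K] x), D (1 ⊗ₜ[K] y)⁆ := by
  have h := WW_lie ω hω (D (1 ⊗ₜ[K] x)) (D (1 ⊗ₜ[K] y))
  rw [hW, hW, dT_one, dT_one, sub_zero, zero_add, LieAlgebra.ExtendScalars.bracket_tmul,
    mul_one] at h
  rw [← h, WW_injective ω D hD]

end Pool.Agent.P166ae0
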