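import Mathlib
import Pool.Agent.Lib.P166ae0.Frame

/-!
# Every finite-dimensional restricted Lie algebra has a faithful restricted representation
-/

set_option autoImplicit false
set_option linter.unusedSectionVars false

namespace Pool.Agent.P166ae0

open TensorProduct

attribute [local instance 100] LieRing.ofAssociativeRing

variable {K L : Type} [Field K] [LieRing L] [LieAlgebra K L] {p n : ℕ} [hpf : Fact p.Prime]
  [CharP K p]

/-- A derivation as an element of the endomorphism algebra. -/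
noncomputable def dE {R : Type} [CommRing R] [Algebra K R] (D : Derivation K R R) :
    Module.End K R := (D : R →ₗ[K] R)

theorem dE_apply {R : Type} [CommRing R] [Algebra K R] (D : Derivation K R R) (a : R) :
    dE D a = D a := rfl

theorem dE_pow_apply {R : Type} [CommRing R] [Algebra K R] (D : Derivation K R R) (k : ℕ) (a : R) :
    (dE D ^ k) a = (⇑D)^[k] a := by
  rw [Module.End.pow_apply]
  rfl

/-- The `p`-th power of a derivation satisfies the Leibniz rule. -/
theorem dE_pow_mul {R : Type} [CommRing R] [Algebra K R] (D : Derivation K R R) (a b : R) :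
    (dE D ^ p) (a * b) = (dE D ^ p) a * b + a * (dE D ^ p) b := by
  have h := ad_iterate_p K p (dE D) (LinearMap.mulLeft K a : Module.End K R)
  have h1 : ∀ k : ℕ, (fun c : Module.End K R => dE D * c - c * dE D)^[k]
      (LinearMap.mulLeft K a : Module.End K R) =
      (LinearMap.mulLeft K ((dE D ^ k) a) : Module.End K R) := by
    intro k
    induction k with
    | zero => simp
    | succ k ih =>
      rw [Function.iterate_succ_apply', ih]
      ext b
      have e1 : (dE D ^ (k + 1)) a = D ((dE D ^ k) a) := by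
        rw [pow_succ', Module.End.mul_apply]
        rfl
      rw [e1]
      change D ((dE D ^ k) a * b) - (dE D ^ k) a * D b = D ((dE D ^ k) a) * b
      rw [Derivation.leibniz]
      simp only [smul_eq_mul]
      ring
  rw [h1] at h
  have h2 := congrArg (fun f : Module.End K R => f b) h
  change (dE D ^ p) a * b = (dE D ^ p) (a * b) - a * (dE D ^ p) b at h2
  rw [h2]
  ring

theorem der_pow_p (j : Fin n) (a : TR K p n) : (⇑(TR.der j : Derivation K (TR K p n) (TR K p n)))^[p] a
    = 0 := by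
  rw [← dE_pow_apply]
  have h1 : (dE (TR.der j : Derivation K (TR K p n) (TR K p n)) ^ p) (1 : TR K p n) = 0 := by
    have h := dE_pow_mul (K := K) (p := p) (TR.der j : Derivation K (TR K p n) (TR K p n)) 1 1
    rw [mul_one, mul_one, one_mul] at h
    exact left_eq_add.mp h
  induction a using TR.induction with
  | hC c =>
    rw [Algebra.algebraMap_eq_smul_one, map_smul, h1, smul_zero]
  | ht i =>
    rw [dE_pow_apply]
    obtain ⟨q, hq⟩ : ∃ q, p = q + 2 := ⟨p - 2, by have := hpf.out.two_le; omega⟩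
    have h2 : ∀ k, (⇑(TR.der j : Derivation K (TR K p n) (TR K p n)))^[k] 0 = 0 := by
      intro k
      induction k with
      | zero => rfl
      | succ k ih => rw [Function.iterate_succ_apply, map_zero, ih]
    have h3 : ∀ k, (⇑(TR.der j : Derivation K (TR K p n) (TR K p n)))^[k + 2] (TR.t i) = 0 := by
      intro k
      rw [Function.iterate_succ_apply, Function.iterate_succ_apply, TR.der_t]
      have : (TR.der j : Derivation K (TR K p n) (TR K p n)) (if i = j then 1 else 0) = 0 := by
        split_ifs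
        · exact Derivation.map_one_eq_zero _
        · exact map_zero _
      rw [this, h2]
    have h4 := h3 q
    rw [← hq] at h4
    exact h4
  | hadd a b ha hb => rw [map_add, ha, hb, add_zero]
  | hmul a b ha hb => rw [dE_pow_mul, ha, hb, zero_mul, mul_zero, add_zero]

/-- The derivative of the restriction to an axis. -/
theorem der_proj (e : Module.Basis (Fin n) K L) (pmap : L → L) (ω : Fin n → TR K p n ⊗[K] L)
    (h4 : ∀ i : Fin n, fT (TR.proj hpf.out.ne_zero i) (ω i) = ww p pmap (TR.t i) (e i))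
    (D : TR K p n ⊗[K] L →ₗ[TR K p n] Derivation K (TR K p n) (TR K p n))
    (hD : ∀ i, D (ω i) = TR.der i) (j : Fin n) (h : TR K p n) :
    TR.der j (TR.proj hpf.out.ne_zero j h) =
      TR.proj hpf.out.ne_zero j (D (1 ⊗ₜ[K] e j) h) +
        TR.t j ^ (p - 1) * TR.proj hpf.out.ne_zero j (D (1 ⊗ₜ[K] pmap (e j)) h) := by
  set φ : TR K p n →ₐ[K] TR K p n := TR.proj hpf.out.ne_zero j with hφ
  -- the functional `a ⊗ x ↦ a * φ (D x h)`
  have key : ∃ Ψ : TR K p n ⊗[K] L →ₗ[K] TR K p n,
      ∀ (a : TR K p n) (x : L), Ψ (a ⊗ₜ[K] x) = a * φ (D (1 ⊗ₜ[K] x) h) := by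
    refine ⟨TensorProduct.lift (LinearMap.mk₂ K
      (fun (a : TR K p n) (x : L) => a * φ (D (1 ⊗ₜ[K] x) h)) ?_ ?_ ?_ ?_), ?_⟩
    · intro a b x
      ring
    · intro c a x
      rw [Algebra.smul_mul_assoc]
    · intro a x y
      rw [tmul_add, map_add, Derivation.add_apply, map_add, mul_add]
    · intro c a x
      have : (1 : TR K p n) ⊗ₜ[K] (c • x) = (algebraMap K (TR K p n) c) • (1 ⊗ₜ[K] x) := by
        rw [smul_tmul', smul_eq_mul, mul_one, Algebra.algebraMap_eq_smul_one, tmul_smul,
          smul_tmul']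
      rw [this, map_smul, Derivation.smul_apply, smul_eq_mul, map_mul, AlgHom.commutes,
        Algebra.smul_def]
      ring
    · intro a x
      rw [TensorProduct.lift.tmul, LinearMap.mk₂_apply]
  obtain ⟨Ψ, hΨ⟩ := key
  have h1 : ∀ u : TR K p n ⊗[K] L, φ (D u h) = Ψ (fT φ u) := by
    intro u
    induction u using TensorProduct.induction_on with
    | zero => simp
    | tmul a x =>
      have : a ⊗ₜ[K] x = a • ((1 : TR K p n) ⊗ₜ[K] x) := by
        rw [smul_tmul', smul_eq_mul, mul_one]
      rw [fT_tmul, hΨ, this, map_smul, Derivation.smul_apply, smul_eq_mul, map_mul]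
    | add u v hu hv => rw [map_add, Derivation.add_apply, map_add, hu, hv, map_add, map_add]
  have h2 := h1 (ω j)
  rw [hD, h4, ww, map_add, hΨ, hΨ, one_mul] at h2
  rw [← h2, hφ, TR.proj_der]

/-- Iterated derivatives of the restriction to an axis. -/
theorem proj_iterate (R : Type) [CommRing R] [Algebra K R] (φ : R →ₐ[K] R)
    (A B D : Derivation K R R) (s : R) (h : ∀ a : R, D (φ a) = φ (A a) + s * φ (B a)) (m : ℕ)
    (a : R) : φ ((⇑A)^[m] a) = (⇑D)^[m] (φ a) -
      ∑ i ∈ Finset.range m, (⇑D)^[i] (s * φ (B ((⇑A)^[m - 1 - i] a))) := by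
  induction m generalizing a with
  | zero => simp
  | succ m ih =>
    rw [Function.iterate_succ_apply, ih, Finset.sum_range_succ, Function.iterate_succ_apply]
    have h1 : φ (A a) = D (φ a) - s * φ (B a) := by rw [h, add_sub_cancel_right]
    have h2 : ∀ (k : ℕ) (x y : R), (⇑D)^[k] (x - y) = (⇑D)^[k] x - (⇑D)^[k] y := by
      intro k x y
      exact iterate_map_sub D k x y
    rw [h1, h2]
    have h3 : m + 1 - 1 - m = 0 := by omega
    rw [h3, Function.iterate_zero_apply]
    have h4 : ∑ i ∈ Finset.range m, (⇑D)^[i] (s * φ (B ((⇑A)^[m - 1 - i] (A a)))) =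
        ∑ i ∈ Finset.range m, (⇑D)^[i] (s * φ (B ((⇑A)^[m + 1 - 1 - i] a))) := by
      apply Finset.sum_congr rfl
      intro i hi
      have hi' := Finset.mem_range.1 hi
      have h5 : m + 1 - 1 - i = (m - 1 - i) + 1 := by omega
      rw [h5, Function.iterate_succ_apply]
    rw [h4]
    ring

theorem wilson (K : Type) [Field K] (p : ℕ) [Fact p.Prime] [CharP K p] :
    (((p - 1).factorial : ℕ) : K) = -1 := by
  have h1 := ZMod.wilsons_lemma p
  have h2 := congrArg (ZMod.castHom (dvd_refl p) K) h1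
  rwa [map_natCast, map_neg, map_one] at h2

/-- The `p`-th powers of the vector fields at the origin. -/
theorem eps_pow (e : Module.Basis (Fin n) K L) (pmap : L → L) (ω : Fin n → TR K p n ⊗[K] L)
    (h4 : ∀ i : Fin n, fT (TR.proj hpf.out.ne_zero i) (ω i) = ww p pmap (TR.t i) (e i))
    (D : TR K p n ⊗[K] L →ₗ[TR K p n] Derivation K (TR K p n) (TR K p n))
    (hD : ∀ i, D (ω i) = TR.der i) (j : Fin n) (h : TR K p n) :
    TR.eps hpf.out.ne_zero ((⇑(D (1 ⊗ₜ[K] e j)))^[p] h) =
      TR.eps hpf.out.ne_zero (D (1 ⊗ₜ[K] pmap (e j)) h) := by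
  have h5 := proj_iterate (TR K p n) (TR.proj hpf.out.ne_zero j) (D (1 ⊗ₜ[K] e j))
    (D (1 ⊗ₜ[K] pmap (e j))) (TR.der j) (TR.t j ^ (p - 1))
    (der_proj e pmap ω h4 D hD j) p h
  have h6 := congrArg (TR.eps hpf.out.ne_zero) h5
  rw [TR.eps_proj, der_pow_p, zero_sub, map_neg, map_sum] at h6
  rw [h6, Finset.sum_eq_single (p - 1)]
  · rw [TR.eps_der_iter _ _ _ _ (le_refl _), if_pos rfl, wilson, Nat.sub_self,
      Function.iterate_zero_apply, TR.eps_proj]
    ring
  · intro i hi hne
    have := Finset.mem_range.1 hi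
    rw [TR.eps_der_iter _ _ _ _ (by omega), if_neg hne]
  · intro hn
    exact absurd (Finset.mem_range.2 (by have := hpf.out.pos; omega)) hn

/-- **Existence of faithful restricted representations.** -/
theorem exists_rep (p : ℕ) [hpf : Fact p.Prime] (K : Type) [Field K] [CharP K p]
    (L : Type) [LieRing L] [LieAlgebra K L] [FiniteDimensional K L] (pmap : L → L)
    (hr : IsRestricted p K L pmap) :
    ∃ (m : ℕ) (ι : L →ₗ[K] Matrix (Fin m) (Fin m) K), Function.Injective ι ∧
      (∀ x y : L, ι ⁅x, y⁆ = ι x * ι y - ι y * ι x) ∧ ∀ x : L, ι (pmap x) = ι x ^ p := by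
  obtain ⟨n, hn⟩ : ∃ n, n = Module.finrank K L := ⟨_, rfl⟩
  let e : Module.Basis (Fin n) K L := (Module.finBasis K L).reindex (finCongr hn.symm)
  obtain ⟨ω, h1, h3, h4⟩ := exists_flat (K := K) (p := p) pmap hr.ad e
  obtain ⟨D, hD, hW⟩ := exists_frame e ω h3
  -- the action
  have hadd : ∀ x y : L, (1 : TR K p n) ⊗ₜ[K] (x + y) = 1 ⊗ₜ[K] x + 1 ⊗ₜ[K] y := fun x y =>
    tmul_add _ _ _
  have hsmul : ∀ (c : K) (x : L), (1 : TR K p n) ⊗ₜ[K] (c • x) =
      (algebraMap K (TR K p n) c) • (1 ⊗ₜ[K] x) := by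
    intro c x
    rw [smul_tmul', smul_eq_mul, mul_one, Algebra.algebraMap_eq_smul_one, tmul_smul, smul_tmul']
  let δ : L →ₗ[K] Module.End K (TR K p n) :=
    { toFun := fun x => dE (D (1 ⊗ₜ[K] x))
      map_add' := by
        intro x y
        ext a
        change D (1 ⊗ₜ[K] (x + y)) a = D (1 ⊗ₜ[K] x) a + D (1 ⊗ₜ[K] y) a
        rw [hadd, map_add, Derivation.add_apply]
      map_smul' := by
        intro c x
        ext a
        change D (1 ⊗ₜ[K] (c • x)) a = c • D (1 ⊗ₜ[K] x) a
        rw [hsmul, map_smul, Derivation.smul_apply, smul_eq_mul, Algebra.smul_def] }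
  have hδ : ∀ x a, δ x a = D (1 ⊗ₜ[K] x) a := fun x a => rfl
  have hlie : ∀ x y, δ ⁅x, y⁆ = δ x * δ y - δ y * δ x := by
    intro x y
    ext a
    rw [hδ, D_lie ω h1 D hD hW, Derivation.commutator_apply]
    rfl
  -- the defect
  let Δ : L → Module.End K (TR K p n) := fun x => δ x ^ p - δ (pmap x)
  have hΔ_add : ∀ x y, Δ (x + y) = Δ x + Δ y := by
    intro x y
    change δ (x + y) ^ p - δ (pmap (x + y)) = (δ x ^ p - δ (pmap x)) + (δ y ^ p - δ (pmap y))
    have e1 : ∑ i ∈ Finset.Ico 1 p, ((i : K)⁻¹) • δ (adCoeff x y (p - 1) (i - 1)) =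
        ∑ i ∈ Finset.Ico 1 p, ((i : K)⁻¹) • adCoeff (δ x) (δ y) (p - 1) (i - 1) := by
      apply Finset.sum_congr rfl
      intro i _
      rw [map_adCoeff δ (fun x y => by rw [hlie, Ring.lie_def])]
    rw [map_add, jacobson_explicit (K := K) p (δ x) (δ y), hr.add, map_add, map_add, map_sum]
    simp only [map_smul]
    rw [e1]
    abel
  have hΔ_smul : ∀ (c : K) x, Δ (c • x) = c ^ p • Δ x := by
    intro c x
    change δ (c • x) ^ p - δ (pmap (c • x)) = c ^ p • (δ x ^ p - δ (pmap x))
    rw [map_smul, smul_pow, hr.smul, map_smul, smul_sub]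
  -- the defect vanishes at the origin
  let ε : TR K p n →ₐ[K] K := TR.eps hpf.out.ne_zero
  have hΔe : ∀ (i : Fin n) (a : TR K p n), ε (Δ (e i) a) = 0 := by
    intro i a
    change ε ((dE (D (1 ⊗ₜ[K] e i)) ^ p) a - D (1 ⊗ₜ[K] pmap (e i)) a) = 0
    rw [map_sub, dE_pow_apply, sub_eq_zero]
    exact eps_pow e pmap ω h4 D hD i a
  have hΔ0 : Δ 0 = 0 := by
    have := hΔ_smul 0 0
    rwa [zero_smul, zero_pow hpf.out.ne_zero, zero_smul] at this
  have hΔε : ∀ (x : L) (a : TR K p n), ε (Δ x a) = 0 := by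
    intro x
    have hx : x ∈ Submodule.span K (Set.range e) := by rw [e.span_eq]; exact Submodule.mem_top
    induction hx using Submodule.span_induction with
    | mem x hx =>
      obtain ⟨i, rfl⟩ := hx
      exact hΔe i
    | zero =>
      intro a
      rw [hΔ0, LinearMap.zero_apply, map_zero]
    | add x y _ _ hx hy =>
      intro a
      rw [hΔ_add, LinearMap.add_apply, map_add, hx, hy, add_zero]
    | smul c x _ hx =>
      intro a
      rw [hΔ_smul, LinearMap.smul_apply, map_smul, hx, smul_zero]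
  -- the defect commutes with the action
  have hΔcomm : ∀ x y, δ y * Δ x = Δ x * δ y := by
    intro x y
    have h5 := ad_iterate_p K p (δ x) (δ y)
    have h6 : ∀ k : ℕ, (fun c : Module.End K (TR K p n) => δ x * c - c * δ x)^[k] (δ y) =
        δ ((fun z : L => ⁅x, z⁆)^[k] y) := by
      intro k
      induction k with
      | zero => rfl
      | succ k ih => rw [Function.iterate_succ_apply', ih, Function.iterate_succ_apply', hlie]
    rw [h6, ← hr.ad, hlie] at h5
    change δ y * (δ x ^ p - δ (pmap x)) = (δ x ^ p - δ (pmap x)) * δ y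
    rw [mul_sub, sub_mul]
    have h7 : δ x ^ p * δ y - δ (pmap x) * δ y = δ y * δ x ^ p - δ y * δ (pmap x) := by
      rw [sub_eq_sub_iff_sub_eq_sub, h5.symm]
    exact h7.symm
  -- the largest stable subspace in the kernel of `ε`
  let S : Set (Submodule K (TR K p n)) :=
    {N | N ≤ LinearMap.ker ε.toLinearMap ∧ ∀ x, N ≤ N.comap (δ x)}
  let Z : Submodule K (TR K p n) := sSup S
  have hZ1 : Z ≤ LinearMap.ker ε.toLinearMap := sSup_le fun N hN => hN.1
  have hZ2 : ∀ x, Z ≤ Z.comap (δ x) := by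
    intro x
    apply sSup_le
    intro N hN
    exact (hN.2 x).trans (Submodule.comap_mono (le_sSup hN))
  have hΔZ : ∀ x a, Δ x a ∈ Z := by
    intro x a
    have hN : LinearMap.range (Δ x) ∈ S := by
      constructor
      · rintro _ ⟨b, rfl⟩
        rw [LinearMap.mem_ker]
        exact hΔε x b
      · rintro y _ ⟨b, rfl⟩
        rw [Submodule.mem_comap]
        refine ⟨δ y b, ?_⟩
        have := congrArg (fun f : Module.End K (TR K p n) => f b) (hΔcomm x y)
        exact this.symm
    exact le_sSup hN ⟨a, rfl⟩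
  -- the quotient representation
  let ρ : L →ₗ[K] Module.End K (TR K p n ⧸ Z) :=
    { toFun := fun x => Z.mapQ Z (δ x) (hZ2 x)
      map_add' := by
        intro x y
        ext a
        change Z.mkQ (δ (x + y) a) = Z.mkQ (δ x a) + Z.mkQ (δ y a)
        rw [map_add, LinearMap.add_apply, map_add]
      map_smul' := by
        intro c x
        ext a
        change Z.mkQ (δ (c • x) a) = c • Z.mkQ (δ x a)
        rw [map_smul, LinearMap.smul_apply, map_smul] }
  have hρ : ∀ x a, ρ x (Z.mkQ a) = Z.mkQ (δ x a) := fun x a => rfl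
  have hρpow : ∀ x k a, (ρ x ^ k) (Z.mkQ a) = Z.mkQ ((δ x ^ k) a) := by
    intro x k
    induction k with
    | zero => intro a; rfl
    | succ k ih =>
      intro a
      rw [pow_succ, Module.End.mul_apply, hρ, ih, pow_succ, Module.End.mul_apply]
  have hρlie : ∀ x y, ρ ⁅x, y⁆ = ρ x * ρ y - ρ y * ρ x := by
    intro x y
    ext a
    change Z.mkQ (δ ⁅x, y⁆ a) = Z.mkQ (δ x (δ y a)) - Z.mkQ (δ y (δ x a))
    rw [hlie, ← map_sub]
    rfl
  have hρp : ∀ x, ρ (pmap x) = ρ x ^ p := by
    intro x
    apply LinearMap.ext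
    intro v
    obtain ⟨a, rfl⟩ := Z.mkQ_surjective v
    rw [hρ, hρpow, ← sub_eq_zero, ← map_sub, Submodule.mkQ_apply, Submodule.Quotient.mk_eq_zero]
    have := Z.neg_mem (hΔZ x a)
    have h5 : -(Δ x a) = δ (pmap x) a - (δ x ^ p) a := by
      change -((δ x ^ p) a - δ (pmap x) a) = _
      rw [neg_sub]
    rwa [h5] at this
  have hρinj : Function.Injective ρ := by
    rw [← LinearMap.ker_eq_bot, LinearMap.ker_eq_bot']
    intro x hx
    have h5 : ∀ i : Fin n, ε (D (1 ⊗ₜ[K] x) (TR.t i)) = 0 := by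
      intro i
      have h6 : ρ x (Z.mkQ (TR.t i)) = 0 := by rw [hx, LinearMap.zero_apply]
      rw [hρ, Submodule.mkQ_apply, Submodule.Quotient.mk_eq_zero] at h6
      exact hZ1 h6
    have h6 : (1 : TR K p n) ⊗ₜ[K] x = 0 := by
      have h7 := congrArg (fT (eps0 K p n)) (hW (1 ⊗ₜ[K] x))
      rw [fT_tmul, map_one, WW, map_sum] at h7
      rw [← h7]
      apply Finset.sum_eq_zero
      intro i _
      rw [fT_smul, eps0_apply]
      have h8 := h5 i
      change TR.eps hpf.out.ne_zero (D (1 ⊗ₜ[K] x) (TR.t i)) = 0 at h8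
      rw [h8, map_zero, zero_smul]
    have h7 : ∀ i, e.repr x i = 0 := by
      intro i
      have h8 := b0_repr_tmul (TR K p n) e 1 x i
      rw [h6, map_zero, Finsupp.zero_apply, one_mul] at h8
      have h9 := congrArg ε h8
      rw [map_zero, AlgHom.commutes] at h9
      exact h9.symm
    apply e.repr.injective
    rw [map_zero]
    ext i
    exact h7 i
  have hfin : Module.Finite K (TR K p n) := TR.finite hpf.out.ne_zero
  let b := Module.finBasis K (TR K p n ⧸ Z)
  let T := LinearMap.toMatrixAlgEquiv b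
  refine ⟨_, T.toLinearMap ∘ₗ ρ, ?_, ?_, ?_⟩
  · intro x y h
    exact hρinj (T.injective h)
  · intro x y
    change T (ρ ⁅x, y⁆) = T (ρ x) * T (ρ y) - T (ρ y) * T (ρ x)
    rw [hρlie, map_sub, map_mul, map_mul]
  · intro x
    change T (ρ (pmap x)) = T (ρ x) ^ p
    rw [hρp, map_pow]

end Pool.Agent.P166ae0
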