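import Mathlib
import Pool.Agent.Lib.P166ae0.LitDefs
import Pool.Agent.Lib.P166ae0.Dir1Gen
import Pool.Agent.Lib.P166ae0.Dir2
import Pool.Agent.Lib.P166ae0.Rep
import Pool.Agent.Lib.P166ae0.FixedBasis

/-!
# The literal definitions and the ones used in the proof
-/

set_option autoImplicit false
set_option linter.unusedSimpArgs false
set_option linter.unusedSectionVars false

namespace Pool.Agent.P166ae0

attribute [local instance 100] LieRing.ofAssociativeRing

variable {K L : Type} [Field K] [LieRing L] [LieAlgebra K L] {m p : ℕ}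
  [hpf : Fact p.Prime] [CharP K p] (E : REmb K L p m)

/-- The canonical map to the reduced enveloping algebra. -/
noncomputable def jE (p : ℕ) (pmap : L → L) (χ : Module.Dual K L) : L →ₗ[K] RedEnv p pmap χ :=
  (RingCon.mkₐ K (redIdeal p pmap χ).ringCon).toLinearMap ∘ₗ
    (UniversalEnvelopingAlgebra.ι K : L →ₗ⁅K⁆ UniversalEnvelopingAlgebra K L).toLinearMap

theorem jE_apply (p : ℕ) (pmap : L → L) (χ : Module.Dual K L) (x : L) : jE p pmap χ x =
    RingCon.mkₐ K (redIdeal p pmap χ).ringCon (UniversalEnvelopingAlgebra.ι K x) := rfl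

theorem jE_lie (p : ℕ) (pmap : L → L) (χ : Module.Dual K L) (x y : L) :
    jE p pmap χ ⁅x, y⁆ = jE p pmap χ x * jE p pmap χ y - jE p pmap χ y * jE p pmap χ x := by
  rw [jE_apply, LieHom.map_lie, Ring.lie_def, map_sub, map_mul, map_mul, jE_apply, jE_apply]

theorem jE_pow (p : ℕ) (pmap : L → L) (χ : Module.Dual K L) (x : L) :
    jE p pmap χ x ^ p - jE p pmap χ (pmap x) = algebraMap K _ (χ x ^ p) := by
  have h1 : UniversalEnvelopingAlgebra.ι K x ^ p
    - UniversalEnvelopingAlgebra.ι K (pmap x)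
    - algebraMap K (UniversalEnvelopingAlgebra K L) (χ x ^ p) ∈ redIdeal p pmap χ :=
    TwoSidedIdeal.subset_span ⟨x, rfl⟩
  rw [TwoSidedIdeal.mem_iff] at h1
  have h2 : RingCon.mkₐ K (redIdeal p pmap χ).ringCon (UniversalEnvelopingAlgebra.ι K x ^ p
    - UniversalEnvelopingAlgebra.ι K (pmap x)
    - algebraMap K (UniversalEnvelopingAlgebra K L) (χ x ^ p)) =
    RingCon.mkₐ K (redIdeal p pmap χ).ringCon 0 := (RingCon.eq _).2 h1
  rw [map_sub, map_sub, map_pow, AlgHom.commutes, map_zero, sub_eq_zero] at h2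
  exact h2

/-- The two constructions of the reduced enveloping algebra agree. -/
theorem exists_equiv (χ : Module.Dual K L) : Nonempty (E.RR χ ≃ₐ[K] RedEnv p E.pmap χ) := by
  -- forward
  let F : TensorAlgebra K L →ₐ[K] RedEnv p E.pmap χ := TensorAlgebra.lift K (jE p E.pmap χ)
  have hF : ∀ x, F (TensorAlgebra.ι K x) = jE p E.pmap χ x := by
    intro x; simp [F]
  have hrel : ∀ ⦃a b⦄, RRel p E.pmap χ a b → F a = F b := by
    rintro _ _ (⟨x, y, rfl, rfl⟩ | ⟨x, rfl, rfl⟩)
    · rw [map_sub, map_mul, map_mul, hF, hF, hF, jE_lie]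
    · rw [map_sub, map_pow, hF, hF, AlgHom.commutes, jE_pow]
  let f : E.RR χ →ₐ[K] RedEnv p E.pmap χ := RingQuot.liftAlgHom K ⟨F, hrel⟩
  have hf : ∀ x, f (E.jR χ x) = jE p E.pmap χ x := by
    intro x
    rw [E.jR_apply, RingQuot.liftAlgHom_mkAlgHom_apply, hF]
  -- backward
  let G0 : L →ₗ⁅K⁆ E.RR χ :=
    { E.jR χ with
      map_lie' := by
        intro x y
        change E.jR χ ⁅x, y⁆ = ⁅E.jR χ x, E.jR χ y⁆
        rw [Ring.lie_def]
        exact E.jR_lie χ x y }
  let G : UniversalEnvelopingAlgebra K L →ₐ[K] E.RR χ := UniversalEnvelopingAlgebra.lift K G0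
  have hG : ∀ x, G (UniversalEnvelopingAlgebra.ι K x) = E.jR χ x := by
    intro x
    exact UniversalEnvelopingAlgebra.lift_ι_apply K G0 x
  have hker : redIdeal p E.pmap χ ≤ TwoSidedIdeal.ker G.toRingHom := by
    rw [redIdeal, TwoSidedIdeal.span_le]
    rintro _ ⟨x, rfl⟩
    rw [SetLike.mem_coe, TwoSidedIdeal.mem_ker]
    change G _ = 0
    rw [map_sub, map_sub, map_pow, hG, hG, AlgHom.commutes, E.jR_pow, sub_self]
  have hker2 : (redIdeal p E.pmap χ).ringCon ≤ RingCon.ker G.toRingHom := by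
    intro a b hab
    rw [RingCon.ker_apply]
    have h1 : a - b ∈ redIdeal p E.pmap χ := by
      rw [TwoSidedIdeal.mem_iff]
      have := (redIdeal p E.pmap χ).ringCon.sub hab ((redIdeal p E.pmap χ).ringCon.refl b)
      rwa [sub_self] at this
    have h2 := hker h1
    rw [TwoSidedIdeal.mem_ker, map_sub, sub_eq_zero] at h2
    exact h2
  let g : RedEnv p E.pmap χ →ₐ[K] E.RR χ := RingCon.liftₐ _ G hker2
  have hg : ∀ x, g (jE p E.pmap χ x) = E.jR χ x := by
    intro x
    rw [← hG]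
    rfl
  refine ⟨AlgEquiv.ofAlgHom f g ?_ ?_⟩
  · apply RingCon.Quotient.hom_extₐ
    apply UniversalEnvelopingAlgebra.hom_ext
    ext x
    change f (g (jE p E.pmap χ x)) = jE p E.pmap χ x
    rw [hg, hf]
  · apply RingQuot.ringQuot_ext'
    apply TensorAlgebra.hom_ext
    ext x
    change g (f (E.jR χ x)) = E.jR χ x
    rw [hf, hg]

theorem semisimple_iff (χ : Module.Dual K L) :
    IsSemisimpleRing (E.RR χ) ↔ IsSemisimpleRing (RedEnv p E.pmap χ) := by
  obtain ⟨f⟩ := exists_equiv E χ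
  exact f.toRingEquiv.isSemisimpleRing_iff

theorem mem_cent {ξ : Module.Dual K L} {x : L} : x ∈ cent ξ ↔ ∀ y : L, ξ ⁅x, y⁆ = 0 := Iff.rfl

theorem pmap_zero : E.pmap 0 = 0 := by
  apply E.inj
  rw [E.hp, map_zero, zero_pow hpf.out.ne_zero]

theorem pmap_add_comm (x y : L) (h : ⁅x, y⁆ = 0) : E.pmap (x + y) = E.pmap x + E.pmap y := by
  apply E.inj
  have h1 : Commute (E.ι x) (E.ι y) := by
    have := E.lie x y
    rw [h, map_zero] at this
    exact (sub_eq_zero.mp this.symm)
  rw [E.hp, map_add, map_add, E.hp, E.hp]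
  rcases isEmpty_or_nonempty (Fin m) with he | he
  · exact Subsingleton.elim _ _
  · have : CharP (Matrix (Fin m) (Fin m) K) p :=
      charP_of_injective_algebraMap (algebraMap K (Matrix (Fin m) (Fin m) K)).injective p
    exact add_pow_char_of_commute _ h1

/-- A centraliser without nilpotent elements is toral. -/
theorem isToral_of [IsAlgClosed K] [FiniteDimensional K L] (ξ : Module.Dual K L)
    (hξ : ∀ x : L, (∀ y : L, ξ ⁅x, y⁆ = 0) → E.pmap x = 0 → x = 0) :
    IsToral E.pmap (cent ξ) := by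
  obtain ⟨h1, h2, h3⟩ := toral_of_no_nilpotent p K L E.pmap m E.ι E.inj E.lie E.hp ξ hξ
  refine ⟨h1, h2, ?_⟩
  obtain ⟨b, hb⟩ := exists_fixed_basis (K := K) (V := cent ξ) p
    (fun x => (⟨E.pmap x, h2 x.1 x.2⟩ : cent ξ))
    (by
      intro x y
      apply Subtype.ext
      exact pmap_add_comm E x.1 y.1 (h1 x.1 x.2 y.1 y.2))
    (by
      intro c x
      apply Subtype.ext
      exact E.pmap_smul c x.1)
    (by
      intro x hx
      apply Subtype.ext
      exact hξ x.1 x.2 (congrArg Subtype.val hx))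
  exact ⟨b, fun i => congrArg Subtype.val (hb i)⟩

/-- A toral subspace has no nilpotent elements. -/
theorem IsToral.no_nilpotent [FiniteDimensional K L] {T : Submodule K L}
    (hT : IsToral E.pmap T) (x : L) (hx : x ∈ T) (h : E.pmap x = 0) : x = 0 := by
  obtain ⟨h1, h2, b, hb⟩ := hT
  let φ : T →+ T :=
    { toFun := fun x => ⟨E.pmap x, h2 x.1 x.2⟩
      map_zero' := Subtype.ext (pmap_zero E)
      map_add' := by
        intro x y
        apply Subtype.ext
        exact pmap_add_comm E x.1 y.1 (h1 x.1 x.2 y.1 y.2) }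
  have hφ : ∀ x : T, ((φ x : T) : L) = E.pmap x := fun x => rfl
  have hφb : ∀ i, φ (b i) = b i := fun i => Subtype.ext (hb i)
  have hφs : ∀ (c : K) (x : T), φ (c • x) = c ^ p • φ x := by
    intro c x
    apply Subtype.ext
    exact E.pmap_smul c x.1
  have h3 : φ ⟨x, hx⟩ = ∑ i, (b.repr ⟨x, hx⟩ i) ^ p • b i := by
    conv_lhs => rw [← b.sum_repr ⟨x, hx⟩]
    rw [map_sum]
    apply Finset.sum_congr rfl
    intro i _
    rw [hφs, hφb]
  have h4 : φ ⟨x, hx⟩ = 0 := Subtype.ext h
  rw [h4] at h3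
  have h5 : ∀ i, b.repr ⟨x, hx⟩ i = 0 := by
    intro i
    have h6 := congrArg (fun v => b.repr v i) h3
    simp only [map_zero, Finsupp.zero_apply] at h6
    rw [b.repr_sum_self] at h6
    exact pow_eq_zero_iff hpf.out.ne_zero |>.1 h6.symm
  have h6 : (⟨x, hx⟩ : T) = 0 := by
    rw [← b.sum_repr ⟨x, hx⟩]
    apply Finset.sum_eq_zero
    intro i _
    rw [h5, zero_smul]
  exact congrArg Subtype.val h6

/-- The literal theorem for a restricted Lie algebra with a faithful restricted representation. -/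
theorem main_emb [IsAlgClosed K] [FiniteDimensional K L] :
    ((∃ χ : Module.Dual K L, IsSemisimpleRing (RedEnv p E.pmap χ)) ↔
      ∃ ξ : Module.Dual K L, IsToral E.pmap (cent ξ)) ∧
    ((∃ χ : Module.Dual K L, IsSemisimpleRing (RedEnv p E.pmap χ)) →
      ∀ (σ : Type) (b : Module.Basis σ K L), ∃ F : MvPolynomial σ K, F ≠ 0 ∧
        ∀ ξ : Module.Dual K L, MvPolynomial.eval (fun i => ξ (b i)) F ≠ 0 →
          IsToral E.pmap (cent ξ)) := by
  have hgen : (∃ χ : Module.Dual K L, IsSemisimpleRing (RedEnv p E.pmap χ)) →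
      ∀ (σ : Type) (b : Module.Basis σ K L), ∃ F : MvPolynomial σ K, F ≠ 0 ∧
        ∀ ξ : Module.Dual K L, MvPolynomial.eval (fun i => ξ (b i)) F ≠ 0 →
          IsToral E.pmap (cent ξ) := by
    rintro ⟨χ, hχ⟩ σ b
    obtain ⟨s, hs, h⟩ := E.dir1_gen χ ((semisimple_iff E χ).2 hχ) b
    exact ⟨s, hs, fun ξ hξ => isToral_of E ξ (h ξ hξ)⟩
  refine ⟨⟨fun h => ?_, ?_⟩, hgen⟩
  · obtain ⟨F, hF, h2⟩ := hgen h _ (Module.finBasis K L)
    have hinf : Infinite K := IsAlgClosed.instInfinite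
    obtain ⟨pt, hpt⟩ : ∃ pt, MvPolynomial.eval pt F ≠ 0 := by
      by_contra hcon
      push Not at hcon
      apply hF
      apply MvPolynomial.funext
      intro x
      rw [hcon x, map_zero]
    refine ⟨(Module.finBasis K L).constr K pt, h2 _ ?_⟩
    have : (fun i => ((Module.finBasis K L).constr K pt : L →ₗ[K] K) ((Module.finBasis K L) i)) = pt := by
      funext i
      exact (Module.finBasis K L).constr_basis K pt i
    rw [this]
    exact hpt
  · rintro ⟨ξ, hξ⟩
    have h4 := toral_of_no_nilpotent p K L E.pmap m E.ι E.inj E.lie E.hp ξ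
      (fun x hx h => hξ.no_nilpotent E x hx h)
    obtain ⟨χ, hχ⟩ := E.dir2 ξ h4.1 h4.2.2
    exact ⟨χ, (semisimple_iff E χ).1 hχ⟩

end Pool.Agent.P166ae0
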